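import Pool.Agent.MP_df844f_gt.RA.Top

-- ======== part 0: formerly Pool.Agent.MP_df844f_gt.RA.Defs
section MrgPart0

/-! The data of a polyhedron as a class, and the walls of its reflection group. -/

noncomputable section

namespace Pool.Agent.MP_df844f_gt.RA

/-- A finite graph whose clique complex is a flag no-square sphere. -/
class Dat : Type 1 where
  S : Type
  G : SimpleGraph S
  fin : Finite S
  sph : Sphere G

variable [Dat]

/-- The faces of the polyhedron. -/
abbrev S : Type := Dat.S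

instance : Finite S := Dat.fin
instance : Fintype S := Fintype.ofFinite _
instance : DecidableEq S := Classical.decEq _
instance : Nonempty S := Dat.sph.conn.nonempty
instance : Zero S := ⟨Classical.arbitrary _⟩

/-- The number of faces. -/
def nS : ℕ := Fintype.card S

theorem card_S : Fintype.card S = nS := rfl
theorem natCard_S : Nat.card S = nS := Nat.card_eq_fintype_card
theorem card_univ_S : (Finset.univ : Finset S).card = nS := rfl

/-- Adjacency. -/
def adj (s t : S) : Prop := Dat.G.Adj s t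

instance : DecidableRel adj := fun _ _ => Classical.propDecidable _

/-- The Coxeter matrix. -/
def M : CoxeterMatrix S := cox Dat.G

/-- The Coxeter group. -/
abbrev W : Type := M.Group

/-- The Coxeter system. -/
def cs : CoxeterSystem M W := M.toCoxeterSystem

/-- Generators. -/
def g (s : S) : W := cs.simple s

/-- Word length. -/
def len (w : W) : ℕ := cs.length w

noncomputable instance : DecidableEq W := Classical.decEq W

/-- Right invariant word metric: `w` and `g s * w` are adjacent chambers. -/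
noncomputable def d (x y : W) : ℕ := len (x * y⁻¹)

/-- The walls separating `w` from `1`. -/
noncomputable def N (w : W) : Finset W :=
  (cs.rightInvSeq (Classical.choose (cs.exists_isReduced w))).toFinset

/-- The wall between `x` and `g s * x`. -/
def wall (s : S) (x : W) : W := x⁻¹ * g s * x

/-- The walls separating `x` from `y`. -/
noncomputable def Sep (x y : W) : Finset W := symmDiff (N x) (N y)

/-- `u` lies on a geodesic from `a` to `b`. -/
def Btw (a u b : W) : Prop := d a u + d u b = d a b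

/-- Convex sets of chambers. -/
def Cvx (K : Set W) : Prop := ∀ a ∈ K, ∀ b ∈ K, ∀ u, Btw a u b → u ∈ K

/-- Two walls cross: all four quadrants are inhabited. -/
def Cross (r q : W) : Prop :=
  (∃ a, r ∈ N a ∧ q ∈ N a) ∧ (∃ a, r ∈ N a ∧ q ∉ N a) ∧ (∃ a, r ∉ N a ∧ q ∈ N a) ∧
    (∃ a, r ∉ N a ∧ q ∉ N a)

/-- Closeness: no ten pairwise non-crossing walls separate `x` from `y`. -/
def Close (x y : W) : Prop :=
  ∀ C : Finset W, C ⊆ Sep x y → (∀ r ∈ C, ∀ q ∈ C, ¬ Cross r q) → C.card ≤ 9

/-- `m` is the median of `x, y, z`. -/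
def IsMed (x y z m : W) : Prop :=
  ∀ r, r ∈ N m ↔ (r ∈ N x ∧ r ∈ N y) ∨ (r ∈ N y ∧ r ∈ N z) ∨ (r ∈ N x ∧ r ∈ N z)

/-- Intersection of all half spaces containing `F`. -/
def hull (F : Finset W) : Set W :=
  {x | ∀ r, ((∀ a ∈ F, r ∈ N a) → r ∈ N x) ∧ ((∀ a ∈ F, r ∉ N a) → r ∉ N x)}

/-- The walls separating two points of `F`. -/
noncomputable def sepW (F : Finset W) : Finset W :=
  F.biUnion fun a => F.biUnion fun b => Sep a b

/-- Cliques. -/
def Clq (J : Finset S) : Prop := ∀ s ∈ J, ∀ t ∈ J, s ≠ t → adj s t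

instance : DecidablePred Clq := fun J =>
  inferInstanceAs (Decidable (∀ s ∈ J, ∀ t ∈ J, s ≠ t → adj s t))

/-- `s` leads from `x` towards `b`. -/
def Desc (b x : W) (s : S) : Prop := d b (g s * x) < d b x

end Pool.Agent.MP_df844f_gt.RA

end
end MrgPart0

-- ======== part 1: formerly Pool.Agent.MP_df844f_gt.RA.Basic
section MrgPart1

set_option linter.unusedSectionVars false

noncomputable section

namespace Pool.Agent.MP_df844f_gt.RA

variable [Dat]

theorem adj_symm {s t : S} (h : adj s t) : adj t s := SimpleGraph.Adj.symm h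
theorem adj_ne {s t : S} (h : adj s t) : s ≠ t := Dat.G.ne_of_adj h
theorem adj_irrefl (s : S) : ¬ adj s s := fun h => adj_ne h rfl

theorem M_apply (s t : S) : M s t = if s = t then 1 else if adj s t then 2 else 0 := rfl

@[simp] theorem g_mul_self (s : S) : g s * g s = 1 := cs.simple_mul_simple_self s
@[simp] theorem g_inv (s : S) : (g s)⁻¹ = g s := cs.inv_simple s
@[simp] theorem g_mul_g_mul (s : S) (w : W) : g s * (g s * w) = w := by
  rw [← mul_assoc, g_mul_self, one_mul]
@[simp] theorem mul_g_mul_g (s : S) (w : W) : w * g s * g s = w := by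
  rw [mul_assoc, g_mul_self, mul_one]

theorem g_comm {s t : S} (h : adj s t) : g s * g t = g t * g s := by
  have h1 := cs.simple_mul_simple_pow s t
  rw [M_apply, if_neg (adj_ne h), if_pos h, pow_two] at h1
  have h2 : g s * g t * (g s * g t) = 1 := h1
  have h3 : g s * g t = (g s * g t)⁻¹ := (eq_inv_iff_mul_eq_one).2 h2
  rw [h3, mul_inv_rev, g_inv, g_inv]

/-- A map on generators to involutions that commute along edges extends to `W`. -/
theorem exists_hom {G : Type*} [Group G] (f : S → G) (h1 : ∀ s, f s * f s = 1)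
    (h2 : ∀ s t, adj s t → f s * f t = f t * f s) : ∃ φ : W →* G, ∀ s, φ (g s) = f s := by
  have hl : M.IsLiftable f := by
    intro s t
    rw [M_apply]
    by_cases hst : s = t
    · subst hst; simp [h1]
    · rw [if_neg hst]
      by_cases ha : adj s t
      · rw [if_pos ha, pow_two]
        calc f s * f t * (f s * f t) = f s * (f t * f s) * f t := by simp only [mul_assoc]
          _ = f s * (f s * f t) * f t := by rw [← h2 s t ha]
          _ = (f s * f s) * (f t * f t) := by simp only [mul_assoc]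
          _ = 1 := by rw [h1, h1, one_mul]
      · rw [if_neg ha, pow_zero]
  exact ⟨cs.lift ⟨f, hl⟩, fun s => cs.lift_apply_simple hl s⟩

theorem g_inj {s t : S} (h : g s = g t) : s = t := by
  by_contra hne
  obtain ⟨φ, hφ⟩ := exists_hom (G := Multiplicative (ZMod 2))
    (fun u => if u = s then Multiplicative.ofAdd 1 else 1)
    (fun u => by split_ifs <;> decide) (fun u v _ => mul_comm _ _)
  have h1 := hφ s
  have h2 := hφ t
  rw [h, h2, if_neg (Ne.symm hne), if_pos rfl] at h1
  exact absurd h1 (by decide)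

theorem induction_left {p : W → Prop} (w : W) (h1 : p 1) (h2 : ∀ w s, p w → p (g s * w)) : p w :=
  cs.simple_induction_left w h1 h2

theorem len_one : len 1 = 0 := cs.length_one
theorem len_eq_zero {w : W} : len w = 0 ↔ w = 1 := cs.length_eq_zero_iff
theorem len_inv (w : W) : len w⁻¹ = len w := cs.length_inv w
theorem len_mul_le (x y : W) : len (x * y) ≤ len x + len y := cs.length_mul_le x y
theorem len_g (s : S) : len (g s) = 1 := cs.length_simple s
theorem len_g_mul (s : S) (w : W) : len (g s * w) = len w + 1 ∨ len (g s * w) + 1 = len w :=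
  cs.length_simple_mul w s

/-- The sign representation on walls. -/
noncomputable def flipP (s : S) : Equiv.Perm (W × ZMod 2) :=
  Function.Involutive.toPerm
    (fun p => (g s * p.1 * g s, p.2 + if p.1 = g s then 1 else 0)) (by
      rintro ⟨r, e⟩
      have h1 : g s * (g s * r * g s) * g s = r := by simp [mul_assoc]
      have h2 : (g s * r * g s = g s) ↔ r = g s := by
        constructor
        · intro h; rw [← h1, h]; simp
        · intro h; rw [h]; simp
      simp only [h1, h2, Prod.mk.injEq, true_and]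
      split_ifs
      · rw [add_assoc]; have : (1 : ZMod 2) + 1 = 0 := by decide
        rw [this, add_zero]
      · simp)

theorem flipP_apply (s : S) (r : W) (e : ZMod 2) :
    flipP s (r, e) = (g s * r * g s, e + if r = g s then 1 else 0) := rfl

theorem exists_rho : ∃ ρ : W →* Equiv.Perm (W × ZMod 2), ∀ s, ρ (g s) = flipP s := by
  refine exists_hom flipP (fun s => ?_) (fun s t h => ?_)
  · ext1 p
    exact (flipP s).symm_apply_apply p
  · ext1 p
    obtain ⟨r, e⟩ := p
    have hc := g_comm h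
    have k : ∀ s t : S, g s * g t = g t * g s → ((g t * r * g t = g s) ↔ r = g s) := by
      intro s t hc
      constructor
      · intro h
        have : r = g t * (g t * r * g t) * g t := by simp [mul_assoc]
        rw [this, h, ← hc]; simp
      · intro h; rw [h, ← hc]; simp
    simp only [Equiv.Perm.mul_apply, flipP_apply, k s t hc, k t s hc.symm, Prod.mk.injEq]
    constructor
    · calc g s * (g t * r * g t) * g s = (g s * g t) * r * (g t * g s) := by simp only [mul_assoc]
        _ = (g t * g s) * r * (g s * g t) := by rw [hc]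
        _ = _ := by simp only [mul_assoc]
    · ring

theorem rho_word (ρ : W →* Equiv.Perm (W × ZMod 2)) (hρ : ∀ s, ρ (g s) = flipP s) (ω : List S)
    (r : W) (e : ZMod 2) :
    ρ (cs.wordProd ω) (r, e) = (cs.wordProd ω * r * (cs.wordProd ω)⁻¹,
      e + ((cs.rightInvSeq ω).count r : ZMod 2)) := by
  induction ω with
  | nil => simp
  | cons s ω ih =>
    have h0 : cs.wordProd (s :: ω) = g s * cs.wordProd ω := cs.wordProd_cons s ω
    have h1 : cs.rightInvSeq (s :: ω) =
        ((cs.wordProd ω)⁻¹ * g s * cs.wordProd ω) :: cs.rightInvSeq ω := rfl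
    rw [h0, map_mul, Equiv.Perm.mul_apply, ih, hρ, flipP_apply, h1, List.count_cons]
    have h2 : (cs.wordProd ω * r * (cs.wordProd ω)⁻¹ = g s) ↔
        ((cs.wordProd ω)⁻¹ * g s * cs.wordProd ω = r) := by
      constructor
      · intro h; rw [← h]; group
      · intro h; rw [← h]; group
    simp only [Prod.mk.injEq, h2, beq_iff_eq]
    constructor
    · simp [mul_assoc]
    · split_ifs <;> simp [add_assoc]

theorem card_N (w : W) : (N w).card = len w := by
  obtain ⟨h1, h2⟩ := Classical.choose_spec (cs.exists_isReduced w)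
  unfold N
  rw [List.toFinset_card_of_nodup h1.nodup_rightInvSeq, cs.length_rightInvSeq, ← h1.eq, ← h2]
  rfl

theorem rho_N (ρ : W →* Equiv.Perm (W × ZMod 2)) (hρ : ∀ s, ρ (g s) = flipP s) (w r : W)
    (e : ZMod 2) : ρ w (r, e) = (w * r * w⁻¹, e + if r ∈ N w then 1 else 0) := by
  obtain ⟨h1, h2⟩ := Classical.choose_spec (cs.exists_isReduced w)
  have h3 := rho_word ρ hρ (Classical.choose (cs.exists_isReduced w)) r e
  rw [← h2] at h3
  rw [h3]
  unfold N
  simp only [List.mem_toFinset, Prod.mk.injEq, true_and, add_right_inj]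
  split_ifs with h
  · rw [List.count_eq_one_of_mem h1.nodup_rightInvSeq h]; simp
  · rw [List.count_eq_zero_of_not_mem h]; simp

/-- The cocycle formula for inversion sets. -/
theorem mem_N_mul (x y r : W) : r ∈ N (x * y) ↔ ¬ (r ∈ N y ↔ y * r * y⁻¹ ∈ N x) := by
  obtain ⟨ρ, hρ⟩ := exists_rho
  have h1 := rho_N ρ hρ (x * y) r 0
  rw [map_mul, Equiv.Perm.mul_apply, rho_N ρ hρ, rho_N ρ hρ] at h1
  have h2 := congrArg Prod.snd h1
  simp only at h2
  by_cases a : r ∈ N (x * y) <;> by_cases b : r ∈ N y <;> by_cases c : y * r * y⁻¹ ∈ N x <;>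
    simp only [a, b, c, if_true, if_false] at h2 ⊢ <;> first | (exact absurd h2 (by decide)) | simp

theorem N_one : N 1 = ∅ := by
  rw [← Finset.card_eq_zero, card_N, len_one]

theorem N_g (s : S) : N (g s) = {g s} := by
  obtain ⟨ρ, hρ⟩ := exists_rho
  ext r
  have h1 := rho_N ρ hρ (g s) r 0
  rw [hρ, flipP_apply] at h1
  have h2 := congrArg Prod.snd h1
  simp only at h2
  rw [Finset.mem_singleton]
  by_cases a : r = g s <;> by_cases b : r ∈ N (g s) <;>
    simp only [a, b, if_true, if_false] at h2 ⊢ <;> first | (exact absurd h2 (by decide)) | simp_all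

theorem mem_N_g_mul (s : S) (x r : W) : r ∈ N (g s * x) ↔ ¬ (r ∈ N x ↔ r = wall s x) := by
  rw [mem_N_mul, N_g, Finset.mem_singleton]
  have : (x * r * x⁻¹ = g s) ↔ r = wall s x := by
    unfold wall
    constructor
    · intro h; rw [← h]; group
    · intro h; rw [h]; group
  rw [this]

theorem mem_Sep {x y r : W} : r ∈ Sep x y ↔ ¬ (r ∈ N x ↔ r ∈ N y) := by
  unfold Sep
  rw [Finset.mem_symmDiff]; tauto

theorem Sep_comm (x y : W) : Sep x y = Sep y x := symmDiff_comm _ _
theorem Sep_self (x : W) : Sep x x = ∅ := by ext r; simp [mem_Sep]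
theorem Sep_one (x : W) : Sep 1 x = N x := by ext r; simp [mem_Sep, N_one]

/-- Right translation of separating walls. -/
theorem mem_Sep_mul (x y c r : W) : r ∈ Sep (x * c) (y * c) ↔ c * r * c⁻¹ ∈ Sep x y := by
  rw [mem_Sep, mem_Sep, mem_N_mul, mem_N_mul]; tauto

theorem Sep_g_mul (s : S) (x : W) : Sep x (g s * x) = {wall s x} := by
  ext r; rw [mem_Sep, mem_N_g_mul, Finset.mem_singleton]; tauto

theorem wall_g_mul (s : S) (x : W) : wall s (g s * x) = wall s x := by
  unfold wall; simp [mul_assoc]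

theorem wall_adj {s t : S} (h : adj s t) (x : W) : wall s (g t * x) = wall s x := by
  unfold wall
  rw [mul_inv_rev, g_inv]
  calc x⁻¹ * g t * g s * (g t * x) = x⁻¹ * (g t * g s) * (g t * x) := by simp only [mul_assoc]
    _ = x⁻¹ * (g s * g t) * (g t * x) := by rw [g_comm h]
    _ = _ := by simp [mul_assoc]

theorem wall_inj {s t : S} {x : W} (h : wall s x = wall t x) : s = t := by
  unfold wall at h
  exact g_inj (mul_left_cancel (mul_right_cancel h))

theorem wall_mul (s : S) (x c : W) : wall s (x * c) = c⁻¹ * wall s x * c := by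
  unfold wall; group

theorem d_mul (x y c : W) : d (x * c) (y * c) = d x y := by
  unfold d; congr 1; group

theorem d_one (x : W) : d 1 x = len x := by
  unfold d; rw [one_mul, len_inv]

theorem card_Sep (x y : W) : (Sep x y).card = d x y := by
  have h : d x y = (Sep (x * y⁻¹) 1).card := by
    rw [Sep_comm, Sep_one, card_N]; rfl
  rw [h]
  refine Finset.card_bij (fun r _ => y * r * y⁻¹) ?_ ?_ ?_
  · intro r hr
    have := (mem_Sep_mul (x * y⁻¹) 1 y r).1 (by simpa using hr)
    exact this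
  · intro a _ b _ hab
    simpa using hab
  · intro q hq
    refine ⟨y⁻¹ * q * y, ?_, by group⟩
    have := (mem_Sep_mul (x * y⁻¹) 1 y (y⁻¹ * q * y)).2 (by
      have e : y * (y⁻¹ * q * y) * y⁻¹ = q := by group
      rwa [e])
    simpa using this

theorem d_comm (x y : W) : d x y = d y x := by rw [← card_Sep, ← card_Sep, Sep_comm]
theorem d_self (x : W) : d x x = 0 := by rw [← card_Sep, Sep_self]; rfl
theorem d_eq_zero {x y : W} : d x y = 0 ↔ x = y := by
  unfold d; rw [len_eq_zero, mul_inv_eq_one]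
theorem d_triangle (x y z : W) : d x z ≤ d x y + d y z := by
  unfold d
  have : x * z⁻¹ = (x * y⁻¹) * (y * z⁻¹) := by group
  rw [this]; exact len_mul_le _ _
theorem d_g_mul (s : S) (x : W) : d x (g s * x) = 1 := by
  rw [← card_Sep, Sep_g_mul]; rfl
theorem d_mul_left (a x : W) : d x (a * x) = len a := by
  rw [d_comm]; unfold d; congr 1; group

theorem N_inj {x y : W} (h : N x = N y) : x = y := by
  rw [← d_eq_zero, ← card_Sep]; unfold Sep; rw [h]; simp

theorem eq_of_Sep_eq {b x y : W} (h : Sep b x = Sep b y) : x = y := by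
  apply N_inj
  ext r
  have := Finset.ext_iff.1 h r
  rw [mem_Sep, mem_Sep] at this; tauto

theorem mem_Sep_step (b x r : W) (s : S) :
    r ∈ Sep b (g s * x) ↔ ¬ (r ∈ Sep b x ↔ r = wall s x) := by
  rw [mem_Sep, mem_Sep, mem_N_g_mul]; tauto

theorem Sep_step_of_mem {b x : W} {s : S} (h : wall s x ∈ Sep b x) :
    Sep b (g s * x) = (Sep b x).erase (wall s x) := by
  ext r; rw [mem_Sep_step, Finset.mem_erase]
  by_cases a : r = wall s x
  · subst a; simp [h]
  · simp [a]

theorem Sep_step_of_not_mem {b x : W} {s : S} (h : wall s x ∉ Sep b x) :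
    Sep b (g s * x) = insert (wall s x) (Sep b x) := by
  ext r; rw [mem_Sep_step, Finset.mem_insert]
  by_cases a : r = wall s x
  · subst a; simp [h]
  · simp [a]

theorem d_step_of_mem {b x : W} {s : S} (h : wall s x ∈ Sep b x) : d b (g s * x) + 1 = d b x := by
  rw [← card_Sep, ← card_Sep, Sep_step_of_mem h, Finset.card_erase_add_one h]

theorem d_step_of_not_mem {b x : W} {s : S} (h : wall s x ∉ Sep b x) :
    d b (g s * x) = d b x + 1 := by
  rw [← card_Sep, ← card_Sep, Sep_step_of_not_mem h, Finset.card_insert_of_notMem h]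

theorem desc_iff {b x : W} {s : S} : Desc b x s ↔ wall s x ∈ Sep b x := by
  unfold Desc
  by_cases h : wall s x ∈ Sep b x
  · have := d_step_of_mem h; simp [h]; omega
  · have := d_step_of_not_mem h; simp [h]; omega

theorem Desc.d_eq {b x : W} {s : S} (h : Desc b x s) : d b (g s * x) + 1 = d b x :=
  d_step_of_mem (desc_iff.1 h)

theorem d_eq_of_not_desc {b x : W} {s : S} (h : ¬ Desc b x s) : d b (g s * x) = d b x + 1 :=
  d_step_of_not_mem (fun k => h (desc_iff.2 k))

theorem exists_desc {b x : W} (h : x ≠ b) : ∃ s, Desc b x s := by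
  have h1 : x * b⁻¹ ≠ 1 := fun k => h (mul_inv_eq_one.1 k)
  obtain ⟨s, hs⟩ := cs.exists_leftDescent_of_ne_one h1
  refine ⟨s, ?_⟩
  unfold Desc
  rw [d_comm b, d_comm b x]
  unfold d
  rw [mul_assoc]
  exact hs

theorem btw_iff {a u b : W} : Btw a u b ↔ Sep a u ⊆ Sep a b := by
  unfold Btw
  rw [← card_Sep, ← card_Sep, ← card_Sep]
  have e1 : Sep a b = symmDiff (Sep a u) (Sep u b) := by
    ext r; rw [Finset.mem_symmDiff, mem_Sep, mem_Sep, mem_Sep]; tauto
  have e2 : (Sep a u).card + (Sep u b).card =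
      (Sep a b).card + 2 * (Sep a u ∩ Sep u b).card := by
    have h1 := Finset.card_union_add_card_inter (Sep a u) (Sep u b)
    have h2 : Sep a u ∪ Sep u b = Sep a b ∪ (Sep a u ∩ Sep u b) := by
      ext r; simp only [Finset.mem_union, Finset.mem_inter, mem_Sep]; tauto
    have h3 : Disjoint (Sep a b) (Sep a u ∩ Sep u b) := by
      rw [Finset.disjoint_left]; intro r; simp only [Finset.mem_inter, mem_Sep]; tauto
    rw [h2, Finset.card_union_of_disjoint h3] at h1
    omega
  constructor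
  · intro h r hr
    have h0 : (Sep a u ∩ Sep u b).card = 0 := by omega
    rw [Finset.card_eq_zero] at h0
    have : r ∉ Sep a u ∩ Sep u b := by rw [h0]; simp
    simp only [Finset.mem_inter, mem_Sep] at this hr ⊢; tauto
  · intro h
    have h0 : Sep a u ∩ Sep u b = ∅ := by
      ext r
      have := @h r
      simp only [Finset.mem_inter, mem_Sep, Finset.notMem_empty] at this ⊢; tauto
    rw [h0] at e2; simpa using e2

/-- `u` is between `a` and `b` iff no wall has `a, b` on one side and `u` on the other. -/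
theorem btw_iff' {a u b : W} : Btw a u b ↔ ∀ r, (r ∈ N a ↔ r ∈ N b) → (r ∈ N u ↔ r ∈ N a) := by
  rw [btw_iff]
  constructor
  · intro h r hr
    have := @h r
    simp only [mem_Sep] at this; tauto
  · intro h r hr
    have := h r
    simp only [mem_Sep] at hr ⊢; tauto

theorem Btw.symm {a u b : W} (h : Btw a u b) : Btw b u a := by
  unfold Btw at *; rw [d_comm b u, d_comm u a, d_comm b a]; omega

theorem btw_mul {a u b : W} (c : W) : Btw (a * c) (u * c) (b * c) ↔ Btw a u b := by
  unfold Btw; rw [d_mul, d_mul, d_mul]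

theorem Desc.btw {b x : W} {s : S} (h : Desc b x s) : Btw b (g s * x) x := by
  unfold Btw
  have := h.d_eq
  rw [d_comm (g s * x) x, d_g_mul]; exact this

theorem desc_mul {b x : W} {s : S} (c : W) : Desc (b * c) (x * c) s ↔ Desc b x s := by
  unfold Desc; rw [← mul_assoc, d_mul, d_mul]

end Pool.Agent.MP_df844f_gt.RA

end
end MrgPart1

-- ======== part 2: formerly Pool.Agent.MP_df844f_gt.RA.Med
section MrgPart2

set_option linter.unusedSectionVars false

noncomputable section

namespace Pool.Agent.MP_df844f_gt.RA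

variable [Dat]

theorem len_mul_lt_of_mem_N {w r : W} (h : r ∈ N w) : len (w * r) < len w := by
  obtain ⟨h1, h2⟩ := Classical.choose_spec (cs.exists_isReduced w)
  have h3 : r ∈ cs.rightInvSeq (Classical.choose (cs.exists_isReduced w)) := by
    simpa [N] using h
  have h4 := (cs.isRightInversion_of_mem_rightInvSeq h1 h3).2
  rw [← h2] at h4
  exact h4

theorem pow_ne_one {s t : S} (hne : s ≠ t) (h : ¬ adj s t) (n : ℕ) : (g s * g t) ^ (n + 1) ≠ 1 := by
  let a : Equiv.Perm ℤ := Function.Involutive.toPerm (fun z => -z) (fun z => by simp)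
  let b : Equiv.Perm ℤ := Function.Involutive.toPerm (fun z => 1 - z) (fun z => by simp)
  obtain ⟨φ, hφ⟩ := exists_hom (G := Equiv.Perm ℤ)
    (fun u => if u = s then a else if u = t then b else 1)
    (fun u => by
      split_ifs
      · ext z; simp [a]
      · ext z; simp [b]
      · simp)
    (fun u v huv => by
      have h1 := adj_ne huv
      by_cases us : u = s
      · subst us
        have : v ≠ t := fun k => h (k ▸ huv)
        simp [h1.symm, this]
      · by_cases ut : u = t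
        · subst ut
          have : v ≠ s := fun k => h (k ▸ adj_symm huv)
          simp [h1.symm, this]
        · simp [us, ut])
  have hs : φ (g s) = a := by rw [hφ]; simp
  have ht : φ (g t) = b := by rw [hφ]; simp [hne.symm]
  have key : ∀ m : ℕ, ((a * b) ^ m) 0 = -(m : ℤ) := by
    intro m
    induction m with
    | zero => simp
    | succ m ih =>
      rw [pow_succ', Equiv.Perm.mul_apply, ih]
      simp [a, b]; ring
  intro k
  have := key (n + 1)
  rw [← hs, ← ht, ← map_mul, ← map_pow, k, map_one] at this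
  simp at this
  omega

theorem alt_shift (s t : S) (m : ℕ) : (g t * g s) ^ m * g t = g t * (g s * g t) ^ m := by
  induction m with
  | zero => simp
  | succ m ih => rw [pow_succ', pow_succ', mul_assoc, ih]; simp [mul_assoc]

theorem alt_mem {s t : S} (hne : s ≠ t) (h : ¬ adj s t) {x : W} (hx : wall t x ∈ N x) (m : ℕ) :
    wall t x ∈ N ((g t * g s) ^ m * x) ∧ wall t x ∈ N (g s * ((g t * g s) ^ m * x)) := by
  have hinv : ∀ m : ℕ, ((g t * g s) ^ m)⁻¹ = (g s * g t) ^ m := by
    intro m; rw [← inv_pow, mul_inv_rev, g_inv, g_inv]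
  have step1 : ∀ m : ℕ, wall t x ∈ N ((g t * g s) ^ m * x) →
      wall t x ∈ N (g s * ((g t * g s) ^ m * x)) := by
    intro m hm
    rw [mem_N_g_mul]
    have : wall t x ≠ wall s ((g t * g s) ^ m * x) := by
      intro k
      apply pow_ne_one hne h (2 * m)
      unfold wall at k
      rw [mul_inv_rev, hinv] at k
      have k2 : g t = (g s * g t) ^ m * g s * (g t * g s) ^ m := by
        have : x⁻¹ * g t * x = x⁻¹ * ((g s * g t) ^ m * g s * (g t * g s) ^ m) * x := by
          rw [k]; simp only [mul_assoc]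
        exact mul_left_cancel (mul_right_cancel this)
      have k3 : g t * g t = (g s * g t) ^ m * g s * ((g t * g s) ^ m * g t) := by
        rw [← mul_assoc, ← k2]
      rw [g_mul_self, alt_shift s t m] at k3
      rw [k3, two_mul, add_assoc, pow_add, pow_succ']
      simp only [mul_assoc]
    simp [hm, this]
  have step2 : ∀ m : ℕ, wall t x ∈ N (g s * ((g t * g s) ^ m * x)) →
      wall t x ∈ N ((g t * g s) ^ (m + 1) * x) := by
    intro m hm
    have e : (g t * g s) ^ (m + 1) * x = g t * (g s * ((g t * g s) ^ m * x)) := by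
      rw [pow_succ']; simp only [mul_assoc]
    rw [e, mem_N_g_mul]
    have : wall t x ≠ wall t (g s * ((g t * g s) ^ m * x)) := by
      intro k
      apply pow_ne_one hne h (2 * m + 1)
      unfold wall at k
      rw [mul_inv_rev, mul_inv_rev, hinv, g_inv] at k
      have k2 : g t = (g s * g t) ^ m * g s * g t * g s * (g t * g s) ^ m := by
        have : x⁻¹ * g t * x =
            x⁻¹ * ((g s * g t) ^ m * g s * g t * g s * (g t * g s) ^ m) * x := by
          rw [k]; simp only [mul_assoc]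
        exact mul_left_cancel (mul_right_cancel this)
      have k3 : g t * g t = (g s * g t) ^ m * g s * g t * g s * ((g t * g s) ^ m * g t) := by
        rw [← mul_assoc, ← k2]
      rw [g_mul_self, alt_shift s t m] at k3
      have e2 : 2 * m + 1 + 1 = m + ((m + 1) + 1) := by ring
      rw [k3, e2, pow_add, pow_succ', pow_succ']
      simp only [mul_assoc]
    simp [hm, this]
  induction m with
  | zero => exact ⟨by simpa using hx, step1 0 (by simpa using hx)⟩
  | succ m ih => exact ⟨step2 m ih.2, step1 _ (step2 m ih.2)⟩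

/-- (T1) Two different descents are adjacent. -/
theorem desc_adj {b x : W} {s t : S} (hs : Desc b x s) (ht : Desc b x t) (hne : s ≠ t) :
    adj s t := by
  by_contra h
  have tr : ∀ u : S, Desc b x u → wall u (x * b⁻¹) ∈ N (x * b⁻¹) := by
    intro u hu
    have := (desc_mul (b := b) (x := x) (s := u) b⁻¹).2 hu
    rw [mul_inv_cancel, desc_iff, Sep_one] at this
    exact this
  have hs' := tr s hs
  have ht' := tr t ht
  generalize x * b⁻¹ = y at hs' ht'
  have h' : ¬ adj t s := fun k => h (adj_symm k)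
  have key : ∀ m : ℕ, len ((g t * g s) ^ (m + 1) * y) < len ((g t * g s) ^ m * y) := by
    intro m
    have a1 := len_mul_lt_of_mem_N (alt_mem hne h ht' m).1
    have a2 := len_mul_lt_of_mem_N (alt_mem hne.symm h' hs' m).2
    have e1 : (g t * g s) ^ m * y * wall t y = g t * ((g s * g t) ^ m * y) := by
      unfold wall
      rw [← mul_assoc (g t), ← alt_shift]; group
    have e2 : g t * ((g s * g t) ^ m * y) * wall s y = (g t * g s) ^ (m + 1) * y := by
      unfold wall
      rw [← mul_assoc (g t), ← alt_shift, pow_succ]; group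
    rw [e1] at a1; rw [e2] at a2
    exact a2.trans a1
  have : ∀ m : ℕ, len ((g t * g s) ^ m * y) + m ≤ len y := by
    intro m
    induction m with
    | zero => simp
    | succ m ih => have := key m; omega
  have := this (len y + 1)
  omega

/-- (T2) If `x` is not between `b` and `y`, some descent of `x` towards `b` crosses a wall that does
not separate `b` from `y`. -/
theorem exists_desc_of_not_subset (b : W) : ∀ (n : ℕ) (x y : W), d x y = n →
    ¬ Sep b x ⊆ Sep b y → ∃ s, wall s x ∈ Sep b x ∧ wall s x ∉ Sep b y := by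
  intro n
  induction n with
  | zero => intro x y h k; rw [d_eq_zero] at h; subst h; exact absurd (Finset.Subset.refl _) k
  | succ n ih =>
    intro x y h k
    have hne : x ≠ y := by intro e; rw [e, d_self] at h; omega
    obtain ⟨u, hu⟩ := exists_desc hne
    have hu1 := desc_iff.1 hu
    by_cases c : wall u x ∈ Sep b x
    · refine ⟨u, c, ?_⟩
      rw [mem_Sep] at hu1 c ⊢; tauto
    · have hd : d (g u * x) y = n := by
        have := hu.d_eq; rw [d_comm y, d_comm y x] at this; omega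
      have hk : ¬ Sep b (g u * x) ⊆ Sep b y := by
        intro q; apply k
        rw [Sep_step_of_not_mem c] at q
        exact (Finset.subset_insert _ _).trans q
      obtain ⟨t, ht1, ht2⟩ := ih _ y hd hk
      have hub : wall u (g u * x) ∈ Sep b (g u * x) := by
        rw [wall_g_mul, Sep_step_of_not_mem c]; exact Finset.mem_insert_self _ _
      have huy : wall u x ∈ Sep b y := by
        rw [mem_Sep] at hu1 c ⊢; tauto
      have htu : t ≠ u := by
        intro e; subst e; rw [wall_g_mul] at ht2; exact ht2 huy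
      have ha : adj t u := desc_adj (desc_iff.2 ht1) (desc_iff.2 hub) htu
      rw [wall_adj ha] at ht1 ht2
      refine ⟨t, ?_, ht2⟩
      rw [Sep_step_of_not_mem c, Finset.mem_insert] at ht1
      rcases ht1 with e | e
      · exact absurd (wall_inj e) htu
      · exact e

theorem exists_desc_of_not_btw {b x y : W} (h : ¬ Sep b x ⊆ Sep b y) :
    ∃ s, wall s x ∈ Sep b x ∧ wall s x ∉ Sep b y :=
  exists_desc_of_not_subset b _ x y rfl h

/-- Meets relative to a base chamber. -/
theorem exists_meet (b y : W) : ∀ (n : ℕ) (x : W), d b x = n →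
    ∃ m, Sep b m = Sep b x ∩ Sep b y := by
  intro n
  induction n with
  | zero =>
    intro x h; rw [d_eq_zero] at h; subst h
    exact ⟨b, by simp [Sep_self]⟩
  | succ n ih =>
    intro x h
    by_cases k : Sep b x ⊆ Sep b y
    · exact ⟨x, (Finset.inter_eq_left.2 k).symm⟩
    · obtain ⟨s, h1, h2⟩ := exists_desc_of_not_btw k
      have hd : d b (g s * x) = n := by have := d_step_of_mem h1; omega
      obtain ⟨m, hm⟩ := ih _ hd
      refine ⟨m, ?_⟩
      rw [hm, Sep_step_of_mem h1]
      ext r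
      simp only [Finset.mem_inter, Finset.mem_erase]
      constructor
      · tauto
      · rintro ⟨a, c⟩
        exact ⟨⟨fun e => h2 (e ▸ c), a⟩, c⟩

/-- (T3) Medians exist. -/
theorem exists_med (x y z : W) : ∃ m, IsMed x y z m := by
  obtain ⟨m, hm⟩ := exists_meet x z _ y rfl
  refine ⟨m, fun r => ?_⟩
  have := Finset.ext_iff.1 hm r
  simp only [Finset.mem_inter, mem_Sep] at this
  tauto

theorem IsMed.btw12 {x y z m : W} (h : IsMed x y z m) : Btw x m y := by
  rw [btw_iff']; intro r; have := h r; tauto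
theorem IsMed.btw23 {x y z m : W} (h : IsMed x y z m) : Btw y m z := by
  rw [btw_iff']; intro r; have := h r; tauto
theorem IsMed.btw13 {x y z m : W} (h : IsMed x y z m) : Btw x m z := by
  rw [btw_iff']; intro r; have := h r; tauto

/-- Every intermediate distance is realised on a geodesic. -/
theorem exists_btw (a b : W) : ∀ k, k ≤ d a b → ∃ u, Btw a u b ∧ d a u = k := by
  intro k
  induction k with
  | zero => intro _; exact ⟨a, by simp [Btw, d_self], d_self a⟩
  | succ k ih =>
    intro hk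
    obtain ⟨u, hu, hd⟩ := ih (by omega)
    have hne : u ≠ b := by intro e; rw [e] at hd; omega
    obtain ⟨s, hs⟩ := exists_desc hne
    have h1 := hs.d_eq
    have h2 := d_triangle a (g s * u) b
    have h3 := d_triangle a u (g s * u)
    rw [d_g_mul] at h3
    unfold Btw at hu ⊢
    rw [d_comm b, d_comm b u] at h1
    exact ⟨g s * u, by omega, by omega⟩

theorem cvx_hull (F : Finset W) : Cvx (hull F) := by
  intro a ha b hb u hu r
  have h1 := ha r; have h2 := hb r; have h3 := btw_iff'.1 hu r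
  constructor
  · intro k; have := h1.1 k; have := h2.1 k; tauto
  · intro k; have := h1.2 k; have := h2.2 k; tauto

theorem subset_hull (F : Finset W) : (F : Set W) ⊆ hull F :=
  fun a ha _ => ⟨fun k => k a ha, fun k => k a ha⟩

end Pool.Agent.MP_df844f_gt.RA

end
end MrgPart2

-- ======== part 3: formerly Pool.Agent.MP_df844f_gt.RA.St
section MrgPart3

/-! Prestates, cochains, tracked walks, moves, cells. -/

set_option linter.unusedSectionVars false

noncomputable section

namespace Pool.Agent.MP_df844f_gt.RA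

variable [Dat]

abbrev F2 := ZMod 2

/-- A prestate over the `W`-set `B`: finitely many chambers with thick edges, and arcs given by
darts. -/
structure PS (B : Type) [MulAction W B] : Type 1 where
  Om : Type
  A : Type
  [finO : Finite Om]
  [finA : Finite A]
  f : Om → B
  e : S → Om → Om → Prop
  e_symm : ∀ {s x y}, e s x y → e s y x
  e_f : ∀ {s x y}, e s x y → f y = g s • f x
  rev : A → A
  rev_rev : ∀ a, rev (rev a) = a
  rev_ne : ∀ a, rev a ≠ a
  src : A → Om
  lab : A → W
  lab_rev : ∀ a, lab (rev a) = (lab a)⁻¹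
  f_rev : ∀ a, f (src (rev a)) = lab a • f (src a)

attribute [instance] PS.finO PS.finA

/-- Large injectivity radius at the base point `o`. -/
def Thick {B : Type} [MulAction W B] (o : B) (ρ : ℕ) : Prop :=
  ∀ w w' : W, w • o = w' • o → d w w' ≤ ρ → w = w'

/-- Transitivity. -/
def Trans {B : Type} [MulAction W B] (o : B) : Prop := ∀ b : B, ∃ w : W, w • o = b

/-- Expansion with Cheeger constant at least `1 / H`. -/
def Expd (B : Type) [MulAction W B] (H : ℕ) : Prop :=
  ∀ U : Set B, 2 * U.ncard ≤ Nat.card B →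
    U.ncard ≤ H * {p : B × S | p.1 ∈ U ∧ g p.2 • p.1 ∉ U}.ncard

namespace PS

variable {B : Type} [MulAction W B] (Y : PS B)

/-- Folded and square closed prestates. -/
structure State : Prop where
  fold : ∀ {s x y y'}, Y.e s x y → Y.e s x y' → y = y'
  close : ∀ {s t x0 x1 x2 x3}, adj s t → Y.e s x0 x1 → Y.e t x1 x2 → Y.e s x2 x3 → Y.e t x3 x0

/-- The side `s` of the chamber `x` is free. -/
def Free (x : Y.Om) (s : S) : Prop := ¬ ∃ y, Y.e s x y

noncomputable def area : ℕ := {p : Y.Om × S | Y.Free p.1 p.2}.ncard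
noncomputable def vol : ℕ := Nat.card Y.Om
noncomputable def pot : ℕ := Y.vol + Y.area

open Classical in
/-- The `s`-neighbour of `x`, or `x` itself if the side is free. -/
noncomputable def sg (s : S) (x : Y.Om) : Y.Om :=
  if h : ∃ y, Y.e s x y then Classical.choose h else x

/-- Thick paths of length at most `n`. -/
inductive Near : ℕ → Y.Om → Y.Om → Prop
  | refl (n x) : Near n x x
  | step {n s x y z} : Y.e s x y → Near n y z → Near (n + 1) x z

/-- Sets of chambers closed under thick edges. -/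
def Shut (U : Set Y.Om) : Prop := ∀ s x y, Y.e s x y → x ∈ U → y ∈ U

/-- Labels of steps. -/
inductive Lbl : Type
  | edge (s : S) (x y : Y.Om)
  | dart (a : Y.A)

/-- Cochains on `Y × E`. -/
abbrev Coch (E : Type) := Y.Lbl → E → F2

/-- Lists of steps with the positions at which they start. -/
abbrev Path := List (Y.Lbl × W)

variable {Y}

structure Cocyc {E : Type} [MulAction W E] (c : Y.Coch E) : Prop where
  symm : ∀ s x y ε, Y.e s x y → c (.edge s y x) (g s • ε) = c (.edge s x y) ε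
  dsym : ∀ a ε, c (.dart (Y.rev a)) (Y.lab a • ε) = c (.dart a) ε
  sq : ∀ s t x0 x1 x2 x3 ε, adj s t → Y.e s x0 x1 → Y.e t x1 x2 → Y.e s x2 x3 → Y.e t x3 x0 →
    c (.edge s x0 x1) ε + c (.edge t x1 x2) (g s • ε) + c (.edge s x2 x3) (g t • g s • ε) +
      c (.edge t x3 x0) (g s • g t • g s • ε) = 0

structure IsD {E : Type} [MulAction W E] (c : Y.Coch E) (φ : Y.Om → E → F2) : Prop where
  ed : ∀ s x y ε, Y.e s x y → c (.edge s x y) ε = φ x ε + φ y (g s • ε)
  da : ∀ a ε, c (.dart a) ε = φ (Y.src a) ε + φ (Y.src (Y.rev a)) (Y.lab a • ε)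

def Cobd {E : Type} [MulAction W E] (c : Y.Coch E) : Prop := ∃ φ, IsD c φ

/-- Value of a cochain on a path whose position `1` lies over `ε`. -/
def ev {E : Type} [MulAction W E] (c : Y.Coch E) (ch : Y.Path) (ε : E) : F2 :=
  (ch.map fun lw => c lw.1 (lw.2 • ε)).sum

/-- Locally constant functions upstairs. -/
structure LocC {T : Type} (φ : Y.Om → W → T) : Prop where
  ed : ∀ s x y w, Y.e s x y → φ y (g s * w) = φ x w
  da : ∀ a w, φ (Y.src (Y.rev a)) (Y.lab a * w) = φ (Y.src a) w

variable (Y)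

/-- The pull-back of `Y` to `W` is connected, with base chamber `x0` over `o`. -/
def H0 (o : B) (x0 : Y.Om) : Prop :=
  Y.f x0 = o ∧ ∀ (T : Type) (φ : Y.Om → W → T), LocC φ → ∀ x w, w • o = Y.f x → φ x w = φ x0 1

/-- `Y` is connected. -/
def Conn : Prop :=
  ∀ (T : Type) (ψ : Y.Om → T), (∀ s x y, Y.e s x y → ψ x = ψ y) →
    (∀ a, ψ (Y.src a) = ψ (Y.src (Y.rev a))) → ∀ x y, ψ x = ψ y

/-- Node of a tracked walk: chamber, position, shadow. -/
structure Node : Type where
  x : Y.Om
  w : W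
  p : W

/-- Tracked walks; `P` is a condition on positions and shadows of all nodes. -/
inductive TW (P : W → W → Prop) : Y.Node → Y.Node → ℕ → Y.Path → Prop
  | nil (n : Y.Node) : Close n.w n.p → P n.w n.p → TW P n n 0 []
  | edge {n n' m : Y.Node} {l : ℕ} {ch : Y.Path} (s : S) : Close n.w n.p → P n.w n.p →
      Y.e s n.x n'.x → n'.w = g s * n.w → TW P n' m l ch →
      TW P n m (d n.p n'.p + l) ((.edge s n.x n'.x, n.w) :: ch)
  | dart {n n' m : Y.Node} {l : ℕ} {ch : Y.Path} (a : Y.A) : Close n.w n.p → P n.w n.p →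
      n.x = Y.src a → n'.x = Y.src (Y.rev a) → n'.w = Y.lab a * n.w → TW P n' m l ch →
      TW P n m (d n.p n'.p + l) ((.dart a, n.w) :: ch)
  | stay {n n' m : Y.Node} {l : ℕ} {ch : Y.Path} : Close n.w n.p → P n.w n.p →
      n'.x = n.x → n'.w = n.w → TW P n' m l ch → TW P n m (d n.p n'.p + l) ch

end PS

/-- The trivial condition on nodes. -/
abbrev tt : W → W → Prop := fun _ _ => True

/-- Total measure of a list of tracked loops. -/
def meas {α : Type} (Λ : List (ℕ × α)) : ℕ := (Λ.map fun l => l.1 + 1).sum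

namespace PS

variable {B : Type} [MulAction W B] (Y : PS B)

/-- The invariant with an explicit list of tracked loops. -/
structure InvL (o : B) (x0 : Y.Om) (r : ℕ) (Λ : List (ℕ × Y.Path)) : Prop where
  h0 : Y.H0 o x0
  b1 : ∃ lam : Fin r → Y.Path, (∀ i, ∃ γ l, Y.TW tt ⟨x0, 1, 1⟩ ⟨x0, γ, γ⟩ l (lam i)) ∧
    ∀ c : Y.Coch Unit, Cocyc c → (∀ i, ev c (lam i) () = 0) → Cobd c
  loops : ∀ l ∈ Λ, Y.TW tt ⟨x0, 1, 1⟩ ⟨x0, 1, 1⟩ l.1 l.2
  rel : ∀ c : Y.Coch W, Cocyc c → (∀ l ∈ Λ, ∀ ε, ev c l.2 ε = 0) → Cobd c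

def Inv (o : B) (x0 : Y.Om) (r μ : ℕ) : Prop := ∃ Λ, Y.InvL o x0 r Λ ∧ meas Λ ≤ μ

/-- No successor state with smaller area and volume at most `C` larger. -/
def Tight (o : B) (x0 : Y.Om) (r C : ℕ) : Prop :=
  ∀ (Y' : PS B) (x0' : Y'.Om), Y'.State → (∀ μ, Y.Inv o x0 r μ → Y'.Inv o x0' r μ) →
    Y'.vol ≤ Y.vol + C → Y.area ≤ Y'.area

end PS

open PS

/-- `ch` and `ch'` have the same values under a pull-back of cochains. -/
def SameV {B : Type} [MulAction W B] {Y Y' : PS B}
    (pull : ∀ (E : Type) [MulAction W E], Y'.Coch E → Y.Coch E) (ch : Y.Path) (ch' : Y'.Path) :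
    Prop :=
  ∀ (E : Type) [MulAction W E] (c : Y'.Coch E) (ε : E), Cocyc c → ev (pull E c) ch ε = ev c ch' ε

/-- A move between prestates. -/
structure Move {B : Type} [MulAction W B] (o : B) (Y Y' : PS B) : Type 1 where
  K : Y.Om → Y'.Om → Prop
  pull : ∀ (E : Type) [MulAction W E], Y'.Coch E → Y.Coch E
  K_f : ∀ x x', K x x' → Y'.f x' = Y.f x
  cocyc : ∀ (E : Type) [MulAction W E] (c : Y'.Coch E), Cocyc c → Cocyc (pull E c)
  refl : ∀ (E : Type) [MulAction W E] (c : Y'.Coch E), Cocyc c → Cobd (pull E c) → Cobd c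
  trans : ∀ (n m : Y.Node) (x' y' : Y'.Om) (l : ℕ) (ch : Y.Path), K n.x x' → K m.x y' →
    Y.TW tt n m l ch →
    ∃ l' ch', l' ≤ l ∧ Y'.TW tt ⟨x', n.w, n.p⟩ ⟨y', m.w, m.p⟩ l' ch' ∧ SameV pull ch ch'
  h0 : ∀ x x', K x x' → Y.H0 o x → Y'.H0 o x'

/-- Maps of chambers preserving thick edges. -/
structure EHom {B B' : Type} [MulAction W B] [MulAction W B'] (Y : PS B) (Y' : PS B') : Type where
  π : Y.Om → Y'.Om
  e_π : ∀ {s x y}, Y.e s x y → Y'.e s (π x) (π y)

/-- Morphisms of prestates over the same base, bijective on darts. -/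
structure Hom {B : Type} [MulAction W B] (Y Y' : PS B) : Type extends EHom Y Y' where
  α : Y.A ≃ Y'.A
  f_π : ∀ x, Y'.f (π x) = Y.f x
  src_α : ∀ a, Y'.src (α a) = π (Y.src a)
  rev_α : ∀ a, Y'.rev (α a) = α (Y.rev a)
  lab_α : ∀ a, Y'.lab (α a) = Y.lab a

def EHom.comp {B B' B'' : Type} [MulAction W B] [MulAction W B'] [MulAction W B''] {Y : PS B}
    {Y' : PS B'} {Y'' : PS B''} (φ : EHom Y Y') (ψ : EHom Y' Y'') : EHom Y Y'' :=
  ⟨fun x => ψ.π (φ.π x), fun h => ψ.e_π (φ.e_π h)⟩

namespace Hom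

variable {B : Type} [MulAction W B] {Y Y' Y'' : PS B}

def id (Y : PS B) : Hom Y Y where
  π x := x
  e_π h := h
  α := Equiv.refl _
  f_π _ := rfl
  src_α _ := rfl
  rev_α _ := rfl
  lab_α _ := rfl

def comp (φ : Hom Y Y') (ψ : Hom Y' Y'') : Hom Y Y'' where
  toEHom := φ.toEHom.comp ψ.toEHom
  α := φ.α.trans ψ.α
  f_π x := (ψ.f_π _).trans (φ.f_π x)
  src_α a := (ψ.src_α _).trans (congrArg ψ.π (φ.src_α a))
  rev_α a := (ψ.rev_α _).trans (congrArg ψ.α (φ.rev_α a))
  lab_α a := (ψ.lab_α _).trans (φ.lab_α a)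

def lbl (φ : Hom Y Y') : Y.Lbl → Y'.Lbl
  | .edge s x y => .edge s (φ.π x) (φ.π y)
  | .dart a => .dart (φ.α a)

/-- Pull-back reflects coboundaries and connectedness is kept. -/
structure Good (φ : Hom Y Y') : Prop where
  refl : ∀ (E : Type) [MulAction W E] (c : Y'.Coch E), Cocyc c →
    Cobd (fun l => c (φ.lbl l) : Y.Coch E) → Cobd c
  h0 : ∀ o x, Y.H0 o x → Y'.H0 o (φ.π x)

/-- Number of chambers outside the image. -/
noncomputable def new (φ : Hom Y Y') : ℕ := {y | y ∉ Set.range φ.π}.ncard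

/-- Control of area and of thick distances. -/
structure Ctl (φ : Hom Y Y') (κ : ℕ) : Prop where
  area : Y'.area + 6 * φ.new ≤ Y.area + (nS + 6) * κ
  pot : Y'.pot ≤ Y.pot + (nS + 1) * κ
  near : ∀ n u v, Y'.Near n (φ.π u) (φ.π v) →
    Y.Near (n + 2 * nS * (Y.pot + (nS + 1) * κ - Y'.pot)) u v

end Hom

/-- The full prestate on a finite set of chambers of `W`. -/
def cvxPS (K : Finset W) : PS W where
  Om := K
  A := Empty
  f x := x.1
  e s x y := y.1 = g s * x.1
  e_symm h := by rw [h, g_mul_g_mul]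
  e_f h := h
  rev a := a
  rev_rev _ := rfl
  rev_ne a := a.elim
  src a := a.elim
  lab a := a.elim
  lab_rev a := a.elim
  f_rev a := a.elim

/-- The closed manifold itself. -/
def fullPS (B : Type) [MulAction W B] [Finite B] : PS B where
  Om := B
  A := Empty
  f x := x
  e s x y := y = g s • x
  e_symm h := by rw [h, smul_smul, g_mul_self, one_smul]
  e_f h := h
  rev a := a
  rev_rev _ := rfl
  rev_ne a := a.elim
  src a := a.elim
  lab a := a.elim
  lab_rev a := a.elim
  f_rev a := a.elim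

/-- A gadget for the finite set `F`. -/
structure Gadget (Q : PS W) (F : Finset W) (ι : W → Q.Om) : Prop where
  f_ι : ∀ a ∈ F, Q.f (ι a) = a
  e_ι : ∀ a ∈ F, ∀ s, g s * a ∈ F → Q.e s (ι a) (ι (g s * a))
  h1 : ∀ c : Q.Coch Unit, Cocyc c → Cobd c
  conn : Q.Conn
  sp : ∀ a ∈ F, ∀ b ∈ F, ∀ a' b', Close a a' → Close b b' →
    ∃ ch, Q.TW tt ⟨ι a, a, a'⟩ ⟨ι b, b, b'⟩ (d a' b') ch

namespace PS

variable {B : Type} [MulAction W B] (Y : PS B)

/-- One step along a thick edge with label in `J`. -/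
def JE (J : Finset S) (x y : Y.Om) : Prop := ∃ s ∈ J, Y.e s x y

/-- Cells: a chamber and a set of labels `J`, up to `J`-edges. -/
def Cell : Type := Quot fun p q : Y.Om × Finset S => p.2 = q.2 ∧ Y.JE p.2 p.1 q.1

instance : Finite Y.Cell := Quot.finite _

noncomputable instance : DecidableEq Y.Cell := Classical.decEq _

def cell (x : Y.Om) (J : Finset S) : Y.Cell := Quot.mk _ (x, J)

/-- Mod 2 chains. -/
abbrev Chain := Y.Cell →₀ F2

theorem cell_step {x y : Y.Om} {J : Finset S} (h : Y.JE J x y) : Y.cell x J = Y.cell y J :=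
  Quot.sound ⟨rfl, h⟩

/-- Boundary of one cell. -/
noncomputable def bd1 : Y.Cell → Y.Chain :=
  Quot.lift
    (fun p => ∑ t ∈ Finset.univ.filter (fun t => ∀ s ∈ p.2, adj s t),
      Finsupp.single (Y.cell p.1 (insert t p.2)) 1)
    (by
      rintro ⟨x, J⟩ ⟨y, J'⟩ ⟨h1, s, hs, h2⟩
      obtain rfl : J = J' := h1
      refine Finset.sum_congr rfl fun t _ => ?_
      rw [Y.cell_step (J := insert t J) ⟨s, Finset.mem_insert_of_mem hs, h2⟩])

/-- The boundary operator (chambers to faces to edges to vertices of the tessellation). -/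
noncomputable def bd : Y.Chain →ₗ[F2] Y.Chain := Finsupp.linearCombination F2 Y.bd1

/-- The chain of a set of chambers. -/
noncomputable def ch0 (Z : Finset Y.Om) : Y.Chain := ∑ x ∈ Z, Finsupp.single (Y.cell x ∅) 1

/-- The chain of a set of sides. -/
noncomputable def ch1 (D : Finset (Y.Om × S)) : Y.Chain :=
  ∑ p ∈ D, Finsupp.single (Y.cell p.1 {p.2}) 1

/-- No chamber of the `J`-orbit of `x` has a free side in `J`. -/
def Full (x : Y.Om) (J : Finset S) : Prop :=
  ∀ y, Y.cell y J = Y.cell x J → ∀ s ∈ J, ¬ Y.Free y s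

/-- Full cells of rank `k` (the `k`-cubes of the dual cube complex). -/
def FC (k : ℕ) : Set Y.Cell := {c | ∃ x J, J.card = k ∧ Clq J ∧ Y.Full x J ∧ c = Y.cell x J}

noncomputable def nC (k : ℕ) : ℕ := (Y.FC k).ncard

/-- Cochains of the dual cube complex. -/
def Ck (k : ℕ) : Submodule F2 Y.Chain := Finsupp.supported F2 F2 (Y.FC k)

open Classical in
/-- The coboundary into degree `k` of the dual cube complex. -/
noncomputable def dl (k : ℕ) : Y.Chain →ₗ[F2] Y.Chain :=
  (Y.Ck k).subtype ∘ₗ Finsupp.restrictDom F2 F2 (Y.FC k) ∘ₗ Y.bd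

/-- Dimension of the cocycles in degree `k`. -/
noncomputable def zz (k : ℕ) : ℕ :=
  Module.finrank F2 (Y.Ck k ⊓ LinearMap.ker (Y.dl (k + 1)) : Submodule F2 Y.Chain)

/-- Dimension of the coboundaries in degree `k + 1`. -/
noncomputable def bb (k : ℕ) : ℕ :=
  Module.finrank F2 ((Y.Ck k).map (Y.dl (k + 1)) : Submodule F2 Y.Chain)

/-- Two free sides that share an edge of the tessellation. -/
def BAdj (p q : Y.Om × S) : Prop :=
  Y.Free p.1 p.2 ∧ Y.Free q.1 q.2 ∧
    ∃ t t', adj p.2 t ∧ adj q.2 t' ∧ Y.cell p.1 {p.2, t} = Y.cell q.1 {q.2, t'}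

/-- Connected sets of free sides. -/
def BConn (D : Finset (Y.Om × S)) : Prop :=
  (∀ p ∈ D, Y.Free p.1 p.2) ∧
    ∀ p ∈ D, ∀ q ∈ D, Relation.ReflTransGen (fun a b => a ∈ D ∧ b ∈ D ∧ Y.BAdj a b) p q

/-- Ends: sources of darts and the base chamber. -/
def esrc (x0 : Y.Om) : Option Y.A → Y.Om
  | none => x0
  | some a => Y.src a

noncomputable def ends (x0 : Y.Om) (U : Set Y.Om) : ℕ := {a | Y.esrc x0 a ∈ U}.ncard

/-- Ends within thick distance `R` of `D`. -/
noncomputable def endsN (x0 : Y.Om) (R : ℕ) (D : Finset (Y.Om × S)) : ℕ :=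
  Y.ends x0 {x | ∃ p ∈ D, Y.Near R p.1 x}

noncomputable def deg (U : Set Y.Om) : ℕ := {a | Y.src a ∈ U}.ncard

/-- Free sides in `U`. -/
noncomputable def nF (U : Set Y.Om) : ℕ := {p : Y.Om × S | p.1 ∈ U ∧ Y.Free p.1 p.2}.ncard

/-- Pairs of a free side in `U` and one of its edges. -/
noncomputable def nD (U : Set Y.Om) : ℕ :=
  {p : (Y.Om × S) × S | p.1.1 ∈ U ∧ Y.Free p.1.1 p.1.2 ∧ adj p.1.2 p.2}.ncard

/-- Rank 3 cells in `U` that are not full. -/
noncomputable def nV (U : Set Y.Om) : ℕ :=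
  {c | ∃ x ∈ U, ∃ J : Finset S, J.card = 3 ∧ Clq J ∧ (∃ s ∈ J, Y.Free x s) ∧
    c = Y.cell x J}.ncard

/-- Number of boundary components in `U`. -/
noncomputable def nB (U : Set Y.Om) : ℕ :=
  Nat.card (Quot fun p q : {p : Y.Om × S // p.1 ∈ U ∧ Y.Free p.1 p.2} => Y.BAdj p.1 q.1)

/-- Number of thick components. -/
noncomputable def nK : ℕ := {c | ∃ x, c = Y.cell x Finset.univ}.ncard

/-- Sides of `Z` glued to the outside. -/
noncomputable def front (Z : Set Y.Om) : ℕ :=
  {p : Y.Om × S | p.1 ∈ Z ∧ ∃ y, y ∉ Z ∧ Y.e p.2 p.1 y}.ncard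

/-- A thick component with a consistent lift to `W`. -/
structure Bead (o : B) (Z : Set Y.Om) (pos : Y.Om → W) : Prop where
  shut : Y.Shut Z
  pos_f : ∀ z ∈ Z, pos z • o = Y.f z
  pos_e : ∀ s, ∀ z ∈ Z, ∀ z', Y.e s z z' → pos z' = g s * pos z
  conn : ∀ z ∈ Z, ∀ z' ∈ Z, ∃ n, Y.Near n z z'

/-- Data for attaching a new chamber over `b` along all sides outside the clique `J`. -/
structure Att (J : Finset S) (y : S → Y.Om) (b : B) : Prop where
  clq : Clq J
  f_y : ∀ t ∉ J, Y.f (y t) = g t • b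
  free : ∀ t ∉ J, Y.Free (y t) t
  link : ∀ t ∉ J, ∀ u ∉ J, Relation.ReflTransGen
    (fun a c => a ∉ J ∧ c ∉ J ∧ adj a c ∧ ∃ q, Y.e c (y a) q ∧ Y.e a (y c) q) t u
  near : ∀ t ∉ J, ∀ u ∉ J, Y.Near (2 * nS) (y t) (y u)

end PS

namespace EHom

variable {B B' : Type} [MulAction W B] [MulAction W B'] {Y : PS B} {Y' : PS B'}

def cmap (φ : EHom Y Y') : Y.Cell → Y'.Cell :=
  Quot.map (fun p => (φ.π p.1, p.2)) (by
    rintro ⟨x, J⟩ ⟨y, J'⟩ ⟨h1, s, hs, h2⟩
    exact ⟨h1, s, hs, φ.e_π h2⟩)

/-- Push-forward of chains. -/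
noncomputable def push (φ : EHom Y Y') : Y.Chain →ₗ[F2] Y'.Chain :=
  Finsupp.lmapDomain F2 F2 φ.cmap

end EHom

/-- Data for replacing a family of connected liftable pieces by gadgets. -/
structure HData {B : Type} [MulAction W B] (o : B) (Y : PS B) : Type 1 where
  J : Type
  [finJ : Fintype J]
  comp : Y.Om → Option J
  pos : Y.Om → W
  int : Y.A → Prop
  Q : J → PS W
  F : J → Finset W
  ι : ∀ j, W → (Q j).Om
  pos_f : ∀ z j, comp z = some j → pos z • o = Y.f z
  e_in : ∀ s z z' j j', Y.e s z z' → comp z = some j → comp z' = some j' →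
    j = j' ∧ pos z' = g s * pos z
  int_rev : ∀ a, int a → int (Y.rev a)
  int_in : ∀ a, int a → ∃ j, comp (Y.src a) = some j ∧ comp (Y.src (Y.rev a)) = some j ∧
    pos (Y.src (Y.rev a)) = Y.lab a * pos (Y.src a)
  conn : ∀ j, ∃ z0, comp z0 = some j ∧ ∀ z, comp z = some j → Relation.ReflTransGen
    (fun u v => comp u = some j ∧ comp v = some j ∧
      ((∃ s, Y.e s u v) ∨ ∃ a, int a ∧ u = Y.src a ∧ v = Y.src (Y.rev a))) z0 z
  gad : ∀ j, Gadget (Q j) (F j) (ι j)
  kept_near : ∀ z y j, comp z = some j → comp y = none → Y.Near 2 z y → pos z ∈ F j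
  kept_src : ∀ a j, ¬ int a → comp (Y.src a) = some j → pos (Y.src a) ∈ F j

attribute [instance] HData.finJ

namespace HData

variable {B : Type} [MulAction W B] {o : B} {Y : PS B} (D : HData o Y)

/-- Chambers that survive. -/
def Kept (x : Y.Om) : Prop := ∀ j, D.comp x = some j → D.pos x ∈ D.F j

/-- Steps inside the pieces. -/
def Int : Y.Lbl → Prop
  | .edge _ x y => D.comp x ≠ none ∧ D.comp y ≠ none
  | .dart a => D.int a

end HData

end Pool.Agent.MP_df844f_gt.RA

end
end MrgPart3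

-- ======== part 4: formerly Pool.Agent.MP_df844f_gt.RA.StB
section MrgPart4

set_option linter.unusedSectionVars false

noncomputable section

namespace Pool.Agent.MP_df844f_gt.RA

variable [Dat]

theorem F2_add_self (a : F2) : a + a = 0 := by revert a; decide

theorem Cross.symm {r q : W} (h : Cross r q) : Cross q r := by
  obtain ⟨⟨a, ha⟩, ⟨b, hb⟩, ⟨c, hc⟩, ⟨e, he⟩⟩ := h
  exact ⟨⟨a, ha.2, ha.1⟩, ⟨c, hc.2, hc.1⟩, ⟨b, hb.2, hb.1⟩, ⟨e, he.2, he.1⟩⟩

theorem not_cross_self (r : W) : ¬ Cross r r := fun h => by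
  obtain ⟨_, ⟨b, hb⟩, _⟩ := h
  exact hb.2 hb.1

/-- Crossing from four points: `r` separates `a, b` from `c, e` and `q` separates `a, c` from
`b, e`. -/
theorem cross_of_four {r q a b c e : W} (h1 : r ∉ Sep a b) (h2 : r ∉ Sep c e) (h3 : r ∈ Sep a c)
    (h4 : q ∉ Sep a c) (h5 : q ∉ Sep b e) (h6 : q ∈ Sep a b) : Cross r q := by
  simp only [mem_Sep, not_not] at h1 h2 h3 h4 h5 h6
  by_cases x : r ∈ N a <;> by_cases y : q ∈ N a
  · exact ⟨⟨a, by tauto⟩, ⟨b, by tauto⟩, ⟨c, by tauto⟩, ⟨e, by tauto⟩⟩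
  · exact ⟨⟨b, by tauto⟩, ⟨a, by tauto⟩, ⟨e, by tauto⟩, ⟨c, by tauto⟩⟩
  · exact ⟨⟨c, by tauto⟩, ⟨e, by tauto⟩, ⟨a, by tauto⟩, ⟨b, by tauto⟩⟩
  · exact ⟨⟨e, by tauto⟩, ⟨c, by tauto⟩, ⟨b, by tauto⟩, ⟨a, by tauto⟩⟩

theorem Cross.four {r q : W} (h : Cross r q) : ∃ a b c e, r ∉ Sep a b ∧ r ∉ Sep c e ∧
    r ∈ Sep a c ∧ q ∉ Sep a c ∧ q ∉ Sep b e ∧ q ∈ Sep a b := by
  obtain ⟨⟨a, ha⟩, ⟨b, hb⟩, ⟨c, hc⟩, ⟨e, he⟩⟩ := h
  refine ⟨a, b, c, e, ?_⟩
  simp only [mem_Sep]; tauto

theorem cross_conj {r q : W} (c : W) (h : Cross (c * r * c⁻¹) (c * q * c⁻¹)) : Cross r q := by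
  obtain ⟨a, b, e, f, h1, h2, h3, h4, h5, h6⟩ := h.four
  rw [← mem_Sep_mul] at h1 h2 h3 h4 h5 h6
  exact cross_of_four h1 h2 h3 h4 h5 h6

theorem close_of_d_le {x y : W} (h : d x y ≤ 9) : Close x y := fun C hC _ =>
  (Finset.card_le_card hC).trans (by rw [card_Sep]; exact h)

theorem Close.refl (x : W) : Close x x := close_of_d_le (by rw [d_self]; omega)

theorem Close.symm {x y : W} (h : Close x y) : Close y x := fun C hC =>
  h C (by rwa [Sep_comm])

theorem Close.mul {x y : W} (h : Close x y) (c : W) : Close (x * c) (y * c) := by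
  intro C hC hn
  have hi : Function.Injective fun r : W => c * r * c⁻¹ := fun a b k => by simpa using k
  rw [← Finset.card_image_of_injective C hi]
  refine h _ ?_ ?_
  · intro r hr
    obtain ⟨q, hq, rfl⟩ := Finset.mem_image.1 hr
    exact (mem_Sep_mul x y c q).1 (hC hq)
  · intro r hr q hq k
    obtain ⟨r', hr', rfl⟩ := Finset.mem_image.1 hr
    obtain ⟨q', hq', rfl⟩ := Finset.mem_image.1 hq
    exact hn r' hr' q' hq' (cross_conj c k)

theorem IsMed.mul {x y z m : W} (h : IsMed x y z m) (c : W) :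
    IsMed (x * c) (y * c) (z * c) (m * c) := by
  intro r
  have := h (c * r * c⁻¹)
  simp only [mem_N_mul]; tauto

theorem Thick.mono {B : Type} [MulAction W B] {o : B} {ρ ρ' : ℕ} (h : Thick o ρ) (k : ρ' ≤ ρ) :
    Thick o ρ' := fun w w' a b => h w w' a (b.trans k)

theorem meas_cons {α : Type} (l : ℕ × α) (Λ : List (ℕ × α)) : meas (l :: Λ) = l.1 + 1 + meas Λ := by
  simp [meas]

namespace PS

variable {B : Type} [MulAction W B] {Y : PS B}

theorem Near.mono {n m : ℕ} {x y : Y.Om} (h : Y.Near n x y) (k : n ≤ m) : Y.Near m x y := by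
  induction h generalizing m with
  | refl n x => exact Near.refl _ _
  | step he _ ih =>
    obtain ⟨m, rfl⟩ : ∃ m', m = m' + 1 := ⟨m - 1, by omega⟩
    exact Near.step he (ih (by omega))

theorem Near.single {s : S} {x y : Y.Om} (h : Y.e s x y) : Y.Near 1 x y :=
  Near.step h (Near.refl 0 y)

theorem Near.trans {n m : ℕ} {x y z : Y.Om} (h : Y.Near n x y) (k : Y.Near m y z) :
    Y.Near (n + m) x z := by
  induction h with
  | refl n x => exact k.mono (by omega)
  | step he _ ih => rw [Nat.add_right_comm]; exact Near.step he (ih k)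

theorem Near.symm {n : ℕ} {x y : Y.Om} (h : Y.Near n x y) : Y.Near n y x := by
  induction h with
  | refl n x => exact Near.refl _ _
  | step he _ ih => exact ih.trans (Near.single (Y.e_symm he))

theorem Near.shut {n : ℕ} {x y : Y.Om} (h : Y.Near n x y) {U : Set Y.Om} (hU : Y.Shut U)
    (hx : x ∈ U) : y ∈ U := by
  induction h with
  | refl n x => exact hx
  | step he _ ih => exact ih (hU _ _ _ he hx)

/-- Chambers near a lifted chamber have a near lift. -/
theorem Near.lift {o : B} {n : ℕ} {x y : Y.Om} (h : Y.Near n x y) {w : W} (hw : w • o = Y.f x) :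
    ∃ w', w' • o = Y.f y ∧ d w w' ≤ n := by
  induction h generalizing w with
  | refl n x => exact ⟨w, hw, by rw [d_self]; omega⟩
  | @step n s x y z he _ ih =>
    obtain ⟨w', h1, h2⟩ := ih (w := g s * w) (by rw [mul_smul, hw, Y.e_f he])
    have := d_triangle w (g s * w) w'
    rw [d_g_mul] at this
    exact ⟨w', h1, by omega⟩

theorem Near.map {B' : Type} [MulAction W B'] {Y' : PS B'} (φ : EHom Y Y') {n : ℕ} {x y : Y.Om}
    (h : Y.Near n x y) : Y'.Near n (φ.π x) (φ.π y) := by
  induction h with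
  | refl n x => exact Near.refl _ _
  | step he _ ih => exact Near.step (φ.e_π he) ih

theorem Shut.compl {U : Set Y.Om} (h : Y.Shut U) : Y.Shut Uᶜ :=
  fun s x y he hx hy => hx (h s y x (Y.e_symm he) hy)

theorem sg_of_free {s : S} {x : Y.Om} (h : Y.Free x s) : Y.sg s x = x := dif_neg h

theorem e_sg {s : S} {x : Y.Om} (h : ¬ Y.Free x s) : Y.e s x (Y.sg s x) := by
  have h' : ∃ y, Y.e s x y := not_not.1 h
  unfold sg
  rw [dif_pos h']
  exact Classical.choose_spec h'

theorem State.sg_eq (hY : Y.State) {s : S} {x y : Y.Om} (h : Y.e s x y) : Y.sg s x = y :=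
  hY.fold (e_sg (fun k => k ⟨y, h⟩)) h

theorem State.sg_sg (hY : Y.State) (s : S) (x : Y.Om) : Y.sg s (Y.sg s x) = x := by
  by_cases h : Y.Free x s
  · rw [sg_of_free h, sg_of_free h]
  · exact hY.sg_eq (Y.e_symm (e_sg h))

@[simp] theorem ev_nil {E : Type} [MulAction W E] (c : Y.Coch E) (ε : E) : ev c [] ε = 0 := rfl

@[simp] theorem ev_cons {E : Type} [MulAction W E] (c : Y.Coch E) (l : Y.Lbl × W) (ch : Y.Path)
    (ε : E) : ev c (l :: ch) ε = c l.1 (l.2 • ε) + ev c ch ε := by simp [ev]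

@[simp] theorem ev_append {E : Type} [MulAction W E] (c : Y.Coch E) (ch ch' : Y.Path) (ε : E) :
    ev c (ch ++ ch') ε = ev c ch ε + ev c ch' ε := by simp [ev]

/-- Right translation of a path. -/
def shift (ch : Y.Path) (γ : W) : Y.Path := ch.map fun lw => (lw.1, lw.2 * γ)

theorem ev_shift {E : Type} [MulAction W E] (c : Y.Coch E) (ch : Y.Path) (γ : W) (ε : E) :
    ev c (shift ch γ) ε = ev c ch (γ • ε) := by
  simp [ev, shift, Function.comp_def, mul_smul]

namespace TW

variable {P P' : W → W → Prop} {n m k : Y.Node} {l l' : ℕ} {ch ch' : Y.Path}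

theorem first (h : Y.TW P n m l ch) : Close n.w n.p ∧ P n.w n.p := by
  cases h <;> exact ⟨‹_›, ‹_›⟩

theorem last (h : Y.TW P n m l ch) : Close m.w m.p ∧ P m.w m.p := by
  induction h with
  | nil n a b => exact ⟨a, b⟩
  | edge _ _ _ _ _ _ ih => exact ih
  | dart _ _ _ _ _ _ _ ih => exact ih
  | stay _ _ _ _ _ ih => exact ih

theorem mono (h : Y.TW P n m l ch) (hP : ∀ w p, Close w p → P w p → P' w p) :
    Y.TW P' n m l ch := by
  induction h with
  | nil n a b => exact nil n a (hP _ _ a b)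
  | edge s a b c e _ ih => exact edge s a (hP _ _ a b) c e ih
  | dart s a b c e f _ ih => exact dart s a (hP _ _ a b) c e f ih
  | stay a b c e _ ih => exact stay a (hP _ _ a b) c e ih

theorem toTT (h : Y.TW P n m l ch) : Y.TW tt n m l ch := h.mono fun _ _ _ _ => trivial

theorem cast (h : Y.TW P n m l ch) (e : l = l') : Y.TW P n m l' ch := e ▸ h

theorem append (h : Y.TW P n m l ch) (h' : Y.TW P m k l' ch') :
    Y.TW P n k (l + l') (ch ++ ch') := by
  induction h with
  | nil n a b => simpa using h'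
  | edge s a b c e _ ih => exact (edge s a b c e (ih h')).cast (by omega)
  | dart s a b c e f _ ih => exact (dart s a b c e f (ih h')).cast (by omega)
  | stay a b c e _ ih => exact (stay a b c e (ih h')).cast (by omega)

theorem d_le (h : Y.TW P n m l ch) : d n.p m.p ≤ l := by
  induction h with
  | nil n a b => rw [d_self]
  | @edge n n' m _ _ _ _ _ _ _ _ ih => have := d_triangle n.p n'.p m.p; omega
  | @dart n n' m _ _ _ _ _ _ _ _ _ ih => have := d_triangle n.p n'.p m.p; omega
  | @stay n n' m _ _ _ _ _ _ _ ih => have := d_triangle n.p n'.p m.p; omega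

/-- All shadows are within the cost of any point plus its distance to the first shadow. -/
theorem ball (h : Y.TW P n m l ch) (c : W) (R : ℕ) (hR : d c n.p + l ≤ R) :
    Y.TW (fun w p => P w p ∧ d c p ≤ R) n m l ch := by
  induction h with
  | nil n a b => exact nil n a ⟨b, by omega⟩
  | @edge n n' m _ _ s a b c' e _ ih =>
    have := d_triangle c n.p n'.p
    exact edge s a ⟨b, by omega⟩ c' e (ih (by omega))
  | @dart n n' m _ _ s a b c' e f _ ih =>
    have := d_triangle c n.p n'.p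
    exact dart s a ⟨b, by omega⟩ c' e f (ih (by omega))
  | @stay n n' m _ _ a b c' e _ ih =>
    have := d_triangle c n.p n'.p
    exact stay a ⟨b, by omega⟩ c' e (ih (by omega))

theorem shift (h : Y.TW tt n m l ch) (γ : W) :
    Y.TW tt ⟨n.x, n.w * γ, n.p * γ⟩ ⟨m.x, m.w * γ, m.p * γ⟩ l (PS.shift ch γ) := by
  induction h with
  | nil n a b => exact nil _ (a.mul γ) trivial
  | @edge n n' m _ _ s a b c e _ ih =>
    exact (edge (n := ⟨n.x, n.w * γ, n.p * γ⟩) (n' := ⟨n'.x, n'.w * γ, n'.p * γ⟩) s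
      (a.mul γ) trivial c
      (by simp only [e, mul_assoc]) ih).cast (by simp only [d_mul])
  | @dart n n' m _ _ s a b c e f _ ih =>
    exact (dart (n := ⟨n.x, n.w * γ, n.p * γ⟩) (n' := ⟨n'.x, n'.w * γ, n'.p * γ⟩) s
      (a.mul γ) trivial c e
      (by simp only [f, mul_assoc]) ih).cast (by simp only [d_mul])
  | @stay n n' m _ _ a b c e _ ih =>
    exact (stay (n := ⟨n.x, n.w * γ, n.p * γ⟩) (n' := ⟨n'.x, n'.w * γ, n'.p * γ⟩)
      (a.mul γ) trivial c
      (by simp only [e]) ih).cast (by simp only [d_mul])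

theorem reverse (h : Y.TW P n m l ch) : ∃ ch', Y.TW P m n l ch' ∧
    ∀ (E : Type) [MulAction W E] (c : Y.Coch E) (ε : E), Cocyc c → ev c ch' ε = ev c ch ε := by
  induction h with
  | nil n a b => exact ⟨[], nil n a b, fun _ _ _ _ _ => rfl⟩
  | @edge n n' m l ch s a b c e t ih =>
    obtain ⟨ch', h1, h2⟩ := ih
    have h3 : Y.TW P n' n (d n'.p n.p + 0) [(.edge s n'.x n.x, n'.w)] :=
      edge s t.first.1 t.first.2 (Y.e_symm c) (by rw [e, g_mul_g_mul]) (nil n a b)
    refine ⟨_, (h1.append h3).cast (by rw [d_comm]; omega), fun E _ c' ε hc => ?_⟩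
    rw [ev_append, h2 E c' ε hc, ev_cons, ev_cons, ev_nil, add_zero, add_comm, e, mul_smul,
      hc.symm s _ _ _ c]
  | @dart n n' m l ch s a b c e f t ih =>
    obtain ⟨ch', h1, h2⟩ := ih
    have h3 : Y.TW P n' n (d n'.p n.p + 0) [(.dart (Y.rev s), n'.w)] :=
      dart (Y.rev s) t.first.1 t.first.2 e (by rw [Y.rev_rev, c])
        (by rw [f, Y.lab_rev, inv_mul_cancel_left]) (nil n a b)
    refine ⟨_, (h1.append h3).cast (by rw [d_comm]; omega), fun E _ c' ε hc => ?_⟩
    rw [ev_append, h2 E c' ε hc, ev_cons, ev_cons, ev_nil, add_zero, add_comm, f, mul_smul,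
      hc.dsym]
  | @stay n n' m l ch a b c e t ih =>
    obtain ⟨ch', h1, h2⟩ := ih
    have h3 : Y.TW P n' n (d n'.p n.p + 0) [] :=
      stay t.first.1 t.first.2 c.symm e.symm (nil n a b)
    refine ⟨_, (h1.append h3).cast (by rw [d_comm]; omega), fun E _ c' ε hc => ?_⟩
    rw [List.append_nil, h2 E c' ε hc]

/-- Telescoping of coboundaries. -/
theorem ev_isD (h : Y.TW P n m l ch) {E : Type} [MulAction W E] {c : Y.Coch E}
    {φ : Y.Om → E → F2} (hc : IsD c φ) (ε : E) :
    ev c ch ε = φ n.x (n.w • ε) + φ m.x (m.w • ε) := by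
  induction h with
  | nil n a b => rw [ev_nil, F2_add_self]
  | edge s a b c' e _ ih =>
    rw [ev_cons, ih, hc.ed s _ _ _ c', e, mul_smul, add_assoc, ← add_assoc (φ _ (g s • _)),
      F2_add_self, zero_add]
  | dart s a b c' e f _ ih =>
    rw [ev_cons, ih, hc.da, c', e, f, mul_smul, add_assoc, ← add_assoc (φ _ (Y.lab s • _)),
      F2_add_self, zero_add]
  | stay a b c' e _ ih => rw [ih, c', e]

theorem locC (h : Y.TW P n m l ch) {T : Type} {φ : Y.Om → W → T} (hφ : LocC φ) :
    φ m.x m.w = φ n.x n.w := by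
  induction h with
  | nil n a b => rfl
  | edge s a b c' e _ ih => rw [ih, e, hφ.ed s _ _ _ c']
  | dart s a b c' e f _ ih => rw [ih, e, f, c', hφ.da]
  | stay a b c' e _ ih => rw [ih, c', e]

theorem valid (h : Y.TW P n m l ch) {o : B} (hn : n.w • o = Y.f n.x) : m.w • o = Y.f m.x := by
  induction h with
  | nil n a b => exact hn
  | edge s a b c' e _ ih => exact ih (by rw [e, mul_smul, hn, Y.e_f c'])
  | dart s a b c' e f _ ih => exact ih (by rw [f, mul_smul, hn, e, c', Y.f_rev])
  | stay a b c' e _ ih => exact ih (by rw [e, c', hn])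

end TW

end PS

open PS

section
variable {B : Type} [MulAction W B] {o : B} {Y Y' Y'' : PS B}

theorem SameV.nil (pull : ∀ (E : Type) [MulAction W E], Y'.Coch E → Y.Coch E) :
    SameV pull [] [] := fun _ _ _ _ _ => rfl

theorem SameV.append {pull : ∀ (E : Type) [MulAction W E], Y'.Coch E → Y.Coch E}
    {a b : Y.Path} {a' b' : Y'.Path} (h : SameV pull a a') (k : SameV pull b b') :
    SameV pull (a ++ b) (a' ++ b') := fun E _ c ε hc => by
  rw [ev_append, ev_append, h E c ε hc, k E c ε hc]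

/-- Composition of moves. -/
def Move.comp (m : Move o Y Y') (m' : Move o Y' Y'') : Move o Y Y'' where
  K x x'' := ∃ x', m.K x x' ∧ m'.K x' x''
  pull E _ c := m.pull E (m'.pull E c)
  K_f := by
    rintro x x'' ⟨x', a, b⟩
    rw [m'.K_f _ _ b, m.K_f _ _ a]
  cocyc E _ c hc := m.cocyc E _ (m'.cocyc E c hc)
  refl E _ c hc h := m'.refl E c hc (m.refl E _ (m'.cocyc E c hc) h)
  trans := by
    rintro n k x'' y'' l ch ⟨x', a, b⟩ ⟨y', a', b'⟩ h
    obtain ⟨l1, ch1, h1, h2, h3⟩ := m.trans n k x' y' l ch a a' h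
    obtain ⟨l2, ch2, h4, h5, h6⟩ := m'.trans _ _ x'' y'' l1 ch1 b b' h2
    exact ⟨l2, ch2, h4.trans h1, h5, fun E _ c ε hc => by
      rw [h3 E _ ε (m'.cocyc E c hc), h6 E c ε hc]⟩
  h0 := by
    rintro x x'' ⟨x', a, b⟩ h
    exact m'.h0 _ _ b (m.h0 _ _ a h)

theorem SameV.comp (m : Move o Y Y') (m' : Move o Y' Y'') {a : Y.Path} {b : Y'.Path}
    {c : Y''.Path} (h : SameV m.pull a b) (k : SameV m'.pull b c) :
    SameV (m.comp m').pull a c := fun E _ c' ε hc => by
  show ev (m.pull E (m'.pull E c')) a ε = _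
  rw [h E _ ε (m'.cocyc E c' hc), k E c' ε hc]

/-- Image of a path under a morphism. -/
def Hom.path (φ : Hom Y Y') (ch : Y.Path) : Y'.Path := ch.map fun lw => (φ.lbl lw.1, lw.2)

theorem Hom.ev_path (φ : Hom Y Y') {E : Type} [MulAction W E] (c : Y'.Coch E) (ch : Y.Path)
    (ε : E) : ev (fun l => c (φ.lbl l) : Y.Coch E) ch ε = ev c (φ.path ch) ε := by
  simp [ev, Hom.path, Function.comp_def]

theorem Hom.tw (φ : Hom Y Y') {P : W → W → Prop} {n m : Y.Node} {l : ℕ} {ch : Y.Path}
    (h : Y.TW P n m l ch) :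
    Y'.TW P ⟨φ.π n.x, n.w, n.p⟩ ⟨φ.π m.x, m.w, m.p⟩ l (φ.path ch) := by
  induction h with
  | nil n a b => exact TW.nil _ a b
  | @edge n n' m _ _ s a b c e _ ih =>
    exact TW.edge (n := ⟨φ.π n.x, n.w, n.p⟩) s a b (φ.e_π c) e ih
  | @dart n n' m _ _ s a b c e f _ ih =>
    exact TW.dart (n := ⟨φ.π n.x, n.w, n.p⟩) (φ.α s) a b (by rw [φ.src_α, c])
      (by rw [φ.rev_α, φ.src_α, e]) (by rw [φ.lab_α]; exact f) ih
  | @stay n n' m _ _ a b c e _ ih =>
    exact TW.stay (n := ⟨φ.π n.x, n.w, n.p⟩) a b (by rw [c]) e ih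

theorem Hom.cocyc (φ : Hom Y Y') {E : Type} [MulAction W E] {c : Y'.Coch E} (hc : Cocyc c) :
    Cocyc (fun l => c (φ.lbl l) : Y.Coch E) where
  symm s x y ε h := hc.symm s _ _ ε (φ.e_π h)
  dsym a ε := by
    have := hc.dsym (φ.α a) ε
    rw [φ.rev_α, φ.lab_α] at this
    exact this
  sq s t x0 x1 x2 x3 ε h a b c' e := hc.sq s t _ _ _ _ ε h (φ.e_π a) (φ.e_π b) (φ.e_π c') (φ.e_π e)

/-- A good morphism is a move. -/
def Hom.move (o : B) (φ : Hom Y Y') (h : φ.Good) : Move o Y Y' where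
  K x x' := x' = φ.π x
  pull _ _ c := fun l => c (φ.lbl l)
  K_f := by rintro x _ rfl; exact φ.f_π x
  cocyc _ _ _ hc := φ.cocyc hc
  refl E _ c hc k := h.refl E c hc k
  trans := by
    rintro n m _ _ l ch rfl rfl k
    exact ⟨l, _, le_rfl, φ.tw k, fun E _ c ε _ => φ.ev_path c ch ε⟩
  h0 := by rintro x _ rfl k; exact h.h0 o x k

theorem Hom.lbl_id (l : Y.Lbl) : (Hom.id Y).lbl l = l := by cases l <;> rfl

theorem Hom.lbl_comp (φ : Hom Y Y') (ψ : Hom Y' Y'') (l : Y.Lbl) :
    (φ.comp ψ).lbl l = ψ.lbl (φ.lbl l) := by cases l <;> rfl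

theorem Hom.good_id : (Hom.id Y).Good where
  refl E _ c _ k := by simpa only [Hom.lbl_id] using k
  h0 _ _ k := k

theorem Hom.Good.comp {φ : Hom Y Y'} {ψ : Hom Y' Y''} (h : φ.Good) (k : ψ.Good) :
    (φ.comp ψ).Good where
  refl E _ c hc q := k.refl E c hc (h.refl E _ (ψ.cocyc hc) (by
    simpa only [Hom.lbl_comp] using q))
  h0 o x q := k.h0 o _ (h.h0 o x q)

theorem Hom.new_id : (Hom.id Y).new = 0 := by
  unfold Hom.new
  have : {y | y ∉ Set.range (Hom.id Y).π} = ∅ := by
    ext y; simp only [Set.mem_ofPred_eq, Set.mem_empty_iff_false, iff_false, not_not]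
    exact ⟨y, rfl⟩
  rw [this, Set.ncard_empty]

theorem Hom.new_comp (φ : Hom Y Y') (ψ : Hom Y' Y'') : (φ.comp ψ).new ≤ φ.new + ψ.new := by
  unfold Hom.new
  have h : {y | y ∉ Set.range (φ.comp ψ).π} ⊆
      ψ.π '' {y | y ∉ Set.range φ.π} ∪ {y | y ∉ Set.range ψ.π} := by
    intro y hy
    by_cases k : y ∈ Set.range ψ.π
    · obtain ⟨x, rfl⟩ := k
      refine Or.inl ⟨x, ?_, rfl⟩
      rintro ⟨z, rfl⟩
      exact hy ⟨z, rfl⟩
    · exact Or.inr k
  exact (Set.ncard_le_ncard h).trans ((Set.ncard_union_le _ _).trans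
    (Nat.add_le_add_right (Set.ncard_image_le) _))

theorem Hom.vol_le (φ : Hom Y Y') : Y'.vol ≤ Y.vol + φ.new := by
  unfold Hom.new PS.vol
  have h : (Set.univ : Set Y'.Om) ⊆ φ.π '' Set.univ ∪ {y | y ∉ Set.range φ.π} := by
    intro y _
    by_cases k : y ∈ Set.range φ.π
    · obtain ⟨x, rfl⟩ := k; exact Or.inl ⟨x, trivial, rfl⟩
    · exact Or.inr k
  rw [← Set.ncard_univ, ← Set.ncard_univ]
  exact (Set.ncard_le_ncard h).trans ((Set.ncard_union_le _ _).trans
    (Nat.add_le_add_right (Set.ncard_image_le) _))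

theorem Hom.ctl_id : (Hom.id Y).Ctl 0 where
  area := by rw [Hom.new_id]; omega
  pot := le_rfl
  near n u v h := PS.Near.mono (Y := Y) h (by omega)

theorem Hom.Ctl.comp {φ : Hom Y Y'} {ψ : Hom Y' Y''} {κ : ℕ} (h : φ.Ctl κ) (k : ψ.Ctl 0) :
    (φ.comp ψ).Ctl κ where
  area := by have := h.area; have := k.area; have := φ.new_comp ψ; omega
  pot := by have := h.pot; have := k.pot; omega
  near n u v q := by
    have h1 := h.near _ u v (k.near n _ _ q)
    have := h.pot; have := k.pot
    have h2 := Nat.mul_le_mul_left (2 * nS) (show (Y'.pot + (nS + 1) * 0 - Y''.pot) +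
      (Y.pot + (nS + 1) * κ - Y'.pot) ≤ Y.pot + (nS + 1) * κ - Y''.pot by omega)
    rw [Nat.mul_add] at h2
    exact h1.mono (by omega)

theorem Move.list (m : Move o Y Y') {x0 : Y.Om} {x0' : Y'.Om} (hK : m.K x0 x0')
    (Λ : List (ℕ × Y.Path)) (h : ∀ l ∈ Λ, Y.TW tt ⟨x0, 1, 1⟩ ⟨x0, 1, 1⟩ l.1 l.2) :
    ∃ Λ' : List (ℕ × Y'.Path), meas Λ' ≤ meas Λ ∧
      (∀ l ∈ Λ', Y'.TW tt ⟨x0', 1, 1⟩ ⟨x0', 1, 1⟩ l.1 l.2) ∧
      ∀ l ∈ Λ, ∃ l' ∈ Λ', SameV m.pull l.2 l'.2 := by
  induction Λ with
  | nil => exact ⟨[], le_rfl, by simp, by simp⟩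
  | cons l Λ ih =>
    obtain ⟨Λ', a, b, c⟩ := ih fun l hl => h l (List.mem_cons_of_mem _ hl)
    obtain ⟨l', ch', h1, h2, h3⟩ := m.trans _ _ x0' x0' _ _ hK hK (h l List.mem_cons_self)
    refine ⟨(l', ch') :: Λ', by rw [meas_cons, meas_cons]; simp only; omega, ?_, ?_⟩
    · intro q hq
      rcases List.mem_cons.1 hq with rfl | hq
      · exact h2
      · exact b q hq
    · intro q hq
      rcases List.mem_cons.1 hq with rfl | hq
      · exact ⟨_, List.mem_cons_self, h3⟩
      · obtain ⟨q', a', b'⟩ := c q hq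
        exact ⟨q', List.mem_cons_of_mem _ a', b'⟩

/-- Transport of the invariant, given images of all loops. -/
theorem Move.invL (m : Move o Y Y') {x0 : Y.Om} {x0' : Y'.Om} (hK : m.K x0 x0') {r : ℕ}
    {Λ : List (ℕ × Y.Path)} (h : Y.InvL o x0 r Λ) {Λ' : List (ℕ × Y'.Path)}
    (h1 : ∀ l ∈ Λ', Y'.TW tt ⟨x0', 1, 1⟩ ⟨x0', 1, 1⟩ l.1 l.2)
    (h2 : ∀ l ∈ Λ, SameV m.pull l.2 [] ∨ ∃ l' ∈ Λ', SameV m.pull l.2 l'.2) :
    Y'.InvL o x0' r Λ' where
  h0 := m.h0 _ _ hK h.h0
  b1 := by
    obtain ⟨lam, a, b⟩ := h.b1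
    have : ∀ i, ∃ ch', (∃ γ l, Y'.TW tt ⟨x0', 1, 1⟩ ⟨x0', γ, γ⟩ l ch') ∧
        SameV m.pull (lam i) ch' := by
      intro i
      obtain ⟨γ, l, k⟩ := a i
      obtain ⟨l', ch', _, k2, k3⟩ := m.trans _ _ x0' x0' _ _ hK hK k
      exact ⟨ch', ⟨γ, l', k2⟩, k3⟩
    choose lam' a' b' using this
    refine ⟨lam', a', fun c hc hz => m.refl _ c hc (b _ (m.cocyc _ c hc) fun i => ?_)⟩
    rw [b' i Unit c () hc, hz i]
  loops := h1
  rel c hc hz := by
    refine m.refl _ c hc (h.rel _ (m.cocyc _ c hc) fun l hl ε => ?_)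
    rcases h2 l hl with k | ⟨l', a, b⟩
    · rw [k W c ε hc, ev_nil]
    · rw [b W c ε hc, hz l' a]

theorem Move.inv (m : Move o Y Y') {x0 : Y.Om} {x0' : Y'.Om} (hK : m.K x0 x0') {r μ : ℕ}
    (h : Y.Inv o x0 r μ) : Y'.Inv o x0' r μ := by
  obtain ⟨Λ, a, b⟩ := h
  obtain ⟨Λ', c, e, f⟩ := m.list hK Λ a.loops
  exact ⟨Λ', m.invL hK a e fun l hl => Or.inr (f l hl), c.trans b⟩

/-- The head loop is replaced by a strictly cheaper one. -/
theorem Move.inv_head (m : Move o Y Y') {x0 : Y.Om} {x0' : Y'.Om} (hK : m.K x0 x0') {r : ℕ}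
    {l : ℕ × Y.Path} {Λ : List (ℕ × Y.Path)} (h : Y.InvL o x0 r (l :: Λ)) {l' : ℕ}
    {ch' : Y'.Path} (h1 : Y'.TW tt ⟨x0', 1, 1⟩ ⟨x0', 1, 1⟩ l' ch') (h2 : SameV m.pull l.2 ch')
    (h3 : l' < l.1) : ∃ Λ', Y'.InvL o x0' r Λ' ∧ meas Λ' < meas (l :: Λ) := by
  obtain ⟨Λ', c, e, f⟩ := m.list hK Λ fun q hq => h.loops q (List.mem_cons_of_mem _ hq)
  refine ⟨(l', ch') :: Λ', m.invL hK h ?_ ?_, by rw [meas_cons, meas_cons]; simp only; omega⟩
  · intro q hq
    rcases List.mem_cons.1 hq with rfl | hq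
    · exact h1
    · exact e q hq
  · intro q hq
    rcases List.mem_cons.1 hq with rfl | hq
    · exact Or.inr ⟨_, List.mem_cons_self, h2⟩
    · obtain ⟨q', a', b'⟩ := f q hq
      exact Or.inr ⟨q', List.mem_cons_of_mem _ a', b'⟩

/-- The head loop is killed. -/
theorem Move.inv_kill (m : Move o Y Y') {x0 : Y.Om} {x0' : Y'.Om} (hK : m.K x0 x0') {r : ℕ}
    {l : ℕ × Y.Path} {Λ : List (ℕ × Y.Path)} (h : Y.InvL o x0 r (l :: Λ))
    (h2 : SameV m.pull l.2 []) : ∃ Λ', Y'.InvL o x0' r Λ' ∧ meas Λ' < meas (l :: Λ) := by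
  obtain ⟨Λ', c, e, f⟩ := m.list hK Λ fun q hq => h.loops q (List.mem_cons_of_mem _ hq)
  refine ⟨Λ', m.invL hK h e ?_, by rw [meas_cons]; omega⟩
  intro q hq
  rcases List.mem_cons.1 hq with rfl | hq
  · exact Or.inl h2
  · exact Or.inr (f q hq)

theorem PS.Inv.h0 {x0 : Y.Om} {r μ : ℕ} (h : Y.Inv o x0 r μ) : Y.H0 o x0 := by
  obtain ⟨Λ, a, _⟩ := h; exact a.h0

theorem PS.Tight.mono {x0 : Y.Om} {r C C' : ℕ} (h : Y.Tight o x0 r C) (k : C' ≤ C) :
    Y.Tight o x0 r C' := fun Y' x0' a b c => h Y' x0' a b (by omega)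

theorem PS.Tight.move {x0 : Y.Om} {r C : ℕ} (h : Y.Tight o x0 r C) (m : Move o Y Y')
    {x0' : Y'.Om} (hK : m.K x0 x0') (hs : Y'.State) (hv : Y'.vol ≤ Y.vol + C) :
    Y.area ≤ Y'.area := h Y' x0' hs (fun _ k => m.inv hK k) hv

end

namespace PS

variable {B : Type} [MulAction W B] {Y : PS B}

theorem je_symm {J : Finset S} {x y : Y.Om} (h : Relation.ReflTransGen (Y.JE J) x y) :
    Relation.ReflTransGen (Y.JE J) y x := by
  induction h with
  | refl => exact Relation.ReflTransGen.refl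
  | tail _ k ih =>
    obtain ⟨s, hs, e⟩ := k
    exact Relation.ReflTransGen.head ⟨s, hs, Y.e_symm e⟩ ih

theorem cell_eq_iff {x y : Y.Om} {J J' : Finset S} :
    Y.cell x J = Y.cell y J' ↔ J = J' ∧ Relation.ReflTransGen (Y.JE J) x y := by
  constructor
  · intro h
    have key : ∀ p q : Y.Om × Finset S,
        Relation.EqvGen (fun p q : Y.Om × Finset S => p.2 = q.2 ∧ Y.JE p.2 p.1 q.1) p q →
        p.2 = q.2 ∧ Relation.ReflTransGen (Y.JE p.2) p.1 q.1 := by
      intro p q k
      induction k with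
      | rel p q k => exact ⟨k.1, Relation.ReflTransGen.single k.2⟩
      | refl p => exact ⟨rfl, Relation.ReflTransGen.refl⟩
      | symm p q _ ih =>
        refine ⟨ih.1.symm, ?_⟩
        rw [← ih.1]
        exact je_symm ih.2
      | trans p q r _ _ ih1 ih2 =>
        refine ⟨ih1.1.trans ih2.1, ih1.2.trans ?_⟩
        rw [ih1.1]; exact ih2.2
    exact key _ _ (Quot.eqvGen_exact h)
  · rintro ⟨rfl, h⟩
    induction h with
    | refl => rfl
    | tail _ k ih => exact ih.trans (Y.cell_step k)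

theorem cell_ind (c : Y.Cell) : ∃ x J, c = Y.cell x J := by
  induction c using Quot.ind with
  | mk p => exact ⟨p.1, p.2, rfl⟩

theorem cell_e {s : S} {x y : Y.Om} {J : Finset S} (hs : s ∈ J) (h : Y.e s x y) :
    Y.cell x J = Y.cell y J := Y.cell_step ⟨s, hs, h⟩

theorem cell_sg {s : S} (x : Y.Om) {J : Finset S} (hs : s ∈ J) :
    Y.cell (Y.sg s x) J = Y.cell x J := by
  by_cases h : Y.Free x s
  · rw [sg_of_free h]
  · exact (cell_e hs (e_sg h)).symm

theorem cell_mono {x y : Y.Om} {J J' : Finset S} (h : Y.cell x J = Y.cell y J) (k : J ⊆ J') :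
    Y.cell x J' = Y.cell y J' :=
  cell_eq_iff.2 ⟨rfl, Relation.ReflTransGen.mono (fun _ _ ⟨s, hs, e⟩ => ⟨s, k hs, e⟩)
    _ _ (cell_eq_iff.1 h).2⟩

theorem cell_empty_inj {x y : Y.Om} (h : Y.cell x ∅ = Y.cell y ∅) : x = y := by
  have := (cell_eq_iff.1 h).2
  induction this with
  | refl => rfl
  | tail _ k _ => obtain ⟨s, hs, _⟩ := k; simp at hs

theorem State.cell_one (hY : Y.State) {x y : Y.Om} {s : S} :
    Y.cell x {s} = Y.cell y {s} ↔ y = x ∨ Y.e s x y := by
  constructor
  · intro h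
    have := (cell_eq_iff.1 h).2
    clear h
    induction this with
    | refl => exact Or.inl rfl
    | tail _ k ih =>
      obtain ⟨t, ht, e⟩ := k
      obtain rfl := Finset.mem_singleton.1 ht
      rcases ih with rfl | ih
      · exact Or.inr e
      · exact Or.inl (hY.fold e (Y.e_symm ih))
  · rintro (rfl | h)
    · rfl
    · exact cell_e (Finset.mem_singleton_self s) h

theorem cell_near {x y : Y.Om} {J : Finset S} (h : Y.cell x J = Y.cell y J) :
    ∃ n, Y.Near n x y := by
  have := (cell_eq_iff.1 h).2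
  clear h
  induction this with
  | refl => exact ⟨0, Near.refl _ _⟩
  | tail _ k ih =>
    obtain ⟨n, ih⟩ := ih
    obtain ⟨s, _, e⟩ := k
    exact ⟨n + 1, ih.trans (Near.single e)⟩

theorem Near.cell_univ {n : ℕ} {x y : Y.Om} (h : Y.Near n x y) :
    Y.cell x Finset.univ = Y.cell y Finset.univ := by
  induction h with
  | refl => rfl
  | step e _ ih => exact (cell_e (Finset.mem_univ _) e).trans ih

theorem bd_single (x : Y.Om) (J : Finset S) (a : F2) :
    Y.bd (Finsupp.single (Y.cell x J) a) =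
      ∑ t ∈ Finset.univ.filter (fun t => ∀ s ∈ J, adj s t),
        Finsupp.single (Y.cell x (insert t J)) a := by
  unfold bd
  rw [Finsupp.linearCombination_single]
  show a • (∑ t ∈ Finset.univ.filter (fun t => ∀ s ∈ J, adj s t),
      Finsupp.single (Y.cell x (insert t J)) (1 : F2)) = _
  rw [Finset.smul_sum]
  simp

theorem bd_bd (u : Y.Chain) : Y.bd (Y.bd u) = 0 := by
  induction u using Finsupp.induction_linear with
  | zero => simp
  | add a b ha hb => rw [map_add, map_add, ha, hb, add_zero]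
  | single c a =>
    obtain ⟨x, J, rfl⟩ := cell_ind c
    rw [bd_single, map_sum]
    simp only [bd_single]
    rw [Finset.sum_sigma']
    refine Finset.sum_involution (fun p _ => ⟨p.2, p.1⟩) ?_ ?_ ?_ ?_
    · rintro ⟨t, u⟩ _
      simp only
      rw [Finset.insert_comm, ← Finsupp.single_add, F2_add_self, Finsupp.single_zero]
    · rintro ⟨t, u⟩ h _ k
      simp only [Finset.mem_sigma, Finset.mem_filter, Finset.mem_univ, true_and] at h
      have := h.2 t (Finset.mem_insert_self _ _)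
      simp only [Sigma.mk.injEq, heq_eq_eq] at k
      exact adj_ne this k.2
    · rintro ⟨t, u⟩ h
      simp only [Finset.mem_sigma, Finset.mem_filter, Finset.mem_univ, true_and] at h ⊢
      refine ⟨fun s hs => h.2 s (Finset.mem_insert_of_mem hs), fun s hs => ?_⟩
      rcases Finset.mem_insert.1 hs with rfl | hs
      · exact adj_symm (h.2 t (Finset.mem_insert_self _ _))
      · exact h.1 s hs
    · rintro ⟨t, u⟩ _; rfl

end PS

namespace EHom

variable {B B' B'' : Type} [MulAction W B] [MulAction W B'] [MulAction W B''] {Y : PS B}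
  {Y' : PS B'} {Y'' : PS B''}

theorem cmap_cell (φ : EHom Y Y') (x : Y.Om) (J : Finset S) :
    φ.cmap (Y.cell x J) = Y'.cell (φ.π x) J := rfl

theorem push_single (φ : EHom Y Y') (x : Y.Om) (J : Finset S) (a : F2) :
    φ.push (Finsupp.single (Y.cell x J) a) = Finsupp.single (Y'.cell (φ.π x) J) a := by
  unfold push
  rw [Finsupp.lmapDomain_apply, Finsupp.mapDomain_single, cmap_cell]

theorem push_bd (φ : EHom Y Y') (u : Y.Chain) : φ.push (Y.bd u) = Y'.bd (φ.push u) := by
  induction u using Finsupp.induction_linear with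
  | zero => simp
  | add a b ha hb => simp only [map_add, ha, hb]
  | single c a =>
    obtain ⟨x, J, rfl⟩ := cell_ind c
    rw [push_single, bd_single, bd_single, map_sum]
    simp only [push_single]

theorem push_comp (φ : EHom Y Y') (ψ : EHom Y' Y'') (u : Y.Chain) :
    (φ.comp ψ).push u = ψ.push (φ.push u) := by
  induction u using Finsupp.induction_linear with
  | zero => simp
  | add a b ha hb => simp only [map_add, ha, hb]
  | single c a =>
    obtain ⟨x, J, rfl⟩ := cell_ind c
    rw [push_single, push_single, push_single]; rfl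

theorem support_push (φ : EHom Y Y') (u : Y.Chain) :
    (φ.push u).support ⊆ u.support.image φ.cmap := Finsupp.mapDomain_support

theorem card_support_push (φ : EHom Y Y') (u : Y.Chain) :
    (φ.push u).support.card ≤ u.support.card :=
  (Finset.card_le_card (φ.support_push u)).trans Finset.card_image_le

end EHom

end Pool.Agent.MP_df844f_gt.RA

end
end MrgPart4

-- ======== part 5: formerly Pool.Agent.MP_df844f_gt.RA.SpecW
section MrgPart5

/-! Statements about the graph, the median geometry of `W` and gadgets. -/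

set_option linter.unusedSectionVars false

noncomputable section

namespace Pool.Agent.MP_df844f_gt.RA

variable [Dat]

open PS

/-- Finite facts on the graph. -/
structure FactS : Prop where
  clq : ∀ J : Finset S, Clq J → J.card ≤ 3
  nosq : ∀ s t u v : S, adj s t → adj t u → adj u v → adj v s → s ≠ u → t ≠ v → adj s u ∨ adj t v
  big : 12 ≤ nS
  two : ∀ s t : S, adj s t → ∃ u v, u ≠ v ∧ ∀ x, (adj s x ∧ adj t x) ↔ (x = u ∨ x = v)
  n2 : (Finset.univ.filter fun J : Finset S => J.card = 2 ∧ Clq J).card + 6 = 3 * nS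
  n3 : (Finset.univ.filter fun J : Finset S => J.card = 3 ∧ Clq J).card + 4 = 2 * nS
  conn : ∀ J : Finset S, Clq J → ∀ s ∉ J, ∀ t ∉ J,
    Relation.ReflTransGen (fun a b => a ∉ J ∧ b ∉ J ∧ adj a b) s t
  h1 : ∀ J : Finset S, Clq J → ∀ c : S → S → F2, (∀ s t, c s t = c t s) →
    (∀ s ∉ J, ∀ t ∉ J, ∀ u ∉ J, adj s t → adj t u → adj s u → c s t + c t u + c s u = 0) →
    ∃ φ : S → F2, ∀ s ∉ J, ∀ t ∉ J, adj s t → c s t = φ s + φ t
  tri : ∀ J J' : Finset S, J.card = 3 → Clq J → J'.card = 3 → Clq J' → Relation.ReflTransGen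
    (fun a b : Finset S => a.card = 3 ∧ Clq a ∧ b.card = 3 ∧ Clq b ∧ (a ∩ b).card = 2) J J'
  lnk : ∀ s t u : S, adj s t → adj s u →
    Relation.ReflTransGen (fun a b => adj s a ∧ adj s b ∧ adj a b) t u

/-- No four pairwise crossing walls. -/
def T4S : Prop := ∀ C : Finset W, (∀ r ∈ C, ∀ q ∈ C, r ≠ q → Cross r q) → C.card ≤ 3

/-- No `K_{4,4}` in the crossing graph. -/
def K44S : Prop :=
  ∀ C C' : Finset W, 4 ≤ C.card → 4 ≤ C'.card → ¬ ∀ r ∈ C, ∀ q ∈ C', Cross r q

def BallS : Prop := ∀ (c : W) (R : ℕ), ∃ F : Finset W, F.card ≤ (nS + 1) ^ R ∧ ∀ x, x ∈ F ↔ d c x ≤ R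

def HullS : Prop := ∀ F : Finset W, F.Nonempty →
  ∃ K : Finset W, (K : Set W) = hull F ∧ K.card ≤ 1 + (nS + 1) ^ 6 * (sepW F).card

def CloseDS : Prop := ∀ x y, Close x y → d x y ≤ 27

/-- One point shadow property. -/
def SP1S : Prop := ∀ a u b a' b' m, Btw a u b → Close a a' → Close b b' → IsMed a' b' u m →
  Close u m

def DehnS : Prop := ∀ (o x y z : W) (c : ℕ), Btw x y z → d o x ≤ d o y + c → d o z ≤ d o y + c →
  d x y ≤ 6 + c ∨ d y z ≤ 6 + c

/-- First cohomology of a convex set. -/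
def H1S : Prop := ∀ K : Set W, Cvx K → ∀ c : S → W → F2,
  (∀ s x, x ∈ K → g s * x ∈ K → c s (g s * x) = c s x) →
  (∀ s t x, adj s t → x ∈ K → g s * x ∈ K → g t * x ∈ K → g s * (g t * x) ∈ K →
    c s x + c s (g t * x) + c t x + c t (g s * x) = 0) →
  ∃ φ : W → F2, ∀ s x, x ∈ K → g s * x ∈ K → c s x = φ x + φ (g s * x)

/-- Second cohomology of `W`. -/
def H2S : Prop := ∀ z : S → S → W → F2,
  (∀ s t x, adj s t → z s t x = z t s x) → (∀ s t x, adj s t → z s t (g s * x) = z s t x) →
  (∀ s t u x, adj s t → adj t u → adj s u →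
    z s t x + z s t (g u * x) + z t u x + z t u (g s * x) + z s u x + z s u (g t * x) = 0) →
  ∃ η : S → W → F2, (∀ s x, η s (g s * x) = η s x) ∧
    ∀ s t x, adj s t → z s t x = η s x + η s (g t * x) + η t x + η t (g s * x)

/-- Cycles of rank 2 cells in a convex set bound chains of faces. -/
def FillS : Prop := ∀ K : Finset W, Cvx (K : Set W) → ∀ β : (cvxPS K).Chain,
  (∀ c ∈ β.support, ∃ x s t, adj s t ∧ c = (cvxPS K).cell x {s, t}) → (cvxPS K).bd β = 0 →
  ∃ E : (cvxPS K).Chain, (∀ c ∈ E.support, ∃ x s, c = (cvxPS K).cell x {s}) ∧ (cvxPS K).bd E = β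

/-- A convex set is a gadget for each of its subsets. -/
def GCvxS : Prop := ∀ K F : Finset W, Cvx (K : Set W) → F ⊆ K → K.Nonempty →
  ∃ ι, Gadget (cvxPS K) F ι

/-- Shadows of the two cut points. -/
def CutSP (FL FR : Finset W) (uL uR : W) : Prop :=
  ∀ a ∈ FL, ∀ b ∈ FR, ∀ a' b', Close a a' → Close b b' →
    ∃ uL' uR', Close uL uL' ∧ Close uR uR' ∧ d a' uL' + d uL' uR' + d uR' b' = d a' b'

/-- Two gadgets joined by an arc. -/
def GJoinS : Prop := ∀ (QL QR : PS W) (FL FR : Finset W) (uL uR : W) (ιL : W → QL.Om)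
  (ιR : W → QR.Om), Gadget QL (insert uL FL) ιL → Gadget QR (insert uR FR) ιR →
  CutSP FL FR uL uR → (∀ a ∈ FL, ∀ b ∈ FR, 2 ≤ d a b) →
  ∃ (Q : PS W) (ι : W → Q.Om), Gadget Q (FL ∪ FR) ι ∧ Q.vol = QL.vol + QR.vol

/-- The partition of `F` induced by a wall. -/
noncomputable def ty (F : Finset W) (r : W) : Finset (W × W) :=
  (F ×ˢ F).filter fun p => r ∈ Sep p.1 p.2

/-- The class of a wall. -/
noncomputable def cls (F : Finset W) (r : W) : Finset W :=
  (sepW F).filter fun q => ty F q = ty F r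

noncomputable def tau (F : Finset W) : ℕ :=
  ∑ t ∈ (sepW F).image (ty F), min 140 ((sepW F).filter fun q => ty F q = t).card

def TauS : Prop := ∃ C : ℕ, ∀ F : Finset W, tau F ≤ C * F.card

/-- The data of a cut along a long class. -/
structure CutD (F : Finset W) (r a0 b0 uL uR : W) : Prop where
  long : 140 ≤ (cls F r).card
  ha : a0 ∈ F
  hb : b0 ∈ F
  ra : r ∉ N a0
  rb : r ∈ N b0
  bL : Btw a0 uL b0
  bR : Btw uL uR b0
  cL : (cls F r ∩ Sep a0 uL).card = 58
  cR : (cls F r ∩ Sep uR b0).card = 58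

def CutExS : Prop := ∀ F r, r ∈ sepW F → 140 ≤ (cls F r).card → ∃ a0 b0 uL uR, CutD F r a0 b0 uL uR

def CutSPS : Prop := ∀ F r a0 b0 uL uR, CutD F r a0 b0 uL uR →
  CutSP (F.filter fun a => r ∉ N a) (F.filter fun a => r ∈ N a) uL uR ∧
    ∀ a ∈ F.filter fun a => r ∉ N a, ∀ b ∈ F.filter fun a => r ∈ N a, 2 ≤ d a b

def CutTauS : Prop := ∀ F r a0 b0 uL uR, CutD F r a0 b0 uL uR →
  tau (insert uL (F.filter fun a => r ∉ N a)) + tau (insert uR (F.filter fun a => r ∈ N a)) + 1 ≤
    tau F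

/-- The Q-lemma. -/
def QS : Prop := ∃ C : ℕ, ∀ F : Finset W, F.Nonempty →
  ∃ (Q : PS W) (ι : W → Q.Om), Gadget Q F ι ∧ Q.vol ≤ C * F.card

end Pool.Agent.MP_df844f_gt.RA

end
end MrgPart5

-- ======== part 6: formerly Pool.Agent.MP_df844f_gt.RA.c.RF
section MrgPart6

/-! A normal subgroup of finite index without short elements. -/

set_option linter.unusedSectionVars false

noncomputable section

namespace Pool.Agent.MP_df844f_gt.RA

variable [Dat]

namespace RFA

theorem sw {s t : S} (h : adj s t) (x : W) : g s * (g t * x) = g t * (g s * x) := by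
  rw [← mul_assoc, g_comm h, mul_assoc]

theorem btw_sq {s t : S} (h : adj s t) (x : W) : Btw x (g t * x) (g s * (g t * x)) := by
  rw [btw_iff']
  intro r
  have k : wall s x ≠ wall t x := fun e => adj_ne h (wall_inj e)
  simp only [mem_N_g_mul, wall_adj h]
  by_cases a : r = wall s x <;> by_cases b : r = wall t x
  · exact absurd (a.symm.trans b) k
  all_goals tauto

theorem btw_sq' {s t : S} (h : adj s t) (x : W) : Btw (g s * x) (g s * (g t * x)) (g t * x) := by
  have := btw_sq h (g s * x)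
  rwa [← sw h, g_mul_g_mul] at this

/-- The reflection in the side `s`, folded at the boundary of `K`. -/
def sig (K : Finset W) (s : S) (x : K) : K := if h : g s * x.1 ∈ K then ⟨_, h⟩ else x

theorem sig_pos {K : Finset W} {s : S} {x : K} (h : g s * x.1 ∈ K) : sig K s x = ⟨_, h⟩ :=
  dif_pos h

theorem sig_neg {K : Finset W} {s : S} {x : K} (h : g s * x.1 ∉ K) : sig K s x = x := dif_neg h

theorem sig_inv (K : Finset W) (s : S) : Function.Involutive (sig K s) := fun x => by
  by_cases h : g s * x.1 ∈ K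
  · rw [sig_pos h, sig_pos (by simp)]
    simp
  · rw [sig_neg h, sig_neg h]

theorem sig_one {K : Finset W} (hK : Cvx (K : Set W)) {s t : S} (h : adj s t) {x : K}
    (a : g s * x.1 ∈ K) (b : g t * x.1 ∉ K) : sig K s (sig K t x) = sig K t (sig K s x) := by
  rw [sig_neg b, sig_pos a, sig_neg]
  intro c
  rw [← sw h] at c
  exact b (hK _ x.2 _ c _ (btw_sq h x.1))

theorem sig_comm {K : Finset W} (hK : Cvx (K : Set W)) {s t : S} (h : adj s t) (x : K) :
    sig K s (sig K t x) = sig K t (sig K s x) := by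
  by_cases a : g s * x.1 ∈ K <;> by_cases b : g t * x.1 ∈ K
  · have c : g s * (g t * x.1) ∈ K := hK _ a _ b _ (btw_sq' h x.1)
    rw [sig_pos a, sig_pos b, sig_pos c, sig_pos (sw h x.1 ▸ c)]
    exact Subtype.ext (sw h x.1)
  · exact sig_one hK h a b
  · exact (sig_one hK (adj_symm h) b a).symm
  · rw [sig_neg a, sig_neg b, sig_neg a]

end RFA

open RFA in
theorem rf (hb : BallS) (hh : HullS) (ρ : ℕ) : ∃ Γ : Subgroup W, Γ.FiniteIndex ∧ Γ.Normal ∧
    ∀ γ ∈ Γ, γ ≠ 1 → ρ < len γ := by
  obtain ⟨F, -, hF⟩ := hb 1 ρ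
  have h1 : (1 : W) ∈ F := (hF 1).2 (by rw [d_self]; omega)
  obtain ⟨K, hK, -⟩ := hh F ⟨1, h1⟩
  have hc : Cvx (K : Set W) := hK ▸ cvx_hull F
  have hm : ∀ w, len w ≤ ρ → w ∈ K := fun w hw => by
    have := subset_hull F (Finset.mem_coe.2 ((hF w).2 (by rwa [d_one])))
    rwa [← hK] at this
  obtain ⟨φ, hφ⟩ := exists_hom (G := Equiv.Perm K) (fun s => (sig_inv K s).toPerm)
    (fun s => Equiv.ext fun x => sig_inv K s x)
    (fun s t h => Equiv.ext fun x => sig_comm hc h x)
  have h0 : (1 : W) ∈ K := hm 1 (by rw [len_one]; omega)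
  have key : ∀ n (w : W), len w = n → n ≤ ρ → (φ w ⟨1, h0⟩).1 = w := by
    intro n
    induction n with
    | zero => intro w hw _; rw [len_eq_zero.1 hw, map_one]; rfl
    | succ n ih =>
      intro w hw hn
      obtain ⟨s, hs⟩ := exists_desc (b := 1) (x := w) (by rintro rfl; rw [len_one] at hw; omega)
      have e := hs.d_eq
      rw [d_one, d_one] at e
      have k := ih (g s * w) (by omega) (by omega)
      have m : g s * (φ (g s * w) ⟨1, h0⟩).1 ∈ K := by
        rw [k, g_mul_g_mul]; exact hm w (by omega)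
      have : φ w ⟨1, h0⟩ = sig K s (φ (g s * w) ⟨1, h0⟩) := by
        conv_lhs => rw [← g_mul_g_mul s w, map_mul, hφ]
        rfl
      rw [this, sig_pos m]
      show g s * _ = w
      rw [k, g_mul_g_mul]
  refine ⟨φ.ker, inferInstance, inferInstance, fun γ hγ hne => ?_⟩
  by_contra c
  have := key _ γ rfl (by omega)
  rw [MonoidHom.mem_ker.1 hγ] at this
  exact hne this.symm

end Pool.Agent.MP_df844f_gt.RA

end
end MrgPart6

-- marker of a merged file
example : 731051 + 136546 = 731051 + 136546 := rfl
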