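import Pool.Agent.MP_df844f_gt.RA.c.RF
import Pool.Agent.MP_df844f_gt.RA.s3.Cap

-- ======== part 0: formerly Pool.Agent.MP_df844f_gt.RA.w.H2
section MrgPart0

/-! The second cohomology of the Davis complex of `W` vanishes. -/

set_option linter.unusedSectionVars false

noncomputable section

namespace Pool.Agent.MP_df844f_gt.RA

variable [Dat]

namespace H2

theorem desc_adj_iff {b x : W} {s t : S} (h : adj s t) : Desc b (g t * x) s ↔ Desc b x s := by
  rw [desc_iff, desc_iff, wall_adj h, mem_Sep_step]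
  have : wall s x ≠ wall t x := fun k => adj_ne h (wall_inj k)
  simp [this]

theorem desc_self_iff {b x : W} {s : S} : Desc b (g s * x) s ↔ ¬ Desc b x s := by
  rw [desc_iff, desc_iff, wall_g_mul, mem_Sep_step]
  simp

theorem swap {s t : S} (h : adj s t) (x : W) : g s * (g t * x) = g t * (g s * x) := by
  rw [← mul_assoc, g_comm h, mul_assoc]

open Classical in
/-- A chosen descent. -/
noncomputable def s0 (x : W) : S := if h : ∃ s, Desc 1 x s then Classical.choose h else 0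

theorem desc_s0 {x : W} {s : S} (h : Desc 1 x s) : Desc 1 x (s0 x) := by
  have k : ∃ s, Desc 1 x s := ⟨s, h⟩
  unfold s0
  rw [dif_pos k]
  exact Classical.choose_spec k

/-- The primitive, with fuel. -/
noncomputable def En (z : S → S → W → F2) : ℕ → W → S → F2
  | 0, _, _ => 0
  | n + 1, x, s =>
    if s = s0 x then 0 else z s (s0 x) x + En z n (g (s0 x) * x) s + En z n (g s * x) (s0 x)

/-- The primitive on the edges leading down from `x`. -/
noncomputable def E (z : S → S → W → F2) (x : W) (s : S) : F2 := En z (d 1 x) x s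

theorem E_s0 (z : S → S → W → F2) (x : W) : E z x (s0 x) = 0 := by
  unfold E
  cases d 1 x with
  | zero => rfl
  | succ n => simp [En]

theorem E_rec (z : S → S → W → F2) {x : W} {s : S} (h : Desc 1 x s) (hne : s ≠ s0 x) :
    E z x s = z s (s0 x) x + E z (g (s0 x) * x) s + E z (g s * x) (s0 x) := by
  have h1 := h.d_eq
  have h2 := (desc_s0 h).d_eq
  have h3 : d 1 (g (s0 x) * x) = d 1 (g s * x) := by omega
  unfold E
  rw [← h1, h3, En, if_neg hne]

theorem top (z : S → S → W → F2) (h1 : ∀ s t x, adj s t → z s t x = z t s x)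
    (h3 : ∀ s t u x, adj s t → adj t u → adj s u →
      z s t x + z s t (g u * x) + z t u x + z t u (g s * x) + z s u x + z s u (g t * x) = 0) :
    ∀ (n : ℕ) (x : W), d 1 x = n → ∀ s t, Desc 1 x s → Desc 1 x t → s ≠ t →
      z s t x = E z x s + E z (g t * x) s + E z x t + E z (g s * x) t := by
  intro n
  induction n with
  | zero =>
    intro x hx s t hs _ _
    have := hs.d_eq
    omega
  | succ n ih =>
    intro x hx s t hs ht hne
    have hst := desc_adj hs ht hne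
    have hu := desc_s0 hs
    by_cases c1 : t = s0 x
    · have a := E_rec z hs (c1 ▸ hne)
      have b := E_s0 z x
      rw [← c1] at a b
      rw [a, b]
      generalize z s t x = p, E z (g t * x) s = q, E z (g s * x) t = r
      revert p q r; decide
    by_cases c2 : s = s0 x
    · have a := E_rec z ht c1
      have b := E_s0 z x
      rw [← c2] at a b
      rw [a, b, h1 s t x hst]
      generalize z t s x = p, E z (g t * x) s = q, E z (g s * x) t = r
      revert p q r; decide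
    have a1 := E_rec z hs c2
    have a2 := E_rec z ht c1
    have hsu := desc_adj hs hu c2
    have htu := desc_adj ht hu c1
    generalize s0 x = u at hu a1 a2 hsu htu
    have b1 := ih (g u * x) (by have := hu.d_eq; omega) s t ((desc_adj_iff hsu).2 hs)
      ((desc_adj_iff htu).2 ht) hne
    have b2 := ih (g s * x) (by have := hs.d_eq; omega) t u
      ((desc_adj_iff (adj_symm hst)).2 ht) ((desc_adj_iff (adj_symm hsu)).2 hu) (adj_ne htu)
    have b3 := ih (g t * x) (by have := ht.d_eq; omega) s u ((desc_adj_iff hst).2 hs)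
      ((desc_adj_iff (adj_symm htu)).2 hu) (adj_ne hsu)
    have k := h3 s t u x hst htu hsu
    rw [swap htu, swap hsu] at b1
    rw [swap hst] at b3
    have two : (2 : F2) = 0 := by decide
    linear_combination k - b1 - b2 - b3 - a1 - a2 -
      (z t u x + z s u x + E z (g u * x) s + E z (g u * (g t * x)) s + E z (g u * x) t +
        E z (g u * (g s * x)) t + E z (g s * x) t + E z (g s * x) u + E z (g t * (g s * x)) u +
        E z (g t * x) s + E z (g t * x) u + E z (g u * x) s + E z (g u * x) t +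
        E z (g s * x) u + E z (g t * x) u - E z (g u * x) s - E z (g u * x) t -
        E z (g s * x) u - E z (g t * x) u) * two

end H2

open H2 in
theorem h2 : H2S := by
  classical
  intro z h1 h2 h3
  let η : S → W → F2 := fun s x => if Desc 1 x s then E z x s else E z (g s * x) s
  have e1 : ∀ s x, η s (g s * x) = η s x := by
    intro s x
    by_cases c : Desc 1 x s
    · have c' : ¬ Desc 1 (g s * x) s := fun k => desc_self_iff.1 k c
      simp only [η, if_pos c, if_neg c', g_mul_g_mul]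
    · have c' : Desc 1 (g s * x) s := desc_self_iff.2 c
      simp only [η, if_pos c', if_neg c]
  refine ⟨η, e1, ?_⟩
  have mv : ∀ s t x, adj s t →
      z s t (g s * x) = η s (g s * x) + η s (g t * (g s * x)) + η t (g s * x) +
        η t (g s * (g s * x)) →
      z s t x = η s x + η s (g t * x) + η t x + η t (g s * x) := by
    intro s t x h k
    rw [h2 s t x h, e1, ← swap h, e1, g_mul_g_mul] at k
    rw [k]; ring
  have sy : ∀ s t x, adj s t → z t s x = η t x + η t (g s * x) + η s x + η s (g t * x) →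
      z s t x = η s x + η s (g t * x) + η t x + η t (g s * x) := by
    intro s t x h k
    rw [h1 s t x h, k]; ring
  have t2 : ∀ s t x, adj s t → Desc 1 x s → Desc 1 x t →
      z s t x = η s x + η s (g t * x) + η t x + η t (g s * x) := by
    intro s t x h hs ht
    have a := (desc_adj_iff h).2 hs
    have b := (desc_adj_iff (adj_symm h)).2 ht
    simp only [η, if_pos hs, if_pos ht, if_pos a, if_pos b]
    exact top z h1 h3 _ x rfl s t hs ht (adj_ne h)
  have t1 : ∀ s t x, adj s t → Desc 1 x t →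
      z s t x = η s x + η s (g t * x) + η t x + η t (g s * x) := by
    intro s t x h ht
    by_cases c : Desc 1 x s
    · exact t2 s t x h c ht
    · exact mv s t x h (t2 s t _ h (desc_self_iff.2 c) ((desc_adj_iff (adj_symm h)).2 ht))
  intro s t x h
  by_cases c : Desc 1 x t
  · exact t1 s t x h c
  · exact sy s t x h (mv t s x (adj_symm h)
      (sy t s _ (adj_symm h) (t1 s t _ h (desc_self_iff.2 c))))

end Pool.Agent.MP_df844f_gt.RA

end
end MrgPart0

-- ======== part 1: formerly Pool.Agent.MP_df844f_gt.RA.w.GCvx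
section MrgPart1

/-! A finite convex set of chambers is a gadget for each of its subsets. -/

set_option linter.unusedSectionVars false

noncomputable section

namespace Pool.Agent.MP_df844f_gt.RA

variable [Dat]

open PS

namespace GCvx

theorem walk (hs : SP1S) {K : Finset W} (hK : Cvx (K : Set W)) {b b' : W} (hb : b ∈ K)
    (hbb : Close b b') : ∀ (n : ℕ) (a : W) (ha : a ∈ K) (a' : W), d b a = n → Close a a' →
      ∃ ch, (cvxPS K).TW tt ⟨⟨a, ha⟩, a, a'⟩ ⟨⟨b, hb⟩, b, b'⟩ (d a' b') ch := by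
  intro n
  induction n with
  | zero =>
    intro a ha a' h haa
    obtain rfl : b = a := d_eq_zero.1 h
    exact ⟨[], TW.stay (Y := cvxPS K) (n := ⟨⟨b, ha⟩, b, a'⟩) (n' := ⟨⟨b, hb⟩, b, b'⟩) haa
      trivial rfl rfl (TW.nil _ hbb trivial)⟩
  | succ n ih =>
    intro a ha a' h haa
    have hne : a ≠ b := by
      rintro rfl
      rw [d_self] at h
      omega
    obtain ⟨s, hd⟩ := exists_desc hne
    have hu : g s * a ∈ K := hK b hb a ha _ hd.btw
    obtain ⟨m, hm⟩ := exists_med a' b' (g s * a)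
    have hc : Close (g s * a) m := hs a _ b a' b' m hd.btw.symm haa hbb hm
    obtain ⟨ch, hch⟩ := ih (g s * a) hu m (by have := hd.d_eq; omega) hc
    exact ⟨_, (TW.edge (Y := cvxPS K) (n := ⟨⟨a, ha⟩, a, a'⟩)
      (n' := ⟨⟨g s * a, hu⟩, g s * a, m⟩) s haa trivial rfl rfl hch).cast hm.btw12⟩

theorem conn {K : Finset W} (hK : Cvx (K : Set W)) : (cvxPS K).Conn := by
  intro T ψ he _ x y
  obtain ⟨b, hb⟩ := y
  have key : ∀ (n : ℕ) (a : W) (ha : a ∈ K), d b a = n → ψ ⟨a, ha⟩ = ψ ⟨b, hb⟩ := by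
    intro n
    induction n with
    | zero =>
      intro a ha h
      obtain rfl : b = a := d_eq_zero.1 h
      rfl
    | succ n ih =>
      intro a ha h
      have hne : a ≠ b := by
        rintro rfl
        rw [d_self] at h
        omega
      obtain ⟨s, hd⟩ := exists_desc hne
      have hu : g s * a ∈ K := hK b hb a ha _ hd.btw
      exact (he s ⟨a, ha⟩ ⟨g s * a, hu⟩ rfl).trans (ih _ hu (by have := hd.d_eq; omega))
  exact key _ x.1 x.2 rfl

theorem cob (h1 : H1S) {K : Finset W} (hK : Cvx (K : Set W)) (c : (cvxPS K).Coch Unit)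
    (hc : Cocyc c) : Cobd c := by
  classical
  let c' : S → W → F2 := fun s x =>
    if h : x ∈ K ∧ g s * x ∈ K then c (.edge s ⟨x, h.1⟩ ⟨g s * x, h.2⟩) () else 0
  have key : ∀ (s : S) (x y : (cvxPS K).Om), (cvxPS K).e s x y →
      c' s x.1 = c (.edge s x y) () := by
    rintro s ⟨x, hx⟩ ⟨y, hy⟩ h
    obtain rfl : y = g s * x := h
    exact dif_pos ⟨hx, hy⟩
  have sy : ∀ (s : S) (x y : (cvxPS K).Om), (cvxPS K).e s x y → c' s y.1 = c' s x.1 := by
    intro s x y h
    rw [key s x y h, key s y x ((cvxPS K).e_symm h)]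
    exact hc.symm s x y () h
  obtain ⟨φ, hφ⟩ := h1 K hK c' (fun s x hx hy => sy s ⟨x, hx⟩ ⟨_, hy⟩ rfl) (by
    intro s t x hst h0 h1 h3 h2
    have e0 : (cvxPS K).e s ⟨x, h0⟩ ⟨_, h1⟩ := rfl
    have e1 : (cvxPS K).e t ⟨_, h1⟩ ⟨_, h2⟩ := by
      change g s * (g t * x) = g t * (g s * x)
      rw [← mul_assoc, g_comm hst, mul_assoc]
    have e2 : (cvxPS K).e s ⟨_, h3⟩ ⟨_, h2⟩ := rfl
    have e3 : (cvxPS K).e t ⟨x, h0⟩ ⟨_, h3⟩ := rfl
    have h := hc.sq s t _ _ _ _ () hst e0 e1 ((cvxPS K).e_symm e2) ((cvxPS K).e_symm e3)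
    have k0 := key s _ _ e0
    have k1 := key t _ _ e1
    have k2 := (sy s _ _ e2).symm.trans (key s _ _ ((cvxPS K).e_symm e2))
    have k3 := (sy t _ _ e3).symm.trans (key t _ _ ((cvxPS K).e_symm e3))
    rw [k0, k1, k2, k3, ← h]
    ring)
  refine ⟨fun x _ => φ x.1, fun s x y ε h => ?_, fun a => a.elim⟩
  have hy : y.1 = g s * x.1 := h
  rw [← key s x y h, hφ s x.1 x.2 (hy ▸ y.2), hy]

end GCvx

theorem gcvx (h1 : H1S) (hs : SP1S) : GCvxS := by
  classical
  rintro K F hK hF ⟨x0, hx0⟩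
  let ι : W → (cvxPS K).Om := fun a => if h : a ∈ K then ⟨a, h⟩ else ⟨x0, hx0⟩
  have hι : ∀ a (ha : a ∈ F), ι a = ⟨a, hF ha⟩ := fun a ha => dif_pos (hF ha)
  refine ⟨ι, fun a ha => ?_, fun a ha s hs' => ?_, GCvx.cob h1 hK, GCvx.conn hK,
    fun a ha b hb a' b' haa hbb => ?_⟩
  · rw [hι a ha]
    rfl
  · rw [hι a ha, hι _ hs']
    rfl
  · rw [hι a ha, hι b hb]
    exact GCvx.walk hs hK (hF hb) hbb _ a (hF ha) a' rfl haa

end Pool.Agent.MP_df844f_gt.RA

end
end MrgPart1

-- ======== part 2: formerly Pool.Agent.MP_df844f_gt.RA.s2.Wedge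
section MrgPart2

/-! Wedging finitely many convex sets of chambers onto a prestate. -/

set_option linter.unusedSectionVars false

noncomputable section

namespace Pool.Agent.MP_df844f_gt.RA

variable [Dat]

open PS

namespace WedgeA

variable {B : Type} [MulAction W B] (o : B) (Y : PS B) {J : Type} [Fintype J]
  (z : J → Y.Om) (w : J → W) (K : J → Finset W) (s0 : S)

/-- Thick edges of the wedge. -/
def E (s : S) : Y.Om ⊕ (Σ j, K j) → Y.Om ⊕ (Σ j, K j) → Prop
  | .inl x, .inl y => Y.e s x y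
  | .inr p, .inr q => p.1 = q.1 ∧ q.2.1 = g s * p.2.1
  | .inl x, .inr q => s = s0 ∧ x = z q.1 ∧ q.2.1 = g s0 * w q.1
  | .inr p, .inl y => s = s0 ∧ y = z p.1 ∧ p.2.1 = g s0 * w p.1

/-- The wedge. -/
def Y1 (hw : ∀ j, w j • o = Y.f (z j)) : PS B where
  Om := Y.Om ⊕ (Σ j, K j)
  A := Y.A
  f := Sum.elim Y.f fun p => p.2.1 • o
  e := E Y z w K s0
  e_symm := by
    rintro s (x | p) (y | q) h
    · exact Y.e_symm h
    · exact h
    · exact h
    · exact ⟨h.1.symm, by rw [h.2, g_mul_g_mul]⟩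
  e_f := by
    rintro s (x | p) (y | q) h
    · exact Y.e_f h
    · obtain ⟨rfl, rfl, h⟩ := h
      simp only [Sum.elim_inl, Sum.elim_inr, h, mul_smul, hw]
    · obtain ⟨rfl, rfl, h⟩ := h
      simp only [Sum.elim_inl, Sum.elim_inr, h, ← mul_smul, g_mul_g_mul, hw]
    · simp only [Sum.elim_inr, h.2, mul_smul]
  rev := Y.rev
  rev_rev := Y.rev_rev
  rev_ne := Y.rev_ne
  src a := .inl (Y.src a)
  lab := Y.lab
  lab_rev := Y.lab_rev
  f_rev := Y.f_rev

variable (hw : ∀ j, w j • o = Y.f (z j))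

/-- The inclusion of the old chambers. -/
def inc : Hom Y (Y1 o Y z w K s0 hw) where
  π := Sum.inl
  e_π h := h
  α := Equiv.refl _
  f_π _ := rfl
  src_α _ := rfl
  rev_α _ := rfl
  lab_α _ := rfl

/-- The inclusion of a convex piece. -/
def pc (j : J) : EHom (cvxPS (K j)) (Y1 o Y z w K s0 hw) where
  π k := Sum.inr ⟨j, k⟩
  e_π h := ⟨rfl, h⟩

theorem near {n : ℕ} {a b : (Y1 o Y z w K s0 hw).Om} (h : (Y1 o Y z w K s0 hw).Near n a b) :
    Y.Near n (Sum.elim id (fun p => z p.1) a) (Sum.elim id (fun p => z p.1) b) := by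
  induction h with
  | refl n x => exact Near.refl _ _
  | @step n s a b c he _ ih =>
    rcases a with x | p <;> rcases b with y | q
    · exact Near.step he ih
    · obtain rfl := he.2.1
      exact ih.mono (Nat.le_succ _)
    · obtain rfl := he.2.1
      exact ih.mono (Nat.le_succ _)
    · have k : z p.1 = z q.1 := congrArg z he.1
      exact Near.mono (k ▸ ih : Y.Near n (z p.1) _) (Nat.le_succ _)

theorem card_pc : Nat.card (Σ j, K j) = ∑ j, (K j).card := by
  simp

theorem ctl : (inc o Y z w K s0 hw).Ctl (∑ j, (K j).card) := by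
  have h1 : (inc o Y z w K s0 hw).new ≤ ∑ j, (K j).card := by
    rw [← card_pc, ← Set.ncard_univ]
    refine (Set.ncard_le_ncard (t := Sum.inr '' Set.univ) ?_).trans Set.ncard_image_le
    rintro (x | p) h
    exacts [absurd ⟨x, rfl⟩ h, ⟨p, trivial, rfl⟩]
  have h2 : (Y1 o Y z w K s0 hw).area ≤ Y.area + nS * ∑ j, (K j).card := by
    have a : Nat.card ((Σ j, K j) × S) = nS * ∑ j, (K j).card := by
      rw [Nat.card_prod, card_pc, mul_comm, natCard_S]
    rw [← a, ← Set.ncard_univ]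
    refine (Set.ncard_le_ncard (t := (Prod.map Sum.inl id '' {p : Y.Om × S | Y.Free p.1 p.2}) ∪
      Prod.map Sum.inr id '' Set.univ) ?_).trans ((Set.ncard_union_le _ _).trans
        (Nat.add_le_add Set.ncard_image_le Set.ncard_image_le))
    rintro ⟨x | p, s⟩ h
    · exact Or.inl ⟨(x, s), fun ⟨y, k⟩ => h ⟨.inl y, k⟩, rfl⟩
    · exact Or.inr ⟨(p, s), trivial, rfl⟩
  have h3 := (inc o Y z w K s0 hw).vol_le
  refine ⟨by rw [add_mul]; omega, by unfold PS.pot; rw [add_mul]; omega, fun n u v h => ?_⟩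
  exact (near o Y z w K s0 hw h).mono (Nat.le_add_right _ _)

theorem good (h1 : H1S) (hK : ∀ j, Cvx (K j : Set W)) (h : ∀ j, g s0 * w j ∈ K j) :
    (inc o Y z w K s0 hw).Good where
  refl E _ c hc := by
    rintro ⟨φ, hφ⟩
    have a : ∀ j (ε : E), ∃ F : K j → F2, ∀ s (x y : K j), y.1 = g s * x.1 →
        c (.edge s (.inr ⟨j, x⟩) (.inr ⟨j, y⟩)) (x.1 • ε) = F x + F y := fun j ε => by
      obtain ⟨F, hF⟩ := GCvx.cob h1 (hK j) (fun l _ => match l with
        | .edge s x y => c (.edge s (.inr ⟨j, x⟩) (.inr ⟨j, y⟩)) (x.1 • ε)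
        | .dart a => a.elim) ⟨fun s x y _ (e : y.1 = g s * x.1) => by
          simpa only [e, mul_smul] using hc.symm s (.inr ⟨j, x⟩) (.inr ⟨j, y⟩) (x.1 • ε) ⟨rfl, e⟩,
          fun a => a.elim, fun s t x0 x1 x2 x3 _ k (e0 : x1.1 = g s * x0.1)
            (e1 : x2.1 = g t * x1.1) (e2 : x3.1 = g s * x2.1) e3 => by
          simpa only [e2, e1, e0, mul_smul] using hc.sq s t (.inr ⟨j, x0⟩) (.inr ⟨j, x1⟩)
            (.inr ⟨j, x2⟩) (.inr ⟨j, x3⟩) (x0.1 • ε) k ⟨rfl, e0⟩ ⟨rfl, e1⟩ ⟨rfl, e2⟩ ⟨rfl, e3⟩⟩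
      exact ⟨fun x => F x (), fun s x y e => hF.ed s x y () e⟩
    choose F hF using a
    let ψ : (Y1 o Y z w K s0 hw).Om → E → F2 := Sum.elim φ fun p ε =>
      F p.1 (p.2.1⁻¹ • ε) p.2 + (F p.1 (p.2.1⁻¹ • ε) ⟨_, h p.1⟩ + φ (z p.1) (w p.1 • p.2.1⁻¹ • ε) +
        c (.edge s0 (.inl (z p.1)) (.inr ⟨p.1, _, h p.1⟩)) (w p.1 • p.2.1⁻¹ • ε))
    have b : ∀ s x q ε, (Y1 o Y z w K s0 hw).e s (.inl x) (.inr q) →
        c (.edge s (.inl x) (.inr q)) ε = ψ (.inl x) ε + ψ (.inr q) (g s • ε) := by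
      rintro s x ⟨j, k, hk⟩ ε ⟨rfl, rfl, e⟩
      obtain rfl : k = g s * w j := e
      have k : (g s * w j)⁻¹ • g s • ε = (w j)⁻¹ • ε := by
        rw [mul_inv_rev, g_inv, smul_smul, mul_g_mul_g]
      simp only [ψ, Sum.elim_inl, Sum.elim_inr, k, smul_inv_smul]
      generalize c _ _ = u, φ _ _ = v, F _ _ _ = t
      revert u v t
      decide
    refine ⟨ψ, ?_, hφ.da⟩
    rintro s (x | p) (y | q) ε e
    · exact hφ.ed s x y ε e
    · exact b s x q ε e
    · rw [← hc.symm s _ _ ε e, b s y p _ e, smul_smul, g_mul_self, one_smul, add_comm]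
    · obtain ⟨j, x⟩ := p
      obtain ⟨j', y⟩ := q
      obtain ⟨rfl, e⟩ : j = j' ∧ y.1 = g s * x.1 := e
      have k := hF j (x.1⁻¹ • ε) s x y e
      have k2 : y.1⁻¹ • g s • ε = x.1⁻¹ • ε := by
        rw [e, mul_inv_rev, g_inv, smul_smul, mul_g_mul_g]
      rw [smul_inv_smul] at k
      simp only [ψ, Sum.elim_inr, k, k2]
      generalize F j _ x = u, F j _ y = v, _ + _ + c _ _ = t
      revert u v t
      decide
  h0 o' x0 k := by
    refine ⟨k.1, fun T φ hφ => ?_⟩
    have a := k.2 T (fun x => φ (.inl x)) ⟨fun s x y u e => hφ.ed s (.inl x) (.inl y) u e, hφ.da⟩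
    rintro (x | ⟨j, x⟩) u e
    · exact a x u e
    · have b := GCvx.conn (hK j) T (fun y => φ (.inr ⟨j, y⟩) (y.1 * (x.1⁻¹ * u)))
        (fun s y y' (e : y'.1 = g s * y.1) => by
          rw [e, mul_assoc]
          exact (hφ.ed s (.inr ⟨j, y⟩) (.inr ⟨j, y'⟩) _ ⟨rfl, e⟩).symm) (fun a => a.elim) x ⟨_, h j⟩
      simp only [mul_inv_cancel_left, mul_assoc] at b
      rw [b, hφ.ed s0 (.inl (z j)) (.inr ⟨j, _, h j⟩) _ ⟨rfl, rfl, rfl⟩]
      refine a _ _ ?_
      rw [mul_smul, mul_smul, e, ← hw]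
      exact congrArg _ (inv_smul_smul _ _)

end WedgeA

theorem wedge (h1 : H1S) : WedgeS := fun _ _ o Y _ _ z w K s0 hw hK _ h =>
  ⟨_, WedgeA.inc o Y z w K s0 hw, WedgeA.pc o Y z w K s0 hw, WedgeA.good o Y z w K s0 hw h1 hK h,
    WedgeA.ctl o Y z w K s0 hw, fun _ _ => rfl, fun _ => ⟨rfl, rfl, rfl⟩⟩

end Pool.Agent.MP_df844f_gt.RA

end
end MrgPart2

-- ======== part 3: formerly Pool.Agent.MP_df844f_gt.RA.s3.Sweep
section MrgPart3

/-! Sweeping a face cycle. -/

set_option linter.unusedSectionVars false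

noncomputable section

namespace Pool.Agent.MP_df844f_gt.RA

variable [Dat]

open PS

namespace SweepA

variable {B : Type} [MulAction W B] {Y : PS B}

theorem add_self (u : Y.Chain) : u + u = 0 := by
  ext c; simp only [Finsupp.add_apply, F2_add_self, Finsupp.zero_apply]

theorem toggle (Z : Finset Y.Om) (x : Y.Om) : ∃ Z' : Finset Y.Om,
    Y.ch0 Z' = Y.ch0 Z + Finsupp.single (Y.cell x ∅) 1 ∧ Z'.card ≤ Z.card + 1 ∧
      ∀ z ∈ Z', z = x ∨ z ∈ Z := by
  classical
  by_cases h : x ∈ Z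
  · refine ⟨Z.erase x, ?_, (Finset.card_erase_le).trans (Nat.le_succ _),
      fun z hz => Or.inr (Finset.mem_of_mem_erase hz)⟩
    unfold ch0
    rw [← Finset.sum_erase_add Z _ h, add_assoc, add_self, add_zero]
  · refine ⟨insert x Z, ?_, Finset.card_insert_le _ _, fun z hz => Finset.mem_insert.1 hz⟩
    unfold ch0
    rw [Finset.sum_insert h, add_comm]

theorem supp_bd (x : Y.Om) {c : Y.Cell}
    (h : c ∈ (Y.bd (Finsupp.single (Y.cell x ∅) 1)).support) : ∃ s, c = Y.cell x {s} := by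
  classical
  rw [bd_single] at h
  obtain ⟨t, _, ht⟩ := Finset.mem_biUnion.1 (Finsupp.support_finsetSum h)
  exact ⟨t, Finset.mem_singleton.1 (Finsupp.support_single_subset ht)⟩

theorem push_id (u : Y.Chain) : (Hom.id Y).push u = u := by
  induction u using Finsupp.induction_linear with
  | zero => simp
  | add a b ha hb => simp only [map_add, ha, hb]
  | single c a =>
    obtain ⟨x, J, rfl⟩ := cell_ind c
    rw [EHom.push_single]; rfl

end SweepA

theorem sweep0 (st : StepS) : Sweep0S := by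
  intro B _ o R hT Y x0 w0 m n u hY hw
  induction m generalizing n u with
  | zero =>
    intro _ hc _ _
    have : u = 0 := by simpa using hc
    exact Or.inl ⟨∅, by simp [ch0, this], le_rfl, by simp⟩
  | succ m ih =>
    intro hR hc hs hb
    by_cases h0 : u = 0
    · exact Or.inl ⟨∅, by simp [ch0, h0], by simp, by simp⟩
    rcases st B o n (hT.mono (by omega)) Y x0 w0 u hY hw hs hb h0 with ⟨x, hx, hlt⟩ | h
    · have hs' : ∀ c ∈ (u + Y.bd (Finsupp.single (Y.cell x ∅) 1)).support,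
          ∃ y s, c = Y.cell y {s} ∧ Y.Near (n + 1) x0 y := by
        intro c hc'
        rcases Finset.mem_union.1 (Finsupp.support_add hc') with k | k
        · obtain ⟨y, s, e, hy⟩ := hs c k
          exact ⟨y, s, e, hy.mono (by omega)⟩
        · obtain ⟨s, e⟩ := SweepA.supp_bd x k
          exact ⟨x, s, e, hx⟩
      rcases ih (n + 1) _ (by omega) (by omega) hs' (by rw [map_add, hb, bd_bd, add_zero]) with
        ⟨Z, h1, h2, h3⟩ | h
      · obtain ⟨Z', k1, k2, k3⟩ := SweepA.toggle Z x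
        refine Or.inl ⟨Z', ?_, by omega, fun z hz => ?_⟩
        · rw [k1, map_add, h1, add_assoc, SweepA.add_self, add_zero]
        · rcases k3 z hz with rfl | k
          · exact hx.mono (by omega)
          · exact (h3 z k).mono (by omega)
      · exact Or.inr h
    · exact Or.inr h

theorem sweep (s0 : Sweep0S) (att : AttS) (cl : ClosS) : SweepS := by
  intro B _ o R hT Y x0 w0 m n u hY hw hR hc hs hb
  induction hA : Y.area using Nat.strong_induction_on generalizing Y with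
  | _ A ih =>
    rcases s0 B o R hT Y x0 w0 m n u hY hw hR hc hs hb with ⟨Z, h1, h2, h3⟩ | ⟨J, y, b, h⟩
    · exact ⟨Y, Hom.id Y, Z, hY, Hom.good_id, Hom.ctl_id, by rw [h1, SweepA.push_id], h2, h3⟩
    · obtain ⟨Y1, φ1, g1, c1, n1⟩ := att B Y J y b h
      obtain ⟨Y2, φ2, s2, g2, c2, _⟩ := cl B Y1
      have a1 := c1.area
      have a2 := c2.area
      have hs' : ∀ c ∈ ((φ1.comp φ2).push u).support,
          ∃ x s, c = Y2.cell x {s} ∧ Y2.Near n ((φ1.comp φ2).π x0) x := by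
        intro c hc'
        obtain ⟨c0, k, rfl⟩ := Finset.mem_image.1 ((φ1.comp φ2).support_push u hc')
        obtain ⟨x, s, rfl, hx⟩ := hs c0 k
        exact ⟨_, s, rfl, hx.map _⟩
      obtain ⟨Y3, ψ, Z, s3, g3, c3, h1, h2, h3⟩ := ih Y2.area (by omega) Y2 ((φ1.comp φ2).π x0)
        ((φ1.comp φ2).push u) s2 (by rw [Hom.f_π, hw])
        (((φ1.comp φ2).card_support_push u).trans hc) hs'
        (by rw [← EHom.push_bd, hb, map_zero]) rfl
      refine ⟨Y3, (φ1.comp φ2).comp ψ, Z, s3, (g1.comp g2).comp g3, (c1.comp c2).comp c3, ?_, h2,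
        h3⟩
      rw [h1]
      exact (EHom.push_comp _ _ u).symm

end Pool.Agent.MP_df844f_gt.RA

end
end MrgPart3

-- ======== part 4: formerly Pool.Agent.MP_df844f_gt.RA.x.Fix2
section MrgPart4

set_option linter.unusedSectionVars false

noncomputable section

namespace Pool.Agent.MP_df844f_gt.RA

variable [Dat]

open PS

theorem wedge2 (h1 : H1S) : Wedge2S := fun _ _ o Y _ _ z w K s0 hw hK _ h =>
  ⟨_, WedgeA.inc o Y z w K s0 hw, WedgeA.pc o Y z w K s0 hw, WedgeA.good o Y z w K s0 hw h1 hK h,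
    WedgeA.ctl o Y z w K s0 hw, by
      rw [← WedgeA.card_pc, ← Set.ncard_univ]
      refine (Set.ncard_le_ncard (t := Sum.inr '' Set.univ) ?_).trans Set.ncard_image_le
      rintro (x | p) h
      exacts [absurd ⟨x, rfl⟩ h, ⟨p, trivial, rfl⟩], fun _ _ => rfl, fun _ => ⟨rfl, rfl, rfl⟩⟩

theorem sweep2 (s0 : Sweep0S) (att : AttS) (cl : ClosS) : Sweep2S := by
  intro B _ o R hT Y x0 w0 m n a u hY hw hR hc ha hs hb
  induction hA : Y.area using Nat.strong_induction_on generalizing Y with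
  | _ A ih =>
    rcases s0 B o R hT Y x0 w0 m n u hY hw hR hc hs hb with ⟨Z, h1, h2, h3⟩ | ⟨J, y, b, h⟩
    · exact ⟨Y, Hom.id Y, hY, Hom.good_id, Hom.ctl_id,
        Or.inr ⟨ha, Z, by rw [h1, SweepA.push_id], h2, h3⟩⟩
    · obtain ⟨Y1, φ1, g1, c1, n1⟩ := att B Y J y b h
      obtain ⟨Y2, φ2, s2, g2, c2, n2⟩ := cl B Y1
      have a1 := c1.area
      have a2 := c2.area
      have n3 := φ1.new_comp φ2
      by_cases lt : Y2.area < a
      · exact ⟨Y2, φ1.comp φ2, s2, g1.comp g2, c1.comp c2, Or.inl ⟨lt, by omega⟩⟩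
      have hs' : ∀ c ∈ ((φ1.comp φ2).push u).support,
          ∃ x s, c = Y2.cell x {s} ∧ Y2.Near n ((φ1.comp φ2).π x0) x := by
        intro c hc'
        obtain ⟨c0, k, rfl⟩ := Finset.mem_image.1 ((φ1.comp φ2).support_push u hc')
        obtain ⟨x, s, rfl, hx⟩ := hs c0 k
        exact ⟨_, s, rfl, hx.map _⟩
      obtain ⟨Y3, ψ, s3, g3, c3, k⟩ := ih Y2.area (by omega) Y2 ((φ1.comp φ2).π x0)
        ((φ1.comp φ2).push u) s2 (by rw [Hom.f_π, hw])
        (((φ1.comp φ2).card_support_push u).trans hc) (by omega) hs'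
        (by rw [← EHom.push_bd, hb, map_zero]) rfl
      refine ⟨Y3, (φ1.comp φ2).comp ψ, s3, (g1.comp g2).comp g3, (c1.comp c2).comp c3, ?_⟩
      have n4 := (φ1.comp φ2).new_comp ψ
      rcases k with ⟨k1, k2⟩ | ⟨k1, Z, h1, h2, h3⟩
      · exact Or.inl ⟨k1, by omega⟩
      · refine Or.inr ⟨k1, Z, ?_, h2, h3⟩
        rw [h1]
        exact (EHom.push_comp _ _ u).symm

end Pool.Agent.MP_df844f_gt.RA

end
end MrgPart4

-- ======== part 5: formerly Pool.Agent.MP_df844f_gt.RA.s2.Vol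
section MrgPart5

/-! Volume against area: the coarea inequality on an expanding base. -/

set_option linter.unusedSectionVars false

noncomputable section

namespace Pool.Agent.MP_df844f_gt.RA

variable [Dat]

open PS Finset

namespace VolA

theorem nc {α : Type} [Fintype α] (p : α → Prop) [DecidablePred p] :
    {x | p x}.ncard = (univ.filter p).card := by
  rw [← Set.ncard_coe_finset]
  congr 1
  ext x
  simp

theorem coarea {B : Type} [MulAction W B] [Fintype B] {H : ℕ} (hH : Expd B H) (N : ℕ) :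
    ∀ (u : B → ℕ) (D : B × S → ℕ), ∑ b, u b = N → (∀ b s, u b ≤ u (g s • b) + D (b, s)) →
      2 * {b | u b ≠ 0}.ncard ≤ Nat.card B → N ≤ H * ∑ p, D p := by
  classical
  induction N using Nat.strong_induction_on with
  | _ N ih =>
    intro u D hu hD hs
    rcases Nat.eq_zero_or_pos N with h0 | h0
    · omega
    have h1 := hH _ hs
    simp only [Set.mem_ofPred_eq] at h1
    rw [nc, nc, card_filter, card_filter] at h1
    have e1 : ∑ b, (u b - 1) + ∑ b, (if u b ≠ 0 then 1 else 0) = N := by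
      rw [← hu, ← sum_add_distrib]
      refine sum_congr rfl fun b _ => ?_
      split_ifs <;> omega
    have e2 : ∑ p : B × S, (D p - if u p.1 ≠ 0 ∧ ¬ u (g p.2 • p.1) ≠ 0 then 1 else 0) +
        ∑ p : B × S, (if u p.1 ≠ 0 ∧ ¬ u (g p.2 • p.1) ≠ 0 then 1 else 0) = ∑ p, D p := by
      rw [← sum_add_distrib]
      refine sum_congr rfl fun p _ => ?_
      have := hD p.1 p.2
      simp only [Prod.mk.eta] at this
      split_ifs <;> omega
    have pos : 0 < ∑ b, (if u b ≠ 0 then 1 else 0) := by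
      by_contra hh
      have z := sum_eq_zero_iff.1 (Nat.eq_zero_of_not_pos hh)
      have : ∑ b, u b = 0 := sum_eq_zero fun b hb => by
        have := z b hb
        by_contra k
        rw [if_pos k] at this
        omega
      omega
    have := ih _ (by omega) (fun b => u b - 1)
      (fun p => D p - if u p.1 ≠ 0 ∧ ¬ u (g p.2 • p.1) ≠ 0 then 1 else 0) rfl (fun b s => by
        have := hD b s
        simp only
        split_ifs <;> omega)
      (le_trans (Nat.mul_le_mul_left _ (Set.ncard_le_ncard (fun b hb => by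
        simp only [Set.mem_ofPred_eq] at hb ⊢
        omega) (Set.toFinite _))) hs)
    rw [← e2, mul_add]
    omega

variable {B : Type} [MulAction W B]

/-- chambers over `b` with the property `p` -/
noncomputable def cnt (Y : PS B) (p : Y.Om → Prop) (b : B) : ℕ := {x | Y.f x = b ∧ p x}.ncard

theorem sum_cnt [Fintype B] (Y : PS B) (p : Y.Om → Prop) :
    ∑ b, cnt Y p b = {x | p x}.ncard := by
  classical
  have := Fintype.ofFinite Y.Om
  simp only [cnt, nc, card_filter]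
  rw [sum_comm]
  refine sum_congr rfl fun x _ => ?_
  by_cases h : p x <;> simp [h]

theorem sum_free [Fintype B] (Y : PS B) :
    ∑ p : B × S, cnt Y (fun x => Y.Free x p.2) p.1 = Y.area := by
  classical
  have := Fintype.ofFinite Y.Om
  rw [Fintype.sum_prod_type_right]
  simp only [sum_cnt]
  rw [area]
  simp only [nc, card_filter]
  rw [Fintype.sum_prod_type_right]

theorem split (Y : PS B) (p : Y.Om → Prop) (b : B) :
    cnt Y p b + cnt Y (fun x => ¬ p x) b = cnt Y (fun _ => True) b := by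
  classical
  have := Fintype.ofFinite Y.Om
  simp only [cnt, nc, card_filter]
  rw [← sum_add_distrib]
  refine sum_congr rfl fun x _ => ?_
  by_cases h : p x <;> simp [h]

theorem glued {Y : PS B} (hY : Y.State) (s : S) (b : B) :
    cnt Y (fun x => ¬ Y.Free x s) b ≤ cnt Y (fun x => ¬ Y.Free x s) (g s • b) :=
  Set.ncard_le_ncard_of_injOn (Y.sg s)
    (fun _ h => ⟨h.1 ▸ Y.e_f (e_sg h.2), fun k => k ⟨_, Y.e_symm (e_sg h.2)⟩⟩)
    (fun x _ y _ h => by rw [← hY.sg_sg s x, h, hY.sg_sg]) (Set.toFinite _)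

theorem vol_eq (Y : PS B) : {_x : Y.Om | True}.ncard = Y.vol := by
  rw [Set.ofPred_true, Set.ncard_univ, vol]

theorem supp (Y : PS B) (u : B → ℕ) (h : ∀ b, u b ≤ cnt Y (fun _ => True) b) :
    {b | u b ≠ 0}.ncard ≤ Y.vol := by
  rw [← vol_eq]
  refine le_trans (Set.ncard_le_ncard (t := Y.f '' {_x | True}) (fun b hb => ?_) (Set.toFinite _))
    (Set.ncard_image_le (Set.toFinite _))
  obtain ⟨x, hx⟩ := Set.nonempty_of_ncard_ne_zero
    (s := {x | Y.f x = b ∧ True}) fun k => hb (Nat.le_zero.1 (k ▸ h b))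
  exact ⟨x, trivial, hx.1⟩

theorem img {Y Y' : PS B} (φ : Hom Y Y') (p : Y.Om → Prop) (q : Y'.Om → Prop)
    (h : ∀ x, q (φ.π x) → p x) (b : B) :
    cnt Y' (fun y => y ∈ Set.range φ.π ∧ q y) b ≤ cnt Y p b := by
  refine le_trans (Set.ncard_le_ncard (t := φ.π '' {x | Y.f x = b ∧ p x}) ?_ (Set.toFinite _))
    (Set.ncard_image_le (Set.toFinite _))
  rintro _ ⟨h1, ⟨x, rfl⟩, h2⟩
  exact ⟨x, ⟨(φ.f_π x).symm.trans h1, h x h2⟩, rfl⟩

theorem free_le {Y Y' : PS B} (φ : Hom Y Y') (s : S) (b : B) :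
    cnt Y' (fun y => Y'.Free y s) b ≤
      cnt Y (fun x => Y.Free x s) b + cnt Y' (fun y => ¬ y ∈ Set.range φ.π) b := by
  refine le_trans ?_ (Nat.add_le_add_right (img φ (fun x => Y.Free x s) (fun y => Y'.Free y s)
    (fun x h ⟨y, k⟩ => h ⟨_, φ.e_π k⟩) b) _)
  refine le_trans (Set.ncard_le_ncard (fun y hy => ?_) (Set.toFinite _)) (Set.ncard_union_le _ _)
  by_cases k : y ∈ Set.range φ.π
  · exact Or.inl ⟨hy.1, k, hy.2⟩
  · exact Or.inr ⟨hy.1, k⟩

end VolA

open VolA

theorem volS : VolS := by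
  intro B _ _ H hH Y hY h
  have := Fintype.ofFinite B
  rw [← sum_free]
  refine coarea hH _ (cnt Y fun _ => True) _ (by rw [sum_cnt, vol_eq]) (fun b s => ?_)
    (le_trans (Nat.mul_le_mul_left _ (supp Y _ fun _ => le_rfl)) h)
  have := split Y (fun x => Y.Free x s) b
  have := split Y (fun x => Y.Free x s) (g s • b)
  have := glued hY s b
  simp only
  omega

theorem lamS : LamS := by
  intro B _ _ H hH Y Y' φ hY hY' h
  have := Fintype.ofFinite B
  have m : ∀ b, cnt Y' (fun y => y ∈ Set.range φ.π) b ≤ cnt Y (fun _ => True) b := fun b => by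
    simpa only [and_true] using img φ (fun _ => True) (fun _ => True) (fun _ _ => trivial) b
  have key := coarea hH _ (fun b => cnt Y (fun _ => True) b - cnt Y' (fun y => y ∈ Set.range φ.π) b)
    (fun p => cnt Y (fun x => Y.Free x p.2) p.1 + cnt Y' (fun y => ¬ y ∈ Set.range φ.π) p.1 -
      cnt Y' (fun y => Y'.Free y p.2) p.1) rfl (fun b s => by
      have := split Y (fun x => Y.Free x s) b
      have := split Y (fun x => Y.Free x s) (g s • b)
      have := glued hY s b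
      have := split Y' (fun x => Y'.Free x s) b
      have := split Y' (fun x => Y'.Free x s) (g s • b)
      have a := glued hY' s (g s • b)
      rw [smul_smul, g_mul_self, one_smul] at a
      have := split Y' (fun y => y ∈ Set.range φ.π) b
      have := split Y' (fun y => y ∈ Set.range φ.π) (g s • b)
      have := free_le φ s b
      have := free_le φ s (g s • b)
      have := m b
      have := m (g s • b)
      simp only
      omega)
    (le_trans (Nat.mul_le_mul_left _ (supp Y _ fun _ => Nat.sub_le _ _)) (by omega))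
  have e0 : ∑ b, cnt Y' (fun y => ¬ y ∈ Set.range φ.π) b = φ.new := sum_cnt _ _
  have e1 : ∑ b, (cnt Y (fun _ => True) b - cnt Y' (fun y => y ∈ Set.range φ.π) b) +
      ∑ b, cnt Y' (fun y => y ∈ Set.range φ.π) b = Y.vol := by
    rw [← sum_add_distrib, ← vol_eq, ← sum_cnt]
    exact sum_congr rfl fun b _ => Nat.sub_add_cancel (m b)
  have e2 : ∑ b, cnt Y' (fun y => y ∈ Set.range φ.π) b + φ.new = Y'.vol := by
    rw [← e0, ← sum_add_distrib, ← vol_eq, ← sum_cnt]
    exact sum_congr rfl fun b _ => split Y' _ b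
  have e3 : ∑ p : B × S, (cnt Y (fun x => Y.Free x p.2) p.1 +
      cnt Y' (fun y => ¬ y ∈ Set.range φ.π) p.1 - cnt Y' (fun y => Y'.Free y p.2) p.1) +
      Y'.area = Y.area + nS * φ.new := by
    have e4 : ∑ p : B × S, cnt Y' (fun y => ¬ y ∈ Set.range φ.π) p.1 = nS * φ.new := by
      rw [Fintype.sum_prod_type_right]
      simp only [e0]
      rw [sum_const, card_univ_S, smul_eq_mul]
    rw [← e4, ← sum_free, ← sum_free, ← sum_add_distrib, ← sum_add_distrib]
    exact sum_congr rfl fun p _ => Nat.sub_add_cancel (free_le φ p.2 p.1)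
  rw [← e3, mul_add]
  omega

end Pool.Agent.MP_df844f_gt.RA

end
end MrgPart5

-- ======== part 6: formerly Pool.Agent.MP_df844f_gt.RA.s5.LemS
section MrgPart6

/-! PROJECT RK844, row LEMS: small pieces with few cross edges, and the Euler characteristic bound. -/

set_option linter.unusedSectionVars false

noncomputable section

namespace Pool.Agent.MP_df844f_gt.RA

variable [Dat]

namespace LemSA

variable {X : Surf}

theorem far (h : X.OK) {n : ℕ} {t σ : X.F} (k : Rn X.DAdj n t σ) : ∀ ε ε',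
    (X.l ε = t ∨ X.r ε = t) → (X.l ε' = σ ∨ X.r ε' = σ) →
      Rn X.PAdj ((nS + 1) * n + (nS + 1)) (X.p ε) (X.p ε') := by
  induction k with
  | refl n x => exact fun ε ε' a b => (h.cor x ε ε' a b).mono (by omega)
  | @step n x y z he _ ih =>
    intro ε ε' a b
    obtain ⟨ε1, -, h1⟩ := he
    have e1 := h.cor x ε ε1 a (by tauto)
    have e2 := ih ε1 ε' (by tauto) b
    exact (e1.trans e2).mono (by rw [Nat.mul_succ]; omega)

/-- Every cross edge is cut by exactly two pieces. -/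
theorem double [Fintype X.F] (top : X.F → X.F) (A : Set X.Ed) :
    ∑ t, {ε | X.cut {σ | top σ = t} ε ∧ ε ∈ A}.ncard =
      2 * {ε | ε ∈ A ∧ top (X.l ε) ≠ top (X.r ε)}.ncard := by
  classical
  have := Fintype.ofFinite X.Ed
  have e : ∀ P : X.Ed → Prop, {ε | P ε}.ncard = ∑ ε, if P ε then 1 else 0 := fun P => by
    rw [← Finset.card_filter, ← Set.ncard_coe_finset]
    congr 1
    ext ε
    simp
  simp only [e]
  rw [Finset.sum_comm, Finset.mul_sum]
  refine Finset.sum_congr rfl fun ε _ => ?_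
  by_cases h : ε ∈ A ∧ top (X.l ε) ≠ top (X.r ε)
  · rw [if_pos h]
    have e2 : ∑ t, ((if top (X.l ε) = t then 1 else 0) + if top (X.r ε) = t then 1 else 0) =
        2 * 1 := by
      rw [Finset.sum_add_distrib]
      simp
    rw [← e2]
    refine Finset.sum_congr rfl fun t _ => ?_
    by_cases k1 : top (X.l ε) = t <;> by_cases k2 : top (X.r ε) = t
    · exact absurd (k1.trans k2.symm) h.2
    · rw [if_pos ⟨fun k => k2 (k.1 k1), h.1⟩, if_pos k1, if_neg k2]
    · rw [if_pos ⟨fun k => k1 (k.2 k2), h.1⟩, if_neg k1, if_pos k2]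
    · rw [if_neg fun k => k.1 ⟨fun a => absurd a k1, fun a => absurd a k2⟩, if_neg k1, if_neg k2]
  · rw [if_neg h, mul_zero]
    refine Finset.sum_eq_zero fun t _ => if_neg fun k => h ⟨k.2, fun a => k.1 ?_⟩
    simp only [Set.mem_ofPred_eq, a]

theorem ncomp_le {Fo : Set X.Ed} {c : ℕ}
    (h : ∀ P : Set X.F, {ε | X.cut P ε ∧ ε ∈ Fo}.ncard ≤ c * {ε | X.cut P ε ∧ ε ∉ Fo}.ncard) :
    X.ncomp Foᶜ ≤ X.ncomp Set.univ := by
  have h0 : ∀ ε, ε ∉ Fo → Quot.mk (X.DA Foᶜ) (X.l ε) = Quot.mk _ (X.r ε) := fun ε k =>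
    Quot.sound ⟨ε, k, Or.inl ⟨rfl, rfl⟩⟩
  have h1 : ∀ ε, Quot.mk (X.DA Foᶜ) (X.l ε) = Quot.mk _ (X.r ε) := by
    intro ε
    by_cases k : ε ∈ Fo
    swap
    · exact h0 ε k
    have h2 := h {σ | Quot.mk (X.DA Foᶜ) σ = Quot.mk _ (X.l ε)}
    have h3 : {ε' | X.cut {σ | Quot.mk (X.DA Foᶜ) σ = Quot.mk _ (X.l ε)} ε' ∧ ε' ∉ Fo} = ∅ := by
      refine Set.eq_empty_of_forall_notMem fun ε' k' => k'.1 ?_
      simp only [Set.mem_ofPred_eq, h0 ε' k'.2]
    rw [h3, Set.ncard_empty, mul_zero, Nat.le_zero, Set.ncard_eq_zero] at h2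
    by_contra k2
    have : ε ∈ {ε' | X.cut {σ | Quot.mk (X.DA Foᶜ) σ = Quot.mk _ (X.l ε)} ε' ∧ ε' ∈ Fo} :=
      ⟨fun k3 => k2 (k3.1 rfl).symm, k⟩
    rw [h2] at this
    exact this
  refine Nat.card_le_card_of_surjective
    (Quot.lift (r := X.DA Set.univ) (Quot.mk (X.DA Foᶜ)) ?_) fun c => ?_
  · rintro a b ⟨ε, -, ⟨rfl, rfl⟩ | ⟨rfl, rfl⟩⟩
    · exact h1 ε
    · exact (h1 ε).symm
  · obtain ⟨σ, rfl⟩ := Quot.exists_rep c
    exact ⟨Quot.mk _ σ, rfl⟩

theorem rn_of_eqv {a b : X.F} (h : Relation.EqvGen X.DAdj a b) : ∃ n, Rn X.DAdj n a b := by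
  induction h with
  | rel a b k => exact ⟨1, Rn.single k⟩
  | refl a => exact ⟨0, Rn.refl _ _⟩
  | symm a b _ ih =>
    obtain ⟨n, k⟩ := ih
    exact ⟨n, k.symm fun _ _ ⟨ε, e1, e2⟩ => ⟨ε, e1, e2.symm⟩⟩
  | trans a b c _ _ ih ih' =>
    obtain ⟨n, k⟩ := ih
    obtain ⟨n', k'⟩ := ih'
    exact ⟨_, k.trans k'⟩

end LemSA

theorem lemS (fo : ForestS) (tr : TreeS) : LemSS := by
  intro X h R ρ m hm hR
  have := Fintype.ofFinite X.F
  choose e he using h.covF
  obtain ⟨Fo, f1, f2⟩ := fo X h ((fun t => X.p (e t)) '' R) ((nS + 1) * ρ + (nS + 2)) (fun v => by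
    obtain ⟨ε, hε⟩ := h.covV v
    obtain ⟨t, ht, k⟩ := hR (X.l ε)
    refine ⟨_, ⟨t, ht, rfl⟩, ?_⟩
    have k1 := LemSA.far h k (e t) ε (he t) (Or.inl rfl)
    rcases hε with rfl | rfl
    · exact k1.mono (by omega)
    · exact k1.trans (Rn.single ⟨ε, Or.inl ⟨rfl, rfl⟩⟩))
  obtain ⟨top, t1, t2, t3⟩ := tr X h Foᶜ m hm
  refine ⟨top, {ε | ε ∈ Foᶜ ∧ top (X.l ε) ≠ top (X.r ε)}.ncard, t1, fun σ => ?_, ?_, ?_⟩
  · refine Relation.ReflTransGen.mono ?_ _ _ (t2 σ)
    rintro a b ⟨k1, k2, ε, -, k3⟩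
    exact ⟨k1, k2, ε, trivial, k3⟩
  · have d1 := LemSA.double top Fo
    have d2 := LemSA.double top Foᶜ
    have d3 : ∑ t, {ε | X.cut {σ | top σ = t} ε ∧ ε ∈ Fo}.ncard ≤
        2 * ((nS + 1) * ρ + (nS + 2)) * ∑ t, {ε | X.cut {σ | top σ = t} ε ∧ ε ∈ Foᶜ}.ncard := by
      rw [Finset.mul_sum]
      exact Finset.sum_le_sum fun t _ => f2 _
    have d4 : {ε | top (X.l ε) ≠ top (X.r ε)}.ncard ≤
        {ε | ε ∈ Fo ∧ top (X.l ε) ≠ top (X.r ε)}.ncard +
          {ε | ε ∈ Foᶜ ∧ top (X.l ε) ≠ top (X.r ε)}.ncard := by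
      refine le_trans (Set.ncard_le_ncard (fun ε k => ?_)) (Set.ncard_union_le _ _)
      by_cases k1 : ε ∈ Fo
      · exact Or.inl ⟨k1, k⟩
      · exact Or.inr ⟨k1, k⟩
    rw [d1, d2] at d3
    generalize (nS + 1) * ρ + (nS + 2) = δ at d3 ⊢
    nlinarith
  · have d1 := LemSA.ncomp_le f2
    have d2 := Set.ncard_add_ncard_compl Fo
    have d3 := Set.ncard_image_le (f := fun t => X.p (e t)) (s := R)
    omega

theorem absChi (le : LemSS) : AbsChiS := by
  intro X h
  have k : ∀ σ, ∃ n, Rn X.DAdj n (Quot.mk X.DAdj σ).out σ := fun σ =>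
    LemSA.rn_of_eqv (Quot.eqvGen_exact (Quot.out_eq _))
  choose n hn using k
  obtain ⟨ρ, hρ⟩ := (Set.finite_range n).bddAbove
  obtain ⟨top, sp, -, -, -, h4⟩ := le X h (Set.range fun c : Quot X.DAdj => c.out) ρ
    (Nat.card X.F + 1) (by omega) fun σ => ⟨_, ⟨_, rfl⟩, (hn σ).mono (hρ ⟨σ, rfl⟩)⟩
  have d1 : (Set.range fun c : Quot X.DAdj => c.out).ncard ≤ X.ncomp Set.univ := by
    rw [← Set.image_univ]
    exact (Set.ncard_image_le).trans (Set.ncard_univ _).le
  rw [Nat.div_eq_of_lt (by omega)] at h4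
  omega

end Pool.Agent.MP_df844f_gt.RA

end
end MrgPart6

-- ======== part 7: formerly Pool.Agent.MP_df844f_gt.RA.s5.Abs
section MrgPart7

/-! PROJECT RK844, row ABS: an isoperimetric inequality at small scales bounds the number of sides. -/

set_option linter.unusedSectionVars false

noncomputable section

namespace Pool.Agent.MP_df844f_gt.RA

variable [Dat]

namespace AbsA

variable {X : Surf}

theorem dsymm {a b : X.F} (h : X.DAdj a b) : X.DAdj b a := by
  obtain ⟨ε, e1, e2⟩ := h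
  exact ⟨ε, e1, e2.symm⟩

/-- A set in which every side is joined to a fixed one is connected. -/
theorem dconn {D : Finset X.F} {t : X.F}
    (h : ∀ a ∈ D, Relation.ReflTransGen (fun u v => u ∈ D ∧ v ∈ D ∧ X.DAdj u v) a t) :
    X.DConn D := by
  have s : ∀ a b, Relation.ReflTransGen (fun u v => u ∈ D ∧ v ∈ D ∧ X.DAdj u v) a b →
      Relation.ReflTransGen (fun u v => u ∈ D ∧ v ∈ D ∧ X.DAdj u v) b a := by
    intro a b k
    induction k with
    | refl => exact .refl
    | tail _ q ih => exact .head ⟨q.2.1, q.1, dsymm q.2.2⟩ ih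
  exact fun a ha b hb => (h a ha).trans (s _ _ (h b hb))

/-- Balls. -/
noncomputable def ball (X : Surf) (t : X.F) (i : ℕ) : Finset X.F :=
  (Set.toFinite {σ | Rn X.DAdj i t σ}).toFinset

theorem mem_ball {t σ : X.F} {i : ℕ} : σ ∈ ball X t i ↔ Rn X.DAdj i t σ := by simp [ball]

theorem ball_mono (t : X.F) {i j : ℕ} (h : i ≤ j) : ball X t i ⊆ ball X t j :=
  fun _ k => mem_ball.2 ((mem_ball.1 k).mono h)

theorem ball_conn (t : X.F) (i : ℕ) : X.DConn (ball X t i) := by
  refine dconn (t := t) ?_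
  induction i with
  | zero =>
    intro a ha
    cases mem_ball.1 ha
    exact .refl
  | succ i ih =>
    have m : ∀ a ∈ ball X t i, Relation.ReflTransGen
        (fun u v => u ∈ ball X t (i + 1) ∧ v ∈ ball X t (i + 1) ∧ X.DAdj u v) a t := by
      intro a ha
      refine Relation.ReflTransGen.mono ?_ _ _ (ih a ha)
      rintro u v ⟨k1, k2, k3⟩
      exact ⟨ball_mono t (by omega) k1, ball_mono t (by omega) k2, k3⟩
    intro a ha
    rcases (mem_ball.1 ha).tail_cases with k | ⟨y, k1, k2⟩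
    · exact m a (mem_ball.2 k)
    · exact .head ⟨ha, mem_ball.2 (k1.mono (by omega)), dsymm k2⟩ (m y (mem_ball.2 k1))

theorem cut_ball (h : X.OK) (t : X.F) (i : ℕ) :
    {ε | X.cut (ball X t i : Set X.F) ε}.ncard + nS * (ball X t i).card ≤
      nS * (ball X t (i + 1)).card := by
  classical
  have e1 := Finset.card_sdiff_add_card_eq_card (ball_mono t (Nat.le_succ i))
  have e2 := Finset.card_biUnion_le_card_mul (ball X t (i + 1) \ ball X t i)
    (fun σ => (Set.toFinite {ε | X.l ε = σ ∨ X.r ε = σ}).toFinset) nS fun σ _ => by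
      rw [← Set.ncard_eq_toFinset_card]
      exact h.deg σ
  have e3 : {ε | X.cut (ball X t i : Set X.F) ε}.ncard ≤ ((ball X t (i + 1) \ ball X t i).biUnion
      fun σ => (Set.toFinite {ε | X.l ε = σ ∨ X.r ε = σ}).toFinset).card := by
    rw [← Set.ncard_coe_finset]
    refine Set.ncard_le_ncard (fun ε k => ?_) (Finset.finite_toSet _)
    simp only [Finset.coe_biUnion, Finset.mem_coe, Finset.mem_sdiff, Set.mem_iUnion,
      Set.Finite.mem_toFinset, Set.mem_ofPred_eq]
    by_cases k1 : X.l ε ∈ ball X t i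
    · refine ⟨X.r ε, ⟨mem_ball.2 ((mem_ball.1 k1).trans
        (Rn.single ⟨ε, trivial, Or.inl ⟨rfl, rfl⟩⟩)), fun k2 => k ⟨fun _ => k2, fun _ => k1⟩⟩,
        Or.inr rfl⟩
    · have k2 : X.r ε ∈ ball X t i := by
        by_contra k2
        exact k ⟨fun a => absurd a k1, fun a => absurd a k2⟩
      exact ⟨X.l ε, ⟨mem_ball.2 ((mem_ball.1 k2).trans
        (Rn.single ⟨ε, trivial, Or.inr ⟨rfl, rfl⟩⟩)), k1⟩, Or.inl rfl⟩
  simp only [Nat.succ_eq_add_one] at e1
  rw [← e1, Nat.mul_add, Nat.mul_comm nS (ball X t (i + 1) \ ball X t i).card]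
  omega

theorem growth {Cs : ℕ} {b : ℕ → ℕ} {n : ℕ} (h0 : 1 ≤ b 0)
    (h : ∀ i < n, b i + Cs * b i ≤ Cs * b (i + 1)) :
    ∀ i ≤ n, i + 1 ≤ b i ∧ i * i ≤ 2 * (Cs * b i) := by
  intro i
  induction i with
  | zero => exact fun _ => ⟨h0, by omega⟩
  | succ i ih =>
    intro hi
    obtain ⟨k1, k2⟩ := ih (by omega)
    have k3 := h i (by omega)
    refine ⟨?_, by nlinarith⟩
    have k4 : Cs * b i < Cs * b (i + 1) := by omega
    have := lt_of_mul_lt_mul_left k4 (Nat.zero_le _)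
    omega

theorem net (X : Surf) (n : ℕ) : ∃ R : Finset X.F,
    (∀ a ∈ R, ∀ b ∈ R, a ≠ b → ¬ Rn X.DAdj n a b) ∧ ∀ σ, ∃ a ∈ R, Rn X.DAdj n a σ := by
  classical
  have := Fintype.ofFinite X.F
  obtain ⟨R, h1, h2⟩ := Finset.exists_max_image
    (Finset.univ.filter fun R : Finset X.F => ∀ a ∈ R, ∀ b ∈ R, a ≠ b → ¬ Rn X.DAdj n a b)
    Finset.card ⟨∅, by simp⟩
  rw [Finset.mem_filter] at h1
  refine ⟨R, h1.2, fun σ => ?_⟩
  by_contra k
  push Not at k
  have k1 : σ ∉ R := fun a => k σ a (Rn.refl _ _)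
  have k2 := h2 (insert σ R) (Finset.mem_filter.2 ⟨Finset.mem_univ _, fun a ha b hb ab => by
    rcases Finset.mem_insert.1 ha with ha | ha <;> rcases Finset.mem_insert.1 hb with hb | hb
    · exact absurd (ha.trans hb.symm) ab
    · exact fun q => k b hb (ha ▸ q.symm fun _ _ => dsymm)
    · exact hb ▸ k a ha
    · exact h1.2 a ha b hb ab⟩)
  rw [Finset.card_insert_of_notMem k1] at k2
  omega

theorem sum_en {en : Finset X.F → ℕ} {En : ℕ}
    (h : ∀ 𝒟 : Finset (Finset X.F), (∀ D ∈ 𝒟, ∀ D' ∈ 𝒟, D ≠ D' → Disjoint D D') →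
      ∑ D ∈ 𝒟, en D ≤ En) (I : Finset X.F) (D : X.F → Finset X.F)
    (h1 : ∀ a ∈ I, (D a).Nonempty) (h2 : ∀ a ∈ I, ∀ b ∈ I, a ≠ b → Disjoint (D a) (D b)) :
    ∑ a ∈ I, en (D a) ≤ En := by
  classical
  rw [← Finset.sum_image (s := I) (g := D) (f := en) fun a ha b hb e => by
    by_contra k
    have k1 := h2 a ha b hb k
    rw [← e, disjoint_self] at k1
    exact (h1 a ha).ne_empty k1]
  refine h _ fun A hA B hB AB => ?_
  obtain ⟨a, ha, rfl⟩ := Finset.mem_image.1 hA
  obtain ⟨b, hb, rfl⟩ := Finset.mem_image.1 hB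
  exact h2 a ha b hb fun e => AB (by rw [e])

end AbsA

open AbsA in
theorem absS (le : LemSS) : AbsS := by
  classical
  intro Cs
  obtain ⟨t, ht⟩ : ∃ t, t = 16 * (nS * Cs) * Cs * (6 * nS + 9) + 1 := ⟨_, rfl⟩
  obtain ⟨P, hP⟩ : ∃ P, P = 2 * ((nS + 1) * (t + t) + (nS + 2)) + 1 := ⟨_, rfl⟩
  obtain ⟨K, hK⟩ : ∃ K, K = 2 * Cs * P := ⟨_, rfl⟩
  have hm : 4 * K + 1 ≤ nS * (4 * K + 1) := Nat.le_mul_of_pos_left _ nS_pos
  refine ⟨nS * (4 * K + 1) + 1, 4 * K, 4 * K + 4 * Cs, fun X h en En e1 e2 e3 => ?_⟩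
  have := Fintype.ofFinite X.F
  obtain ⟨R, r1, r2⟩ := net X (t + t)
  obtain ⟨top, sp, t1, t2, t3, t4⟩ := le X h (R : Set X.F) (t + t) (4 * K + 1) (by omega) r2
  rw [Set.ncard_coe_finset] at t4
  rw [← hP] at t3
  have dj : ∀ a ∈ R, ∀ b ∈ R, a ≠ b → Disjoint (ball X a t) (ball X b t) := by
    intro a ha b hb ab
    refine Finset.disjoint_left.2 fun σ k1 k2 => r1 a ha b hb ab ?_
    exact (mem_ball.1 k1).trans ((mem_ball.1 k2).symm fun _ _ => dsymm)
  have big : ∀ a, en (ball X a t) = 0 → 4 * K ≤ (ball X a t).card := by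
    intro a ha
    by_contra k
    have g := (growth (Cs := nS * Cs) (b := fun i => (ball X a i).card) (n := t)
      (Finset.card_pos.2 ⟨a, mem_ball.2 (Rn.refl _ _)⟩) (fun i hi => by
        have k1 := Finset.card_le_card (ball_mono a hi.le)
        have k2 := e3 _ (ball_conn a i) (by omega)
        have k3 := e1 _ _ (ball_mono a hi.le)
        have k4 := Nat.mul_le_mul_left Cs (cut_ball h a i)
        rw [show en (ball X a i) = 0 by omega, add_zero] at k2
        nlinarith) t le_rfl).2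
    have k5 : nS * Cs * (ball X a t).card ≤ nS * Cs * (4 * K) :=
      Nat.mul_le_mul_left _ (by omega)
    have k6 : 2 * (nS * Cs * (4 * K)) + t ≤ t * t := by
      have k7 : P ≤ (6 * nS + 9) * t := by
        have := Nat.mul_le_mul_left (2 * nS + 5) (show 1 ≤ t by omega)
        rw [hP]
        nlinarith
      have k8 := Nat.mul_le_mul_left (16 * (nS * Cs) * Cs) k7
      have k9 : t * t = 16 * (nS * Cs) * Cs * (6 * nS + 9) * t + t := by
        nth_rewrite 1 [ht]
        ring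
      rw [hK, k9]
      nlinarith
    omega
  have a1 : 4 * K * R.card ≤ Nat.card X.F + 4 * K * En := by
    have b1 := Finset.card_filter_add_card_filter_not (s := R) fun a => en (ball X a t) = 0
    have b2 : (R.filter fun a => en (ball X a t) = 0).card * (4 * K) ≤ Nat.card X.F := by
      refine (Finset.card_nsmul_le_sum _ (fun a => (ball X a t).card) _
        fun a ha => big a (Finset.mem_filter.1 ha).2).trans ?_
      rw [← Finset.card_biUnion, Nat.card_eq_fintype_card]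
      · exact Finset.card_le_univ _
      · exact fun a ha b hb ab =>
          dj a (Finset.mem_filter.1 ha).1 b (Finset.mem_filter.1 hb).1 ab
    have b3 : (R.filter fun a => ¬ en (ball X a t) = 0).card * 1 ≤ En := by
      refine (Finset.card_nsmul_le_sum _ (fun a => en (ball X a t)) _
        fun a ha => Nat.pos_of_ne_zero (Finset.mem_filter.1 ha).2).trans ?_
      exact sum_en e2 _ _ (fun a _ => ⟨a, mem_ball.2 (Rn.refl _ _)⟩) fun a ha b hb ab =>
        dj a (Finset.mem_filter.1 ha).1 b (Finset.mem_filter.1 hb).1 ab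
    have b4 := Nat.mul_le_mul_left (4 * K) b3
    rw [← b1]
    nlinarith
  have a2 : Nat.card X.F ≤ K * sp + Cs * En := by
    have c0 : ∀ s, ((Finset.univ.filter fun σ => top σ = s : Finset X.F) : Set X.F) =
        {σ | top σ = s} := fun s => by
      ext σ
      simp
    have b1 := Finset.card_eq_sum_card_image top Finset.univ
    have b2 : ∑ s ∈ Finset.univ.image top, (Finset.univ.filter fun σ => top σ = s).card ≤
        ∑ s ∈ Finset.univ.image top, Cs * ({ε | X.cut {σ | top σ = s} ε ∧ ε ∈ Set.univ}.ncard +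
          en (Finset.univ.filter fun σ => top σ = s)) := by
      refine Finset.sum_le_sum fun s _ => ?_
      have k := e3 (Finset.univ.filter fun σ => top σ = s) (dconn (t := s) fun a ha => by
        obtain rfl := (Finset.mem_filter.1 ha).2
        refine Relation.ReflTransGen.mono ?_ _ _ (t2 a)
        rintro u v ⟨k1, k2, k3⟩
        exact ⟨Finset.mem_filter.2 ⟨Finset.mem_univ _, k1⟩,
          Finset.mem_filter.2 ⟨Finset.mem_univ _, k2⟩, k3⟩) (by
        rw [← Set.ncard_coe_finset, c0]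
        exact t1 s)
      rw [c0] at k
      simpa using k
    have b3 := sum_en e2 (Finset.univ.image top) (fun s => Finset.univ.filter fun σ => top σ = s)
      (fun s hs => by
        obtain ⟨σ, -, rfl⟩ := Finset.mem_image.1 hs
        exact ⟨σ, by simp⟩) fun a _ b _ ab => Finset.disjoint_left.2 fun σ k1 k2 =>
        ab ((Finset.mem_filter.1 k1).2.symm.trans (Finset.mem_filter.1 k2).2)
    have b4 := (Finset.sum_le_sum_of_subset (Finset.subset_univ (Finset.univ.image top))).trans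
      (LemSA.double top Set.univ).le
    simp only [Set.mem_univ, true_and] at b4
    simp only [Set.mem_univ] at b2
    rw [← Finset.mul_sum, Finset.sum_add_distrib, ← b1, Finset.card_univ,
      ← Nat.card_eq_fintype_card] at b2
    have b5 := Nat.mul_le_mul_left Cs (Nat.add_le_add (b4.trans (Nat.mul_le_mul_left 2 t3)) b3)
    rw [hK]
    nlinarith
  have a3 : Nat.card X.F / (4 * K + 1) * (4 * K + 1) ≤ Nat.card X.F := Nat.div_mul_le_self _ _
  have a4 := Nat.mul_le_mul_left (4 * K) t4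
  nlinarith

end Pool.Agent.MP_df844f_gt.RA

end
end MrgPart7

-- ======== part 8: formerly Pool.Agent.MP_df844f_gt.RA.c.Spec
section MrgPart8

/-! Statements for the cutwidth theorem: the volume is replaced by the support in the base. -/

set_option linter.unusedSectionVars false

noncomputable section

namespace Pool.Agent.MP_df844f_gt.RA.CW

variable [Dat]

open PS

section

variable {B : Type} [MulAction W B]

/-- Number of points of the base that are covered. -/
def sp (Y : PS B) : ℕ := (Set.range Y.f).ncard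

/-- Number of points of the base that are newly covered. -/
def nw (Y Y' : PS B) : ℕ := (Set.range Y'.f \ Set.range Y.f).ncard

/-- Edge boundary. -/
def bdy (U : Set B) : ℕ := {p : B × S | p.1 ∈ U ∧ g p.2 • p.1 ∉ U}.ncard

/-- No successor state with smaller area and at most `C` new points. -/
def Tight (Y : PS B) (o : B) (x0 : Y.Om) (r C : ℕ) : Prop :=
  ∀ (Y' : PS B) (x0' : Y'.Om), Y'.State → (∀ μ, Y.Inv o x0 r μ → Y'.Inv o x0' r μ) →
    nw Y Y' ≤ C → Y.area ≤ Y'.area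

/-- A sequence of sets with boundary at most `K` and at most `C` new points per step leads from
the set to everything. -/
inductive Reach (K C : ℕ) : Set B → Prop
  | top : Reach K C Set.univ
  | step {U U' : Set B} : bdy U ≤ K → (U' \ U).ncard ≤ C → Reach K C U' → Reach K C U

theorem nw_self (Y : PS B) : nw Y Y = 0 := by simp [nw]

theorem nw_tri (Y Y' Y'' : PS B) : nw Y Y'' ≤ nw Y Y' + nw Y' Y'' := by
  unfold nw
  refine le_trans (Set.ncard_le_ncard ?_ (((Set.finite_range _).diff).union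
    ((Set.finite_range _).diff))) (Set.ncard_union_le _ _)
  intro b hb
  by_cases k : b ∈ Set.range Y'.f
  exacts [Or.inl ⟨k, hb.2⟩, Or.inr ⟨hb.1, k⟩]

theorem nw_le {Y Y' : PS B} (U : Set Y'.Om) (h : ∀ y, y ∉ U → ∃ x, Y.f x = Y'.f y) :
    nw Y Y' ≤ U.ncard := by
  refine le_trans (Set.ncard_le_ncard (t := Y'.f '' U) ?_ (Set.toFinite _))
    (Set.ncard_image_le (Set.toFinite _))
  rintro _ ⟨⟨y, rfl⟩, k⟩
  by_contra q
  exact k (h y fun a => q ⟨y, a, rfl⟩)

theorem nw_hom {Y Y' : PS B} (φ : Hom Y Y') : nw Y Y' ≤ φ.new :=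
  nw_le _ fun y h => by
    obtain ⟨x, rfl⟩ := not_not.1 h
    exact ⟨x, (φ.f_π x).symm⟩

theorem nw_zero {Y Y' : PS B} (h : ∀ y, ∃ x, Y.f x = Y'.f y) : nw Y Y' ≤ 0 :=
  (nw_le ∅ fun y _ => h y).trans (Set.ncard_empty _).le

theorem Tight.mono {Y : PS B} {o : B} {x0 : Y.Om} {r C C' : ℕ} (h : Tight Y o x0 r C)
    (k : C' ≤ C) : Tight Y o x0 r C' := fun Y' x0' a b c => h Y' x0' a b (by omega)

theorem Tight.move {Y Y' : PS B} {o : B} {x0 : Y.Om} {r C : ℕ} (h : Tight Y o x0 r C)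
    (m : Move o Y Y') {x0' : Y'.Om} (hK : m.K x0 x0') (hs : Y'.State) (hv : nw Y Y' ≤ C) :
    Y.area ≤ Y'.area := h Y' x0' hs (fun _ k => m.inv hK k) hv

end

def HS : Prop := ∀ (B : Type) [MulAction W B] (o : B) (Y : PS B) (D : HData o Y),
  ∃ (Y' : PS B) (m : Move o Y Y') (ν : Y.Om → Y'.Om),
    (∀ x, D.Kept x → m.K x (ν x)) ∧ nw Y Y' ≤ ∑ j, (D.Q j).vol ∧
    Y'.area ≤ Y.nF {x | D.comp x = none} + nS * ∑ j, (D.Q j).vol ∧
    ∀ (n k : Y.Node) (l : ℕ) (ch : Y.Path), Y.TW tt n k l ch → D.comp n.x ≠ none → D.Kept n.x →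
      D.Kept k.x → (∀ lw ∈ ch, D.Int lw.1) →
      (∃ ch', Y'.TW tt ⟨ν n.x, n.w, n.p⟩ ⟨ν k.x, k.w, k.p⟩ (d n.p k.p) ch' ∧
        SameV m.pull ch ch') ∧
      (k.x = n.x → k.w = n.w → SameV m.pull ch [])

def SubS : Prop := ∀ (B : Type) [MulAction W B] (o : B) (Y : PS B) (a0 : Y.A) (g1 g2 : W),
  Y.lab a0 = g2 * g1 → len (g2 * g1) = len g1 + len g2 →
  ∃ (Y' : PS B) (m : Move o Y Y') (ν : Y.Om → Y'.Om) (z : Y'.Om),
    (∀ x, m.K x (ν x)) ∧ nw Y Y' ≤ 1 ∧ Y'.area ≤ Y.area + nS ∧ BddT m ν ∧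
    ∀ w p p' q, Close w p → Close (Y.lab a0 * w) p' → IsMed p p' (g1 * w) q →
      Close (g1 * w) q ∧ ∃ ch1 ch2,
        Y'.TW tt ⟨ν (Y.src a0), w, p⟩ ⟨z, g1 * w, q⟩ (d p q) ch1 ∧
        Y'.TW tt ⟨z, g1 * w, q⟩ ⟨ν (Y.src (Y.rev a0)), Y.lab a0 * w, p'⟩ (d q p') ch2 ∧
        SameV m.pull [(.dart a0, w)] (ch1 ++ ch2)

def CutWS : Prop := ∀ (B : Type) [MulAction W B] (o : B) (Y : PS B) (c : W) (R : ℕ)
  (n k : Y.Node) (l : ℕ) (ch : Y.Path), Y.TW (fun _ p => d c p ≤ R) n k l ch → 19 ≤ l →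
  ∃ (Y' : PS B) (m : Move o Y Y') (ν : Y.Om → Y'.Om) (n2 : Y'.Node) (la lb : ℕ)
    (cha chb : Y'.Path),
    (∀ x, m.K x (ν x)) ∧ nw Y Y' ≤ 1 ∧ Y'.area ≤ Y.area + nS ∧ BddT m ν ∧
    Y'.TW tt ⟨ν n.x, n.w, n.p⟩ n2 la cha ∧ Y'.TW tt n2 ⟨ν k.x, k.w, k.p⟩ lb chb ∧
    la + lb ≤ l ∧ 19 ≤ la ∧ la ≤ 300 ∧ d c n2.p ≤ R + 6 ∧ SameV m.pull ch (cha ++ chb)

def ShortS : Prop := ∀ R : ℕ, ∃ C : ℕ, ∀ (B : Type) [MulAction W B] (o : B), Thick o (2 * R + 2) →
  ∀ (Y : PS B) (c : W) (n k : Y.Node) (l : ℕ) (ch : Y.Path),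
  Y.TW (fun w _ => d c w ≤ R) n k l ch → n.w • o = Y.f n.x →
  ∃ (Y' : PS B) (m : Move o Y Y') (ν : Y.Om → Y'.Om),
    (∀ x, m.K x (ν x)) ∧ nw Y Y' ≤ C ∧ Y'.area ≤ Y.area + C ∧
    (∃ ch', Y'.TW tt ⟨ν n.x, n.w, n.p⟩ ⟨ν k.x, k.w, k.p⟩ (d n.p k.p) ch' ∧ SameV m.pull ch ch') ∧
    (k.x = n.x → k.w = n.w → SameV m.pull ch [])

def PushS : Prop := ∃ C ρ : ℕ, ∀ (B : Type) [MulAction W B] (o : B), Thick o ρ →
  ∀ (Y : PS B) (x0 : Y.Om) (r : ℕ) (l : ℕ × Y.Path) (Λ : List (ℕ × Y.Path)),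
  Y.InvL o x0 r (l :: Λ) →
  ∃ (Y' : PS B) (x0' : Y'.Om) (Λ' : List (ℕ × Y'.Path)), Y'.State ∧ Y'.InvL o x0' r Λ' ∧
    meas Λ' < meas (l :: Λ) ∧ nw Y Y' ≤ C ∧ Y'.area ≤ Y.area + C

def M1S : Prop := ∀ (B : Type) [MulAction W B] (o : B) (Y : PS B) (Z : Set Y.Om) (pos : Y.Om → W)
  (x0 : Y.Om) (a1 : Y.A), Y.State → Y.Bead o Z pos → x0 ∉ Z → (∀ a, Y.src a ∈ Z ↔ a = a1) →
  ∃ (Y' : PS B) (m : Move o Y Y') (x0' : Y'.Om), m.K x0 x0' ∧ Y'.State ∧ nw Y Y' ≤ 0 ∧
    Y'.area + Y.nF Z ≤ Y.area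

def M2S : Prop := ∀ (B : Type) [MulAction W B] (o : B) (Y : PS B) (Z : Set Y.Om) (pos : Y.Om → W)
  (x0 : Y.Om) (a1 a2 : Y.A), Y.State → Y.Bead o Z pos → x0 ∉ Z → a1 ≠ a2 → Y.rev a1 ≠ a2 →
  (∀ a, Y.src a ∈ Z ↔ a = a1 ∨ a = a2) →
  ∃ (Y' : PS B) (m : Move o Y Y') (x0' : Y'.Om), m.K x0 x0' ∧ Y'.State ∧ nw Y Y' ≤ 0 ∧
    Y'.area + Y.nF Z ≤ Y.area

def BeadDegS : Prop := ∀ (B : Type) [MulAction W B] [Finite B] (o : B), Trans o →
  ∀ (Y : PS B) (x0 : Y.Om) (r μ : ℕ) (Z : Set Y.Om) (pos : Y.Om → W), Y.State → Y.Inv o x0 r μ →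
  Tight Y o x0 r 0 → Y.Bead o Z pos → 0 < Y.nF Z →
  (x0 ∉ Z → 3 ≤ Y.deg Z) ∧ (x0 ∈ Z → 1 ≤ Y.deg Z)

/-- ROW Loc: local isoperimetric inequality on a thick base. -/
def LocS : Prop := ∀ a : ℕ, ∃ ρ : ℕ, ∀ (B : Type) [MulAction W B] [Finite B] (o : B), Trans o →
  Thick o ρ → ∀ U : Set B, bdy U ≤ a → U.ncard ≤ bdy U ∨ Uᶜ.ncard ≤ bdy U

/-- ROW Lam2: a morphism that loses little area identifies few chambers. -/
def LamS : Prop := ∀ a : ℕ, ∃ ρ : ℕ, ∀ (B : Type) [MulAction W B] [Finite B] (o : B), Trans o →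
  Thick o ρ → ∀ (Y Y' : PS B) (φ : Hom Y Y'), Y.State → Y'.State → sp Y + a < Nat.card B →
  Y.area + nS * φ.new ≤ Y'.area + a → Y.vol + φ.new ≤ Y'.vol + a

/-- ROW RF: residual finiteness. -/
def RFS : Prop := ∀ ρ : ℕ, ∃ N : Subgroup W, N.Normal ∧ N.FiniteIndex ∧
  ∀ γ ∈ N, len γ ≤ ρ → γ = 1

def RemS : Prop := ∃ CQ : ℕ, ∀ (B : Type) [MulAction W B] (o : B) (R : ℕ), Trans o →
  Thick o (2 * R + 2) → ∀ (Y : PS B) (x0 x1 : Y.Om) (Z : Finset Y.Om), Y.State → Y.H0 o x0 →
  (∀ z ∈ Z, Y.Near R x1 z) →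
  ∃ (Y' : PS B) (m : Move o Y Y') (x0' : Y'.Om), m.K x0 x0' ∧ Y'.State ∧
    nw Y Y' ≤ CQ * (Y.front Z + Y.ends x0 Z) ∧
    Y'.area + Y.nF Z ≤ Y.area + CQ * (Y.front Z + Y.ends x0 Z)

def GainS : Prop := ∃ Cs : ℕ, ∀ m0 : ℕ, ∃ R C ρ : ℕ, ∀ (B : Type) [MulAction W B] [Finite B]
  (o : B), Trans o → Thick o ρ → ∀ (Y : PS B) (x0 : Y.Om) (r μ : ℕ), Y.State →
  Y.Inv o x0 r μ → sp Y + C ≤ Nat.card B → Tight Y o x0 r C →
  ∀ D : Finset (Y.Om × S), Y.BConn D → D.card ≤ m0 →
  D.card ≤ Cs * ((Y.bd (Y.ch1 D)).support.card + Y.endsN x0 R D)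

def BeadS : Prop := ∀ S0 : ℕ, ∃ ρ : ℕ, ∀ (B : Type) [MulAction W B] (o : B), Trans o →
  Thick o ρ → ∀ (Y : PS B) (x0 : Y.Om) (r : ℕ), Y.State → Tight Y o x0 r 1 →
  ∀ T : Finset (Y.Om × S), Y.BConn T → T.Nonempty → T.card ≤ S0 →
  (∀ p ∈ T, ∀ q, Y.BAdj p q → q ∈ T) →
  ∃ Z pos, Y.Bead o Z pos ∧ ∀ p : Y.Om × S, p ∈ T ↔ p.1 ∈ Z ∧ Y.Free p.1 p.2

def TIneqS : Prop := ∃ C1 C2 C ρ : ℕ, ∀ (B : Type) [MulAction W B] [Finite B]
  (o : B), Trans o → Thick o ρ → ∀ (Y : PS B) (x0 : Y.Om) (r μ : ℕ), Y.State →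
  Y.Inv o x0 r μ → sp Y + C ≤ Nat.card B → Tight Y o x0 r C →
  ∀ U : Set Y.Om, Y.Shut U →
  2 * Y.nF U + 2 * C1 * (Y.nV U + Y.nF U) ≤ C1 * Y.nD U + 2 * C1 * Y.nB U + 2 * C2 * Y.ends x0 U

def FreeExS : Prop := ∀ (B : Type) [MulAction W B] [Finite B] (o : B), Trans o → ∀ Y : PS B,
  sp Y < Nat.card B → ∀ x, ∃ y s n, Y.Near n x y ∧ Y.Free y s

def StructS : Prop := ∀ S0 : ℕ, ∃ ρ : ℕ, ∀ (B : Type) [MulAction W B] [Finite B] (o : B),
  Trans o → Thick o ρ → ∀ (Y : PS B) (x0 : Y.Om) (r μ : ℕ), Y.State → Y.Inv o x0 r μ →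
  sp Y < Nat.card B → Tight Y o x0 r 1 →
  ∃ (U : Set Y.Om) (kb : ℕ), Y.Shut U ∧ Y.nB U ≤ kb ∧ 3 * kb ≤ Y.deg U + 3 ∧
    2 * kb ≤ Y.deg U + 1 ∧ S0 * Y.nB Uᶜ ≤ Y.nF Uᶜ ∧ Y.nK ≤ kb + Y.nB Uᶜ

def AreaS : Prop := ∃ A C ρ : ℕ, ∀ (B : Type) [MulAction W B] [Finite B] (o : B),
  Trans o → Thick o ρ → ∀ (Y : PS B) (x0 : Y.Om) (r μ : ℕ), Y.State →
  Y.Inv o x0 r μ → sp Y + C ≤ Nat.card B → Tight Y o x0 r C → Y.area ≤ A * (r + 1)

def NoEndS : Prop := ∃ C ρ : ℕ, ∀ (B : Type) [MulAction W B] [Finite B] (o : B),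
  Trans o → Thick o ρ → ∀ (Y : PS B) (x0 : Y.Om) (r : ℕ), Y.State →
  Y.InvL o x0 r [] → sp Y + C ≤ Nat.card B → ¬ Tight Y o x0 r C

def MainS : Prop := ∃ A ρ : ℕ, ∀ (B : Type) [MulAction W B] [Finite B] (o : B),
  Trans o → Thick o ρ → ∀ T : Finset W,
  Subgroup.closure (T : Set W) = MulAction.stabilizer W o →
  Reach (A * (T.card + 1)) A (∅ : Set B)

/-- ROW Crus: monotone crusades (Bienstock and Seymour). -/
def CrusS : Prop := ∀ (B : Type) [MulAction W B] [Finite B] (K C : ℕ), Reach K C (∅ : Set B) →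
  ∃ e : B ↪ ℕ, ∀ k : ℕ, bdy {b | e b < k} ≤ K + nS * C

/-- ROW Fin: the final statement. -/
def FinS : Prop := ∃ C : ℕ, ∀ (Γ : Subgroup W) [Γ.FiniteIndex], ∃ e : (W ⧸ Γ) ↪ ℕ, ∀ k : ℕ,
  {p : (W ⧸ Γ) × S | e p.1 < k ∧ k ≤ e (g p.2 • p.1)}.ncard ≤ C * Group.rank Γ

end Pool.Agent.MP_df844f_gt.RA.CW

end
end MrgPart8

-- ======== part 9: formerly Pool.Agent.MP_df844f_gt.RA.c.Loc
section MrgPart9

/-! Local isoperimetry: on a thick base a set with small boundary is small or has a small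
complement. -/

set_option linter.unusedSectionVars false

noncomputable section

namespace Pool.Agent.MP_df844f_gt.RA

variable [Dat]

open PS

namespace LocA

variable {B : Type} [MulAction W B] {Y : PS B}

theorem mem_bd {u : Y.Chain} {e : Y.Cell} (h : e ∈ (Y.bd u).support) :
    ∃ c ∈ u.support, e ∈ (Y.bd1 c).support := by
  unfold bd at h
  rw [Finsupp.linearCombination_apply] at h
  obtain ⟨c, hc, k⟩ := Finset.mem_biUnion.1 (Finsupp.support_sum h)
  exact ⟨c, hc, Finsupp.support_smul k⟩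

theorem mem_bd1 {x : Y.Om} {J : Finset S} {e : Y.Cell} (h : e ∈ (Y.bd1 (Y.cell x J)).support) :
    ∃ t, (∀ s ∈ J, adj s t) ∧ e = Y.cell x (insert t J) := by
  obtain ⟨t, ht, k⟩ := Finset.mem_biUnion.1 (Finsupp.support_finsetSum h)
  exact ⟨t, (Finset.mem_filter.1 ht).2, Finset.mem_singleton.1 (Finsupp.support_single_subset k)⟩

theorem near2 (hY : Y.State) {x y : Y.Om} {s t : S} {e : Y.Cell}
    (a : e ∈ (Y.bd1 (Y.cell x {s})).support) (b : e ∈ (Y.bd1 (Y.cell y {t})).support) :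
    Y.Near 2 x y := by
  obtain ⟨u, hu, e1⟩ := mem_bd1 a
  obtain ⟨v, _, e2⟩ := mem_bd1 b
  have k := e1.symm.trans e2
  rw [← (cell_eq_iff.1 k).1] at k
  exact hY.near_orb2 (adj_symm (hu s (Finset.mem_singleton_self s))) k

/-- A cycle of faces splits off a connected cycle. -/
theorem split (hY : Y.State) (u : Y.Chain) (hs : ∀ c ∈ u.support, ∃ x s, c = Y.cell x {s})
    (hb : Y.bd u = 0) (h0 : u ≠ 0) : ∃ (x0 : Y.Om) (a b : Y.Chain), a + b = u ∧
      a.support.card + b.support.card = u.support.card ∧ 0 < a.support.card ∧ Y.bd a = 0 ∧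
      Y.bd b = 0 ∧ b.support ⊆ u.support ∧
      ∀ c ∈ a.support, ∃ x s, c = Y.cell x {s} ∧ Y.Near (2 * u.support.card) x0 x := by
  classical
  obtain ⟨c0, hc0⟩ := Finsupp.support_nonempty_iff.2 h0
  obtain ⟨x0, s0, e0⟩ := hs c0 hc0
  let R : Y.Cell → Y.Cell → Prop := fun c c' => c' ∈ u.support ∧
    ∃ e, e ∈ (Y.bd1 c).support ∧ e ∈ (Y.bd1 c').support
  let p : Y.Cell → Prop := Relation.ReflTransGen R c0
  have e1 : u.filter p + u.filter (fun c => ¬ p c) = u := Finsupp.filter_add_filter_not u p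
  have e2 : Y.bd (u.filter p) + Y.bd (u.filter fun c => ¬ p c) = 0 := by rw [← map_add, e1, hb]
  have e3 : Y.bd (u.filter p) = 0 := by
    ext e
    by_contra k
    have k2 : Y.bd (u.filter fun c => ¬ p c) e ≠ 0 := fun q => k (by
      have := DFunLike.congr_fun e2 e
      rwa [Finsupp.add_apply, q, add_zero] at this)
    obtain ⟨c, hc, a⟩ := mem_bd (Finsupp.mem_support_iff.2 k)
    obtain ⟨c', hc', b⟩ := mem_bd (Finsupp.mem_support_iff.2 k2)
    rw [Finsupp.support_filter, Finset.mem_filter] at hc hc'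
    exact hc'.2 (hc.2.tail ⟨hc'.1, e, a, b⟩)
  refine ⟨x0, _, _, e1, ?_, ?_, e3, by rwa [e3, zero_add] at e2, ?_, fun c hc => ?_⟩
  · rw [Finsupp.support_filter, Finsupp.support_filter, Finset.card_filter_add_card_filter_not]
  · rw [Finsupp.support_filter]
    exact Finset.card_pos.2 ⟨c0, Finset.mem_filter.2 ⟨hc0, Relation.ReflTransGen.refl⟩⟩
  · rw [Finsupp.support_filter]
    exact Finset.filter_subset _ _
  · rw [Finsupp.support_filter, Finset.mem_filter] at hc
    have := rn_of_reflTransGen u.support (fun _ _ k => k.1) hc.2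
    generalize u.support.card = n at this
    clear hc hc0 e1 e2 e3 p
    induction this generalizing x0 s0 with
    | refl n c => exact ⟨x0, s0, e0, Near.refl _ _⟩
    | step a _ ih =>
      obtain ⟨a1, e, a2, a3⟩ := a
      obtain ⟨x1, s1, e1⟩ := hs _ a1
      obtain ⟨x, s, k1, k2⟩ := ih x1 s1 e1
      rw [e0] at a2
      rw [e1] at a3
      exact ⟨x, s, k1, ((near2 hY a2 a3).trans k2).mono (by omega)⟩

theorem fill (hF : FactS) (s0 : Sweep0S) [Finite B] {o : B} (ht : Trans o) {L : ℕ}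
    (hth : Thick o (6 * L + 20)) (n : ℕ) : ∀ u : (fullPS B).Chain, u.support.card = n → n ≤ L →
    (∀ c ∈ u.support, ∃ x s, c = (fullPS B).cell x {s}) → (fullPS B).bd u = 0 →
    ∃ v : (fullPS B).Chain, v.support.card ≤ n ∧ (fullPS B).bd v = u := by
  classical
  induction n using Nat.strong_induction_on with
  | _ n ih =>
    intro u hn hL hs hb
    by_cases h0 : u = 0
    · exact ⟨0, by simp, by simp [h0]⟩
    obtain ⟨x0, a, b, e1, e2, e3, e4, e5, e6, e7⟩ := split (fullPS_state B) u hs hb h0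
    obtain ⟨v, v1, v2⟩ := ih _ (by omega) b rfl (by omega) (fun c hc => hs c (e6 hc)) e5
    obtain ⟨w0, hw⟩ := ht x0
    rcases s0 B o (3 * L) (hth.mono (by omega)) (fullPS B) x0 w0 a.support.card _ a
      (fullPS_state B) hw (by omega) le_rfl e7 e4 with ⟨Z, z1, z2, -⟩ | ⟨J, y, c, h⟩
    · refine ⟨(fullPS B).ch0 Z + v, ?_, by rw [map_add, z1, v2, e1]⟩
      have h1 := (Finset.card_le_card (Finsupp.support_add (g₁ := (fullPS B).ch0 Z)
        (g₂ := v))).trans (Finset.card_union_le _ _)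
      have h2 : ((fullPS B).ch0 Z).support.card ≤ Z.card := by
        refine le_trans (Finset.card_le_card (t := Z.image fun x => (fullPS B).cell x ∅) ?_)
          Finset.card_image_le
        intro c hc
        obtain ⟨p, hp, k⟩ := Finset.mem_biUnion.1 (Finsupp.support_finsetSum hc)
        exact Finset.mem_image.2
          ⟨p, hp, (Finset.mem_singleton.1 (Finsupp.support_single_subset k)).symm⟩
      omega
    · have h1 := hF.clq J h.clq
      have h2 := hF.big
      obtain ⟨t, -, k⟩ := Finset.exists_mem_notMem_of_card_lt_card (s := J) (t := Finset.univ)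
        (by rw [card_univ_S]; omega)
      exact absurd ⟨_, rfl⟩ (h.free t k)

theorem coef1 (co : CoefS) [Finite B] (hB : Loc B) (u : (fullPS B).Chain) (x : B) (s : S) :
    (fullPS B).bd u ((fullPS B).cell x {s}) =
      u ((fullPS B).cell x ∅) + u ((fullPS B).cell (g s • x) ∅) := by
  rw [co B hB _ (fullPS_state B) u x {s} (by simp [Clq]) (fun _ _ _ _ k => k ⟨_, rfl⟩),
    Finset.sum_singleton, Finset.erase_singleton, (fullPS_state B).sg_eq (y := g s • x) rfl]

end LocA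

open LocA in
theorem loc (hF : FactS) (s0 : Sweep0S) (co : CoefS) (B : Type) [MulAction W B] [Finite B] (o : B)
    (ht : Trans o) (L : ℕ) (hth : Thick o (6 * L + 20)) (U : Set B)
    (hU : {p : B × S | p.1 ∈ U ∧ g p.2 • p.1 ∉ U}.ncard ≤ L) :
    U.ncard ≤ {p : B × S | p.1 ∈ U ∧ g p.2 • p.1 ∉ U}.ncard ∨
      Uᶜ.ncard ≤ {p : B × S | p.1 ∈ U ∧ g p.2 • p.1 ∉ U}.ncard := by
  classical
  have hB : Loc B := loc_of ht (hth.mono (by omega))
  obtain ⟨Z, hZ⟩ : ∃ Z : Finset (fullPS B).Om, ∀ x : B, x ∈ Z ↔ x ∈ U :=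
    ⟨(Set.toFinite U).toFinset, fun x => Set.Finite.mem_toFinset _⟩
  have c0 : ∀ x : B, (fullPS B).ch0 Z ((fullPS B).cell x ∅) = if x ∈ U then 1 else 0 := fun x => by
    rw [ch0_apply]; exact if_congr (hZ x) rfl rfl
  have hs : ∀ c ∈ ((fullPS B).bd ((fullPS B).ch0 Z)).support,
      ∃ x s, c = (fullPS B).cell x {s} := by
    intro c hc
    rw [bd_ch0] at hc
    obtain ⟨x, _, k⟩ := Finset.mem_biUnion.1 (Finsupp.support_finsetSum hc)
    obtain ⟨s, _, k⟩ := Finset.mem_biUnion.1 (Finsupp.support_finsetSum k)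
    exact ⟨x, s, Finset.mem_singleton.1 (Finsupp.support_single_subset k)⟩
  have hc : ((fullPS B).bd ((fullPS B).ch0 Z)).support.card ≤
      {p : B × S | p.1 ∈ U ∧ g p.2 • p.1 ∉ U}.ncard := by
    rw [← Set.ncard_coe_finset]
    refine le_trans (Set.ncard_le_ncard (t := (fun p : B × S => (fullPS B).cell p.1 {p.2}) '' _)
      (fun c hc => ?_)) Set.ncard_image_le
    obtain ⟨x, s, rfl⟩ : ∃ (x : B) (s : S), c = (fullPS B).cell x {s} := hs c hc
    have k := Finsupp.mem_support_iff.1 hc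
    rw [coef1 co hB, c0, c0] at k
    by_cases a : x ∈ U <;> by_cases b : g s • x ∈ U
    · rw [if_pos a, if_pos b] at k; exact absurd (F2_add_self 1) k
    · exact ⟨(x, s), ⟨a, b⟩, rfl⟩
    · refine ⟨(g s • x, s), ⟨b, by rwa [smul_smul, g_mul_self, one_smul]⟩, ?_⟩
      exact (cell_e (Y := fullPS B) (Finset.mem_singleton_self s) (x := x) rfl).symm
    · rw [if_neg a, if_neg b] at k; exact absurd (add_zero 0) k
  obtain ⟨v, v1, v2⟩ := fill hF s0 ht hth _ _ rfl (hc.trans hU) hs (bd_bd _)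
  have st : ∀ (w : W) (x : B), ((fullPS B).ch0 Z + v) ((fullPS B).cell (w • x) ∅) =
      ((fullPS B).ch0 Z + v) ((fullPS B).cell x ∅) := by
    intro w x
    induction w using induction_left with
    | h1 => rw [one_smul]
    | h2 w s ih =>
      have := coef1 co hB ((fullPS B).ch0 Z + v) (w • x) s
      rw [map_add, v2, Finsupp.add_apply, F2_add_self] at this
      rw [mul_smul, ← ih]
      revert this
      generalize ((fullPS B).ch0 Z + v) ((fullPS B).cell (g s • w • x) ∅) = a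
      generalize ((fullPS B).ch0 Z + v) ((fullPS B).cell (w • x) ∅) = b
      revert a b
      decide
  have cnt : ∀ T : Set B, (∀ x ∈ T, v ((fullPS B).cell x ∅) ≠ 0) →
      T.ncard ≤ {p : B × S | p.1 ∈ U ∧ g p.2 • p.1 ∉ U}.ncard := by
    intro T hT
    refine le_trans ?_ (v1.trans hc)
    rw [← Set.ncard_coe_finset]
    exact Set.ncard_le_ncard_of_injOn (fun x => (fullPS B).cell x ∅)
      (fun x hx => Finsupp.mem_support_iff.2 (hT x hx)) fun x _ y _ k => cell_empty_inj k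
  by_cases z : ((fullPS B).ch0 Z + v) ((fullPS B).cell o ∅) = 0
  · refine Or.inl (cnt U fun x hx k => ?_)
    obtain ⟨w, rfl⟩ := ht x
    have := (st w o).trans z
    rw [Finsupp.add_apply, k, c0, if_pos hx] at this
    exact absurd this (by decide)
  · refine Or.inr (cnt Uᶜ fun x hx k => z ?_)
    obtain ⟨w, rfl⟩ := ht x
    rw [← st w o, Finsupp.add_apply, k, c0, if_neg hx, add_zero]

theorem CW.locS (hF : FactS) (s0 : Sweep0S) (co : CoefS) : CW.LocS := fun a =>
  ⟨6 * a + 20, fun B _ _ o ht hth U hU => loc hF s0 co B o ht a hth U hU⟩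

theorem CW.rfS (hb : BallS) (hh : HullS) : CW.RFS := fun ρ => by
  obtain ⟨N, a, b, c⟩ := rf hb hh ρ
  exact ⟨N, b, a, fun γ h k => by_contra fun q => absurd (c γ h q) (by omega)⟩

end Pool.Agent.MP_df844f_gt.RA

end
end MrgPart9

-- ======== part 10: formerly Pool.Agent.MP_df844f_gt.RA.c.LamB
section MrgPart10

/-! A morphism of states that loses little area identifies few chambers. -/

set_option linter.unusedSectionVars false

noncomputable section

namespace Pool.Agent.MP_df844f_gt.RA.CW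

variable [Dat]

open PS Finset VolA

theorem coarea1 {B : Type} [MulAction W B] [Fintype B] {a : ℕ}
    (hL : ∀ U : Set B, bdy U ≤ a → U.ncard ≤ bdy U ∨ Uᶜ.ncard ≤ bdy U) {R : Set B}
    (hR : R.ncard + a < Nat.card B) (N : ℕ) :
    ∀ (u : B → ℕ) (D : B × S → ℕ), ∑ b, u b = N → (∀ b s, u b ≤ u (g s • b) + D (b, s)) →
      (∀ b, u b ≠ 0 → b ∈ R) → ∑ p, D p ≤ a → N ≤ ∑ p, D p := by
  classical
  induction N using Nat.strong_induction_on with
  | _ N ih =>
    intro u D hu hD hs ha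
    rcases Nat.eq_zero_or_pos N with h0 | h0
    · omega
    have e1 : ∑ b, (u b - 1) + ∑ b, (if u b ≠ 0 then 1 else 0) = N := by
      rw [← hu, ← sum_add_distrib]
      refine sum_congr rfl fun b _ => ?_
      split_ifs <;> omega
    have e2 : ∑ p : B × S, (D p - if u p.1 ≠ 0 ∧ ¬ u (g p.2 • p.1) ≠ 0 then 1 else 0) +
        ∑ p : B × S, (if u p.1 ≠ 0 ∧ ¬ u (g p.2 • p.1) ≠ 0 then 1 else 0) = ∑ p, D p := by
      rw [← sum_add_distrib]
      refine sum_congr rfl fun p _ => ?_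
      have := hD p.1 p.2
      simp only [Prod.mk.eta] at this
      split_ifs <;> omega
    have b1 : bdy {b | u b ≠ 0} =
        ∑ p : B × S, (if u p.1 ≠ 0 ∧ ¬ u (g p.2 • p.1) ≠ 0 then 1 else 0) := by
      unfold bdy
      simp only [Set.mem_ofPred_eq]
      rw [nc, card_filter]
    have b2 : {b | u b ≠ 0}.ncard = ∑ b, (if u b ≠ 0 then 1 else 0) := by rw [nc, card_filter]
    have b3 := Set.ncard_add_ncard_compl {b | u b ≠ 0}
    have b4 : {b | u b ≠ 0}.ncard ≤ R.ncard := Set.ncard_le_ncard hs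
    have h1 := hL {b | u b ≠ 0} (by omega)
    have pos : 0 < ∑ b, (if u b ≠ 0 then 1 else 0) := by
      by_contra hh
      have z := sum_eq_zero_iff.1 (Nat.eq_zero_of_not_pos hh)
      have : ∑ b, u b = 0 := sum_eq_zero fun b hb => by
        have := z b hb
        by_contra k
        rw [if_pos k] at this
        omega
      omega
    have := ih _ (by omega) (fun b => u b - 1)
      (fun p => D p - if u p.1 ≠ 0 ∧ ¬ u (g p.2 • p.1) ≠ 0 then 1 else 0) rfl (fun b s => by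
        have := hD b s
        simp only
        split_ifs <;> omega)
      (fun b hb => hs b (by omega)) (by omega)
    omega

theorem lam (hl : LocS) : LamS := by
  intro a
  obtain ⟨ρ, hl⟩ := hl a
  refine ⟨ρ, fun B _ _ o ht hth Y Y' φ hY hY' h ha => ?_⟩
  have := Fintype.ofFinite B
  have m : ∀ b, cnt Y' (fun y => y ∈ Set.range φ.π) b ≤ cnt Y (fun _ => True) b := fun b => by
    simpa only [and_true] using img φ (fun _ => True) (fun _ => True) (fun _ _ => trivial) b
  have e0 : ∑ b, cnt Y' (fun y => ¬ y ∈ Set.range φ.π) b = φ.new := sum_cnt _ _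
  have e1 : ∑ b, (cnt Y (fun _ => True) b - cnt Y' (fun y => y ∈ Set.range φ.π) b) +
      ∑ b, cnt Y' (fun y => y ∈ Set.range φ.π) b = Y.vol := by
    rw [← sum_add_distrib, ← vol_eq, ← sum_cnt]
    exact sum_congr rfl fun b _ => Nat.sub_add_cancel (m b)
  have e2 : ∑ b, cnt Y' (fun y => y ∈ Set.range φ.π) b + φ.new = Y'.vol := by
    rw [← e0, ← sum_add_distrib, ← vol_eq, ← sum_cnt]
    exact sum_congr rfl fun b _ => split Y' _ b
  have e3 : ∑ p : B × S, (cnt Y (fun x => Y.Free x p.2) p.1 +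
      cnt Y' (fun y => ¬ y ∈ Set.range φ.π) p.1 - cnt Y' (fun y => Y'.Free y p.2) p.1) +
      Y'.area = Y.area + nS * φ.new := by
    have e4 : ∑ p : B × S, cnt Y' (fun y => ¬ y ∈ Set.range φ.π) p.1 = nS * φ.new := by
      rw [Fintype.sum_prod_type_right]
      simp only [e0]
      rw [sum_const, card_univ_S, smul_eq_mul]
    rw [← e4, ← sum_free, ← sum_free, ← sum_add_distrib, ← sum_add_distrib]
    exact sum_congr rfl fun p _ => Nat.sub_add_cancel (free_le φ p.2 p.1)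
  have key := coarea1 (hl B o ht hth) (R := Set.range Y.f) h _
    (fun b => cnt Y (fun _ => True) b - cnt Y' (fun y => y ∈ Set.range φ.π) b)
    (fun p => cnt Y (fun x => Y.Free x p.2) p.1 + cnt Y' (fun y => ¬ y ∈ Set.range φ.π) p.1 -
      cnt Y' (fun y => Y'.Free y p.2) p.1) rfl (fun b s => by
      have := split Y (fun x => Y.Free x s) b
      have := split Y (fun x => Y.Free x s) (g s • b)
      have := glued hY s b
      have := split Y' (fun x => Y'.Free x s) b
      have := split Y' (fun x => Y'.Free x s) (g s • b)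
      have a := glued hY' s (g s • b)
      rw [smul_smul, g_mul_self, one_smul] at a
      have := split Y' (fun y => y ∈ Set.range φ.π) b
      have := split Y' (fun y => y ∈ Set.range φ.π) (g s • b)
      have := free_le φ s b
      have := free_le φ s (g s • b)
      have := m b
      have := m (g s • b)
      simp only
      omega)
    (fun b hb => by
      obtain ⟨x, hx⟩ := Set.nonempty_of_ncard_ne_zero (s := {x | Y.f x = b ∧ True})
        fun k => hb (Nat.sub_eq_zero_of_le ((le_of_eq k).trans (Nat.zero_le _)))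
      exact ⟨x, hx.1⟩)
    (by omega)
  omega

end Pool.Agent.MP_df844f_gt.RA.CW

end
end MrgPart10

-- ======== part 11: formerly Pool.Agent.MP_df844f_gt.RA.c.Crus
section MrgPart11

/-! Monotone crusades. -/

noncomputable section

namespace Pool.Agent.MP_df844f_gt.RA.CW

variable [Dat]

namespace Crus

variable {B : Type} [MulAction W B] [Finite B]

theorem submod (U V : Set B) : bdy (U ∪ V) + bdy (U ∩ V) ≤ bdy U + bdy V := by
  unfold bdy
  rw [← Set.ncard_union_add_ncard_inter _ _ (Set.toFinite _) (Set.toFinite _),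
    ← Set.ncard_union_add_ncard_inter {p : B × S | p.1 ∈ U ∧ g p.2 • p.1 ∉ U} _
      (Set.toFinite _) (Set.toFinite _)]
  refine add_le_add (Set.ncard_le_ncard ?_ (Set.toFinite _))
    (Set.ncard_le_ncard ?_ (Set.toFinite _))
  · intro p hp
    simp only [Set.mem_union, Set.mem_inter_iff, Set.mem_setOf_eq] at hp ⊢
    tauto
  · intro p hp
    simp only [Set.mem_union, Set.mem_inter_iff, Set.mem_setOf_eq] at hp ⊢
    tauto

theorem bdy_le {U V : Set B} (h : V ⊆ U) : bdy U ≤ bdy V + nS * (U \ V).ncard := by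
  have e : ((U \ V) ×ˢ (Set.univ : Set S)).ncard = nS * (U \ V).ncard := by
    rw [Set.ncard_prod, Set.ncard_univ, natCard_S, mul_comm]
  rw [← e]
  refine le_trans (Set.ncard_le_ncard ?_ (Set.toFinite _)) (Set.ncard_union_le _ _)
  intro p hp
  by_cases k : p.1 ∈ V
  · exact Or.inl ⟨k, fun a => hp.2 (h a)⟩
  · exact Or.inr ⟨⟨hp.1, k⟩, trivial⟩

/-- The monotone version of `Reach`. -/
inductive Mon (K C : ℕ) : Set B → Prop
  | top : Mon K C Set.univ
  | step {U U' : Set B} : bdy U ≤ K → U ⊆ U' → (U' \ U).ncard ≤ C → Mon K C U' → Mon K C U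

variable {K C : ℕ}

theorem lemA {V V2 Z : Set B} (h2 : V ⊆ V2) (hm : ∀ Z, V ⊆ Z → Z ⊆ V2 → bdy V2 ≤ bdy Z)
    (h : Mon K C Z) : V ⊆ Z → Mon K C (Z ∪ V2) := by
  induction h with
  | top => intro _; rw [Set.univ_union]; exact Mon.top
  | @step U U' a b c _ ih =>
    intro k
    have h1 := submod U V2
    have h3 := hm (U ∩ V2) (Set.subset_inter k h2) Set.inter_subset_right
    refine Mon.step (by omega) (Set.union_subset_union_left _ b) ?_ (ih (k.trans b))
    refine le_trans (Set.ncard_le_ncard ?_ (Set.toFinite _)) c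
    rintro x ⟨h4 | h4, h5⟩
    · exact ⟨h4, fun q => h5 (Or.inl q)⟩
    · exact absurd (Or.inr h4) h5

theorem claimQ {X : Set B} (h : Reach K C X) : ∃ V ⊆ X, Mon K C V := by
  induction h with
  | top => exact ⟨_, subset_rfl, Mon.top⟩
  | @step X X1 a c _ ih =>
    obtain ⟨V1, k1, m1⟩ := ih
    obtain ⟨V2, ⟨p1, p2⟩, hm⟩ := Set.exists_min_image {Z : Set B | V1 ⊆ Z ∧ Z ⊆ V1 ∪ X} bdy
      (Set.toFinite _) ⟨V1, subset_rfl, Set.subset_union_left⟩
    have m2 := lemA p1 (fun Z q1 q2 => hm Z ⟨q1, q2.trans p2⟩) m1 subset_rfl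
    rw [Set.union_eq_self_of_subset_left p1] at m2
    have h1 := submod V2 X
    have h3 := hm (V2 ∪ X) ⟨p1.trans Set.subset_union_left,
      Set.union_subset p2 Set.subset_union_right⟩
    refine ⟨V2 ∩ X, Set.inter_subset_right, Mon.step (by omega) Set.inter_subset_left ?_ m2⟩
    refine le_trans (Set.ncard_le_ncard ?_ (Set.toFinite _)) c
    rintro x ⟨h4, h5⟩
    have h6 : x ∉ X := fun q => h5 ⟨h4, q⟩
    exact ⟨k1 ((p2 h4).resolve_right h6), h6⟩

theorem enum {D : Set B} (h : D.ncard ≤ C) : ∃ f : B → ℕ, Set.InjOn f D ∧ ∀ b ∈ D, f b < C := by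
  classical
  let e := Finite.equivFin D
  refine ⟨fun b => if k : b ∈ D then (e ⟨b, k⟩ : ℕ) else 0, fun a ha b hb q => ?_, fun b hb => ?_⟩
  · simp only [dif_pos ha, dif_pos hb] at q
    exact congrArg Subtype.val (e.injective (Fin.ext q))
  · simp only [dif_pos hb]
    exact (e ⟨b, hb⟩).2.trans_le h

theorem order {V : Set B} (h : Mon K C V) :
    ∃ e : B → ℕ, Set.InjOn e Vᶜ ∧ ∀ k, bdy (V ∪ {b | e b < k}) ≤ K + nS * C := by
  classical
  induction h with
  | top =>
    refine ⟨fun _ => 0, by simp, fun k => ?_⟩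
    simp [bdy]
  | @step U U' a b c _ ih =>
    obtain ⟨e, he, hb⟩ := ih
    obtain ⟨f, hf, hC⟩ := enum c
    refine ⟨fun x => if x ∈ U' then f x else C + e x, fun x hx y hy q => ?_, fun k => ?_⟩
    · by_cases h1 : x ∈ U' <;> by_cases h2 : y ∈ U' <;> simp only [h1, h2, if_true, if_false] at q
      · exact hf ⟨h1, hx⟩ ⟨h2, hy⟩ q
      · have := hC x ⟨h1, hx⟩
        omega
      · have := hC y ⟨h2, hy⟩
        omega
      · exact he h1 h2 (by omega)
    · by_cases hk : k ≤ C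
      · refine (bdy_le Set.subset_union_left).trans (add_le_add a (Nat.mul_le_mul_left _ ?_))
        refine le_trans (Set.ncard_le_ncard ?_ (Set.toFinite _)) c
        rintro x ⟨h1 | h1, h2⟩
        · exact absurd h1 h2
        · refine ⟨?_, h2⟩
          by_contra h3
          simp only [Set.mem_setOf_eq, h3, if_false] at h1
          omega
      · have e1 : U ∪ {x | (if x ∈ U' then f x else C + e x) < k} = U' ∪ {x | e x < k - C} := by
          ext x
          by_cases h1 : x ∈ U'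
          · simp only [Set.mem_union, Set.mem_setOf_eq, h1, if_true, true_or, iff_true]
            by_cases h2 : x ∈ U
            · exact Or.inl h2
            · have := hC x ⟨h1, h2⟩
              exact Or.inr (by omega)
          · have h2 : x ∉ U := fun q => h1 (b q)
            simp only [Set.mem_union, Set.mem_setOf_eq, h1, h2, if_false, false_or]
            omega
        rw [e1]
        exact hb _

end Crus

theorem crus : CrusS := by
  intro B _ _ K C h
  obtain ⟨V, hV, m⟩ := Crus.claimQ h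
  obtain rfl := Set.subset_empty_iff.1 hV
  obtain ⟨e, he, hb⟩ := Crus.order m
  refine ⟨⟨e, fun a b q => he (Set.notMem_empty a) (Set.notMem_empty b) q⟩, fun k => ?_⟩
  have := hb k
  rwa [Set.empty_union] at this

end Pool.Agent.MP_df844f_gt.RA.CW

end
end MrgPart11

-- ======== part 12: formerly Pool.Agent.MP_df844f_gt.RA.c.Fin
section MrgPart12

/-! Descent from a thick cover to an arbitrary finite cover. -/

set_option linter.unusedSectionVars false

noncomputable section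

namespace Pool.Agent.MP_df844f_gt.RA.CW

variable [Dat]

open PS

namespace FinA

variable {B B' : Type} [MulAction W B] [MulAction W B'] {K K' C : ℕ}

theorem mono {U : Set B} (h : Reach K C U) (k : K ≤ K') : Reach K' C U := by
  induction h with
  | top => exact Reach.top
  | step a b _ ih => exact Reach.step (a.trans k) b ih

theorem push [Finite B'] (π : B' → B) (hs : Function.Surjective π)
    (he : ∀ s x, π (g s • x) = g s • π x) {U : Set B'} (h : Reach K C U) : Reach K C (π '' U) := by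
  induction h with
  | top => rw [Set.image_univ, hs.range_eq]; exact Reach.top
  | @step U U' a b _ ih =>
    refine Reach.step (le_trans ?_ a) (le_trans ?_ b) ih
    · refine le_trans (Set.ncard_le_ncard (t := Prod.map π id '' _) ?_ (Set.toFinite _))
        (Set.ncard_image_le (Set.toFinite _))
      rintro ⟨_, s⟩ ⟨⟨x, hx, rfl⟩, k⟩
      exact ⟨(x, s), ⟨hx, fun q => k ⟨_, q, he s x⟩⟩, rfl⟩
    · refine le_trans (Set.ncard_le_ncard (t := π '' _) ?_ (Set.toFinite _))
        (Set.ncard_image_le (Set.toFinite _))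
      rintro _ ⟨⟨x, hx, rfl⟩, k⟩
      exact ⟨x, ⟨hx, fun q => k ⟨x, q, rfl⟩⟩, rfl⟩

theorem rank_pos (Γ : Subgroup W) [Γ.FiniteIndex] : 1 ≤ Group.rank Γ := by
  obtain ⟨T, h1, h2⟩ := Group.rank_spec Γ
  by_contra k
  obtain rfl : T = ∅ := Finset.card_eq_zero.1 (by omega)
  rw [Finset.coe_empty, Subgroup.closure_empty] at h2
  have h3 : Γ = ⊥ := by
    rw [← Subgroup.range_subtype Γ, MonoidHom.range_eq_map, ← h2, Subgroup.map_bot]
  have := Subgroup.FiniteIndex.index_ne_zero (H := Γ)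
  rw [h3, Subgroup.index_bot] at this
  exact this (@Nat.card_eq_zero_of_infinite W infinite_W)

theorem gens (Γ N : Subgroup W) [Γ.FiniteIndex] [N.FiniteIndex] [N.Normal] :
    ∃ T : Finset W, T.card ≤ N.index * Group.rank Γ ∧ Subgroup.closure (T : Set W) = N ⊓ Γ := by
  obtain ⟨T, h1, h2⟩ := Group.rank_spec (N.subgroupOf Γ)
  refine ⟨T.image (Γ.subtype.comp (N.subgroupOf Γ).subtype), Finset.card_image_le.trans ?_, ?_⟩
  · rw [h1]
    exact (Subgroup.rank_le_index_mul_rank _).trans (Nat.mul_le_mul_right _ (Nat.le_of_dvd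
      (Nat.pos_of_ne_zero Subgroup.FiniteIndex.index_ne_zero)
      (Subgroup.relIndex_dvd_index_of_normal N Γ)))
  · rw [Finset.coe_image, ← MonoidHom.map_closure, h2, ← Subgroup.map_map,
      ← MonoidHom.range_eq_map, Subgroup.range_subtype, Subgroup.subgroupOf_map_subtype]

end FinA

open FinA in
theorem fin (hm : MainS) (rf : RFS) (cr : CrusS) : FinS := by
  obtain ⟨A, ρ, hm⟩ := hm
  obtain ⟨N, h1, h2, hN⟩ := rf ρ
  refine ⟨A * (N.index + 1) + nS * A, fun Γ _ => ?_⟩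
  obtain ⟨T, t1, t2⟩ := gens Γ N
  have hsm : ∀ w : W, w • ((1 : W) : W ⧸ (N ⊓ Γ)) = (w : W ⧸ (N ⊓ Γ)) := fun w => by
    rw [MulAction.Quotient.smul_coe, smul_eq_mul, mul_one]
  have k1 := hm (W ⧸ (N ⊓ Γ)) ((1 : W) : W ⧸ (N ⊓ Γ))
    (fun b => by
      obtain ⟨w, rfl⟩ := QuotientGroup.mk_surjective b
      exact ⟨w, hsm w⟩)
    (fun w w' e hd => by
      rw [hsm, hsm, QuotientGroup.eq] at e
      have := hN _ (h1.conj_mem _ e.1 w) (by
        rw [d_comm] at hd
        rwa [show w * (w⁻¹ * w') * w⁻¹ = w' * w⁻¹ by group])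
      rw [show w * (w⁻¹ * w') * w⁻¹ = w' * w⁻¹ by group] at this
      exact (mul_inv_eq_one.1 this).symm)
    T (by rw [t2, MulAction.stabilizer_quotient])
  have k2 := push (Subgroup.quotientMapOfLE (inf_le_right : N ⊓ Γ ≤ Γ))
    (fun b => by
      obtain ⟨w, rfl⟩ := QuotientGroup.mk_surjective b
      exact ⟨w, rfl⟩)
    (fun s b => by
      obtain ⟨w, rfl⟩ := QuotientGroup.mk_surjective b
      rfl) k1
  rw [Set.image_empty] at k2
  obtain ⟨e, he⟩ := cr _ _ _ k2
  refine ⟨e, fun k => ?_⟩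
  have k3 := he k
  unfold bdy at k3
  simp only [Set.mem_ofPred_eq, not_lt] at k3
  have k4 := rank_pos Γ
  have k5 : A * (T.card + 1) ≤ A * ((N.index + 1) * Group.rank Γ) :=
    Nat.mul_le_mul_left _ (by rw [add_mul, one_mul]; omega)
  have k6 : nS * A ≤ nS * A * Group.rank Γ := Nat.le_mul_of_pos_right _ k4
  rw [add_mul, mul_assoc A]
  omega

end Pool.Agent.MP_df844f_gt.RA.CW

end
end MrgPart12

-- marker of a merged file
example : 731051 + 639016 = 731051 + 639016 := rfl
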