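import Pool.Agent.MP_df844f_gt.RA.w.Cut
import Pool.Agent.MP_df844f_gt.RA.c.RF
import Pool.Agent.MP_df844f_gt.RA.s3.Cap
import Pool.Agent.MP_df844f_gt.RA.c.Fin

-- ======== part 0: formerly Pool.Agent.MP_df844f_gt.RA.w.F1
section MrgPart0

/-! The counting facts on a flag no-square sphere. -/

noncomputable section

namespace Pool.Agent.MP_df844f_gt.RA

variable [Dat]

namespace F1

theorem clq_iff (J : Finset S) : Clq J ↔ Dat.G.IsClique (J : Set S) :=
  ⟨fun h _ hs _ ht hn => h _ hs _ ht hn, fun h _ hs _ ht hn => h hs ht hn⟩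

theorem clq_sub {J K : Finset S} (h : Clq J) (hK : K ⊆ J) : Clq K :=
  fun s hs t ht hn => h s (hK hs) t (hK ht) hn

theorem clq_le (J : Finset S) (h : Clq J) : J.card ≤ 3 := by
  by_contra hc
  obtain ⟨K, hK, e⟩ := Finset.exists_subset_card_eq (show 4 ≤ J.card by omega)
  exact Dat.sph.free4 K ⟨(clq_iff K).1 (clq_sub h hK), e⟩

theorem two (s t : S) (h : adj s t) :
    ∃ u v, u ≠ v ∧ ∀ x, (adj s x ∧ adj t x) ↔ (x = u ∨ x = v) := by
  obtain ⟨u, v, hn, e⟩ := Set.ncard_eq_two.1 (Dat.sph.two s t h)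
  refine ⟨u, v, hn, fun x => ?_⟩
  have : x ∈ Dat.G.commonNeighbors s t ↔ x ∈ ({u, v} : Set S) := by rw [e]
  simpa [SimpleGraph.mem_commonNeighbors, adj] using this

theorem other {s t u : S} (h : adj s t) (hu : adj s u) (hu' : adj t u) :
    ∃ v, v ≠ u ∧ adj s v ∧ adj t v := by
  obtain ⟨a, b, hn, e⟩ := two s t h
  rcases (e u).1 ⟨hu, hu'⟩ with rfl | rfl
  · exact ⟨b, hn.symm, (e b).2 (Or.inr rfl)⟩
  · exact ⟨a, hn, (e a).2 (Or.inl rfl)⟩

theorem lnk (s t u : S) (ht : adj s t) (hu : adj s u) :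
    Relation.ReflTransGen (fun a b => adj s a ∧ adj s b ∧ adj a b) t u := by
  have h := (SimpleGraph.reachable_iff_reflTransGen _ _).1
    ((Dat.sph.link s).preconnected ⟨t, ht⟩ ⟨u, hu⟩)
  have k : ∀ a b : Dat.G.neighborSet s,
      Relation.ReflTransGen (Dat.G.induce (Dat.G.neighborSet s)).Adj a b →
      Relation.ReflTransGen (fun a b => adj s a ∧ adj s b ∧ adj a b) (a : S) (b : S) := by
    intro a b hab
    induction hab with
    | refl => exact Relation.ReflTransGen.refl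
    | @tail b c _ hbc ih => exact ih.tail ⟨b.2, c.2, hbc⟩
  exact k _ _ h

theorem gconn (s t : S) : Relation.ReflTransGen adj s t :=
  (SimpleGraph.reachable_iff_reflTransGen _ _).1 (Dat.sph.conn.preconnected s t)

/-- The neighbours. -/
def nb (s : S) : Finset S := Finset.univ.filter fun t => adj s t

theorem mem_nb {s t : S} : t ∈ nb s ↔ adj s t := by simp [nb]

theorem five (s : S) : 5 ≤ (nb s).card := by
  obtain ⟨t, ht⟩ := exists_adj s
  obtain ⟨u, v, huv, e⟩ := two s t ht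
  obtain ⟨su, tu⟩ := (e u).2 (Or.inl rfl)
  obtain ⟨sv, tv⟩ := (e v).2 (Or.inr rfl)
  have nuv : ¬ adj u v := fun h => no4 ht su sv tu tv h
  obtain ⟨a, at', sa, ua⟩ := other su ht (adj_symm tu)
  obtain ⟨b, bt, sb, vb⟩ := other sv ht (adj_symm tv)
  have hav : a ≠ v := fun h => nuv (h ▸ ua)
  have hbu : b ≠ u := fun h => nuv (adj_symm (h ▸ vb))
  have hab : a ≠ b := by
    rintro rfl
    rcases Dat.sph.nosq t u a v tu ua (adj_symm vb) (adj_symm tv) at'.symm huv with h | h
    · exact no4 ht su sa tu h ua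
    · exact nuv h
  have hsub : ({t, u, v, a, b} : Finset S) ⊆ nb s := by
    intro x hx
    simp only [Finset.mem_insert, Finset.mem_singleton] at hx
    rcases hx with rfl | rfl | rfl | rfl | rfl <;> exact mem_nb.2 ‹_›
  have hc : ({t, u, v, a, b} : Finset S).card = 5 := by
    have h1 := adj_ne tu
    have h2 := adj_ne tv
    have h3 := adj_ne ua
    have h4 := adj_ne vb
    rw [Finset.card_insert_of_notMem, Finset.card_insert_of_notMem, Finset.card_insert_of_notMem,
      Finset.card_pair hab]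
    · simp [hav.symm, h4]
    · simp [huv, h3, hbu.symm]
    · simp [h1, h2, at'.symm, bt.symm]
  exact hc ▸ Finset.card_le_card hsub

/-- Edges. -/
def E2 : Finset (Finset S) := Finset.univ.filter fun J : Finset S => J.card = 2 ∧ Clq J

/-- Triangles. -/
def E3 : Finset (Finset S) := Finset.univ.filter fun J : Finset S => J.card = 3 ∧ Clq J

theorem mem_E2 {J : Finset S} : J ∈ E2 ↔ J.card = 2 ∧ Clq J := by simp [E2]
theorem mem_E3 {J : Finset S} : J ∈ E3 ↔ J.card = 3 ∧ Clq J := by simp [E3]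

theorem clq_pair {s t : S} (h : adj s t) : Clq {s, t} := by
  intro a ha b hb hn
  simp only [Finset.mem_insert, Finset.mem_singleton] at ha hb
  rcases ha with rfl | rfl <;> rcases hb with rfl | rfl
  exacts [absurd rfl hn, h, adj_symm h, absurd rfl hn]

theorem clq_tri {s t u : S} (a : adj s t) (b : adj s u) (c : adj t u) : Clq {s, t, u} :=
  (clq_iff _).2 (SimpleGraph.is3Clique_triple_iff.2 ⟨a, b, c⟩).1

theorem card_tri {s t u : S} (a : adj s t) (b : adj s u) (c : adj t u) :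
    ({s, t, u} : Finset S).card = 3 :=
  (SimpleGraph.is3Clique_triple_iff.2 ⟨a, b, c⟩ : Dat.G.IsNClique 3 {s, t, u}).2

theorem star (s : S) : (E2.bipartiteAbove (fun (a : S) (J : Finset S) => a ∈ J) s).card =
    (nb s).card := by
  symm
  refine Finset.card_bij (fun t _ => ({s, t} : Finset S)) ?_ ?_ ?_
  · intro t ht
    have h := mem_nb.1 ht
    exact (Finset.mem_bipartiteAbove _).2
      ⟨mem_E2.2 ⟨Finset.card_pair (adj_ne h), clq_pair h⟩, by simp⟩
  · intro t ht u _ e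
    have h1 : t ∈ ({s, u} : Finset S) := by rw [← e]; simp
    have h2 := adj_ne (mem_nb.1 ht)
    simp only [Finset.mem_insert, Finset.mem_singleton] at h1
    exact h1.resolve_left h2.symm
  · intro J hJ
    obtain ⟨h1, h2⟩ := (Finset.mem_bipartiteAbove _).1 hJ
    obtain ⟨h3, h4⟩ := mem_E2.1 h1
    obtain ⟨a, b, hn, rfl⟩ := Finset.card_eq_two.1 h3
    have hab : adj a b := h4 a (by simp) b (by simp) hn
    simp only [Finset.mem_insert, Finset.mem_singleton] at h2
    rcases h2 with rfl | rfl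
    · exact ⟨b, mem_nb.2 hab, rfl⟩
    · exact ⟨a, mem_nb.2 (adj_symm hab), Finset.pair_comm _ _⟩

theorem shake : ∑ s : S, (nb s).card = 2 * E2.card := by
  have h := Finset.sum_card_bipartiteAbove_eq_sum_card_bipartiteBelow
    (s := (Finset.univ : Finset S)) (t := E2) (fun (a : S) (J : Finset S) => a ∈ J)
  simp only [star] at h
  rw [h, Finset.sum_congr rfl (g := fun _ => 2), Finset.sum_const, smul_eq_mul, mul_comm]
  intro J hJ
  rw [← (mem_E2.1 hJ).1]
  congr 1
  ext x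
  simp [Finset.mem_bipartiteBelow]

theorem e2_eq : Dat.G.edgeSet.ncard = E2.card := by
  classical
  have h := Dat.G.sum_degrees_eq_twice_card_edges
  have h2 : ∑ s : S, Dat.G.degree s = ∑ s : S, (nb s).card := by
    refine Finset.sum_congr rfl fun s _ => ?_
    rw [← SimpleGraph.card_neighborFinset_eq_degree]
    congr 1
    ext x
    simp [mem_nb, adj]
  rw [← SimpleGraph.coe_edgeFinset, Set.ncard_coe_finset]
  have h3 := (h.symm.trans h2).trans shake
  exact Nat.eq_of_mul_eq_mul_left (by norm_num) h3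

theorem e3_eq : (Dat.G.cliqueSet 3).ncard = E3.card := by
  rw [← Set.ncard_coe_finset]
  congr 1
  ext J
  rw [SimpleGraph.mem_cliqueSet_iff, SimpleGraph.isNClique_iff, Finset.mem_coe, mem_E3, clq_iff,
    and_comm]

theorem e23 : E2.card * 2 = E3.card * 3 := by
  refine Finset.card_mul_eq_card_mul (fun (a b : Finset S) => a ⊆ b) ?_ ?_
  · intro J hJ
    obtain ⟨h3, h4⟩ := mem_E2.1 hJ
    obtain ⟨a, b, hn, rfl⟩ := Finset.card_eq_two.1 h3
    have hab : adj a b := h4 a (by simp) b (by simp) hn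
    obtain ⟨u, v, huv, e⟩ := two a b hab
    obtain ⟨au, bu⟩ := (e u).2 (Or.inl rfl)
    obtain ⟨av, bv⟩ := (e v).2 (Or.inr rfl)
    have hne : ({a, b, u} : Finset S) ≠ {a, b, v} := by
      intro h
      have h1 : u ∈ ({a, b, v} : Finset S) := by rw [← h]; simp
      simp only [Finset.mem_insert, Finset.mem_singleton] at h1
      rcases h1 with h1 | h1 | h1
      exacts [adj_ne au h1.symm, adj_ne bu h1.symm, huv h1]
    rw [← Finset.card_pair hne]
    congr 1
    ext T
    rw [Finset.mem_bipartiteAbove, mem_E3, Finset.mem_insert, Finset.mem_singleton]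
    constructor
    · rintro ⟨⟨c3, hc⟩, hs⟩
      obtain ⟨x, hx, hx'⟩ := Finset.exists_mem_notMem_of_card_lt_card
        (show ({a, b} : Finset S).card < T.card by omega)
      simp only [Finset.mem_insert, Finset.mem_singleton, not_or] at hx'
      have ha : a ∈ T := hs (by simp)
      have hb : b ∈ T := hs (by simp)
      have ax : adj a x := hc a ha x hx (Ne.symm hx'.1)
      have bx : adj b x := hc b hb x hx (Ne.symm hx'.2)
      have hT : ({a, b, x} : Finset S) = T := by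
        refine Finset.eq_of_subset_of_card_le ?_ (by rw [card_tri hab ax bx, c3])
        intro y hy
        simp only [Finset.mem_insert, Finset.mem_singleton] at hy
        rcases hy with rfl | rfl | rfl <;> assumption
      rcases (e x).1 ⟨ax, bx⟩ with rfl | rfl
      · exact Or.inl hT.symm
      · exact Or.inr hT.symm
    · rintro (rfl | rfl)
      · exact ⟨⟨card_tri hab au bu, clq_tri hab au bu⟩, by intro y hy; simp at hy ⊢; tauto⟩
      · exact ⟨⟨card_tri hab av bv, clq_tri hab av bv⟩, by intro y hy; simp at hy ⊢; tauto⟩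
  · intro T hT
    obtain ⟨h3, h4⟩ := mem_E3.1 hT
    have : E2.bipartiteBelow (fun (a b : Finset S) => a ⊆ b) T = T.powersetCard 2 := by
      ext J
      rw [Finset.mem_bipartiteBelow, mem_E2, Finset.mem_powersetCard]
      exact ⟨fun h => ⟨h.2, h.1.1⟩, fun h => ⟨⟨h.2, clq_sub h4 h.1⟩, h.1⟩⟩
    rw [this, Finset.card_powersetCard, h3]
    rfl

theorem euler : nS + E3.card = E2.card + 2 := by
  have h := Dat.sph.euler
  rw [e2_eq, e3_eq] at h
  rw [← natCard_S]
  exact h

theorem n2 : E2.card + 6 = 3 * nS := by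
  have := euler
  have := e23
  omega

theorem n3 : E3.card + 4 = 2 * nS := by
  have := euler
  have := e23
  omega

theorem big : 12 ≤ nS := by
  have h1 : ∑ _s : S, 5 ≤ ∑ s : S, (nb s).card := Finset.sum_le_sum fun s _ => five s
  rw [shake, Finset.sum_const, card_univ_S, smul_eq_mul] at h1
  have := n2
  omega

/-- Triangles sharing an edge. -/
def R (a b : Finset S) : Prop := a.card = 3 ∧ Clq a ∧ b.card = 3 ∧ Clq b ∧ (a ∩ b).card = 2

theorem step {s t x y : S} (st : adj s t) (sx : adj s x) (tx : adj t x) (sy : adj s y)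
    (ty : adj t y) : Relation.ReflTransGen R {s, t, x} {s, t, y} := by
  by_cases h : x = y
  · rw [h]
  refine Relation.ReflTransGen.single ⟨card_tri st sx tx, clq_tri st sx tx, card_tri st sy ty,
    clq_tri st sy ty, ?_⟩
  rw [← Finset.card_pair (adj_ne st)]
  congr 1
  ext z
  simp only [Finset.mem_inter, Finset.mem_insert, Finset.mem_singleton]
  constructor
  · rintro ⟨h1 | h1 | h1, h2 | h2 | h2⟩ <;> first | exact Or.inl ‹_› | exact Or.inr ‹_› | skip
    exact absurd (h1.symm.trans h2) h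
  · tauto

theorem around {s t x : S} (st : adj s t) (sx : adj s x) (tx : adj t x) {u : S}
    (h : Relation.ReflTransGen (fun a b => adj s a ∧ adj s b ∧ adj a b) t u) :
    ∀ y, adj s u → adj s y → adj u y → Relation.ReflTransGen R {s, t, x} {s, u, y} := by
  induction h with
  | refl => exact fun y _ sy ty => step st sx tx sy ty
  | @tail b c _ hbc ih =>
    intro y sc sy cy
    have h1 := ih c hbc.1 hbc.2.1 hbc.2.2
    rw [Finset.pair_comm b c] at h1
    exact h1.trans (step sc hbc.1 (adj_symm hbc.2.2) sy cy)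

theorem tri_at {J : Finset S} (c : J.card = 3) (h : Clq J) {s : S} (hs : s ∈ J) :
    ∃ t x, adj s t ∧ adj s x ∧ adj t x ∧ J = {s, t, x} := by
  have h2 : (J.erase s).card = 2 := by rw [Finset.card_erase_of_mem hs, c]
  obtain ⟨t, x, hn, e⟩ := Finset.card_eq_two.1 h2
  have ht : t ∈ J.erase s := by rw [e]; simp
  have hx : x ∈ J.erase s := by rw [e]; simp
  obtain ⟨t1, t2⟩ := Finset.mem_erase.1 ht
  obtain ⟨x1, x2⟩ := Finset.mem_erase.1 hx
  refine ⟨t, x, h s hs t t2 t1.symm, h s hs x x2 x1.symm, h t t2 x x2 hn, ?_⟩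
  rw [← e, Finset.insert_erase hs]

theorem same {J K : Finset S} (c : J.card = 3) (h : Clq J) (c' : K.card = 3) (h' : Clq K) {s : S}
    (hs : s ∈ J) (hs' : s ∈ K) : Relation.ReflTransGen R J K := by
  obtain ⟨t, x, a1, a2, a3, rfl⟩ := tri_at c h hs
  obtain ⟨u, y, b1, b2, b3, rfl⟩ := tri_at c' h' hs'
  exact around a1 a2 a3 (lnk s t u a1 b1) y b1 b2 b3

theorem tri (J K : Finset S) (c : J.card = 3) (h : Clq J) (c' : K.card = 3) (h' : Clq K) :
    Relation.ReflTransGen R J K := by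
  obtain ⟨s, hs⟩ := Finset.card_pos.1 (show 0 < J.card by omega)
  obtain ⟨t, ht⟩ := Finset.card_pos.1 (show 0 < K.card by omega)
  have hp := gconn s t
  induction hp generalizing K with
  | refl => exact same c h c' h' hs ht
  | @tail a b _ hab ih =>
    obtain ⟨u, v, _, e⟩ := two a b hab
    obtain ⟨au, bu⟩ := (e u).2 (Or.inl rfl)
    exact (ih {a, b, u} (card_tri hab au bu) (clq_tri hab au bu) (by simp)).trans
      (same (card_tri hab au bu) (clq_tri hab au bu) c' h' (s := b) (by simp) ht)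

end F1

theorem fact1 : Fact1 :=
  ⟨F1.clq_le, Dat.sph.nosq, F1.big, F1.two, F1.n2, F1.n3,
    fun J K a b c d => F1.tri J K a b c d, F1.lnk, F1.gconn⟩

end Pool.Agent.MP_df844f_gt.RA

end
end MrgPart0

-- ======== part 1: formerly Pool.Agent.MP_df844f_gt.RA.w.F2
section MrgPart1

/-! The complement of a clique is connected. -/

set_option linter.unusedSectionVars false

noncomputable section

namespace Pool.Agent.MP_df844f_gt.RA

variable [Dat]

open Relation

namespace FTwo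

theorem sym_sum {α : Type} [DecidableEq α] (f : α → α → F2) (h1 : ∀ x y, f x y = f y x)
    (h2 : ∀ x, f x x = 0) (R : Finset α) : ∑ x ∈ R, ∑ y ∈ R, f x y = 0 := by
  induction R using Finset.induction_on with
  | empty => simp
  | insert a R ha ih =>
    rw [Finset.sum_insert ha, Finset.sum_insert ha, h2, zero_add]
    simp only [Finset.sum_insert ha, Finset.sum_add_distrib]
    rw [ih, add_zero, Finset.sum_congr rfl fun x _ => h1 x a]
    exact F2_add_self _

/-- Steps in the link of `s` outside `J`. -/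
def St (s : S) (J : Finset S) (a b : S) : Prop := (adj s a ∧ a ∉ J) ∧ (adj s b ∧ b ∉ J) ∧ adj a b

theorem st_symm {s : S} {J : Finset S} {a b : S} (h : ReflTransGen (St s J) a b) :
    ReflTransGen (St s J) b a := by
  induction h with
  | refl => exact .refl
  | tail _ k ih => exact .head ⟨k.2.1, k.1, adj_symm k.2.2⟩ ih

theorem one (hF : Fact1) {s y : S} (hy : adj s y) {a b : S} (ha : adj s a) (ha' : a ∉ ({y} : Finset S))
    (hb : adj s b) (hb' : b ∉ ({y} : Finset S)) : ReflTransGen (St s {y}) a b := by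
  classical
  obtain ⟨u, v, huv, h⟩ := hF.two s y hy
  have key : ∀ a, adj s a → a ∉ ({y} : Finset S) → ReflTransGen (St s {y}) a u := by
    intro a ha ha'
    have ex : ReflTransGen (St s {y}) a u ∨ ReflTransGen (St s {y}) a v := by
      have hp := hF.lnk s a y ha hy
      induction hp using ReflTransGen.head_induction_on with
      | refl => simp at ha'
      | @head p q k _ ih =>
        by_cases e : q = y
        · subst e
          rcases (h p).1 ⟨ha, adj_symm k.2.2⟩ with rfl | rfl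
          exacts [Or.inl .refl, Or.inr .refl]
        · have e' : q ∉ ({y} : Finset S) := by simpa using e
          exact (ih k.2.1 e').imp (.head ⟨⟨ha, ha'⟩, ⟨k.2.1, e'⟩, k.2.2⟩)
            (.head ⟨⟨ha, ha'⟩, ⟨k.2.1, e'⟩, k.2.2⟩)
    by_contra hu
    have hv := ex.resolve_left hu
    let R : Finset S := Finset.univ.filter fun x => ReflTransGen (St s {y}) a x
    have mR : ∀ x, x ∈ R ↔ ReflTransGen (St s {y}) a x := fun x => by simp [R]
    have inR : ∀ x ∈ R, adj s x ∧ x ∉ ({y} : Finset S) := fun x hx => by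
      have := (mR x).1 hx
      cases this with
      | refl => exact ⟨ha, ha'⟩
      | tail _ k => exact k.2.1
    have yR : y ∉ R := fun k => (inR y k).2 (Finset.mem_singleton_self _)
    have e1 : ∀ x ∈ R, ∑ w ∈ insert y R, (if adj x w then (1 : F2) else 0) = 0 := by
      intro x hx
      obtain ⟨p, q, hpq, k⟩ := hF.two s x (inR x hx).1
      have : (insert y R).filter (fun w => adj x w) = {p, q} := by
        ext w
        simp only [Finset.mem_filter, Finset.mem_insert, Finset.mem_singleton, ← k w]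
        refine ⟨fun ⟨k1, k2⟩ => ⟨?_, k2⟩, fun ⟨k1, k2⟩ => ⟨?_, k2⟩⟩
        · rcases k1 with rfl | k1
          exacts [hy, (inR w k1).1]
        · by_cases e : w = y
          · exact Or.inl e
          · exact Or.inr ((mR w).2 (((mR x).1 hx).tail ⟨inR x hx, ⟨k1, by simpa using e⟩, k2⟩))
      rw [← Finset.sum_filter, this, Finset.sum_pair hpq]
      exact F2_add_self _
    have e2 := Finset.sum_eq_zero e1
    simp only [Finset.sum_insert yR, Finset.sum_add_distrib] at e2
    rw [sym_sum (fun x w => if adj x w then (1 : F2) else 0)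
      (fun x w => if_congr ⟨adj_symm, adj_symm⟩ rfl rfl) (fun x => if_neg (adj_irrefl x)), add_zero,
      Finset.sum_eq_single_of_mem v ((mR v).2 hv), if_pos (adj_symm ((h v).2 (Or.inr rfl)).2)] at e2
    · exact one_ne_zero e2
    · intro x hx n
      refine if_neg fun k => ?_
      rcases (h x).1 ⟨(inR x hx).1, adj_symm k⟩ with rfl | rfl
      exacts [hu ((mR _).1 hx), n rfl]
  exact (key a ha ha').trans (st_symm (key b hb hb'))

theorem two (hF : Fact1) {s y z : S} (hy : adj s y) (hz : adj s z) (hyz : adj z y) {a b : S}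
    (ha : adj s a) (ha' : a ∉ ({z, y} : Finset S)) (hb : adj s b) (hb' : b ∉ ({z, y} : Finset S)) :
    ReflTransGen (St s {z, y}) a b := by
  obtain ⟨p, q, -, h⟩ := hF.two s z hz
  simp only [Finset.mem_insert, Finset.mem_singleton, not_or] at ha' hb'
  have hp := one hF hy ha (by simpa using ha'.2) hb (by simpa using hb'.2)
  have key : (b ≠ z → ReflTransGen (St s {z, y}) a b) ∧
      (b = z → ∃ w, adj s w ∧ adj z w ∧ w ≠ y ∧ ReflTransGen (St s {z, y}) a w) := by
    clear hb hb'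
    induction hp with
    | refl => exact ⟨fun _ => .refl, fun e => absurd e ha'.1⟩
    | @tail c d _ k ih =>
      obtain ⟨⟨k1, k2⟩, ⟨k3, k4⟩, k5⟩ := k
      rw [Finset.mem_singleton] at k2 k4
      by_cases e : c = z
      · subst e
        refine ⟨fun _ => ?_, fun e => absurd e.symm (adj_ne k5)⟩
        obtain ⟨w, w1, w2, w3, w4⟩ := ih.2 rfl
        have := (h w).1 ⟨w1, w2⟩
        have := (h d).1 ⟨k3, k5⟩
        have := (h y).1 ⟨hy, hyz⟩
        obtain rfl : w = d := by grind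
        exact w4
      · refine ⟨fun n => (ih.1 e).tail ⟨⟨k1, by simp [e, k2]⟩, ⟨k3, by simp [n, k4]⟩, k5⟩, ?_⟩
        rintro rfl
        exact ⟨c, k1, adj_symm k5, k2, ih.1 e⟩
  exact key.1 hb'.1

theorem lk (hF : Fact1) {s : S} {J : Finset S} (hs : s ∉ J) (hJ : Clq (insert s J)) {a b : S}
    (ha : adj s a) (ha' : a ∉ J) (hb : adj s b) (hb' : b ∉ J) : ReflTransGen (St s J) a b := by
  have h3 := hF.clq _ hJ
  rw [Finset.card_insert_of_notMem hs] at h3
  have ad : ∀ y ∈ J, adj s y := fun y hy =>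
    hJ s (by simp) y (by simp [hy]) fun e => hs (e ▸ hy)
  obtain h0 | h0 | h0 : J.card = 0 ∨ J.card = 1 ∨ J.card = 2 := by omega
  · obtain rfl := Finset.card_eq_zero.1 h0
    exact ReflTransGen.mono (fun x y k => ⟨⟨k.1, by simp⟩, ⟨k.2.1, by simp⟩, k.2.2⟩) _ _
      (hF.lnk s a b ha hb)
  · obtain ⟨y, rfl⟩ := Finset.card_eq_one.1 h0
    exact one hF (ad y (by simp)) ha ha' hb hb'
  · obtain ⟨z, y, n, rfl⟩ := Finset.card_eq_two.1 h0
    exact two hF (ad y (by simp)) (ad z (by simp)) (hJ z (by simp) y (by simp) n) ha ha' hb hb'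

end FTwo

open FTwo in
theorem gconn (hF : Fact1) : GConnS := by
  intro J
  induction J using Finset.induction_on with
  | empty =>
    intro _ s _ t _
    refine ReflTransGen.mono ?_ _ _ (hF.gconn s t)
    exact fun x y k => ⟨by simp, by simp, k⟩
  | insert s J hs ih =>
    intro hJ a ha b hb
    simp only [Finset.mem_insert, not_or] at ha hb
    have hp := ih (fun x hx y hy => hJ x (by simp [hx]) y (by simp [hy])) a ha.2 b hb.2
    have key : (b ≠ s → ReflTransGen (fun a b => a ∉ insert s J ∧ b ∉ insert s J ∧ adj a b) a b) ∧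
        (b = s → ∃ w, adj s w ∧ w ∉ J ∧
          ReflTransGen (fun a b => a ∉ insert s J ∧ b ∉ insert s J ∧ adj a b) a w) := by
      clear hb
      induction hp with
      | refl => exact ⟨fun _ => .refl, fun e => absurd e ha.1⟩
      | @tail c d _ k ih2 =>
        obtain ⟨k1, k2, k3⟩ := k
        by_cases e : c = s
        · subst e
          refine ⟨fun _ => ?_, fun e => absurd e.symm (adj_ne k3)⟩
          obtain ⟨w, w1, w2, w3⟩ := ih2.2 rfl
          refine w3.trans (ReflTransGen.mono ?_ _ _ (lk hF hs hJ w1 w2 k3 k2))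
          rintro x y ⟨⟨x1, x2⟩, ⟨y1, y2⟩, xy⟩
          exact ⟨by simp [x2, (adj_ne x1).symm], by simp [y2, (adj_ne y1).symm], xy⟩
        · refine ⟨fun n => (ih2.1 e).tail ⟨by simp [e, k1], by simp [n, k2], k3⟩, ?_⟩
          rintro rfl
          exact ⟨c, adj_symm k3, k1, ih2.1 e⟩
    exact key.1 hb.1

end Pool.Agent.MP_df844f_gt.RA

end
end MrgPart1

-- ======== part 2: formerly Pool.Agent.MP_df844f_gt.RA.w.F3
section MrgPart2

/-! First cohomology of the complement of a clique. -/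

set_option linter.unusedSectionVars false

noncomputable section

namespace Pool.Agent.MP_df844f_gt.RA

variable [Dat]

open Relation

namespace FThree

/-- Cliques with `k` elements. -/
abbrev T (k : ℕ) : Type := {J : Finset S // J.card = k ∧ Clq J}

theorem clq2 {s t : S} (h : adj s t) : ({s, t} : Finset S).card = 2 ∧ Clq {s, t} := by
  refine ⟨Finset.card_pair (adj_ne h), fun a ha b hb n => ?_⟩
  simp only [Finset.mem_insert, Finset.mem_singleton] at ha hb
  rcases ha with rfl | rfl <;> rcases hb with rfl | rfl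
  exacts [absurd rfl n, h, adj_symm h, absurd rfl n]

theorem clq3 {s t u : S} (a : adj s t) (b : adj s u) (c : adj t u) :
    ({s, t, u} : Finset S).card = 3 ∧ Clq {s, t, u} := by
  refine ⟨Finset.card_eq_three.2 ⟨s, t, u, adj_ne a, adj_ne b, adj_ne c, rfl⟩,
    fun x hx y hy n => ?_⟩
  simp only [Finset.mem_insert, Finset.mem_singleton] at hx hy
  rcases hx with rfl | rfl | rfl <;> rcases hy with rfl | rfl | rfl
  exacts [absurd rfl n, a, b, adj_symm a, absurd rfl n, c, adj_symm b, adj_symm c, absurd rfl n]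

def ed {s t : S} (h : adj s t) : T 2 := ⟨{s, t}, clq2 h⟩
def tr {s t u : S} (a : adj s t) (b : adj s u) (c : adj t u) : T 3 := ⟨{s, t, u}, clq3 a b c⟩

theorem ex_ed (e : T 2) : ∃ (s t : S) (h : adj s t), e = ed h := by
  obtain ⟨e, h1, h2⟩ := e
  obtain ⟨s, t, n, rfl⟩ := Finset.card_eq_two.1 h1
  exact ⟨s, t, h2 s (by simp) t (by simp) n, rfl⟩

theorem ex_tr {s t : S} (h : adj s t) (τ : T 3) (k : (ed h).1 ⊆ τ.1) :
    ∃ (u : S) (b : adj s u) (c : adj t u), τ = tr h b c := by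
  obtain ⟨τ, h1, h2⟩ := τ
  obtain ⟨u, hu, rfl⟩ := Finset.exists_eq_insert_iff.2 ⟨k, by rw [h1, (ed h).2.1]⟩
  have hu' : u ≠ s ∧ u ≠ t := by simpa [ed] using hu
  refine ⟨u, h2 s (by simp [ed]) u (by simp) hu'.1.symm, h2 t (by simp [ed]) u (by simp) hu'.2.symm,
    Subtype.ext ?_⟩
  ext x
  simp only [ed, tr, Finset.mem_insert, Finset.mem_singleton]
  tauto

theorem ex_tr1 {s : S} (τ : T 3) (k : s ∈ τ.1) : ∃ (t : S) (h : adj s t), (ed h).1 ⊆ τ.1 := by
  obtain ⟨t, ht, n⟩ := Finset.exists_mem_ne (s := τ.1) (by rw [τ.2.1]; omega) s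
  refine ⟨t, τ.2.2 s k t ht n.symm, fun x => ?_⟩
  simp only [ed, Finset.mem_insert, Finset.mem_singleton]
  rintro (rfl | rfl) <;> assumption

theorem pair (hF : Fact1) (e : T 2) : ∃ τ τ' : T 3, τ ≠ τ' ∧ ∀ σ : T 3, e.1 ⊆ σ.1 ↔ σ = τ ∨ σ = τ' := by
  obtain ⟨s, t, h, rfl⟩ := ex_ed e
  obtain ⟨u, v, n, k⟩ := hF.two s t h
  have hu := (k u).2 (Or.inl rfl)
  have hv := (k v).2 (Or.inr rfl)
  refine ⟨tr h hu.1 hu.2, tr h hv.1 hv.2, fun q => ?_, fun σ => ⟨fun q => ?_, ?_⟩⟩
  · have : u ∈ (tr h hv.1 hv.2).1 := by rw [← q]; simp [tr]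
    simp [tr, n, (adj_ne hu.1).symm, (adj_ne hu.2).symm] at this
  · obtain ⟨w, b, c, rfl⟩ := ex_tr h σ q
    rcases (k w).1 ⟨b, c⟩ with rfl | rfl
    exacts [Or.inl rfl, Or.inr rfl]
  · rintro (rfl | rfl) <;> intro x <;> simp only [ed, tr, Finset.mem_insert,
      Finset.mem_singleton] <;> tauto

def d0 : (S → F2) →ₗ[F2] (T 2 → F2) where
  toFun φ e := ∑ s ∈ e.1, φ s
  map_add' φ ψ := by ext e; simp [Finset.sum_add_distrib]
  map_smul' a φ := by ext e; simp [Finset.mul_sum]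

def d1 : (T 2 → F2) →ₗ[F2] (T 3 → F2) where
  toFun c τ := ∑ e : T 2, if e.1 ⊆ τ.1 then c e else 0
  map_add' c c' := by
    ext τ
    simp only [Pi.add_apply, ← Finset.sum_add_distrib]
    exact Finset.sum_congr rfl fun e _ => by split_ifs <;> simp
  map_smul' a c := by ext τ; simp [Finset.mul_sum]

theorem d0_ed (φ : S → F2) {s t : S} (h : adj s t) : d0 φ (ed h) = φ s + φ t :=
  Finset.sum_pair (adj_ne h)

theorem d1_tr (c : T 2 → F2) {s t u : S} (a : adj s t) (b : adj s u) (d : adj t u) :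
    d1 c (tr a b d) = c (ed a) + c (ed d) + c (ed b) := by
  have n1 := adj_ne a
  have n2 := adj_ne b
  have n3 := adj_ne d
  have e1 : ed d ≠ ed b := fun e => by
    have : t ∈ (ed b).1 := by rw [← e]; simp [ed]
    simp [ed, n1.symm, n3] at this
  have e2 : ed a ∉ ({ed d, ed b} : Finset (T 2)) := fun e => by
    have : u ∈ (ed a).1 := by
      rcases Finset.mem_insert.1 e with e | e
      · rw [e]; simp [ed]
      · rw [Finset.mem_singleton.1 e]; simp [ed]
    simp [ed, n2.symm, n3.symm] at this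
  rw [add_assoc, ← Finset.sum_pair (f := c) e1, ← Finset.sum_insert e2]
  show (∑ e : T 2, if e.1 ⊆ (tr a b d).1 then c e else 0) = _
  rw [← Finset.sum_filter]
  congr 1
  ext e
  simp only [Finset.mem_filter, Finset.mem_univ, true_and, Finset.mem_insert, Finset.mem_singleton]
  constructor
  · intro h2
    obtain ⟨x, y, h, rfl⟩ := ex_ed e
    have hx := h2 (Finset.mem_insert_self _ _)
    have hy := h2 (Finset.mem_insert_of_mem (Finset.mem_singleton_self _))
    have n := adj_ne h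
    simp only [tr, Finset.mem_insert, Finset.mem_singleton] at hx hy
    rcases hx with rfl | rfl | rfl <;> rcases hy with rfl | rfl | rfl <;>
      first | exact absurd rfl n | simp [ed, Finset.pair_comm]
  · rintro (rfl | rfl | rfl) <;> intro x <;> simp only [ed, tr, Finset.mem_insert,
      Finset.mem_singleton] <;> tauto

theorem ex_tr0 (τ : T 3) : ∃ (s t u : S) (a : adj s t) (b : adj s u) (d : adj t u), τ = tr a b d := by
  obtain ⟨s, hs⟩ := Finset.card_pos.1 (show 0 < τ.1.card by rw [τ.2.1]; omega)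
  obtain ⟨t, h, k⟩ := ex_tr1 τ hs
  obtain ⟨u, b, d, e⟩ := ex_tr h τ k
  exact ⟨s, t, u, h, b, d, e⟩

theorem d1_single (e : T 2) (σ : T 3) : d1 (Pi.single e 1) σ = if e.1 ⊆ σ.1 then 1 else 0 := by
  show (∑ e' : T 2, if e'.1 ⊆ σ.1 then (Pi.single e 1 : T 2 → F2) e' else 0) = _
  rw [Finset.sum_eq_single e]
  · simp
  · intro e' _ n; simp [n]
  · simp

theorem tot (hF : Fact1) (c : T 2 → F2) : ∑ τ, d1 c τ = 0 := by
  show ∑ τ : T 3, (∑ e : T 2, if e.1 ⊆ τ.1 then c e else 0) = 0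
  rw [Finset.sum_comm]
  refine Finset.sum_eq_zero fun e _ => ?_
  obtain ⟨τ, τ', n, k⟩ := pair hF e
  rw [← Finset.sum_filter, show (Finset.univ.filter fun σ : T 3 => e.1 ⊆ σ.1) = {τ, τ'} by
    ext σ; simp [k], Finset.sum_pair n]
  exact F2_add_self _

/-- Coboundaries of cochains supported on edges that meet `J`. -/
def MM (J : Finset S) : Submodule F2 (T 3 → F2) :=
  (Submodule.pi {e : T 2 | Disjoint e.1 J} fun _ => ⊥).map d1

/-- The equivalence relation on triangles. -/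
def R (J : Finset S) (τ τ' : T 3) : Prop := Pi.single τ 1 + Pi.single τ' 1 ∈ MM J

theorem vv (v : T 3 → F2) : v + v = 0 := funext fun _ => F2_add_self _

theorem R.trans {J : Finset S} {a b c : T 3} (h : R J a b) (k : R J b c) : R J a c := by
  have := (MM J).add_mem h k
  rwa [add_assoc, ← add_assoc (Pi.single b 1), vv, zero_add] at this

theorem R_ed (hF : Fact1) {J : Finset S} {e : T 2} (he : ¬ Disjoint e.1 J) {a b : T 3}
    (ha : e.1 ⊆ a.1) (hb : e.1 ⊆ b.1) : R J a b := by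
  obtain ⟨τ, τ', n, k⟩ := pair hF e
  have h : R J τ τ' := by
    refine ⟨Pi.single e 1, fun e' he' => ?_, funext fun σ => ?_⟩
    · exact Pi.single_eq_of_ne (fun q : e' = e => he (q ▸ he')) _
    · rw [d1_single]
      by_cases q : σ = τ
      · subst q; simp [k, n]
      · by_cases q' : σ = τ'
        · subst q'; simp [k, q]
        · simp [k, q, q']
  have h0 : ∀ a, R J a a := fun a => by unfold R; rw [vv]; exact (MM J).zero_mem
  rcases (k a).1 ha with rfl | rfl <;> rcases (k b).1 hb with rfl | rfl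
  exacts [h0 _, h, by unfold R; rw [add_comm]; exact h, h0 _]

theorem R_v (hF : Fact1) {J : Finset S} {s : S} (hs : s ∈ J) {a b : T 3} (ha : s ∈ a.1)
    (hb : s ∈ b.1) : R J a b := by
  have nd : ∀ {t} (h : adj s t), ¬ Disjoint (ed h).1 J := fun h q =>
    Finset.disjoint_left.1 q (Finset.mem_insert_self _ _) hs
  obtain ⟨t, h, k⟩ := ex_tr1 a ha
  obtain ⟨u, h', k'⟩ := ex_tr1 b hb
  have hp := hF.lnk s t u h h'
  clear hb
  induction hp generalizing b with
  | refl => exact R_ed hF (nd h) k k'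
  | @tail x y _ q ih =>
    refine (ih (b := tr q.1 q.2.1 q.2.2) q.1 ?_).trans (R_ed hF (nd h') ?_ k') <;>
      intro z <;> simp only [ed, tr, Finset.mem_insert, Finset.mem_singleton] <;> tauto

theorem R_adj (hF : Fact1) {J : Finset S} {s t : S} (hs : s ∈ J) (ht : t ∈ J) (h : adj s t)
    {a b : T 3} (ha : s ∈ a.1) (hb : t ∈ b.1) : R J a b := by
  obtain ⟨u, _, -, k⟩ := hF.two s t h
  have hu := (k u).2 (Or.inl rfl)
  exact (R_v hF hs (b := tr h hu.1 hu.2) ha (by simp [tr])).trans (R_v hF ht (by simp [tr]) hb)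

theorem mem_M {J : Finset S} (z : T 3 → F2) (τ0 : T 3) (h : ∀ τ, z τ ≠ 0 → R J τ τ0) :
    z + (∑ τ, z τ) • Pi.single τ0 1 ∈ MM J := by
  have : z + (∑ τ, z τ) • Pi.single τ0 1 = ∑ τ, z τ • (Pi.single τ 1 + Pi.single τ0 1) := by
    simp only [smul_add, Finset.sum_add_distrib, Finset.sum_smul]
    congr 1
    ext σ
    simp [Finset.sum_apply, Pi.single_apply]
  rw [this]
  refine Submodule.sum_mem _ fun τ _ => ?_
  by_cases k : z τ = 0
  · rw [k, zero_smul]; exact (MM J).zero_mem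
  · exact (MM J).smul_mem _ (h τ k)

theorem R_all (hF : Fact1) (a b : T 3) : R Finset.univ a b := by
  obtain ⟨s, hs⟩ := Finset.card_pos.1 (show 0 < a.1.card by rw [a.2.1]; omega)
  obtain ⟨t, ht⟩ := Finset.card_pos.1 (show 0 < b.1.card by rw [b.2.1]; omega)
  have hp := hF.gconn s t
  induction hp generalizing b with
  | refl => exact R_v hF (Finset.mem_univ _) hs ht
  | @tail x y _ q ih =>
    obtain ⟨u, _, -, k⟩ := hF.two x y q
    have hu := (k u).2 (Or.inl rfl)
    exact (ih (tr q hu.1 hu.2) (by simp [tr])).trans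
      (R_v hF (Finset.mem_univ y) (by simp [tr]) ht)

theorem exact (hF : Fact1) : LinearMap.range d0 = LinearMap.ker d1 := by
  have h1 : LinearMap.range d0 ≤ LinearMap.ker d1 := by
    rintro _ ⟨φ, rfl⟩
    refine funext fun τ => ?_
    obtain ⟨s, t, u, a, b, d, rfl⟩ := ex_tr0 τ
    rw [d1_tr, d0_ed, d0_ed, d0_ed]
    exact (by decide : ∀ x y z : F2, x + y + (y + z) + (x + z) = 0) _ _ _
  have h2 : LinearMap.ker d0 ≤ Submodule.span F2 {fun _ => 1} := by
    intro φ hφ
    refine Submodule.mem_span_singleton.2 ⟨φ 0, funext fun t => ?_⟩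
    have hp := hF.gconn 0 t
    induction hp with
    | refl => simp
    | @tail x y _ q ih =>
      have := congrFun hφ (ed q)
      rw [d0_ed] at this
      simp only [Pi.smul_apply, smul_eq_mul, mul_one, Pi.zero_apply] at ih this ⊢
      rw [ih]
      exact (by decide : ∀ p r : F2, p + r = 0 → p = r) _ _ this
  obtain ⟨t, ht⟩ := exists_adj 0
  obtain ⟨u, _, -, k⟩ := hF.two 0 t ht
  have hu := (k u).2 (Or.inl rfl)
  have h3 : LinearMap.range d1 ⊔ Submodule.span F2 {Pi.single (tr ht hu.1 hu.2) 1} = ⊤ := by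
    refine eq_top_iff.2 fun z _ => ?_
    obtain ⟨c, -, e⟩ := mem_M z (tr ht hu.1 hu.2) fun τ _ => R_all hF τ _
    refine Submodule.mem_sup.2 ⟨_, ⟨c, rfl⟩, _, Submodule.mem_span_singleton.2 ⟨∑ τ, z τ, rfl⟩, ?_⟩
    rw [e, add_assoc, vv, add_zero]
  have a1 := (Submodule.finrank_mono h2).trans (finrank_span_le_card _)
  have a2 := Submodule.finrank_sup_add_finrank_inf_eq (LinearMap.range d1)
    (Submodule.span F2 {Pi.single (tr ht hu.1 hu.2) 1})
  have a3 := finrank_span_le_card (R := F2) ({Pi.single (tr ht hu.1 hu.2) 1} : Set (T 3 → F2))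
  have a4 := LinearMap.finrank_range_add_finrank_ker d0
  have a5 := LinearMap.finrank_range_add_finrank_ker d1
  rw [h3, finrank_top] at a2
  simp only [Set.toFinset_singleton, Finset.card_singleton] at a1 a3
  rw [Module.finrank_fintype_fun_eq_card] at a2 a4 a5
  rw [Fintype.card_subtype] at a2 a5
  have := hF.n2
  have := hF.n3
  rw [card_S] at a4
  exact Submodule.eq_of_le_of_finrank_le h1 (by omega)

end FThree

open FThree in
theorem gh1 (hF : Fact1) : GH1S := by
  intro J hJ c hs hc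
  have : ∀ e : T 2, ∃ a : F2, ∀ s t (h : adj s t), e = ed h → a = c s t := by
    intro e
    obtain ⟨s, t, h, rfl⟩ := ex_ed e
    refine ⟨c s t, fun s' t' h' q => ?_⟩
    have q' : ({s, t} : Set S) = {s', t'} := by
      simpa [ed] using congrArg (fun e : T 2 => (e.1 : Set S)) q
    rcases Set.pair_eq_pair_iff.1 q' with ⟨rfl, rfl⟩ | ⟨rfl, rfl⟩
    exacts [rfl, hs _ _]
  choose c' hc' using this
  let c0 : T 2 → F2 := fun e => if Disjoint e.1 J then c' e else 0
  have h0 : ∀ s ∉ J, ∀ t ∉ J, ∀ h : adj s t, c0 (ed h) = c s t := fun s a t b h => by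
    simp only [c0]
    rw [if_pos (by simp [ed, a, b]), hc' _ s t h rfl]
  have h1 : ∀ τ, d1 c0 τ ≠ 0 → ∃ s ∈ J, s ∈ τ.1 := by
    intro τ k
    by_contra q
    push Not at q
    obtain ⟨s, t, u, a, b, d, rfl⟩ := ex_tr0 τ
    have ns : s ∉ J := fun m => q s m (by simp [tr])
    have nt : t ∉ J := fun m => q t m (by simp [tr])
    have nu : u ∉ J := fun m => q u m (by simp [tr])
    rw [d1_tr, h0 s ns t nt, h0 t nt u nu, h0 s ns u nu] at k
    exact k (hc s ns t nt u nu a d b)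
  have h2 : d1 c0 ∈ MM J := by
    by_cases k : ∃ τ0, d1 c0 τ0 ≠ 0
    · obtain ⟨τ0, k⟩ := k
      obtain ⟨t, t1, t2⟩ := h1 τ0 k
      have := mem_M (J := J) (d1 c0) τ0 fun τ q => by
        obtain ⟨s, s1, s2⟩ := h1 τ q
        by_cases e : s = t
        · exact R_v hF s1 s2 (e ▸ t2)
        · exact R_adj hF s1 t1 (hJ s s1 t t1 e) s2 t2
      rwa [tot hF, zero_smul, add_zero] at this
    · push Not at k
      rw [show d1 c0 = 0 from funext k]
      exact (MM J).zero_mem
  obtain ⟨c1, a1, a2⟩ := h2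
  have h3 : c0 + c1 ∈ LinearMap.ker d1 := by
    rw [LinearMap.mem_ker, map_add, a2, vv]
  rw [← exact hF] at h3
  obtain ⟨φ, hφ⟩ := h3
  refine ⟨φ, fun s a t b h => ?_⟩
  have a3 : c1 (ed h) = 0 := a1 (ed h) (by simp [ed, a, b])
  rw [← d0_ed φ h, hφ, Pi.add_apply, a3, add_zero, h0 s a t b]

end Pool.Agent.MP_df844f_gt.RA

end
end MrgPart2

-- ======== part 3: formerly Pool.Agent.MP_df844f_gt.RA.w.Fact
section MrgPart3

namespace Pool.Agent.MP_df844f_gt.RA

theorem fact [Dat] : FactS := fact_of fact1 (gconn fact1) (gh1 fact1)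

end Pool.Agent.MP_df844f_gt.RA

end MrgPart3

-- ======== part 4: formerly Pool.Agent.MP_df844f_gt.RA.w.Hull
section MrgPart4

/-! The hull of a finite set is finite, with a linear bound in the number of separating walls. -/

set_option linter.unusedSectionVars false

noncomputable section

namespace Pool.Agent.MP_df844f_gt.RA

variable [Dat]

namespace Hull

/-- The far side of a wall has a gate. -/
theorem gate (b r : W) (h : ∃ z, r ∈ Sep b z) :
    ∃ y, r ∈ Sep b y ∧ ∀ z, r ∈ Sep b z → Sep b y ⊆ Sep b z := by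
  classical
  have h0 : ∃ n, ∃ z, r ∈ Sep b z ∧ d b z = n := by
    obtain ⟨z, hz⟩ := h
    exact ⟨_, z, hz, rfl⟩
  obtain ⟨y, hy, hd⟩ := Nat.find_spec h0
  refine ⟨y, hy, fun z hz => ?_⟩
  obtain ⟨m, hm⟩ := exists_meet b z _ y rfl
  have h1 : r ∈ Sep b m := by rw [hm]; exact Finset.mem_inter.2 ⟨hy, hz⟩
  have h2 : Nat.find h0 ≤ d b m := Nat.find_min' h0 ⟨m, h1, rfl⟩
  rw [← hd, ← card_Sep, ← card_Sep, hm] at h2
  have h3 : Sep b y ∩ Sep b z = Sep b y :=
    Finset.eq_of_subset_of_card_le Finset.inter_subset_left h2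
  exact Finset.inter_eq_left.1 h3

/-- Joins inside an interval. -/
theorem join (b x : W) (u : S → W) (T : Finset S) (h : ∀ s ∈ T, Sep b (u s) ⊆ Sep b x) :
    ∃ w, Sep b w = T.biUnion fun s => Sep b (u s) := by
  induction T using Finset.induction_on with
  | empty => exact ⟨b, by simp [Sep_self]⟩
  | insert s T hs ih =>
    obtain ⟨w, hw⟩ := ih fun t ht => h t (Finset.mem_insert_of_mem ht)
    have h1 : Sep b w ⊆ Sep b x := by
      rw [hw]
      exact Finset.biUnion_subset.2 fun t ht => h t (Finset.mem_insert_of_mem ht)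
    have h2 := h s (Finset.mem_insert_self _ _)
    obtain ⟨m, hm⟩ := exists_med (u s) w x
    refine ⟨m, ?_⟩
    rw [Finset.biUnion_insert, ← hw]
    ext r
    have a1 := @h1 r
    have a2 := @h2 r
    have a3 := hm r
    simp only [Finset.mem_union, mem_Sep] at a1 a2 ⊢
    tauto

/-- Two points of an interval: the smaller difference has at most three walls. -/
theorem diff (h : K44S) {b x p q : W} (hp : Sep b p ⊆ Sep b x) (hq : Sep b q ⊆ Sep b x)
    (hd : d b q ≤ d b p) : (Sep b q \ Sep b p).card ≤ 3 := by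
  by_contra k
  have e1 := Finset.card_sdiff_add_card_inter (Sep b q) (Sep b p)
  have e2 := Finset.card_sdiff_add_card_inter (Sep b p) (Sep b q)
  rw [Finset.inter_comm, card_Sep] at e2
  rw [card_Sep] at e1
  refine h (Sep b q \ Sep b p) (Sep b p \ Sep b q) (by omega) (by omega) fun u hu v hv => ?_
  rw [Finset.mem_sdiff] at hu hv
  have a1 := hq hu.1
  have a2 := hp hv.1
  refine cross_of_four (a := b) (b := p) (c := q) (e := x) hu.2 ?_ hu.1 hv.2 ?_ hv.1
  · have := hu.1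
    simp only [mem_Sep] at a1 this ⊢; tauto
  · have := hv.1
    simp only [mem_Sep] at a2 this ⊢; tauto

/-- Every chamber is close to the gate of one of its walls. -/
theorem near (hF : FactS) (h : K44S) (b : W) (G : W → W)
    (hG : ∀ r, (∃ z, r ∈ Sep b z) → r ∈ Sep b (G r) ∧ ∀ z, r ∈ Sep b z → Sep b (G r) ⊆ Sep b z)
    {x : W} (hx : x ≠ b) : ∃ r ∈ Sep b x, d (G r) x ≤ 6 := by
  classical
  obtain ⟨D, hD⟩ : ∃ D : Finset S, ∀ s, s ∈ D ↔ wall s x ∈ Sep b x :=
    ⟨Finset.univ.filter fun s => wall s x ∈ Sep b x, by simp⟩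
  have hc : D.card ≤ 3 := hF.clq D fun s hs t ht hne =>
    desc_adj (desc_iff.2 ((hD s).1 hs)) (desc_iff.2 ((hD t).1 ht)) hne
  have hn : D.Nonempty := by
    obtain ⟨s, hs⟩ := exists_desc hx
    exact ⟨s, (hD s).2 (desc_iff.1 hs)⟩
  have hsub : ∀ s ∈ D, Sep b (G (wall s x)) ⊆ Sep b x := fun s hs =>
    (hG _ ⟨x, (hD s).1 hs⟩).2 x ((hD s).1 hs)
  obtain ⟨s0, hs0, hmax⟩ := Finset.exists_max_image D (fun s => d b (G (wall s x))) hn
  obtain ⟨w, hw⟩ := join b x (fun s => G (wall s x)) D hsub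
  have hxw : Sep b x ⊆ Sep b w := by
    by_contra k
    obtain ⟨s, h1, h2⟩ := exists_desc_of_not_btw k
    apply h2
    rw [hw]
    exact Finset.mem_biUnion.2 ⟨s, (hD s).2 h1, (hG _ ⟨x, h1⟩).1⟩
  refine ⟨wall s0 x, (hD s0).1 hs0, ?_⟩
  rw [← card_Sep]
  have h1 : Sep (G (wall s0 x)) x ⊆
      (D.erase s0).biUnion fun s => Sep b (G (wall s x)) \ Sep b (G (wall s0 x)) := by
    intro p hp
    have a1 := @hsub s0 hs0 p
    have a2 : p ∈ Sep b x ∧ p ∉ Sep b (G (wall s0 x)) := by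
      simp only [mem_Sep] at a1 hp ⊢; tauto
    have a3 := hxw a2.1
    rw [hw] at a3
    obtain ⟨s, hs, a4⟩ := Finset.mem_biUnion.1 a3
    refine Finset.mem_biUnion.2 ⟨s, Finset.mem_erase.2 ⟨?_, hs⟩, Finset.mem_sdiff.2 ⟨a4, a2.2⟩⟩
    intro e
    rw [e] at a4
    exact a2.2 a4
  have h2 := Finset.card_biUnion_le_card_mul (D.erase s0)
    (fun s => Sep b (G (wall s x)) \ Sep b (G (wall s0 x))) 3 fun s hs =>
      diff h (hsub s0 hs0) (hsub s (Finset.mem_of_mem_erase hs))
        (hmax s (Finset.mem_of_mem_erase hs))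
  have h3 := Finset.card_le_card h1
  rw [Finset.card_erase_of_mem hs0] at h2
  omega

theorem sep_mem {F : Finset W} {b x r : W} (hb : b ∈ F) (hx : x ∈ hull F) (hr : r ∈ Sep b x) :
    r ∈ sepW F := by
  by_contra k
  have h1 : ∀ a ∈ F, r ∉ Sep b a := fun a ha e =>
    k (Finset.mem_biUnion.2 ⟨b, hb, Finset.mem_biUnion.2 ⟨a, ha, e⟩⟩)
  have h2 := hx r
  rw [mem_Sep] at hr
  by_cases c : r ∈ N b
  · have := h2.1 fun a ha => by
      have := h1 a ha
      rw [mem_Sep] at this; tauto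
    tauto
  · have := h2.2 fun a ha => by
      have := h1 a ha
      rw [mem_Sep] at this; tauto
    tauto

end Hull

theorem hullS (hF : FactS) (h : K44S) (hb : BallS) : HullS := by
  classical
  rintro F ⟨b, hbF⟩
  have h0 : ∀ r, ∃ y, (∃ z, r ∈ Sep b z) →
      r ∈ Sep b y ∧ ∀ z, r ∈ Sep b z → Sep b y ⊆ Sep b z := by
    intro r
    by_cases c : ∃ z, r ∈ Sep b z
    · obtain ⟨y, hy⟩ := Hull.gate b r c
      exact ⟨y, fun _ => hy⟩
    · exact ⟨b, fun k => absurd k c⟩
  choose G hG using h0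
  choose B hB1 hB2 using fun c => hb c 6
  refine ⟨(insert b ((sepW F).biUnion fun r => B (G r))).filter (· ∈ hull F), ?_, ?_⟩
  · ext x
    simp only [Finset.coe_filter, Set.mem_ofPred_eq]
    refine ⟨fun k => k.2, fun hx => ⟨?_, hx⟩⟩
    by_cases c : x = b
    · rw [c]; exact Finset.mem_insert_self _ _
    · obtain ⟨r, hr, hd⟩ := Hull.near hF h b G hG c
      exact Finset.mem_insert_of_mem
        (Finset.mem_biUnion.2 ⟨r, Hull.sep_mem hbF hx hr, (hB2 _ _).2 hd⟩)
  · refine (Finset.card_filter_le _ _).trans ((Finset.card_insert_le _ _).trans ?_)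
    have := Finset.card_biUnion_le_card_mul (sepW F) (fun r => B (G r)) ((nS + 1) ^ 6)
      fun r _ => hB1 _
    rw [add_comm, mul_comm]
    exact Nat.add_le_add_left this 1

end Pool.Agent.MP_df844f_gt.RA

end
end MrgPart4

-- ======== part 5: formerly Pool.Agent.MP_df844f_gt.RA.s3.Bead
section MrgPart5

/-! Small boundary components of tight states bound beads. -/

set_option linter.unusedSectionVars false

noncomputable section

namespace Pool.Agent.MP_df844f_gt.RA

variable [Dat]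

open PS

namespace BeadA

variable {B : Type} [MulAction W B] {Y : PS B}

theorem one_eq {x y : Y.Om} {s t : S} (h : Y.cell x {s} = Y.cell y {t}) : s = t :=
  Finset.singleton_injective (cell_eq_iff.1 h).1

theorem ch1_apply (hY : Y.State) (D : Finset (Y.Om × S)) (hD : ∀ p ∈ D, Y.Free p.1 p.2)
    (y : Y.Om) (s : S) [Decidable ((y, s) ∈ D)] :
    Y.ch1 D (Y.cell y {s}) = if (y, s) ∈ D then 1 else 0 := by
  classical
  unfold ch1
  rw [Finsupp.finsetSum_apply]
  have : ∀ p ∈ D, (Finsupp.single (Y.cell p.1 {p.2}) (1 : F2)) (Y.cell y {s}) =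
      if p = (y, s) then 1 else 0 := by
    intro p hp
    rw [Finsupp.single_apply]
    refine if_congr ⟨fun h => ?_, fun h => by rw [h]⟩ rfl rfl
    obtain ⟨x, t⟩ := p
    obtain rfl : t = s := one_eq h
    rcases hY.cell_one.1 h with k | k
    · rw [k]
    · exact absurd ⟨y, k⟩ (hD _ hp)
  rw [Finset.sum_congr rfl this, Finset.sum_ite_eq']
  split_ifs <;> rfl

open Classical in
theorem bd0_apply (Z : Finset Y.Om) (y : Y.Om) (s : S) :
    Y.bd (Y.ch0 Z) (Y.cell y {s}) =
      ∑ x ∈ Z, if Y.cell y {s} = Y.cell x {s} then (1 : F2) else 0 := by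
  rw [bd_ch0, Finsupp.finsetSum_apply]
  refine Finset.sum_congr rfl fun x _ => ?_
  rw [Finsupp.finsetSum_apply, Finset.sum_eq_single s]
  · rw [Finsupp.single_apply]
    exact if_congr eq_comm rfl rfl
  · intro t _ ht
    rw [Finsupp.single_apply, if_neg fun h => ht (one_eq h)]
  · intro h
    exact absurd (Finset.mem_univ s) h

theorem bd0_free (hY : Y.State) (Z : Finset Y.Om) {y : Y.Om} {s : S} (h : Y.Free y s)
    [Decidable (y ∈ Z)] : Y.bd (Y.ch0 Z) (Y.cell y {s}) = if y ∈ Z then 1 else 0 := by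
  classical
  rw [bd0_apply]
  have : ∀ x ∈ Z, (if Y.cell y {s} = Y.cell x {s} then (1 : F2) else 0) =
      if x = y then 1 else 0 := by
    intro x _
    refine if_congr ⟨fun k => ?_, fun k => by rw [k]⟩ rfl rfl
    rcases hY.cell_one.1 k with q | q
    · exact q
    · exact absurd ⟨x, q⟩ h
  rw [Finset.sum_congr rfl this, Finset.sum_ite_eq']
  split_ifs <;> rfl

theorem bd0_edge (hY : Y.State) (Z : Finset Y.Om) {y y' : Y.Om} {s : S}
    (h : Y.e s y y') (h1 : y ∈ Z) (h2 : y' ∉ Z) : Y.bd (Y.ch0 Z) (Y.cell y {s}) = 1 := by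
  classical
  rw [bd0_apply]
  have : ∀ x ∈ Z, (if Y.cell y {s} = Y.cell x {s} then (1 : F2) else 0) =
      if x = y then 1 else 0 := by
    intro x hx
    refine if_congr ⟨fun k => ?_, fun k => by rw [k]⟩ rfl rfl
    rcases hY.cell_one.1 k with q | q
    · exact q
    · exact absurd (hY.fold h q ▸ hx) h2
  rw [Finset.sum_congr rfl this, Finset.sum_ite_eq', if_pos h1]

theorem supp_ch1 (D : Finset (Y.Om × S)) :
    (Y.ch1 D).support ⊆ D.image fun p => Y.cell p.1 {p.2} := by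
  classical
  intro c hc
  obtain ⟨p, hp, k⟩ := Finset.mem_biUnion.1 (Finsupp.support_finsetSum hc)
  exact Finset.mem_image.2 ⟨p, hp, (Finset.mem_singleton.1 (Finsupp.support_single_subset k)).symm⟩

end BeadA

theorem bead (s0 : Sweep0S) (att : AttS) (cl : ClosS) (ed : EdgeS) (bd : BdS) : BeadS := by
  classical
  intro S0
  refine ⟨2 * (3 * S0) + 20, ?_⟩
  intro B _ o hT hTh Y x0 r hY ht T hc hne hS hcl
  have hB : Loc B := loc_of hT (hTh.mono (by omega))
  obtain ⟨p0, hp0⟩ := hne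
  obtain ⟨w0, hw0⟩ := hT (Y.f p0.1)
  have hb : Y.bd (Y.ch1 T) = 0 := by
    rw [← Finsupp.support_eq_empty, Finset.eq_empty_iff_forall_notMem]
    intro c hc'
    obtain ⟨p, hp, t, h1, h2, h3⟩ := (bd B hB Y hY T hc.1 c).1 hc'
    obtain ⟨y, u, v, k1, k2, k3, k4, -⟩ := ed B hB Y hY p.1 p.2 t h1 (hc.1 p hp)
    exact k3 (h3 (y, u) (hcl p hp (y, u) ⟨hc.1 p hp, k1, t, v, h1, k2, k4.symm⟩) v k2
      (k4.trans h2.symm))
  have hs : ∀ c ∈ (Y.ch1 T).support, ∃ x s, c = Y.cell x {s} ∧ Y.Near (2 * S0) p0.1 x := by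
    intro c hc'
    obtain ⟨p, hp, rfl⟩ := Finset.mem_image.1 (BeadA.supp_ch1 T hc')
    exact ⟨p.1, p.2, rfl, (hY.bconn_near hc hp0 hp).mono (by omega)⟩
  rcases s0 B o (3 * S0) hTh Y p0.1 w0 S0 (2 * S0) (Y.ch1 T) hY hw0 (by omega)
    ((Finset.card_le_card (BeadA.supp_ch1 T)).trans (Finset.card_image_le.trans hS)) hs hb with
    ⟨Z, h1, -, h3⟩ | ⟨J, y, b, h⟩
  · have hl : ∀ z, ∃ w, z ∈ Z → w • o = Y.f z ∧ d w0 w ≤ 2 * S0 + S0 := by
      intro z
      by_cases hz : z ∈ Z
      · obtain ⟨w, hw⟩ := (h3 z hz).lift hw0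
        exact ⟨w, fun _ => hw⟩
      · exact ⟨1, fun k => absurd k hz⟩
    choose pos hpos using hl
    have hsh : Y.Shut (Z : Set Y.Om) := by
      intro s x y he hx
      by_contra hy
      have k := BeadA.bd0_edge hY Z he hx hy
      rw [h1, BeadA.ch1_apply hY T hc.1, if_neg fun q => hc.1 _ q ⟨y, he⟩] at k
      exact zero_ne_one k
    refine ⟨(Z : Set Y.Om), pos, ⟨hsh, fun z hz => (hpos z hz).1, fun s z hz z' he => ?_,
      fun z hz z' hz' => ⟨_, (h3 z hz).symm.trans (h3 z' hz')⟩⟩, fun p => ?_⟩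
    · have hz' : z' ∈ Z := hsh s z z' he hz
      refine hTh _ _ (by rw [mul_smul, (hpos z hz).1, (hpos z' hz').1, Y.e_f he]) ?_
      have a1 := (hpos z hz).2
      have a2 := (hpos z' hz').2
      have a3 := d_triangle (pos z') w0 (g s * pos z)
      have a4 := d_triangle w0 (pos z) (g s * pos z)
      rw [d_g_mul] at a4
      rw [d_comm (pos z') w0] at a3
      omega
    · have key : Y.Free p.1 p.2 → (p ∈ T ↔ p.1 ∈ Z) := by
        intro hf
        have k := BeadA.bd0_free hY Z hf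
        rw [h1, BeadA.ch1_apply hY T hc.1] at k
        by_cases a : (p.1, p.2) ∈ T <;> by_cases b : p.1 ∈ Z
        · exact ⟨fun _ => b, fun _ => a⟩
        · rw [if_pos a, if_neg b] at k; exact absurd k one_ne_zero
        · rw [if_neg a, if_pos b] at k; exact absurd k zero_ne_one
        · exact ⟨fun q => absurd q a, fun q => absurd q b⟩
      exact ⟨fun q => ⟨(key (hc.1 p q)).1 q, hc.1 p q⟩, fun q => (key q.2).2 q.1⟩
  · exfalso
    obtain ⟨Y1, φ1, g1, c1, n1⟩ := att B Y J y b h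
    obtain ⟨Y2, φ2, s2, g2, c2, n2⟩ := cl B Y1
    have a1 := c1.area
    have a2 := c2.area
    have a3 := φ1.vol_le
    have a4 := φ2.vol_le
    have a5 := ht.move ((φ1.comp φ2).move o (g1.comp g2)) (x0' := (φ1.comp φ2).π x0) rfl s2
      (by omega)
    omega

end Pool.Agent.MP_df844f_gt.RA

end
end MrgPart5

-- ======== part 6: formerly Pool.Agent.MP_df844f_gt.RA.s3.Gain
section MrgPart6

/-! The isoperimetric inequality for connected sets of free sides in a tight state. -/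

set_option linter.unusedSectionVars false

noncomputable section

namespace Pool.Agent.MP_df844f_gt.RA

variable [Dat]

open PS

namespace GainA

variable {B : Type} [MulAction W B] {Y Y' : PS B}

theorem card_ch1 (D : Finset (Y.Om × S)) : (Y.ch1 D).support.card ≤ D.card := by
  classical
  refine le_trans (Finset.card_le_card (t := D.image fun p => Y.cell p.1 {p.2}) ?_)
    Finset.card_image_le
  intro c hc
  obtain ⟨p, hp, k⟩ := Finset.mem_biUnion.1 (Finsupp.support_finsetSum hc)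
  exact Finset.mem_image.2 ⟨p, hp, (Finset.mem_singleton.1 (Finsupp.support_single_subset k)).symm⟩

theorem ends_le (φ : Hom Y Y') (x0 : Y.Om) (U : Set Y.Om) (Z : Set Y'.Om)
    (h : ∀ x, φ.π x ∈ Z → x ∈ U) : Y'.ends (φ.π x0) Z ≤ Y.ends x0 U := by
  refine Set.ncard_le_ncard_of_injOn (Option.map φ.α.symm) (fun a ha => h _ ?_)
    ((Option.map_injective φ.α.symm.injective).injOn)
  cases a with
  | none => exact ha
  | some a =>
    show φ.π (Y.src (φ.α.symm a)) ∈ Z
    rw [← φ.src_α, Equiv.apply_symm_apply]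
    exact ha

end GainA

open GainA in
theorem gain (ca : Cap2S) (sw : Sweep2S) (co : CountS) (re : RemS) (la : LamS) : GainS := by
  classical
  obtain ⟨CK, ca⟩ := ca
  obtain ⟨CQ, re⟩ := re
  obtain ⟨P, hP⟩ : ∃ P, P = nS * (nS + 6) + nS := ⟨_, rfl⟩
  obtain ⟨Q, hQ⟩ : ∃ Q, Q = nS + 6 + 2 * (nS * (nS + 6)) + nS := ⟨_, rfl⟩
  refine ⟨(Q + P * CQ) * CK + CQ + 1, fun H m0 => ?_⟩
  obtain ⟨ρ, ca⟩ := ca m0
  obtain ⟨κ0, hκ0⟩ : ∃ κ0, κ0 = CK * m0 := ⟨_, rfl⟩
  obtain ⟨R0, hR0⟩ : ∃ R0, R0 = 3 * m0 + (nS + 1) * κ0 := ⟨_, rfl⟩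
  refine ⟨R0 + 2 * nS * ((nS + 1) * κ0 + H * (nS * ((nS + 6) * κ0))),
    (nS + 6) * κ0 + κ0 + 1 + CQ * (P * κ0 + m0), ρ + (2 * R0 + 20), ?_⟩
  intro B _ _ o tr th ex Y x0 r μ hY hI hv hT D hD hm
  by_contra hc
  obtain ⟨b, hb⟩ : ∃ b, b = (Y.bd (Y.ch1 D)).support.card := ⟨_, rfl⟩
  obtain ⟨en, hen⟩ : ∃ en, en = Y.endsN x0
    (R0 + 2 * nS * ((nS + 1) * κ0 + H * (nS * ((nS + 6) * κ0)))) D := ⟨_, rfl⟩
  rw [← hb, ← hen, not_le] at hc
  have hbe : b + en ≤ m0 :=
    (Nat.le_mul_of_pos_left (b + en) (Nat.succ_pos _)).trans (hc.le.trans hm)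
  obtain ⟨p0, hp0⟩ := Finset.card_pos.1 (Nat.zero_lt_of_lt hc)
  obtain ⟨Y1, φ1, κ, E, s1, g1, c1, n1, hκ, hE, b1, u1⟩ :=
    ca B o tr (th.mono (by omega)) Y D p0 hY hD hp0 hm
  rw [← hb] at hκ
  have hκ' : κ ≤ κ0 := hκ0 ▸ hκ.trans (Nat.mul_le_mul_left _ (by omega))
  have m1 := Nat.mul_le_mul_left (nS + 6) hκ'
  have m2 := Nat.mul_le_mul_left (nS + 1) hκ'
  have m3 : (nS + 1) * κ = nS * κ + κ := by ring
  have m4 : P * κ = nS * ((nS + 6) * κ) + nS * κ := by rw [hP]; ring
  have m5 : Q * κ = (nS + 6) * κ + 2 * (nS * ((nS + 6) * κ)) + nS * κ := by rw [hQ]; ring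
  have m6 := Nat.mul_le_mul_left nS m1
  have m7 := Nat.mul_le_mul_left P hκ'
  have v1 := φ1.vol_le
  have a1 : Y.area ≤ Y1.area := hT.move (φ1.move o g1) (x0' := φ1.π x0) rfl s1 (by omega)
  obtain ⟨w0, hw0⟩ := tr (Y1.f (φ1.π p0.1))
  have hu : (φ1.push (Y.ch1 D) + E).support.card ≤ m0 + nS * κ := by
    have h1 := (Finset.card_le_card (Finsupp.support_add (g₁ := φ1.push (Y.ch1 D))
      (g₂ := E))).trans (Finset.card_union_le _ _)
    have h2 := φ1.card_support_push (Y.ch1 D)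
    have h3 := card_ch1 D
    omega
  obtain ⟨Y2, φ2, s2, g2, c2, h⟩ := sw B o R0 (th.mono (by omega)) Y1 (φ1.π p0.1) w0 (m0 + nS * κ)
    (2 * m0 + κ) Y.area _ s1 hw0 (by omega) hu a1 u1 b1
  have g := g1.comp g2
  have c := c1.comp c2
  have ca1 := c1.area
  rcases h with ⟨h1, h2⟩ | ⟨a2, Z, hZ, -, nZ⟩
  · have v2 := φ2.vol_le
    have := hT.move ((φ1.comp φ2).move o g) (x0' := (φ1.comp φ2).π x0) rfl s2 (by omega)
    omega
  have hZ' : Y2.bd (Y2.ch0 Z) = (φ1.comp φ2).push (Y.ch1 D) + φ2.push E := by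
    rw [hZ, map_add, ← EHom.push_comp]
    rfl
  have nZ' : ∀ z ∈ Z, Y2.Near R0 ((φ1.comp φ2).π p0.1) z := fun z hz => (nZ z hz).mono (by omega)
  have hE2 := φ2.card_support_push E
  generalize φ1.comp φ2 = φ at g c hZ' nZ'
  have ca2 := c.area
  have v2 := φ.vol_le
  have l1 := la B H ex Y Y2 φ hY s2 (by omega)
  have n3 : nS * φ.new ≤ nS * ((nS + 6) * κ) := Nat.mul_le_mul_left _ (by omega)
  have l2 : H * (Y.area + nS * φ.new) ≤ H * Y2.area + H * (nS * ((nS + 6) * κ0)) := by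
    rw [← Nat.mul_add]
    exact Nat.mul_le_mul_left _ (by omega)
  have e1 : Y2.ends (φ.π x0) Z ≤ en := by
    rw [hen]
    refine ends_le φ x0 _ _ fun x hx => ⟨p0, hp0, (c.near _ _ _ (nZ' _ hx)).mono ?_⟩
    refine Nat.add_le_add_left (Nat.mul_le_mul_left _ ?_) _
    unfold PS.pot
    omega
  obtain ⟨k1, k2⟩ := co B Y Y2 φ D _ Z hY s2 hD.1 hZ' a2
  obtain ⟨Y3, m, x3, hK, s3, v3, a3⟩ := re B o R0 tr (th.mono (by omega)) Y2 (φ.π x0) _ Z s2
    (g.h0 o x0 hI.h0) nZ'
  have q1 : CQ * (Y2.front Z + Y2.ends (φ.π x0) Z) ≤ CQ * (P * κ + en) :=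
    Nat.mul_le_mul_left _ (by omega)
  have q2 : CQ * (P * κ + en) ≤ CQ * (P * κ0 + m0) := Nat.mul_le_mul_left _ (by omega)
  have a4 := hT.move ((φ.move o g).comp m) (x0' := x3) ⟨φ.π x0, rfl, hK⟩ s3 (by omega)
  have q3 : (Q + P * CQ) * κ ≤ (Q + P * CQ) * (CK * b) := Nat.mul_le_mul_left _ hκ
  have q4 : D.card ≤ (Q + P * CQ) * κ + CQ * en := by
    have : (Q + P * CQ) * κ + CQ * en = Q * κ + CQ * (P * κ + en) := by ring
    omega
  have q5 : ((Q + P * CQ) * CK + CQ + 1) * (b + en) = (Q + P * CQ) * (CK * b) + CQ * en +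
      ((CQ + 1) * b + ((Q + P * CQ) * CK + 1) * en) := by ring
  omega

end Pool.Agent.MP_df844f_gt.RA

end
end MrgPart6

-- ======== part 7: formerly Pool.Agent.MP_df844f_gt.RA.s3.Rem
section MrgPart7

/-! Removing a small liftable set of chambers at a cost linear in its frontier and ends. -/

set_option linter.unusedSectionVars false

noncomputable section

namespace Pool.Agent.MP_df844f_gt.RA

variable [Dat]

open PS

namespace RemA

variable {B : Type} [MulAction W B] {o : B} {Y : PS B}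

/-- Edges inside `Z`. -/
def In (Z : Finset Y.Om) (u v : Y.Om) : Prop := u ∈ Z ∧ v ∈ Z ∧ ∃ s, Y.e s u v

/-- The component of `z` in `Z`. -/
def cmp (Z : Finset Y.Om) (z : Y.Om) : Set Y.Om := {y | Relation.ReflTransGen (In Z) z y}

theorem cmp_self (Z : Finset Y.Om) (z : Y.Om) : z ∈ cmp Z z := Relation.ReflTransGen.refl

theorem cmp_eq {Z : Finset Y.Om} {z y : Y.Om} (h : y ∈ cmp Z z) : cmp Z y = cmp Z z := by
  have hs : Relation.ReflTransGen (In Z) y z := by
    have h' : Relation.ReflTransGen (In Z) z y := h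
    clear h
    induction h' with
    | refl => exact Relation.ReflTransGen.refl
    | tail _ k ih =>
      obtain ⟨a, b, s, e⟩ := k
      exact Relation.ReflTransGen.head ⟨b, a, s, Y.e_symm e⟩ ih
  ext q
  exact ⟨fun k => Relation.ReflTransGen.trans h k, fun k => Relation.ReflTransGen.trans hs k⟩

theorem cmp_sub {Z : Finset Y.Om} {z y : Y.Om} (hz : z ∈ Z) (h : y ∈ cmp Z z) : y ∈ Z := by
  have h' : Relation.ReflTransGen (In Z) z y := h
  cases h' with
  | refl => exact hz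
  | tail _ k => exact k.2.1

/-- Chambers of `Z` near the outside or carrying an end. -/
def Mark (Z : Finset Y.Om) (x0 z : Y.Om) : Prop :=
  (∃ y, y ∉ Z ∧ Y.Near 2 z y) ∨ ∃ a, Y.esrc x0 a = z

theorem card_mark (hY : Y.State) (Z : Finset Y.Om) (x0 : Y.Om) :
    {z | z ∈ Z ∧ Mark Z x0 z}.ncard ≤ (nS + 1) * Y.front Z + Y.ends x0 Z := by
  let Fr : Set (Y.Om × S) := {p | p.1 ∈ (Z : Set Y.Om) ∧ ∃ y, y ∉ (Z : Set Y.Om) ∧ Y.e p.2 p.1 y}
  let fn : (Y.Om × S) × Option S → Y.Om := fun q => q.2.elim q.1.1 fun s => Y.sg s q.1.1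
  have h : {z | z ∈ Z ∧ Mark Z x0 z} ⊆
      fn '' (Fr ×ˢ Set.univ) ∪ Y.esrc x0 '' {a | Y.esrc x0 a ∈ (Z : Set Y.Om)} := by
    rintro z ⟨hz, ⟨y, hy, hn⟩ | ⟨a, ha⟩⟩
    · left
      cases hn with
      | refl => exact absurd hz hy
      | @step _ s _ q _ e hn =>
        by_cases hq : q ∈ Z
        · cases hn with
          | refl => exact absurd hq hy
          | @step _ s' _ q' _ e' hn =>
            cases hn with
            | refl =>
              exact ⟨((q, s'), some s), ⟨⟨hq, _, hy, e'⟩, trivial⟩, hY.sg_eq (Y.e_symm e)⟩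
        · exact ⟨((z, s), none), ⟨⟨hz, q, hq, e⟩, trivial⟩, rfl⟩
    · exact Or.inr ⟨a, by show Y.esrc x0 a ∈ (Z : Set Y.Om); rw [ha]; exact hz, ha⟩
  refine (Set.ncard_le_ncard h).trans ((Set.ncard_union_le _ _).trans (Nat.add_le_add ?_ ?_))
  · refine (Set.ncard_image_le).trans ?_
    rw [Set.ncard_prod, Set.ncard_univ, mul_comm]
    simp only [Nat.card_eq_fintype_card, Fintype.card_option, card_S]
    exact le_rfl
  · exact Set.ncard_image_le

theorem exists_mark (ht : Trans o) {x0 : Y.Om} (h0 : Y.H0 o x0) {Z : Finset Y.Om} {z : Y.Om}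
    (hz : z ∈ Z) : ∃ y ∈ cmp Z z, Mark Z x0 y := by
  by_contra hn
  push Not at hn
  have sh : ∀ s x y, Y.e s x y → x ∈ cmp Z z → y ∈ cmp Z z := by
    intro s x y e hx
    by_cases hy : y ∈ Z
    · exact Relation.ReflTransGen.tail hx ⟨cmp_sub hz hx, hy, s, e⟩
    · exact (hn x hx (Or.inl ⟨y, hy, (Near.single e).mono (by omega)⟩)).elim
  have nd : ∀ a, Y.src a ∉ cmp Z z := fun a k => hn _ k (Or.inr ⟨some a, rfl⟩)
  obtain ⟨w, hw⟩ := ht (Y.f z)
  have := h0.2 Prop (fun x _ => x ∈ cmp Z z)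
    ⟨fun s x y _ e => propext ⟨sh s y x (Y.e_symm e), sh s x y e⟩,
      fun a _ => propext ⟨fun k => (nd _ k).elim, fun k => (nd _ k).elim⟩⟩ z w hw
  exact hn x0 (this ▸ cmp_self Z z) (Or.inr ⟨none, rfl⟩)

theorem nF_add (Z : Set Y.Om) : Y.nF Zᶜ + Y.nF Z = Y.area := by
  unfold PS.nF PS.area
  rw [← Set.ncard_union_eq]
  · congr 1
    ext p
    simp only [Set.mem_union, Set.mem_ofPred_eq, Set.mem_compl_iff]
    tauto
  · rw [Set.disjoint_left]
    rintro p ⟨a, _⟩ ⟨b, _⟩
    exact a b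

end RemA

open RemA in
theorem rem (hS : HS) (qS : QS) (cl : ClosS) : RemS := by
  classical
  obtain ⟨C, hC⟩ := qS
  refine ⟨nS * (nS + 1) * C, fun B _ o R ht hT Y x0 x1 Z hY h0 hZ => ?_⟩
  obtain ⟨w1, hw1⟩ := ht (Y.f x1)
  have hp : ∀ z, ∃ w, z ∈ Z → w • o = Y.f z ∧ d w1 w ≤ R := by
    intro z
    by_cases hz : z ∈ Z
    · obtain ⟨w, hw⟩ := (hZ z hz).lift hw1
      exact ⟨w, fun _ => hw⟩
    · exact ⟨1, fun k => absurd k hz⟩
  choose pos hpos using hp
  let J : Type := {c : Set Y.Om // ∃ z ∈ Z, c = cmp Z z}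
  have : Fintype J := Fintype.ofFinite J
  let comp : Y.Om → Option J := fun z => if h : z ∈ Z then some ⟨cmp Z z, z, h, rfl⟩ else none
  have hc : ∀ z j, comp z = some j ↔ z ∈ Z ∧ cmp Z z = j.1 := by
    intro z j
    by_cases hz : z ∈ Z
    · simp only [comp, dif_pos hz, Option.some.injEq, hz, true_and]
      exact Subtype.ext_iff
    · simp [comp, hz]
  have hc0 : ∀ z, comp z = none ↔ z ∉ Z := by
    intro z
    by_cases hz : z ∈ Z <;> simp [comp, hz]
  let Mf : Finset Y.Om := Z.filter (Mark Z x0)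
  let F : J → Finset W := fun j => (Mf.filter fun z => comp z = some j).image pos
  have hF : ∀ z j, comp z = some j → Mark Z x0 z → pos z ∈ F j := fun z j a b =>
    Finset.mem_image.2 ⟨z, Finset.mem_filter.2
      ⟨Finset.mem_filter.2 ⟨((hc z j).1 a).1, b⟩, a⟩, rfl⟩
  have hne : ∀ j, (F j).Nonempty := by
    rintro ⟨c, z, hz, rfl⟩
    obtain ⟨y, a, b⟩ := exists_mark ht h0 hz
    exact ⟨_, hF y _ ((hc y _).2 ⟨cmp_sub hz a, cmp_eq a⟩) b⟩
  choose Q ι hQ hv using fun j => hC (F j) (hne j)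
  let D : HData o Y :=
    { J := J
      comp := comp
      pos := pos
      int := fun _ => False
      Q := Q
      F := F
      ι := ι
      pos_f := fun z j h => (hpos z ((hc z j).1 h).1).1
      e_in := by
        intro s z z' j j' e a b
        obtain ⟨a1, a2⟩ := (hc z j).1 a
        obtain ⟨b1, b2⟩ := (hc z' j').1 b
        refine ⟨Subtype.ext ?_, ?_⟩
        · rw [← a2, ← b2]
          exact (cmp_eq (Relation.ReflTransGen.single ⟨a1, b1, s, e⟩)).symm
        · obtain ⟨p1, p2⟩ := hpos z a1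
          obtain ⟨q1, q2⟩ := hpos z' b1
          refine hT _ _ (by rw [q1, Y.e_f e, mul_smul, p1]) ?_
          have t1 := d_triangle (pos z') w1 (g s * pos z)
          have t2 := d_triangle w1 (pos z) (g s * pos z)
          rw [d_g_mul] at t2
          rw [d_comm (pos z') w1] at t1
          omega
      int_rev := fun _ h => h
      int_in := fun _ h => h.elim
      conn := by
        rintro ⟨c, z0, hz, rfl⟩
        refine ⟨z0, (hc _ _).2 ⟨hz, rfl⟩, fun z h => ?_⟩
        have h1 : Relation.ReflTransGen (In Z) z0 z := by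
          have := cmp_self Z z
          rwa [((hc _ _).1 h).2] at this
        clear h
        induction h1 with
        | refl => exact Relation.ReflTransGen.refl
        | tail a k ih =>
          exact ih.tail ⟨(hc _ _).2 ⟨k.1, cmp_eq a⟩, (hc _ _).2 ⟨k.2.1, cmp_eq (a.tail k)⟩,
            Or.inl k.2.2⟩
      gad := hQ
      kept_near := fun z y j a b c => hF z j a (Or.inl ⟨y, (hc0 y).1 b, c⟩)
      kept_src := fun a j _ h => hF _ j h (Or.inr ⟨some a, rfl⟩) }
  obtain ⟨Y1, m, ν, hK, v1, a1, -⟩ := hS B o Y D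
  obtain ⟨Y2, φ, s2, g2, c2, n2⟩ := cl B Y1
  have hs : ∑ j, (Q j).vol ≤ C * ((nS + 1) * Y.front Z + Y.ends x0 Z) := by
    have e1 : ∑ j, (F j).card ≤ Mf.card := by
      refine (Finset.sum_le_sum fun j _ => Finset.card_image_le).trans ?_
      rw [← Finset.card_biUnion]
      · exact Finset.card_le_card (Finset.biUnion_subset.2 fun j _ => Finset.filter_subset _ _)
      · intro j _ j' _ hj
        refine Finset.disjoint_left.2 fun z a b => hj ?_
        exact Option.some.inj ((Finset.mem_filter.1 a).2.symm.trans (Finset.mem_filter.1 b).2)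
    have e2 : Mf.card ≤ (nS + 1) * Y.front Z + Y.ends x0 Z := by
      refine le_trans (le_of_eq ?_) (card_mark hY Z x0)
      rw [← Set.ncard_coe_finset]
      congr 1
      ext z
      simp [Mf]
    refine (Finset.sum_le_sum fun j _ => hv j).trans ?_
    rw [← Finset.mul_sum]
    exact Nat.mul_le_mul_left _ (e1.trans e2)
  have hset : {x | D.comp x = none} = (Z : Set Y.Om)ᶜ := by
    ext x; exact hc0 x
  have hvol : {x | D.comp x = none}.ncard ≤ Y.vol := by
    unfold PS.vol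
    rw [← Set.ncard_univ]
    exact Set.ncard_le_ncard (Set.subset_univ _)
  rw [hset] at a1
  have v1' : Y1.vol ≤ Y.vol + ∑ j, (Q j).vol := v1.trans (Nat.add_le_add_right hvol _)
  have a1' : Y1.area ≤ Y.nF (Z : Set Y.Om)ᶜ + nS * ∑ j, (Q j).vol := a1
  have e3 := nF_add (Z : Set Y.Om)
  have e4 := φ.vol_le
  have e5 := c2.area
  have e6 : nS * (C * ((nS + 1) * Y.front Z + Y.ends x0 Z)) ≤
      nS * (nS + 1) * C * (Y.front Z + Y.ends x0 Z) := by
    have e7 : (nS + 1) * Y.front Z + Y.ends x0 Z ≤ (nS + 1) * (Y.front Z + Y.ends x0 Z) := by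
      rw [mul_add]
      exact Nat.add_le_add_left (Nat.le_mul_of_pos_left _ (Nat.succ_pos _)) _
    refine (Nat.mul_le_mul_left _ (Nat.mul_le_mul_left _ e7)).trans (le_of_eq ?_)
    ring
  have e8 := Nat.mul_le_mul_left nS hs
  have e9 : ∑ j, (Q j).vol ≤ nS * ∑ j, (Q j).vol := Nat.le_mul_of_pos_left _ nS_pos
  rw [mul_zero] at e5
  refine ⟨Y2, m.comp (φ.move o g2), φ.π (ν x0),
    ⟨ν x0, hK x0 fun j h => hF x0 j h (Or.inr ⟨none, rfl⟩), rfl⟩, s2, by omega, by omega⟩

end Pool.Agent.MP_df844f_gt.RA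

end
end MrgPart7

-- ======== part 8: formerly Pool.Agent.MP_df844f_gt.RA.c.Gain
section MrgPart8

/-! Removal, beads and the gain inequality without expansion. -/

set_option linter.unusedSectionVars false

noncomputable section

namespace Pool.Agent.MP_df844f_gt.RA.CW

variable [Dat]

open PS

open RemA in
theorem rem (hS : HS) (qS : QS) (cl : ClosS) : RemS := by
  classical
  obtain ⟨C, hC⟩ := qS
  refine ⟨nS * (nS + 1) * C, fun B _ o R ht hT Y x0 x1 Z hY h0 hZ => ?_⟩
  obtain ⟨w1, hw1⟩ := ht (Y.f x1)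
  have hp : ∀ z, ∃ w, z ∈ Z → w • o = Y.f z ∧ d w1 w ≤ R := by
    intro z
    by_cases hz : z ∈ Z
    · obtain ⟨w, hw⟩ := (hZ z hz).lift hw1
      exact ⟨w, fun _ => hw⟩
    · exact ⟨1, fun k => absurd k hz⟩
  choose pos hpos using hp
  let J : Type := {c : Set Y.Om // ∃ z ∈ Z, c = cmp Z z}
  have : Fintype J := Fintype.ofFinite J
  let comp : Y.Om → Option J := fun z => if h : z ∈ Z then some ⟨cmp Z z, z, h, rfl⟩ else none
  have hc : ∀ z j, comp z = some j ↔ z ∈ Z ∧ cmp Z z = j.1 := by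
    intro z j
    by_cases hz : z ∈ Z
    · simp only [comp, dif_pos hz, Option.some.injEq, hz, true_and]
      exact Subtype.ext_iff
    · simp [comp, hz]
  have hc0 : ∀ z, comp z = none ↔ z ∉ Z := by
    intro z
    by_cases hz : z ∈ Z <;> simp [comp, hz]
  let Mf : Finset Y.Om := Z.filter (Mark Z x0)
  let F : J → Finset W := fun j => (Mf.filter fun z => comp z = some j).image pos
  have hF : ∀ z j, comp z = some j → Mark Z x0 z → pos z ∈ F j := fun z j a b =>
    Finset.mem_image.2 ⟨z, Finset.mem_filter.2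
      ⟨Finset.mem_filter.2 ⟨((hc z j).1 a).1, b⟩, a⟩, rfl⟩
  have hne : ∀ j, (F j).Nonempty := by
    rintro ⟨c, z, hz, rfl⟩
    obtain ⟨y, a, b⟩ := exists_mark ht h0 hz
    exact ⟨_, hF y _ ((hc y _).2 ⟨cmp_sub hz a, cmp_eq a⟩) b⟩
  choose Q ι hQ hv using fun j => hC (F j) (hne j)
  let D : HData o Y :=
    { J := J
      comp := comp
      pos := pos
      int := fun _ => False
      Q := Q
      F := F
      ι := ι
      pos_f := fun z j h => (hpos z ((hc z j).1 h).1).1
      e_in := by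
        intro s z z' j j' e a b
        obtain ⟨a1, a2⟩ := (hc z j).1 a
        obtain ⟨b1, b2⟩ := (hc z' j').1 b
        refine ⟨Subtype.ext ?_, ?_⟩
        · rw [← a2, ← b2]
          exact (cmp_eq (Relation.ReflTransGen.single ⟨a1, b1, s, e⟩)).symm
        · obtain ⟨p1, p2⟩ := hpos z a1
          obtain ⟨q1, q2⟩ := hpos z' b1
          refine hT _ _ (by rw [q1, Y.e_f e, mul_smul, p1]) ?_
          have t1 := d_triangle (pos z') w1 (g s * pos z)
          have t2 := d_triangle w1 (pos z) (g s * pos z)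
          rw [d_g_mul] at t2
          rw [d_comm (pos z') w1] at t1
          omega
      int_rev := fun _ h => h
      int_in := fun _ h => h.elim
      conn := by
        rintro ⟨c, z0, hz, rfl⟩
        refine ⟨z0, (hc _ _).2 ⟨hz, rfl⟩, fun z h => ?_⟩
        have h1 : Relation.ReflTransGen (In Z) z0 z := by
          have := cmp_self Z z
          rwa [((hc _ _).1 h).2] at this
        clear h
        induction h1 with
        | refl => exact Relation.ReflTransGen.refl
        | tail a k ih =>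
          exact ih.tail ⟨(hc _ _).2 ⟨k.1, cmp_eq a⟩, (hc _ _).2 ⟨k.2.1, cmp_eq (a.tail k)⟩,
            Or.inl k.2.2⟩
      gad := hQ
      kept_near := fun z y j a b c => hF z j a (Or.inl ⟨y, (hc0 y).1 b, c⟩)
      kept_src := fun a j _ h => hF _ j h (Or.inr ⟨some a, rfl⟩) }
  obtain ⟨Y1, m, ν, hK, v1, a1, -⟩ := hS B o Y D
  obtain ⟨Y2, φ, s2, g2, c2, n2⟩ := cl B Y1
  have hs : ∑ j, (Q j).vol ≤ C * ((nS + 1) * Y.front Z + Y.ends x0 Z) := by
    have e1 : ∑ j, (F j).card ≤ Mf.card := by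
      refine (Finset.sum_le_sum fun j _ => Finset.card_image_le).trans ?_
      rw [← Finset.card_biUnion]
      · exact Finset.card_le_card (Finset.biUnion_subset.2 fun j _ => Finset.filter_subset _ _)
      · intro j _ j' _ hj
        refine Finset.disjoint_left.2 fun z a b => hj ?_
        exact Option.some.inj ((Finset.mem_filter.1 a).2.symm.trans (Finset.mem_filter.1 b).2)
    have e2 : Mf.card ≤ (nS + 1) * Y.front Z + Y.ends x0 Z := by
      refine le_trans (le_of_eq ?_) (card_mark hY Z x0)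
      rw [← Set.ncard_coe_finset]
      congr 1
      ext z
      simp [Mf]
    refine (Finset.sum_le_sum fun j _ => hv j).trans ?_
    rw [← Finset.mul_sum]
    exact Nat.mul_le_mul_left _ (e1.trans e2)
  have hset : {x | D.comp x = none} = (Z : Set Y.Om)ᶜ := by
    ext x; exact hc0 x
  rw [hset] at a1
  have v1' : nw Y Y1 ≤ ∑ j, (Q j).vol := v1
  have e0 := nw_tri Y Y1 Y2
  have a1' : Y1.area ≤ Y.nF (Z : Set Y.Om)ᶜ + nS * ∑ j, (Q j).vol := a1
  have e3 := nF_add (Z : Set Y.Om)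
  have e4 := nw_hom φ
  have e5 := c2.area
  have e6 : nS * (C * ((nS + 1) * Y.front Z + Y.ends x0 Z)) ≤
      nS * (nS + 1) * C * (Y.front Z + Y.ends x0 Z) := by
    have e7 : (nS + 1) * Y.front Z + Y.ends x0 Z ≤ (nS + 1) * (Y.front Z + Y.ends x0 Z) := by
      rw [mul_add]
      exact Nat.add_le_add_left (Nat.le_mul_of_pos_left _ (Nat.succ_pos _)) _
    refine (Nat.mul_le_mul_left _ (Nat.mul_le_mul_left _ e7)).trans (le_of_eq ?_)
    ring
  have e8 := Nat.mul_le_mul_left nS hs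
  have e9 : ∑ j, (Q j).vol ≤ nS * ∑ j, (Q j).vol := Nat.le_mul_of_pos_left _ nS_pos
  rw [mul_zero] at e5
  refine ⟨Y2, m.comp (φ.move o g2), φ.π (ν x0),
    ⟨ν x0, hK x0 fun j h => hF x0 j h (Or.inr ⟨none, rfl⟩), rfl⟩, s2, by omega, by omega⟩

theorem bead (s0 : Sweep0S) (att : AttS) (cl : ClosS) (ed : EdgeS) (bd : BdS) : BeadS := by
  classical
  intro S0
  refine ⟨2 * (3 * S0) + 20, ?_⟩
  intro B _ o hT hTh Y x0 r hY ht T hc hne hS hcl
  have hB : Loc B := loc_of hT (hTh.mono (by omega))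
  obtain ⟨p0, hp0⟩ := hne
  obtain ⟨w0, hw0⟩ := hT (Y.f p0.1)
  have hb : Y.bd (Y.ch1 T) = 0 := by
    rw [← Finsupp.support_eq_empty, Finset.eq_empty_iff_forall_notMem]
    intro c hc'
    obtain ⟨p, hp, t, h1, h2, h3⟩ := (bd B hB Y hY T hc.1 c).1 hc'
    obtain ⟨y, u, v, k1, k2, k3, k4, -⟩ := ed B hB Y hY p.1 p.2 t h1 (hc.1 p hp)
    exact k3 (h3 (y, u) (hcl p hp (y, u) ⟨hc.1 p hp, k1, t, v, h1, k2, k4.symm⟩) v k2
      (k4.trans h2.symm))
  have hs : ∀ c ∈ (Y.ch1 T).support, ∃ x s, c = Y.cell x {s} ∧ Y.Near (2 * S0) p0.1 x := by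
    intro c hc'
    obtain ⟨p, hp, rfl⟩ := Finset.mem_image.1 (BeadA.supp_ch1 T hc')
    exact ⟨p.1, p.2, rfl, (hY.bconn_near hc hp0 hp).mono (by omega)⟩
  rcases s0 B o (3 * S0) hTh Y p0.1 w0 S0 (2 * S0) (Y.ch1 T) hY hw0 (by omega)
    ((Finset.card_le_card (BeadA.supp_ch1 T)).trans (Finset.card_image_le.trans hS)) hs hb with
    ⟨Z, h1, -, h3⟩ | ⟨J, y, b, h⟩
  · have hl : ∀ z, ∃ w, z ∈ Z → w • o = Y.f z ∧ d w0 w ≤ 2 * S0 + S0 := by
      intro z
      by_cases hz : z ∈ Z
      · obtain ⟨w, hw⟩ := (h3 z hz).lift hw0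
        exact ⟨w, fun _ => hw⟩
      · exact ⟨1, fun k => absurd k hz⟩
    choose pos hpos using hl
    have hsh : Y.Shut (Z : Set Y.Om) := by
      intro s x y he hx
      by_contra hy
      have k := BeadA.bd0_edge hY Z he hx hy
      rw [h1, BeadA.ch1_apply hY T hc.1, if_neg fun q => hc.1 _ q ⟨y, he⟩] at k
      exact zero_ne_one k
    refine ⟨(Z : Set Y.Om), pos, ⟨hsh, fun z hz => (hpos z hz).1, fun s z hz z' he => ?_,
      fun z hz z' hz' => ⟨_, (h3 z hz).symm.trans (h3 z' hz')⟩⟩, fun p => ?_⟩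
    · have hz' : z' ∈ Z := hsh s z z' he hz
      refine hTh _ _ (by rw [mul_smul, (hpos z hz).1, (hpos z' hz').1, Y.e_f he]) ?_
      have a1 := (hpos z hz).2
      have a2 := (hpos z' hz').2
      have a3 := d_triangle (pos z') w0 (g s * pos z)
      have a4 := d_triangle w0 (pos z) (g s * pos z)
      rw [d_g_mul] at a4
      rw [d_comm (pos z') w0] at a3
      omega
    · have key : Y.Free p.1 p.2 → (p ∈ T ↔ p.1 ∈ Z) := by
        intro hf
        have k := BeadA.bd0_free hY Z hf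
        rw [h1, BeadA.ch1_apply hY T hc.1] at k
        by_cases a : (p.1, p.2) ∈ T <;> by_cases b : p.1 ∈ Z
        · exact ⟨fun _ => b, fun _ => a⟩
        · rw [if_pos a, if_neg b] at k; exact absurd k one_ne_zero
        · rw [if_neg a, if_pos b] at k; exact absurd k zero_ne_one
        · exact ⟨fun q => absurd q a, fun q => absurd q b⟩
      exact ⟨fun q => ⟨(key (hc.1 p q)).1 q, hc.1 p q⟩, fun q => (key q.2).2 q.1⟩
  · exfalso
    obtain ⟨Y1, φ1, g1, c1, n1⟩ := att B Y J y b h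
    obtain ⟨Y2, φ2, s2, g2, c2, n2⟩ := cl B Y1
    have a1 := c1.area
    have a2 := c2.area
    have a3 := nw_hom (φ1.comp φ2)
    have a4 := φ1.new_comp φ2
    have a5 := ht.move ((φ1.comp φ2).move o (g1.comp g2)) (x0' := (φ1.comp φ2).π x0) rfl s2
      (by omega)
    omega

open GainA in
theorem gain (ca : Cap2S) (sw : Sweep2S) (co : CountS) (re : RemS) (la : LamS) : GainS := by
  classical
  obtain ⟨CK, ca⟩ := ca
  obtain ⟨CQ, re⟩ := re
  obtain ⟨P, hP⟩ : ∃ P, P = nS * (nS + 6) + nS := ⟨_, rfl⟩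
  obtain ⟨Q, hQ⟩ : ∃ Q, Q = nS + 6 + 2 * (nS * (nS + 6)) + nS := ⟨_, rfl⟩
  refine ⟨(Q + P * CQ) * CK + CQ + 1, fun m0 => ?_⟩
  obtain ⟨ρ, ca⟩ := ca m0
  obtain ⟨κ0, hκ0⟩ : ∃ κ0, κ0 = CK * m0 := ⟨_, rfl⟩
  obtain ⟨R0, hR0⟩ : ∃ R0, R0 = 3 * m0 + (nS + 1) * κ0 := ⟨_, rfl⟩
  obtain ⟨ρ1, la⟩ := la (nS * ((nS + 6) * κ0))
  refine ⟨R0 + 2 * nS * ((nS + 1) * κ0 + nS * ((nS + 6) * κ0)),
    (nS + 6) * κ0 + κ0 + 1 + CQ * (P * κ0 + m0) + nS * ((nS + 6) * κ0),
    ρ + (2 * R0 + 20) + ρ1, ?_⟩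
  intro B _ _ o tr th Y x0 r μ hY hI hv hT D hD hm
  by_contra hc
  obtain ⟨b, hb⟩ : ∃ b, b = (Y.bd (Y.ch1 D)).support.card := ⟨_, rfl⟩
  obtain ⟨en, hen⟩ : ∃ en, en = Y.endsN x0
    (R0 + 2 * nS * ((nS + 1) * κ0 + nS * ((nS + 6) * κ0))) D := ⟨_, rfl⟩
  rw [← hb, ← hen, not_le] at hc
  have hbe : b + en ≤ m0 :=
    (Nat.le_mul_of_pos_left (b + en) (Nat.succ_pos _)).trans (hc.le.trans hm)
  obtain ⟨p0, hp0⟩ := Finset.card_pos.1 (Nat.zero_lt_of_lt hc)
  obtain ⟨Y1, φ1, κ, E, s1, g1, c1, n1, hκ, hE, b1, u1⟩ :=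
    ca B o tr (th.mono (by omega)) Y D p0 hY hD hp0 hm
  rw [← hb] at hκ
  have hκ' : κ ≤ κ0 := hκ0 ▸ hκ.trans (Nat.mul_le_mul_left _ (by omega))
  have m1 := Nat.mul_le_mul_left (nS + 6) hκ'
  have m2 := Nat.mul_le_mul_left (nS + 1) hκ'
  have m3 : (nS + 1) * κ = nS * κ + κ := by ring
  have m4 : P * κ = nS * ((nS + 6) * κ) + nS * κ := by rw [hP]; ring
  have m5 : Q * κ = (nS + 6) * κ + 2 * (nS * ((nS + 6) * κ)) + nS * κ := by rw [hQ]; ring
  have m6 := Nat.mul_le_mul_left nS m1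
  have m7 := Nat.mul_le_mul_left P hκ'
  have v1 := nw_hom φ1
  have a1 : Y.area ≤ Y1.area := hT.move (φ1.move o g1) (x0' := φ1.π x0) rfl s1 (by omega)
  obtain ⟨w0, hw0⟩ := tr (Y1.f (φ1.π p0.1))
  have hu : (φ1.push (Y.ch1 D) + E).support.card ≤ m0 + nS * κ := by
    have h1 := (Finset.card_le_card (Finsupp.support_add (g₁ := φ1.push (Y.ch1 D))
      (g₂ := E))).trans (Finset.card_union_le _ _)
    have h2 := φ1.card_support_push (Y.ch1 D)
    have h3 := card_ch1 D
    omega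
  obtain ⟨Y2, φ2, s2, g2, c2, h⟩ := sw B o R0 (th.mono (by omega)) Y1 (φ1.π p0.1) w0 (m0 + nS * κ)
    (2 * m0 + κ) Y.area _ s1 hw0 (by omega) hu a1 u1 b1
  have g := g1.comp g2
  have c := c1.comp c2
  have ca1 := c1.area
  rcases h with ⟨h1, h2⟩ | ⟨a2, Z, hZ, -, nZ⟩
  · have v2 := nw_hom (φ1.comp φ2)
    have v3 := φ1.new_comp φ2
    have := hT.move ((φ1.comp φ2).move o g) (x0' := (φ1.comp φ2).π x0) rfl s2 (by omega)
    omega
  have hZ' : Y2.bd (Y2.ch0 Z) = (φ1.comp φ2).push (Y.ch1 D) + φ2.push E := by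
    rw [hZ, map_add, ← EHom.push_comp]
    rfl
  have nZ' : ∀ z ∈ Z, Y2.Near R0 ((φ1.comp φ2).π p0.1) z := fun z hz => (nZ z hz).mono (by omega)
  have hE2 := φ2.card_support_push E
  generalize φ1.comp φ2 = φ at g c hZ' nZ'
  have ca2 := c.area
  have v2 := nw_hom φ
  have n3 : nS * φ.new ≤ nS * ((nS + 6) * κ) := Nat.mul_le_mul_left _ (by omega)
  have l1 := la B o tr (th.mono (by omega)) Y Y2 φ hY s2 (by omega) (by omega)
  have e1 : Y2.ends (φ.π x0) Z ≤ en := by
    rw [hen]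
    refine ends_le φ x0 _ _ fun x hx => ⟨p0, hp0, (c.near _ _ _ (nZ' _ hx)).mono ?_⟩
    refine Nat.add_le_add_left (Nat.mul_le_mul_left _ ?_) _
    unfold PS.pot
    omega
  obtain ⟨k1, k2⟩ := co B Y Y2 φ D _ Z hY s2 hD.1 hZ' a2
  obtain ⟨Y3, m, x3, hK, s3, v3, a3⟩ := re B o R0 tr (th.mono (by omega)) Y2 (φ.π x0) _ Z s2
    (g.h0 o x0 hI.h0) nZ'
  have q1 : CQ * (Y2.front Z + Y2.ends (φ.π x0) Z) ≤ CQ * (P * κ + en) :=
    Nat.mul_le_mul_left _ (by omega)
  have q2 : CQ * (P * κ + en) ≤ CQ * (P * κ0 + m0) := Nat.mul_le_mul_left _ (by omega)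
  have v4 := nw_tri Y Y2 Y3
  have a4 := hT.move ((φ.move o g).comp m) (x0' := x3) ⟨φ.π x0, rfl, hK⟩ s3 (by omega)
  have q3 : (Q + P * CQ) * κ ≤ (Q + P * CQ) * (CK * b) := Nat.mul_le_mul_left _ hκ
  have q4 : D.card ≤ (Q + P * CQ) * κ + CQ * en := by
    have : (Q + P * CQ) * κ + CQ * en = Q * κ + CQ * (P * κ + en) := by ring
    omega
  have q5 : ((Q + P * CQ) * CK + CQ + 1) * (b + en) = (Q + P * CQ) * (CK * b) + CQ * en +
      ((CQ + 1) * b + ((Q + P * CQ) * CK + 1) * en) := by ring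
  omega

end Pool.Agent.MP_df844f_gt.RA.CW

end
end MrgPart8

-- marker of a merged file
example : 731051 + 529549 = 731051 + 529549 := rfl
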