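import Pool.Agent.MP_df844f_gt.RA.c.RF
import Pool.Agent.MP_df844f_gt.RA.s3.Cap
import Pool.Agent.MP_df844f_gt.RA.c.Fin

-- ======== part 0: formerly Pool.Agent.MP_df844f_gt.RA.w.T4
section MrgPart0

set_option linter.unusedSectionVars false

noncomputable section

namespace Pool.Agent.MP_df844f_gt.RA

variable [Dat]

theorem Cross.side {r q : W} (h : Cross r q) (P Q : Prop) :
    ∃ x, (r ∈ N x ↔ P) ∧ (q ∈ N x ↔ Q) := by
  obtain ⟨⟨a, ha⟩, ⟨b, hb⟩, ⟨c, hc⟩, ⟨e, he⟩⟩ := h
  by_cases hP : P <;> by_cases hQ : Q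
  · exact ⟨a, by tauto⟩
  · exact ⟨b, by tauto⟩
  · exact ⟨c, by tauto⟩
  · exact ⟨e, by tauto⟩

/-- Helly property for half spaces. -/
theorem helly (ε : W → Prop) : ∀ (n : ℕ) (C : Finset W), C.card = n →
    (∀ r ∈ C, ∀ q ∈ C, ∃ x, (r ∈ N x ↔ ε r) ∧ (q ∈ N x ↔ ε q)) → ∃ x, ∀ r ∈ C, (r ∈ N x ↔ ε r) := by
  intro n
  induction n using Nat.strong_induction_on with
  | _ n ih =>
    intro C hn h
    by_cases h3 : 2 < C.card
    · obtain ⟨a, b, c, ha, hb, hc, hab, hac, hbc⟩ := Finset.two_lt_card_iff.1 h3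
      have key : ∀ u ∈ C, ∃ x, ∀ r ∈ C.erase u, (r ∈ N x ↔ ε r) := fun u hu =>
        ih _ (by rw [← hn]; exact Finset.card_erase_lt_of_mem hu) _ rfl fun r hr q hq =>
          h r (Finset.mem_of_mem_erase hr) q (Finset.mem_of_mem_erase hq)
      obtain ⟨x, hx⟩ := key a ha
      obtain ⟨y, hy⟩ := key b hb
      obtain ⟨z, hz⟩ := key c hc
      obtain ⟨m, hm⟩ := exists_med x y z
      refine ⟨m, fun r hr => ?_⟩
      have h0 := hm r
      have h1 := fun k => hx r (Finset.mem_erase.2 ⟨k, hr⟩)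
      have h2 := fun k => hy r (Finset.mem_erase.2 ⟨k, hr⟩)
      have h4 := fun k => hz r (Finset.mem_erase.2 ⟨k, hr⟩)
      by_cases ea : r = a
      · have := h2 (ea ▸ hab); have := h4 (ea ▸ hac); tauto
      · by_cases eb : r = b
        · have := h1 ea; have := h4 (eb ▸ hbc); tauto
        · have := h1 ea; have := h2 eb; tauto
    · rcases C.eq_empty_or_nonempty with rfl | ⟨a, ha⟩
      · exact ⟨1, by simp⟩
      by_cases h2 : ∃ b ∈ C, b ≠ a
      · obtain ⟨b, hb, hba⟩ := h2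
        obtain ⟨x, h4, h5⟩ := h a ha b hb
        refine ⟨x, fun r hr => ?_⟩
        by_cases ea : r = a
        · rw [ea]; exact h4
        by_cases eb : r = b
        · rw [eb]; exact h5
        exact absurd (Finset.two_lt_card_iff.2 ⟨r, a, b, hr, ha, hb, ea, eb, hba.symm⟩) h3
      · obtain ⟨x, h4, _⟩ := h a ha a ha
        refine ⟨x, fun r hr => ?_⟩
        have : r = a := by by_contra k; exact h2 ⟨r, hr, k⟩
        rw [this]; exact h4

theorem clq_desc (b x : W) (J : Finset S) (h : ∀ s ∈ J, Desc b x s) : Clq J :=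
  fun s hs t ht k => desc_adj (h s hs) (h t ht) k

theorem t4 (hF : FactS) : T4S := by
  classical
  intro C hC
  by_contra h4
  have all : ∀ ε : W → Prop, ∃ x, ∀ r ∈ C, (r ∈ N x ↔ ε r) := by
    intro ε
    refine helly ε _ C rfl fun r hr q hq => ?_
    by_cases e : r = q
    · subst e
      obtain ⟨q, hq, hne⟩ := Finset.exists_mem_ne (s := C) (by omega) r
      obtain ⟨x, h1, _⟩ := (hC r hr q hq hne.symm).side (ε r) True
      exact ⟨x, h1, h1⟩
    · exact (hC r hr q hq e).side _ _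
  have ex : ∃ n, ∃ x, d 1 x = n ∧ ∀ r ∈ C, r ∈ N x := by
    obtain ⟨x, hx⟩ := all fun _ => True
    exact ⟨_, x, rfl, fun r hr => (hx r hr).2 trivial⟩
  obtain ⟨x, hx1, hx2⟩ := Nat.find_spec ex
  have key : ∀ r ∈ C, ∃ s, Desc 1 x s ∧ wall s x = r := by
    intro r hr
    obtain ⟨y, hy⟩ := all fun q => q ≠ r
    have hn : ¬ Sep 1 x ⊆ Sep 1 y := by
      rw [Sep_one, Sep_one]
      intro k
      exact (hy r hr).1 (k (hx2 r hr)) rfl
    obtain ⟨s, h1, h2⟩ := exists_desc_of_not_btw hn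
    refine ⟨s, desc_iff.2 h1, ?_⟩
    by_contra hne
    have hd := d_step_of_mem h1
    refine Nat.find_min ex (m := d 1 (g s * x)) (by omega) ⟨g s * x, rfl, fun q hq => ?_⟩
    rw [mem_N_g_mul]
    have : q ≠ wall s x := by
      intro e
      rw [Sep_one, ← e] at h2
      exact h2 ((hy q hq).2 (e ▸ hne))
    simp [hx2 q hq, this]
  have hJ := hF.clq (Finset.univ.filter fun s => Desc 1 x s)
    (clq_desc 1 x _ fun s hs => (Finset.mem_filter.1 hs).2)
  have : C ⊆ (Finset.univ.filter fun s => Desc 1 x s).image fun s => wall s x := by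
    intro r hr
    obtain ⟨s, h1, h2⟩ := key r hr
    exact Finset.mem_image.2 ⟨s, Finset.mem_filter.2 ⟨Finset.mem_univ _, h1⟩, h2⟩
  have := (Finset.card_le_card this).trans Finset.card_image_le
  omega

end Pool.Agent.MP_df844f_gt.RA

end
end MrgPart0

-- ======== part 1: formerly Pool.Agent.MP_df844f_gt.RA.w.K44
section MrgPart1

set_option linter.unusedSectionVars false

noncomputable section

namespace Pool.Agent.MP_df844f_gt.RA

variable [Dat]

namespace K44

/-- Geodesic words. -/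
inductive Geo : W → List S → W → Prop
  | nil (o : W) : Geo o [] o
  | cons {o p : W} {ω : List S} (s : S) : wall s o ∈ Sep o p → Geo (g s * o) ω p →
      Geo o (s :: ω) p

theorem exists_geo (p : W) : ∀ (n : ℕ) (o : W), d p o = n → ∃ ω, Geo o ω p := by
  intro n
  induction n with
  | zero => intro o h; rw [d_eq_zero] at h; subst h; exact ⟨[], Geo.nil _⟩
  | succ n ih =>
    intro o h
    have hne : o ≠ p := by intro e; rw [e, d_self] at h; omega
    obtain ⟨s, hs⟩ := exists_desc hne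
    obtain ⟨ω, hω⟩ := ih (g s * o) (by have := hs.d_eq; omega)
    exact ⟨s :: ω, Geo.cons s (by rw [Sep_comm]; exact desc_iff.1 hs) hω⟩

theorem mem_step (s : S) (o p r : W) :
    r ∈ Sep (g s * o) p ↔ ¬ (r ∈ Sep o p ↔ r = wall s o) := by
  rw [Sep_comm, mem_Sep_step, Sep_comm]

theorem ladder {x : W} {t : S} {o p : W} {ω : List S} (h : Geo o ω p) :
    Sep o p ⊆ Sep o x → wall t o ∈ Sep o x → wall t o ∉ Sep o p →
    (∀ s ∈ ω, adj s t) ∧ Geo (g t * o) ω (g t * p) ∧ wall t p = wall t o := by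
  induction h with
  | nil o => intro _ _ _; exact ⟨by simp, Geo.nil _, rfl⟩
  | @cons o p ω s hs _ ih =>
    intro h1 h2 h3
    have hne : s ≠ t := by intro e; subst e; exact h3 hs
    have hw : wall t o ≠ wall s o := fun e => hne (wall_inj e).symm
    have ha : adj s t := desc_adj (b := x) (x := o)
      (desc_iff.2 (by rw [Sep_comm]; exact h1 hs)) (desc_iff.2 (by rw [Sep_comm]; exact h2)) hne
    have e1 : wall t (g s * o) = wall t o := wall_adj (adj_symm ha) o
    obtain ⟨k1, k2, k3⟩ := ih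
      (fun r hr => by
        rw [mem_step] at hr ⊢
        have a := @h1 r
        by_cases e : r = wall s o
        · subst e; simp [hs] at hr
        · simp only [e, iff_false, not_not] at hr ⊢; exact a hr)
      (by rw [e1, mem_step]; simp [h2, hw]) (by rw [e1, mem_step]; simp [h3, hw])
    rw [e1] at k3
    refine ⟨?_, Geo.cons s ?_ ?_, k3⟩
    · intro u hu
      rcases List.mem_cons.1 hu with rfl | hu
      · exact ha
      · exact k1 u hu
    · rw [wall_adj ha, mem_step, mem_Sep_step, k3]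
      simp [hs, hw.symm]
    · rwa [← mul_assoc, g_comm ha, mul_assoc]

theorem rect {x : W} {ω : List S} {o q : W} {η : List S} (h : Geo o η q) :
    ∀ p, Geo o ω p → Sep o p ⊆ Sep o x → Sep o q ⊆ Sep o x → (∀ r ∈ Sep o p, r ∉ Sep o q) →
    ∀ s ∈ ω, ∀ t ∈ η, adj s t := by
  induction h with
  | nil o => intro _ _ _ _ _ s _ t ht; simp at ht
  | @cons o q η t ht _ ih =>
    intro p hp h1 h2 h3
    obtain ⟨k1, k2, k3⟩ := ladder hp h1 (h2 ht) fun k => h3 _ k ht
    have e : ∀ r, r ∈ Sep (g t * o) (g t * p) ↔ r ∈ Sep o p := by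
      intro r; rw [mem_step, mem_Sep_step, k3]; tauto
    have := ih (g t * p) k2
      (fun r hr => by
        rw [e] at hr
        rw [mem_step]
        have : r ≠ wall t o := fun k => h3 r hr (k ▸ ht)
        simp [h1 hr, this])
      (fun r hr => by
        rw [mem_step] at hr ⊢
        have a := @h2 r
        by_cases e : r = wall t o
        · subst e; simp [ht] at hr
        · simp only [e, iff_false, not_not] at hr ⊢; exact a hr)
      (fun r hr => by
        rw [e] at hr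
        rw [mem_step]
        have : r ≠ wall t o := fun k => h3 r hr (k ▸ ht)
        simp [h3 r hr, this])
    intro s hs u hu
    rcases List.mem_cons.1 hu with rfl | hu
    · exact k1 s hs
    · exact this s hs u hu

theorem walls {o p : W} {ω : List S} (h : Geo o ω p) :
    (∀ s ∈ ω, ∀ t ∈ ω, s ≠ t → adj s t) → ∀ r ∈ Sep o p, ∃ s ∈ ω, r = wall s o := by
  induction h with
  | nil o => intro _ r hr; rw [Sep_self] at hr; simp at hr
  | @cons o p ω s hs _ ih =>
    intro hc r hr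
    by_cases e : r = wall s o
    · exact ⟨s, List.mem_cons_self, e⟩
    obtain ⟨t, ht, k⟩ := ih (fun a ha b hb => hc a (List.mem_cons_of_mem _ ha) b
      (List.mem_cons_of_mem _ hb)) r (by rw [mem_step]; simp [hr, e])
    by_cases e2 : t = s
    · subst e2; rw [wall_g_mul] at k; exact absurd k e
    · rw [wall_adj (hc t (List.mem_cons_of_mem _ ht) s List.mem_cons_self e2)] at k
      exact ⟨t, List.mem_cons_of_mem _ ht, k⟩

theorem cross_adj {s t : S} (h : adj s t) (o : W) : Cross (wall s o) (wall t o) := by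
  have hw : wall s o ≠ wall t o := fun e => adj_ne h (wall_inj e)
  refine cross_of_four (a := o) (b := g t * o) (c := g s * o) (e := g s * (g t * o))
    ?_ ?_ ?_ ?_ ?_ ?_
  · rw [Sep_g_mul]; simp [hw]
  · rw [← mul_assoc, g_comm h, mul_assoc, Sep_g_mul, wall_adj (adj_symm h)]; simp [hw]
  · rw [Sep_g_mul]; simp
  · rw [Sep_g_mul]; simp [hw.symm]
  · rw [Sep_g_mul, wall_adj h]; simp [hw.symm]
  · rw [Sep_g_mul]; simp

theorem nonadj {o p a a' : W} {ω : List S} (h : Geo o ω p) (ha : a ∈ Sep o p) (ha' : a' ∈ Sep o p)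
    (hne : a ≠ a') (hn : ¬ Cross a a') : ∃ s ∈ ω, ∃ t ∈ ω, s ≠ t ∧ ¬ adj s t := by
  by_contra k
  have hc : ∀ s ∈ ω, ∀ t ∈ ω, s ≠ t → adj s t := by
    intro s hs t ht e; by_contra k'; exact k ⟨s, hs, t, ht, e, k'⟩
  obtain ⟨s, hs, rfl⟩ := walls h hc a ha
  obtain ⟨t, ht, rfl⟩ := walls h hc a' ha'
  exact hn (cross_adj (hc s hs t ht fun e => hne (e ▸ rfl)) o)

theorem orient {a a' : W} (h : ¬ Cross a a') :
    ∃ P Q : Prop, ∀ x, ¬ ((a ∈ N x ↔ P) ∧ (a' ∈ N x ↔ Q)) := by
  by_contra k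
  have k' : ∀ P Q : Prop, ∃ x, (a ∈ N x ↔ P) ∧ (a' ∈ N x ↔ Q) := by
    intro P Q; by_contra e; exact k ⟨P, Q, fun x hx => e ⟨x, hx⟩⟩
  obtain ⟨x1, h1⟩ := k' True True
  obtain ⟨x2, h2⟩ := k' True False
  obtain ⟨x3, h3⟩ := k' False True
  obtain ⟨x4, h4⟩ := k' False False
  exact h ⟨⟨x1, by tauto⟩, ⟨x2, by tauto⟩, ⟨x3, by tauto⟩, ⟨x4, by tauto⟩⟩

theorem sides {a a' o x u v p q o' : W} {P Q : Prop}
    (h : ∀ x, ¬ ((a ∈ N x ↔ P) ∧ (a' ∈ N x ↔ Q))) (ho : a ∈ N o ↔ P) (hx : a' ∈ N x ↔ Q)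
    (hu : a' ∈ N u ↔ Q) (hv : a ∈ N v ↔ P) (hp : IsMed o x u p) (hq : IsMed o x v q)
    (hm : ∀ r, (r ∈ N o ↔ r ∈ N q) → (r ∈ N o' ↔ r ∈ N o)) : a ∈ Sep o' p ∧ a' ∈ Sep o' p := by
  have h1 := h o; have h2 := h x; have h3 := h u; have h4 := h v
  have a1 := hp a; have a2 := hq a; have a3 := hm a
  have b1 := hp a'; have b2 := hq a'; have b3 := hm a'
  rw [mem_Sep, mem_Sep]
  constructor
  · grind
  · grind

theorem k22 (hF : FactS) {a a' b b' : W} (ha : a ≠ a') (hb : b ≠ b') (na : ¬ Cross a a')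
    (nb : ¬ Cross b b') (c1 : Cross a b) (c2 : Cross a b') (c3 : Cross a' b) (c4 : Cross a' b') :
    False := by
  obtain ⟨P, P', hP⟩ := orient na
  obtain ⟨Q, Q', hQ⟩ := orient nb
  obtain ⟨o, o1, o2⟩ := c1.side P Q
  obtain ⟨x, x1, x2⟩ := c4.side P' Q'
  obtain ⟨u, u1, u2⟩ := c3.side P' Q
  obtain ⟨v, v1, v2⟩ := c2.side P Q'
  obtain ⟨p, hp⟩ := exists_med o x u
  obtain ⟨q, hq⟩ := exists_med o x v
  obtain ⟨m, hm⟩ := exists_med o p q
  obtain ⟨s1, s2⟩ := sides (o' := m) hP o1 x1 u1 v1 hp hq fun r => by have := hm r; grind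
  obtain ⟨t1, t2⟩ := sides (o' := m) hQ o2 x2 v2 u2 hq hp fun r => by have := hm r; grind
  obtain ⟨ω, hω⟩ := exists_geo p _ m rfl
  obtain ⟨η, hη⟩ := exists_geo q _ m rfl
  have key := rect (x := x) hη p hω
    (fun r => by have := hm r; have := hp r; simp only [mem_Sep]; grind)
    (fun r => by have := hm r; have := hq r; simp only [mem_Sep]; grind)
    (fun r => by have := hm r; simp only [mem_Sep]; grind)
  obtain ⟨s, hs, s', hs', e1, n1⟩ := nonadj hω s1 s2 ha na
  obtain ⟨t, ht, t', ht', e2, n2⟩ := nonadj hη t1 t2 hb nb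
  exact (hF.nosq s t s' t' (key s hs t ht) (adj_symm (key s' hs' t ht)) (key s' hs' t' ht')
    (adj_symm (key s hs t' ht')) e1 e2).elim n1 n2

end K44

theorem k44 (hF : FactS) (h4 : T4S) : K44S := by
  intro C C' h h' hc
  have ex : ∀ D : Finset W, 4 ≤ D.card → ∃ r ∈ D, ∃ q ∈ D, r ≠ q ∧ ¬ Cross r q := by
    intro D hD
    by_contra k
    have := h4 D fun r hr q hq e => by by_contra k'; exact k ⟨r, hr, q, hq, e, k'⟩
    omega
  obtain ⟨a, ha, a', ha', e1, n1⟩ := ex C h
  obtain ⟨b, hb, b', hb', e2, n2⟩ := ex C' h'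
  exact K44.k22 hF e1 e2 n1 n2 (hc a ha b hb) (hc a ha b' hb') (hc a' ha' b hb) (hc a' ha' b' hb')

end Pool.Agent.MP_df844f_gt.RA

end
end MrgPart1

-- ======== part 2: formerly Pool.Agent.MP_df844f_gt.RA.w.CloseD
section MrgPart2

/-! Close chambers are at bounded distance. -/

set_option linter.unusedSectionVars false

noncomputable section

namespace Pool.Agent.MP_df844f_gt.RA

variable [Dat]

namespace CloseD

/-- A finite set with a strict order whose incomparable pairs cross. -/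
theorem mirsky {α : Type} [DecidableEq α] (cr lt : α → α → Prop) (P0 : Finset α)
    (hirr : ∀ a, ¬ lt a a) (htr : ∀ a b c, lt a b → lt b c → lt a c) (hself : ∀ a, ¬ cr a a)
    (htri : ∀ a ∈ P0, ∀ b ∈ P0, a ≠ b → cr a b ∨ lt a b ∨ lt b a)
    (hn : ∀ a b, lt a b → ¬ cr a b ∧ ¬ cr b a)
    (h4 : ∀ C : Finset α, (∀ r ∈ C, ∀ q ∈ C, r ≠ q → cr r q) → C.card ≤ 3) (n : ℕ) :
    ∀ P ⊆ P0, (∀ C ⊆ P, (∀ r ∈ C, ∀ q ∈ C, ¬ cr r q) → C.card ≤ n) → P.card ≤ 3 * n := by
  classical
  induction n with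
  | zero =>
    intro P _ h
    rcases P.eq_empty_or_nonempty with rfl | ⟨a, ha⟩
    · simp
    · have := h {a} (by simpa using ha) (by simpa using hself a)
      simp at this
  | succ n ih =>
    intro P hP h
    have hA : (P.filter fun r => ∀ q ∈ P, ¬ lt q r).card ≤ 3 := h4 _ fun r hr q hq hne => by
      rw [Finset.mem_filter] at hr hq
      rcases htri r (hP hr.1) q (hP hq.1) hne with h1 | h1 | h1
      · exact h1
      · exact absurd h1 (hq.2 r hr.1)
      · exact absurd h1 (hr.2 q hq.1)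
    have hB : (P.filter fun r => ¬ ∀ q ∈ P, ¬ lt q r).card ≤ 3 * n :=
      ih _ ((Finset.filter_subset _ _).trans hP) fun C hC hc => by
        rcases C.eq_empty_or_nonempty with rfl | hne
        · simp
        obtain ⟨c0, h0, hm⟩ := C.exists_min_image (fun r => (P.filter fun q => lt q r).card) hne
        have hCP : C ⊆ P := hC.trans (Finset.filter_subset _ _)
        have h1 := (Finset.mem_filter.1 (hC h0)).2
        push Not at h1
        obtain ⟨a, ha, hac⟩ := h1
        have h2 : ∀ c ∈ C, lt a c := fun c hcC => by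
          by_cases e : c0 = c
          · exact e ▸ hac
          rcases htri c0 (hP (hCP h0)) c (hP (hCP hcC)) e with h3 | h3 | h3
          · exact absurd h3 (hc _ h0 _ hcC)
          · exact htr _ _ _ hac h3
          · refine absurd (hm c hcC) (not_le.2 (Finset.card_lt_card ⟨fun q hq => ?_, fun hs => ?_⟩))
            · rw [Finset.mem_filter] at hq ⊢
              exact ⟨hq.1, htr _ _ _ hq.2 h3⟩
            · exact hirr c (Finset.mem_filter.1 (hs (Finset.mem_filter.2 ⟨hCP hcC, h3⟩))).2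
        have h5 := h (insert a C) (Finset.insert_subset ha hCP) fun r hr q hq => by
          rcases Finset.mem_insert.1 hr with e1 | hr1 <;>
            rcases Finset.mem_insert.1 hq with e2 | hq1
          · rw [e1, e2]
            exact hself _
          · rw [e1]
            exact (hn _ _ (h2 _ hq1)).1
          · rw [e2]
            exact (hn _ _ (h2 _ hr1)).2
          · exact hc _ hr1 _ hq1
        rw [Finset.card_insert_of_notMem fun k => hirr a (h2 a k)] at h5
        omega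
    have := Finset.card_filter_add_card_filter_not (s := P) fun r => ∀ q ∈ P, ¬ lt q r
    omega

/-- The far side of `q` lies in the far side of `r`. -/
def Le (x r q : W) : Prop := ∀ z, q ∈ Sep x z → r ∈ Sep x z

theorem anti {x r q : W} (h1 : Le x r q) (h2 : Le x q r) :
    ∀ n z, d x z = n → r ∈ Sep x z → r = q := by
  intro n
  induction n with
  | zero =>
    intro z hz hr
    rw [← d_eq_zero.1 hz, Sep_self] at hr
    simp at hr
  | succ n ih =>
    intro z hz hr
    obtain ⟨s, hs⟩ := exists_desc (b := x) (x := z) fun e => by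
      rw [e, d_self] at hz
      omega
    have hd := hs.d_eq
    by_cases h : r ∈ Sep x (g s * z)
    · exact ih _ (by omega) h
    · have h' : q ∉ Sep x (g s * z) := fun k => h (h1 _ k)
      have hq := h2 _ hr
      rw [mem_Sep_step] at h h'
      have e1 : r = wall s z := by tauto
      have e2 : q = wall s z := by tauto
      rw [e1, e2]

theorem comp {x y r q : W} (hr : r ∈ Sep x y) (hq : q ∈ Sep x y) (h : ¬ Cross r q) :
    Le x r q ∨ Le x q r := by
  by_contra k
  simp only [Le, not_or, not_forall] at k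
  obtain ⟨⟨z1, a1, a2⟩, ⟨z2, b1, b2⟩⟩ := k
  refine h (cross_of_four (a := x) (b := z1) (c := z2) (e := y) a2 ?_ b1 b2 ?_ a1)
  · simp only [mem_Sep] at *
    tauto
  · simp only [mem_Sep] at *
    tauto

theorem not_cross {x r q : W} (h : Le x r q) : ¬ Cross r q := by
  rintro ⟨⟨a, ha⟩, ⟨b, hb⟩, ⟨c, hc⟩, ⟨e, he⟩⟩
  have h1 := h a
  have h2 := h b
  have h3 := h c
  have h4 := h e
  simp only [mem_Sep] at h1 h2 h3 h4
  tauto

end CloseD

open CloseD in
theorem closeD (h4 : T4S) : CloseDS := by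
  intro x y h
  rw [← card_Sep]
  refine mirsky Cross (fun r q => Le x r q ∧ ¬ Le x q r) (Sep x y) (fun a k => k.2 k.1)
    (fun a b c k1 k2 => ⟨fun z hz => k1.1 z (k2.1 z hz),
      fun k => k2.2 fun z hz => k z (k1.1 z hz)⟩) not_cross_self (fun a ha b hb hne => ?_)
    (fun a b k => ⟨not_cross k.1, fun c => not_cross k.1 c.symm⟩) h4 9 _ (Finset.Subset.refl _) h
  by_cases hc : Cross a b
  · exact .inl hc
  have hb2 : ¬ (Le x a b ∧ Le x b a) := fun k => hne (anti k.1 k.2 _ y rfl ha)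
  rcases comp ha hb hc with k | k
  · exact .inr (.inl ⟨k, fun k' => hb2 ⟨k, k'⟩⟩)
  · exact .inr (.inr ⟨k, fun k' => hb2 ⟨k', k⟩⟩)

end Pool.Agent.MP_df844f_gt.RA

end
end MrgPart2

-- ======== part 3: formerly Pool.Agent.MP_df844f_gt.RA.w.Fill
section MrgPart3

/-! Row FILL: cycles of rank 2 cells in a convex set bound chains of faces. -/

set_option linter.unusedSectionVars false

noncomputable section

namespace Pool.Agent.MP_df844f_gt.RA

variable [Dat]

open PS

namespace Fill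

section
variable {B : Type} [MulAction W B] {Y : PS B}

theorem bd_apply (γ : Y.Chain) (C : Y.Cell) (A : Finset Y.Cell)
    (h : ∀ e ∈ γ.support, Y.bd1 e C ≠ 0 → e ∈ A) :
    Y.bd γ C = ∑ e ∈ A, γ e * Y.bd1 e C := by
  have h0 : Y.bd γ C = ∑ e ∈ γ.support, γ e * Y.bd1 e C := by
    unfold PS.bd
    rw [Finsupp.linearCombination_apply, Finsupp.sum, Finsupp.finsetSum_apply]
    rfl
  rw [h0]
  have h1 : ∑ e ∈ A ∩ γ.support, γ e * Y.bd1 e C = ∑ e ∈ γ.support, γ e * Y.bd1 e C := by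
    refine Finset.sum_subset Finset.inter_subset_right fun e he hn => ?_
    by_cases k : Y.bd1 e C = 0
    · rw [k, mul_zero]
    · exact absurd (Finset.mem_inter.2 ⟨h e he k, he⟩) hn
  have h2 : ∑ e ∈ A ∩ γ.support, γ e * Y.bd1 e C = ∑ e ∈ A, γ e * Y.bd1 e C := by
    refine Finset.sum_subset Finset.inter_subset_left fun e he hn => ?_
    have : γ e = 0 := by
      by_contra k
      exact hn (Finset.mem_inter.2 ⟨he, Finsupp.mem_support_iff.2 k⟩)
    rw [this, zero_mul]
  rw [← h1, h2]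

theorem bd1_cell (x : Y.Om) (J : Finset S) :
    Y.bd1 (Y.cell x J) = ∑ t ∈ Finset.univ.filter (fun t => ∀ s ∈ J, adj s t),
      Finsupp.single (Y.cell x (insert t J)) (1 : F2) := rfl

theorem bd1_ne {x : Y.Om} {J : Finset S} {C : Y.Cell} (h : Y.bd1 (Y.cell x J) C ≠ 0) :
    ∃ r, (∀ s ∈ J, adj s r) ∧ Y.cell x (insert r J) = C := by
  rw [bd1_cell, Finsupp.finsetSum_apply] at h
  obtain ⟨r, hr, k⟩ := Finset.exists_ne_zero_of_sum_ne_zero h
  refine ⟨r, (Finset.mem_filter.1 hr).2, ?_⟩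
  by_contra q
  exact k (Finsupp.single_eq_of_ne' q)

theorem bd1_one (x : Y.Om) {J J' : Finset S} {u : S} (hu : ∀ s ∈ J, adj s u)
    (e : J' = insert u J) : Y.bd1 (Y.cell x J) (Y.cell x J') = 1 := by
  subst e
  rw [bd1_cell, Finsupp.finsetSum_apply, Finset.sum_eq_single u]
  · exact Finsupp.single_eq_same
  · intro r hr hne
    refine Finsupp.single_eq_of_ne' fun q => ?_
    have q1 := (cell_eq_iff.1 q).1
    have q2 : r ∈ insert u J := q1 ▸ Finset.mem_insert_self r J
    rcases Finset.mem_insert.1 q2 with q3 | q3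
    · exact hne q3
    · exact adj_irrefl r ((Finset.mem_filter.1 hr).2 r q3)
  · intro k
    exact absurd (Finset.mem_filter.2 ⟨Finset.mem_univ _, hu⟩) k

theorem mem_bd {γ : Y.Chain} {C : Y.Cell} (h : Y.bd γ C ≠ 0) :
    ∃ e ∈ γ.support, Y.bd1 e C ≠ 0 := by
  by_contra k
  push Not at k
  apply h
  rw [bd_apply γ C ∅ fun e he q => absurd (k e he) q]
  simp

/-- The chain of faces of one chamber with given coefficients. -/
noncomputable def faces (x : Y.Om) (J : Finset S) (φ : S → F2) : Y.Chain :=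
  ∑ s ∈ Jᶜ, Finsupp.single (Y.cell x {s}) (φ s)

theorem faces_supp {x : Y.Om} {J : Finset S} {φ : S → F2} {e : Y.Cell}
    (h : e ∈ (faces x J φ).support) : ∃ s, s ∉ J ∧ e = Y.cell x {s} := by
  rw [Finsupp.mem_support_iff, faces, Finsupp.finsetSum_apply] at h
  obtain ⟨s, hs, k⟩ := Finset.exists_ne_zero_of_sum_ne_zero h
  refine ⟨s, Finset.mem_compl.1 hs, ?_⟩
  by_contra q
  exact k (Finsupp.single_eq_of_ne q)

theorem faces_apply (x : Y.Om) {J : Finset S} (φ : S → F2) {p : S} (hp : p ∉ J) :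
    faces x J φ (Y.cell x {p}) = φ p := by
  rw [faces, Finsupp.finsetSum_apply, Finset.sum_eq_single p]
  · exact Finsupp.single_eq_same
  · intro r _ hne
    refine Finsupp.single_eq_of_ne' fun q => hne ?_
    exact Finset.singleton_injective (cell_eq_iff.1 q).1
  · intro k
    exact absurd (Finset.mem_compl.2 hp) k

theorem bd_faces (x : Y.Om) {J : Finset S} (φ : S → F2) {p q : S} (hp : p ∉ J) (hq : q ∉ J)
    (h : adj p q) : Y.bd (faces x J φ) (Y.cell x {p, q}) = φ p + φ q := by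
  have hne : Y.cell x {p} ≠ Y.cell x {q} := fun k =>
    adj_ne h (Finset.singleton_injective (cell_eq_iff.1 k).1)
  rw [bd_apply _ _ {Y.cell x {p}, Y.cell x {q}}, Finset.sum_pair hne, faces_apply x φ hp,
    faces_apply x φ hq, bd1_one x (u := q) (by simpa using h) (Finset.pair_comm p q),
    bd1_one x (u := p) (by simpa using adj_symm h) rfl, mul_one, mul_one]
  intro e he k
  obtain ⟨s, _, rfl⟩ := faces_supp he
  obtain ⟨r, _, k2⟩ := bd1_ne k
  have k3 := (cell_eq_iff.1 k2).1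
  have k4 : s ∈ ({p, q} : Finset S) := k3 ▸ (by simp)
  rcases Finset.mem_insert.1 k4 with rfl | k5
  · simp
  · rw [Finset.mem_singleton.1 k5]; simp

end

/-- The lowest corner of a cell is unique. -/
theorem key {K : Finset W} {b : W} {c x : (cvxPS K).Om} {J : Finset S} (hJ : Clq J)
    (hc : ∀ s ∈ J, ¬ Desc b c.1 s) (h : (cvxPS K).cell c J = (cvxPS K).cell x J)
    (hd : d b x.1 ≤ d b c.1) : x = c := by
  have h1 := (cell_eq_iff.1 h).2
  have h2 : Sep b c.1 ⊆ Sep b x.1 ∧ ∀ s ∈ J, wall s x.1 = wall s c.1 := by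
    clear h hd
    induction h1 with
    | refl => exact ⟨Finset.Subset.refl _, fun _ _ => rfl⟩
    | @tail y z _ k ih =>
      obtain ⟨s, hs, e⟩ := k
      have e' : z.1 = g s * y.1 := e
      rw [e']
      constructor
      · intro r hr
        rw [mem_Sep_step, ih.2 s hs]
        have a1 : r ≠ wall s c.1 := fun q => hc s hs (desc_iff.2 (q ▸ hr))
        have a2 := ih.1 hr
        tauto
      · intro t ht
        by_cases q : t = s
        · rw [q, wall_g_mul, ih.2 s hs]
        · rw [wall_adj (hJ t ht s hs q), ih.2 t ht]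
  rw [← card_Sep, ← card_Sep] at hd
  exact Subtype.ext (eq_of_Sep_eq (Finset.eq_of_subset_of_card_le h2.1 hd).symm)

theorem pair_sub : ∀ r p q s t u : S, adj p q → (insert r {p, q} : Finset S) = {s, t, u} →
    ({p, q} : Finset S) = {s, t} ∨ ({p, q} : Finset S) = {t, u} ∨ ({p, q} : Finset S) = {s, u} := by
  intro r p q s t u h e
  have hp : p ∈ ({s, t, u} : Finset S) := e ▸ (by simp)
  have hq : q ∈ ({s, t, u} : Finset S) := e ▸ (by simp)
  have hne := adj_ne h
  simp only [Finset.mem_insert, Finset.mem_singleton] at hp hq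
  rcases hp with rfl | rfl | rfl <;> rcases hq with rfl | rfl | rfl <;>
    first
      | exact absurd rfl hne
      | simp [Finset.pair_comm]

theorem pair_ne {s t u : S} (h1 : adj t u) (h2 : adj s u) {v : S} :
    ({s, t} : Finset S) ≠ {v, u} := by
  intro e
  have hu : u ∈ ({s, t} : Finset S) := e ▸ (by simp)
  rcases Finset.mem_insert.1 hu with k | k
  · exact adj_ne h2 k.symm
  · exact adj_ne h1 (Finset.mem_singleton.1 k).symm

/-- The cell has a lowest corner in `T`. -/
def Low (K : Finset W) (b : W) (T : Finset W) (e : (cvxPS K).Cell) : Prop :=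
  ∃ (x : (cvxPS K).Om) (s t : S), x.1 ∈ T ∧ adj s t ∧ ¬ Desc b x.1 s ∧ ¬ Desc b x.1 t ∧
    e = (cvxPS K).cell x {s, t}

theorem low_init {K : Finset W} (hK : Cvx (K : Set W)) {b : W} (hb : b ∈ K) {s t : S}
    (h : adj s t) : ∀ (n : ℕ) (x : (cvxPS K).Om), d b x.1 = n →
      Low K b K ((cvxPS K).cell x {s, t}) := by
  intro n
  induction n using Nat.strong_induction_on with
  | _ n ih =>
    intro x hx
    have step : ∀ u ∈ ({s, t} : Finset S), Desc b x.1 u → Low K b K ((cvxPS K).cell x {s, t}) := by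
      intro u hu hd
      have hm : g u * x.1 ∈ K := hK b hb x.1 x.2 _ hd.btw
      have e : (cvxPS K).cell x {s, t} = (cvxPS K).cell ⟨g u * x.1, hm⟩ {s, t} :=
        cell_e (Y := cvxPS K) hu rfl
      rw [e]
      exact ih _ (by rw [← hx]; exact hd) _ rfl
    by_cases a : Desc b x.1 s
    · exact step s (by simp) a
    by_cases a' : Desc b x.1 t
    · exact step t (by simp) a'
    exact ⟨x, s, t, x.2, h, a, a', rfl⟩

theorem cocyc {K : Finset W} {b : W} {T : Finset W} {c : (cvxPS K).Om}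
    (hmax : ∀ x ∈ T, d b x ≤ d b c.1) {β : (cvxPS K).Chain} (hβ : ∀ e ∈ β.support, Low K b T e)
    (h0 : (cvxPS K).bd β = 0) {s t u : S} (hs : ¬ Desc b c.1 s) (ht : ¬ Desc b c.1 t)
    (hu : ¬ Desc b c.1 u) (h1 : adj s t) (h2 : adj t u) (h3 : adj s u) :
    β ((cvxPS K).cell c {s, t}) + β ((cvxPS K).cell c {t, u}) + β ((cvxPS K).cell c {s, u}) = 0 := by
  have hJ : Clq {s, t, u} := by
    intro p hp q hq hne
    simp only [Finset.mem_insert, Finset.mem_singleton] at hp hq
    rcases hp with rfl | rfl | rfl <;> rcases hq with rfl | rfl | rfl <;>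
      first
        | exact absurd rfl hne
        | assumption
        | exact adj_symm ‹_›
  have hc : ∀ p ∈ ({s, t, u} : Finset S), ¬ Desc b c.1 p := by
    intro p hp
    simp only [Finset.mem_insert, Finset.mem_singleton] at hp
    rcases hp with rfl | rfl | rfl <;> assumption
  have n1 : (cvxPS K).cell c {s, t} ≠ (cvxPS K).cell c {t, u} := fun k =>
    pair_ne h2 h3 (cell_eq_iff.1 k).1
  have n2 : (cvxPS K).cell c {s, t} ≠ (cvxPS K).cell c {s, u} := fun k =>
    pair_ne h2 h3 (cell_eq_iff.1 k).1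
  have n3 : (cvxPS K).cell c {t, u} ≠ (cvxPS K).cell c {s, u} := fun k =>
    pair_ne (adj_symm h3) (adj_symm h1) ((cell_eq_iff.1 k).1.trans (Finset.pair_comm s u))
  have z : (cvxPS K).bd β ((cvxPS K).cell c {s, t, u}) = 0 := by rw [h0]; rfl
  rw [bd_apply β _ {(cvxPS K).cell c {s, t}, (cvxPS K).cell c {t, u}, (cvxPS K).cell c {s, u}},
    Finset.sum_insert (by simp [n1, n2]), Finset.sum_pair n3,
    bd1_one c (u := u) (by simp [h2, h3]) (by ext; simp; tauto),
    bd1_one c (u := s) (by simp [adj_symm h1, adj_symm h3]) rfl,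
    bd1_one c (u := t) (by simp [h1, adj_symm h2]) (by ext; simp; tauto),
    mul_one, mul_one, mul_one, ← add_assoc] at z
  · exact z
  · intro e he k
    obtain ⟨x, p, q, hx, hpq, _, _, rfl⟩ := hβ e he
    obtain ⟨r, _, k2⟩ := bd1_ne k
    have k3 := (cell_eq_iff.1 k2).1
    rw [k3] at k2
    obtain rfl : x = c := key hJ hc k2.symm (hmax _ hx)
    rcases pair_sub r p q s t u hpq k3 with q1 | q1 | q1 <;> rw [q1] <;> simp

theorem main (hF : FactS) {K : Finset W} {b : W} : ∀ (n : ℕ) (T : Finset W), T.card = n →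
    T ⊆ K → (∀ x ∈ T, ∀ s, Desc b x s → g s * x ∈ T) → ∀ β : (cvxPS K).Chain,
    (∀ e ∈ β.support, Low K b T e) → (cvxPS K).bd β = 0 →
    ∃ E : (cvxPS K).Chain, (∀ c ∈ E.support, ∃ x s, c = (cvxPS K).cell x {s}) ∧
      (cvxPS K).bd E = β := by
  intro n
  induction n with
  | zero =>
    intro T hT _ _ β hβ _
    rw [Finset.card_eq_zero] at hT
    refine ⟨0, by simp, ?_⟩
    rw [map_zero]
    refine (Finsupp.support_eq_empty.1 (Finset.eq_empty_of_forall_notMem fun e he => ?_)).symm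
    obtain ⟨x, _, _, hx, _⟩ := hβ e he
    rw [hT] at hx
    exact Finset.notMem_empty _ hx
  | succ n ih =>
    intro T hT hTK hcl β hβ h0
    classical
    obtain ⟨c0, hc0, hmax⟩ := Finset.exists_max_image T (d b) (Finset.card_pos.1 (by omega))
    let c : (cvxPS K).Om := ⟨c0, hTK hc0⟩
    let J : Finset S := Finset.univ.filter fun s => Desc b c0 s
    have hJ : ∀ s, s ∈ J ↔ Desc b c0 s := fun s => by simp [J]
    have hJc : Clq J := fun s hs t ht hne => desc_adj ((hJ s).1 hs) ((hJ t).1 ht) hne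
    obtain ⟨φ, hφ⟩ := hF.h1 J hJc (fun s t => β ((cvxPS K).cell c {s, t}))
      (fun s t => by rw [Finset.pair_comm])
      (fun s hs t ht u hu h1 h2 h3 => cocyc (c := c) hmax hβ h0 (fun k => hs ((hJ s).2 k))
        (fun k => ht ((hJ t).2 k)) (fun k => hu ((hJ u).2 k)) h1 h2 h3)
    obtain ⟨E, hE1, hE2⟩ := ih (T.erase c0) (by rw [Finset.card_erase_of_mem hc0]; omega)
      ((Finset.erase_subset _ _).trans hTK)
      (fun x hx s hs => by
        have hx' := Finset.mem_of_mem_erase hx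
        refine Finset.mem_erase.2 ⟨fun k => ?_, hcl x hx' s hs⟩
        have a1 := hmax x hx'
        have a2 : d b (g s * x) < d b x := hs
        rw [k] at a2
        omega)
      (β - (cvxPS K).bd (faces c J φ))
      (fun e he => by
        have he' : (β - (cvxPS K).bd (faces c J φ)) e ≠ 0 := Finsupp.mem_support_iff.1 he
        have hl : Low K b T e := by
          by_cases k : β e = 0
          · have k2 : (cvxPS K).bd (faces c J φ) e ≠ 0 := fun q => he' (by
              rw [Finsupp.sub_apply, k, q, sub_zero])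
            obtain ⟨f, hf, k3⟩ := mem_bd k2
            obtain ⟨s, hs, rfl⟩ := faces_supp hf
            obtain ⟨t, ht, rfl⟩ := bd1_ne k3
            have hst : adj s t := ht s (by simp)
            have hs' : ¬ Desc b c0 s := fun q => hs ((hJ s).2 q)
            by_cases q : Desc b c0 t
            · have hm := hcl c0 hc0 t q
              refine ⟨⟨g t * c0, hTK hm⟩, t, s, hm, adj_symm hst, fun q2 => ?_, fun q2 => ?_,
                cell_e (Y := cvxPS K) (s := t) (by simp) rfl⟩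
              · have a1 : d b (g t * (g t * c0)) < d b (g t * c0) := q2
                have a2 : d b (g t * c0) < d b c0 := q
                rw [g_mul_g_mul] at a1
                omega
              · have a1 : wall s (g t * c0) ∈ Sep b (g t * c0) := desc_iff.1 q2
                rw [wall_adj hst, Sep_step_of_mem (desc_iff.1 q)] at a1
                exact hs' (desc_iff.2 (Finset.mem_of_mem_erase a1))
            · exact ⟨c, t, s, hc0, adj_symm hst, q, hs', rfl⟩
          · exact hβ e (Finsupp.mem_support_iff.2 k)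
        obtain ⟨x, p, q, hx, hpq, hp, hq, rfl⟩ := hl
        refine ⟨x, p, q, Finset.mem_erase.2 ⟨fun k => he' ?_, hx⟩, hpq, hp, hq, rfl⟩
        obtain rfl : x = c := Subtype.ext k
        have hp' : p ∉ J := fun a => hp ((hJ p).1 a)
        have hq' : q ∉ J := fun a => hq ((hJ q).1 a)
        rw [Finsupp.sub_apply, bd_faces c φ hp' hq' hpq, hφ p hp' q hq' hpq, sub_self])
      (by rw [map_sub, h0, bd_bd, sub_zero])
    refine ⟨E + faces c J φ, fun e he => ?_, by rw [map_add, hE2, sub_add_cancel]⟩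
    rcases Finset.mem_union.1 (Finsupp.support_add he) with k | k
    · exact hE1 e k
    · obtain ⟨s, _, rfl⟩ := faces_supp k
      exact ⟨c, s, rfl⟩

end Fill

theorem fill (hF : FactS) : FillS := by
  intro K hK β hβ h0
  rcases K.eq_empty_or_nonempty with hE | ⟨b, hb⟩
  · refine Fill.main hF (b := 1) _ K rfl (Finset.Subset.refl _) (fun x hx => ?_) β
      (fun e he => ?_) h0
    · rw [hE] at hx; exact absurd hx (Finset.notMem_empty _)
    · obtain ⟨x, _⟩ := hβ e he
      exact absurd (hE ▸ x.2 : x.1 ∈ (∅ : Finset W)) (Finset.notMem_empty _)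
  · refine Fill.main hF (b := b) _ K rfl (Finset.Subset.refl _)
      (fun x hx s hs => hK b hb x hx _ hs.btw) β (fun e he => ?_) h0
    obtain ⟨x, s, t, h, rfl⟩ := hβ e he
    exact Fill.low_init hK hb h _ x rfl

end Pool.Agent.MP_df844f_gt.RA

end
end MrgPart3

-- ======== part 4: formerly Pool.Agent.MP_df844f_gt.RA.w.GJoin
section MrgPart4

/-! Two gadgets joined by an arc form a gadget. -/

set_option linter.unusedSectionVars false

noncomputable section

namespace Pool.Agent.MP_df844f_gt.RA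

variable [Dat]

open PS

namespace GJoin

/-- Maps of prestates over `W` that preserve edges and darts. -/
structure Emb (Y Y' : PS W) : Type where
  π : Y.Om → Y'.Om
  α : Y.A → Y'.A
  e_π : ∀ {s x y}, Y.e s x y → Y'.e s (π x) (π y)
  src_α : ∀ a, Y'.src (α a) = π (Y.src a)
  rev_α : ∀ a, Y'.rev (α a) = α (Y.rev a)
  lab_α : ∀ a, Y'.lab (α a) = Y.lab a

variable {Y Y' : PS W}

def Emb.lbl (φ : Emb Y Y') : Y.Lbl → Y'.Lbl
  | .edge s x y => .edge s (φ.π x) (φ.π y)
  | .dart a => .dart (φ.α a)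

theorem Emb.tw (φ : Emb Y Y') {n m : Y.Node} {l : ℕ} {ch : Y.Path} (h : Y.TW tt n m l ch) :
    ∃ ch', Y'.TW tt ⟨φ.π n.x, n.w, n.p⟩ ⟨φ.π m.x, m.w, m.p⟩ l ch' := by
  induction h with
  | nil n a b => exact ⟨_, TW.nil _ a b⟩
  | @edge n n' m _ _ s a b c e _ ih =>
    obtain ⟨ch', ih⟩ := ih
    exact ⟨_, TW.edge (n := ⟨φ.π n.x, n.w, n.p⟩) (n' := ⟨φ.π n'.x, n'.w, n'.p⟩) s a b
      (φ.e_π c) e ih⟩
  | @dart n n' m _ _ s a b c e f _ ih =>
    obtain ⟨ch', ih⟩ := ih
    exact ⟨_, TW.dart (n := ⟨φ.π n.x, n.w, n.p⟩) (n' := ⟨φ.π n'.x, n'.w, n'.p⟩) (φ.α s) a b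
      (by rw [φ.src_α, c]) (by rw [φ.rev_α, φ.src_α, e]) (by rw [φ.lab_α]; exact f) ih⟩
  | @stay n n' m _ _ a b c e _ ih =>
    obtain ⟨ch', ih⟩ := ih
    exact ⟨_, TW.stay (n := ⟨φ.π n.x, n.w, n.p⟩) (n' := ⟨φ.π n'.x, n'.w, n'.p⟩) a b
      (congrArg φ.π c) e ih⟩

theorem Emb.cocyc (φ : Emb Y Y') {c : Y'.Coch Unit} (hc : Cocyc c) :
    Cocyc (fun l => c (φ.lbl l) : Y.Coch Unit) where
  symm s x y ε h := hc.symm s _ _ ε (φ.e_π h)
  dsym a ε := by
    have h := hc.dsym (φ.α a) ε
    rw [φ.rev_α] at h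
    exact h
  sq s t _ _ _ _ ε h h0 h1 h2 h3 :=
    hc.sq s t _ _ _ _ ε h (φ.e_π h0) (φ.e_π h1) (φ.e_π h2) (φ.e_π h3)

theorem Emb.conn (φ : Emb Y Y') (h : Y.Conn) {T : Type} (ψ : Y'.Om → T)
    (h1 : ∀ s x y, Y'.e s x y → ψ x = ψ y) (h2 : ∀ a, ψ (Y'.src a) = ψ (Y'.src (Y'.rev a)))
    (x y : Y.Om) : ψ (φ.π x) = ψ (φ.π y) :=
  h T (fun z => ψ (φ.π z)) (fun s _ _ e => h1 s _ _ (φ.e_π e)) (fun a => by
    have h3 := h2 (φ.α a)
    rwa [φ.rev_α, φ.src_α, φ.src_α] at h3) x y

variable (L R : PS W) (xL : L.Om) (xR : R.Om)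

/-- The disjoint union with a new arc from `xL` to `xR`. -/
def join : PS W where
  Om := L.Om ⊕ R.Om
  A := (L.A ⊕ R.A) ⊕ Bool
  f := Sum.elim L.f R.f
  e s := Sum.LiftRel (L.e s) (R.e s)
  e_symm h := by
    cases h with
    | inl h => exact .inl (L.e_symm h)
    | inr h => exact .inr (R.e_symm h)
  e_f h := by
    cases h with
    | inl h => exact L.e_f h
    | inr h => exact R.e_f h
  rev := Sum.map (Sum.map L.rev R.rev) not
  rev_rev := by
    rintro ((a | a) | b)
    · exact congrArg (fun z => Sum.inl (Sum.inl z)) (L.rev_rev a)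
    · exact congrArg (fun z => Sum.inl (Sum.inr z)) (R.rev_rev a)
    · cases b <;> rfl
  rev_ne := by
    rintro ((a | a) | b) h
    · exact L.rev_ne a (Sum.inl.inj (Sum.inl.inj h))
    · exact R.rev_ne a (Sum.inr.inj (Sum.inl.inj h))
    · cases b <;> cases h
  src := Sum.elim (Sum.map L.src R.src) fun b => cond b (.inl xL) (.inr xR)
  lab := Sum.elim (Sum.elim L.lab R.lab) fun b =>
    cond b (R.f xR * (L.f xL)⁻¹) (R.f xR * (L.f xL)⁻¹)⁻¹
  lab_rev := by
    rintro ((a | a) | b)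
    · exact L.lab_rev a
    · exact R.lab_rev a
    · cases b
      · exact (inv_inv _).symm
      · rfl
  f_rev := by
    rintro ((a | a) | b)
    · exact L.f_rev a
    · exact R.f_rev a
    · cases b
      · change L.f xL = (R.f xR * (L.f xL)⁻¹)⁻¹ * R.f xR
        group
      · change R.f xR = (R.f xR * (L.f xL)⁻¹) * L.f xL
        group

def embL : Emb L (join L R xL xR) where
  π := Sum.inl
  α a := Sum.inl (Sum.inl a)
  e_π h := Sum.LiftRel.inl h
  src_α _ := rfl
  rev_α _ := rfl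
  lab_α _ := rfl

def embR : Emb R (join L R xL xR) where
  π := Sum.inr
  α a := Sum.inl (Sum.inr a)
  e_π h := Sum.LiftRel.inr h
  src_α _ := rfl
  rev_α _ := rfl
  lab_α _ := rfl

theorem vol_join : (join L R xL xR).vol = L.vol + R.vol := Nat.card_sum

theorem conn_join (hL : L.Conn) (hR : R.Conn) : (join L R xL xR).Conn := by
  intro T ψ h1 h2
  have a := (embL L R xL xR).conn hL ψ h1 h2
  have b := (embR L R xL xR).conn hR ψ h1 h2
  have c : ψ (Sum.inl xL) = ψ (Sum.inr xR) := h2 (Sum.inr true)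
  have key : ∀ x, ψ x = ψ (Sum.inl xL) := by
    rintro (x | x)
    · exact a x xL
    · exact (b x xR).trans c.symm
  exact fun x y => (key x).trans (key y).symm

theorem h1_join (hL : ∀ c : L.Coch Unit, Cocyc c → Cobd c)
    (hR : ∀ c : R.Coch Unit, Cocyc c → Cobd c) (c : (join L R xL xR).Coch Unit) (hc : Cocyc c) :
    Cobd c := by
  obtain ⟨p, hp⟩ := hL _ ((embL L R xL xR).cocyc hc)
  obtain ⟨q, hq⟩ := hR _ ((embR L R xL xR).cocyc hc)
  have e1 : ∀ u a b k : F2, u = a + b → u = a + k + (b + k) := by decide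
  have e2 : ∀ u a b : F2, u = a + (b + (u + a + b)) := by decide
  have e3 : ∀ v u a b : F2, v = u → v = b + (u + a + b) + a := by decide
  refine ⟨Sum.elim p fun x ε => q x ε + (c (.dart (Sum.inr true)) () + p xL () + q xR ()),
    fun s x y ε h => ?_, ?_⟩
  · cases h with
    | inl h => exact hp.ed s _ _ ε h
    | inr h => exact e1 _ _ _ _ (hq.ed s _ _ ε h)
  · rintro ((a | a) | b) ε
    · exact hp.da a ε
    · exact e1 _ _ _ _ (hq.da a ε)
    · cases b
      · exact e3 _ _ _ _ (hc.dsym (Sum.inr true) ())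
      · exact e2 _ _ _

end GJoin

open GJoin in
theorem gjoin : GJoinS := by
  intro L R FL FR uL uR ιL ιR hL hR hcut hd
  have mL : ∀ {a}, a ∈ FL → a ∈ insert uL FL := Finset.mem_insert_of_mem
  have mR : ∀ {a}, a ∈ FR → a ∈ insert uR FR := Finset.mem_insert_of_mem
  have uLm : uL ∈ insert uL FL := Finset.mem_insert_self _ _
  have uRm : uR ∈ insert uR FR := Finset.mem_insert_self _ _
  have hR' : ∀ {a}, a ∈ FL ∪ FR → a ∉ FL → a ∈ FR := fun h k =>
    (Finset.mem_union.1 h).resolve_left k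
  let Q := join L R (ιL uL) (ιR uR)
  let eL : Emb L Q := embL L R _ _
  let eR : Emb R Q := embR L R _ _
  let ι : W → Q.Om := fun a => if a ∈ FL then eL.π (ιL a) else eR.π (ιR a)
  have iL : ∀ {a}, a ∈ FL → ι a = eL.π (ιL a) := fun h => if_pos h
  have iR : ∀ {a}, a ∉ FL → ι a = eR.π (ιR a) := fun h => if_neg h
  have cross : ∀ a ∈ FL, ∀ b ∈ FR, ∀ a' b', Close a a' → Close b b' →
      ∃ ch, Q.TW tt ⟨eL.π (ιL a), a, a'⟩ ⟨eR.π (ιR b), b, b'⟩ (d a' b') ch := by
    intro a ha b hb a' b' ca cb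
    obtain ⟨u', v', cu, cv, hs⟩ := hcut a ha b hb a' b' ca cb
    obtain ⟨_, w1⟩ := hL.sp a (mL ha) uL uLm a' u' ca cu
    obtain ⟨_, w2⟩ := hR.sp uR uRm b (mR hb) v' b' cv cb
    obtain ⟨_, t1⟩ := eL.tw w1
    obtain ⟨_, t2⟩ := eR.tw w2
    have hw : uR = Q.lab (Sum.inr true) * uL := by
      change uR = R.f (ιR uR) * (L.f (ιL uL))⁻¹ * uL
      rw [hL.f_ι uL uLm, hR.f_ι uR uRm, inv_mul_cancel_right]
    have t3 := TW.dart (Y := Q) (P := tt) (n := ⟨eL.π (ιL uL), uL, u'⟩)
      (n' := ⟨eR.π (ιR uR), uR, v'⟩) (Sum.inr true) cu trivial rfl rfl hw t2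
    exact ⟨_, (t1.append t3).cast (by rw [← hs]; exact (Nat.add_assoc _ _ _).symm)⟩
  refine ⟨Q, ι, ⟨fun a ha => ?_, fun a ha s hs => ?_, h1_join _ _ _ _ hL.h1 hR.h1,
    conn_join _ _ _ _ hL.conn hR.conn, fun a ha b hb a' b' ca cb => ?_⟩, vol_join _ _ _ _⟩
  · by_cases h : a ∈ FL
    · rw [iL h]; exact hL.f_ι a (mL h)
    · rw [iR h]; exact hR.f_ι a (mR (hR' ha h))
  · by_cases h : a ∈ FL <;> by_cases h' : g s * a ∈ FL
    · rw [iL h, iL h']; exact eL.e_π (hL.e_ι a (mL h) s (mL h'))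
    · have h2 := hd a h _ (hR' hs h')
      rw [d_g_mul] at h2
      omega
    · have h2 := hd _ h' a (hR' ha h)
      rw [d_comm, d_g_mul] at h2
      omega
    · rw [iR h, iR h']; exact eR.e_π (hR.e_ι a (mR (hR' ha h)) s (mR (hR' hs h')))
  · by_cases h : a ∈ FL <;> by_cases h' : b ∈ FL
    · rw [iL h, iL h']
      obtain ⟨_, w⟩ := hL.sp a (mL h) b (mL h') a' b' ca cb
      exact eL.tw w
    · rw [iL h, iR h']
      exact cross a h b (hR' hb h') a' b' ca cb
    · rw [iR h, iL h']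
      obtain ⟨_, w⟩ := cross b h' a (hR' ha h) b' a' cb ca
      obtain ⟨_, w', -⟩ := w.reverse
      exact ⟨_, w'.cast (d_comm _ _)⟩
    · rw [iR h, iR h']
      obtain ⟨_, w⟩ := hR.sp a (mR (hR' ha h)) b (mR (hR' hb h')) a' b' ca cb
      exact eR.tw w

end Pool.Agent.MP_df844f_gt.RA

end
end MrgPart4

-- ======== part 5: formerly Pool.Agent.MP_df844f_gt.RA.w.Q
section MrgPart5

set_option linter.unusedSectionVars false

noncomputable section

namespace Pool.Agent.MP_df844f_gt.RA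

variable [Dat]

theorem tau_eq_of_short (F : Finset W) (h : ∀ r ∈ sepW F, (cls F r).card < 140) :
    tau F = (sepW F).card := by
  unfold tau
  rw [Finset.card_eq_sum_card_image (ty F) (sepW F)]
  refine Finset.sum_congr rfl fun t ht => ?_
  obtain ⟨r, hr, rfl⟩ := Finset.mem_image.1 ht
  exact min_eq_right (h r hr).le

theorem qS (hH : HullS) (hG : GCvxS) (hJ : GJoinS) (hT : TauS) (hE : CutExS) (hS : CutSPS)
    (hC : CutTauS) : QS := by
  have key : ∀ (n : ℕ) (F : Finset W), tau F = n → F.Nonempty →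
      ∃ (Q : PS W) (ι : W → Q.Om), Gadget Q F ι ∧ Q.vol ≤ ((nS + 1) ^ 6 + 1) * n + 1 := by
    intro n
    induction n using Nat.strong_induction_on with
    | _ n ih =>
      intro F hn hF
      by_cases hl : ∃ r ∈ sepW F, 140 ≤ (cls F r).card
      · obtain ⟨r, hr, h140⟩ := hl
        obtain ⟨a0, b0, uL, uR, hD⟩ := hE F r hr h140
        obtain ⟨s1, s2⟩ := hS F r a0 b0 uL uR hD
        have t1 := hC F r a0 b0 uL uR hD
        obtain ⟨QL, ιL, gL, vL⟩ := ih _ (by omega) (insert uL (F.filter fun a => r ∉ N a)) rfl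
          (Finset.insert_nonempty _ _)
        obtain ⟨QR, ιR, gR, vR⟩ := ih _ (by omega) (insert uR (F.filter fun a => r ∈ N a)) rfl
          (Finset.insert_nonempty _ _)
        obtain ⟨Q, ι, gQ, vQ⟩ := hJ QL QR _ _ uL uR ιL ιR gL gR s1 s2
        have e : (F.filter fun a => r ∉ N a) ∪ (F.filter fun a => r ∈ N a) = F := by
          rw [Finset.union_comm]; exact Finset.filter_union_filter_not_eq _ F
        rw [e] at gQ
        refine ⟨Q, ι, gQ, ?_⟩
        rw [hn] at t1
        generalize tau (insert uL (F.filter fun a => r ∉ N a)) = x at *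
        generalize tau (insert uR (F.filter fun a => r ∈ N a)) = y at *
        have t2 := Nat.mul_le_mul_left ((nS + 1) ^ 6 + 1) t1
        rw [mul_add, mul_add] at t2
        omega
      · obtain ⟨K, hK, hc⟩ := hH F hF
        have hs : F ⊆ K := fun a ha => by
          have := subset_hull F (Finset.mem_coe.2 ha)
          rw [← hK] at this; exact this
        obtain ⟨ι, hι⟩ := hG K F (hK ▸ cvx_hull F) hs (hF.mono hs)
        refine ⟨cvxPS K, ι, hι, ?_⟩
        have e := tau_eq_of_short F fun r hr => by by_contra k; exact hl ⟨r, hr, by omega⟩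
        have v : (cvxPS K).vol = K.card := Nat.card_eq_finsetCard K
        rw [v, ← hn, e, add_mul]; omega
  obtain ⟨C, hC⟩ := hT
  refine ⟨((nS + 1) ^ 6 + 1) * C + 1, fun F hF => ?_⟩
  obtain ⟨Q, ι, h1, h2⟩ := key _ F rfl hF
  refine ⟨Q, ι, h1, h2.trans ?_⟩
  have h3 := Nat.mul_le_mul_left ((nS + 1) ^ 6 + 1) (hC F)
  have h4 := hF.card_pos
  rw [add_mul _ 1 F.card, mul_assoc]; omega

end Pool.Agent.MP_df844f_gt.RA

end
end MrgPart5

-- ======== part 6: formerly Pool.Agent.MP_df844f_gt.RA.s5.Euler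
section MrgPart6

/-! Rank and nullity for the dual cube complex. -/

set_option linter.unusedSectionVars false

noncomputable section

namespace Pool.Agent.MP_df844f_gt.RA

variable [Dat]

open PS

namespace EulerA

variable {B : Type} [MulAction W B] (Y : PS B)

theorem finrank_Ck (k : ℕ) : Module.finrank F2 (Y.Ck k) = Y.nC k := by
  classical
  have : Fintype (Y.FC k) := Fintype.ofFinite _
  unfold Ck nC
  rw [(Finsupp.supportedEquivFinsupp (R := F2) (M := F2) (Y.FC k)).finrank_eq,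
    Module.finrank_finsupp_self, ← Nat.card_eq_fintype_card, Nat.card_coe_set_eq]

theorem rank_null (k : ℕ) : Y.nC k = Y.zz k + Y.bb k := by
  have h := LinearMap.finrank_range_add_finrank_ker (K := F2) (V := Y.Ck k) (V₂ := Y.Chain)
    ((Y.dl (k + 1)).domRestrict (Y.Ck k))
  rw [LinearMap.range_domRestrict, LinearMap.ker_domRestrict, finrank_Ck,
    ← Submodule.finrank_map_subtype_eq (Y.Ck k), Submodule.map_comap_subtype] at h
  unfold zz bb
  omega

open Classical in
theorem dl_apply (k : ℕ) (u : Y.Chain) (c : Y.Cell) :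
    Y.dl k u c = if c ∈ Y.FC k then Y.bd u c else 0 := by
  show (Finsupp.restrictDom F2 F2 (Y.FC k) (Y.bd u) : Y.Chain) c = _
  rw [Finsupp.restrictDom_apply, Finsupp.filter_apply]

open Classical in
theorem dl_mem (k : ℕ) (u : Y.Chain) : Y.dl k u ∈ Y.Ck k :=
  (Finsupp.restrictDom F2 F2 (Y.FC k) (Y.bd u)).2

theorem dl_out (k : ℕ) (v : Y.Chain) (hv : v ∈ Finsupp.supported F2 F2 (Y.FC k)ᶜ) :
    Y.dl (k + 1) v = 0 := by
  classical
  rw [Finsupp.supported_eq_span_single] at hv
  refine (Submodule.span_le (p := LinearMap.ker (Y.dl (k + 1)))).2 ?_ hv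
  rintro _ ⟨c, hc, rfl⟩
  obtain ⟨x, J, rfl⟩ := cell_ind c
  refine LinearMap.mem_ker.2 (Finsupp.ext fun c' => ?_)
  rw [dl_apply]
  split_ifs with h
  · obtain ⟨y, J', h1, h2, h3, rfl⟩ := h
    rw [bd_single]
    simp only [Finsupp.finsetSum_apply, Finsupp.coe_zero, Pi.zero_apply]
    refine Finset.sum_eq_zero fun t ht => Finsupp.single_eq_of_ne fun e => hc ?_
    have e1 : J' = insert t J := (cell_eq_iff.1 e).1
    subst e1
    have nt : t ∉ J := fun m => adj_irrefl t ((Finset.mem_filter.1 ht).2 t m)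
    rw [Finset.card_insert_of_notMem nt] at h1
    exact ⟨x, J, by omega, fun a ha b hb => h2 a (Finset.mem_insert_of_mem ha) b
      (Finset.mem_insert_of_mem hb), (h3.congr e.symm).mono (Finset.subset_insert _ _), rfl⟩
  · rfl

theorem dl_dl (k : ℕ) (u : Y.Chain) : Y.dl (k + 1) (Y.dl k u) = 0 := by
  classical
  have h1 : Y.dl (k + 1) (Y.bd u - Y.dl k u) = 0 := by
    refine dl_out Y k _ ((Finsupp.mem_supported' F2 _).2 fun c hc => ?_)
    rw [Finsupp.sub_apply, dl_apply, if_pos (by simpa using hc), sub_self]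
  have h2 : Y.dl (k + 1) (Y.bd u) = 0 := Finsupp.ext fun c => by
    rw [dl_apply, bd_bd]
    simp
  rwa [map_sub, h2, zero_sub, neg_eq_zero] at h1

end EulerA

theorem euler : EulerS := fun _ _ Y => by
  refine ⟨EulerA.rank_null Y 1, EulerA.rank_null Y 2, Submodule.finrank_mono ?_⟩
  rintro _ ⟨u, -, rfl⟩
  exact ⟨EulerA.dl_mem Y 2 u, EulerA.dl_dl Y 2 u⟩

end Pool.Agent.MP_df844f_gt.RA

end
end MrgPart6

-- ======== part 7: formerly Pool.Agent.MP_df844f_gt.RA.s5.EndA
section MrgPart7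

/-! The first Betti number of the end state is at most that of the closed manifold. -/

set_option linter.unusedSectionVars false

noncomputable section

namespace Pool.Agent.MP_df844f_gt.RA

variable [Dat]

open PS

namespace EndAA

/-- The product of a word. -/
def wd : List S → W
  | [] => 1
  | s :: ω => g s * wd ω

theorem exists_wd (w : W) : ∃ ω, wd ω = w := by
  induction w using induction_left with
  | h1 => exact ⟨[], rfl⟩
  | h2 w s ih =>
    obtain ⟨ω, rfl⟩ := ih
    exact ⟨s :: ω, rfl⟩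

variable {B : Type} [MulAction W B]

/-- The sum of an edge function along a word. -/
def sm : List S → B → ((S → B → F2) →ₗ[F2] F2)
  | [], _ => 0
  | s :: ω, b => sm ω b + (LinearMap.proj (wd ω • b) : (B → F2) →ₗ[F2] F2) ∘ₗ LinearMap.proj s

theorem sm_eq {o : B} {η : S → B → F2} {ψ : W → F2}
    (h : ∀ s w, η s (w • o) = ψ w + ψ (g s * w)) (ω : List S) (w : W) :
    sm ω (w • o) η = ψ w + ψ (wd ω * w) := by
  induction ω with
  | nil =>
    show (0 : F2) = ψ w + ψ (1 * w)
    rw [one_mul, F2_add_self]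
  | cons s ω ih =>
    show sm ω (w • o) η + η s (wd ω • w • o) = ψ w + ψ (g s * wd ω * w)
    rw [ih, smul_smul, h, mul_assoc]
    generalize ψ w = a
    generalize ψ (wd ω * w) = b
    generalize ψ (g s * (wd ω * w)) = c
    revert a b c
    decide

/-- Cocycles of the closed manifold as edge functions. -/
def EE (B : Type) [MulAction W B] : Submodule F2 (S → B → F2) where
  carrier := {η | (∀ s b, η s (g s • b) = η s b) ∧
    ∀ s t b, adj s t → η t b + η t (g s • b) + (η s b + η s (g t • b)) = 0}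
  zero_mem' := ⟨fun _ _ => rfl, fun _ _ _ _ => by simp⟩
  add_mem' := by
    rintro η η' ⟨a, b⟩ ⟨a', b'⟩
    refine ⟨fun s x => ?_, fun s t x h => ?_⟩
    · simp only [Pi.add_apply, a, a']
    · simp only [Pi.add_apply]
      linear_combination b s t x h + b' s t x h
  smul_mem' := by
    rintro c η ⟨a, b⟩
    refine ⟨fun s x => ?_, fun s t x h => ?_⟩
    · simp only [Pi.smul_apply, a]
    · simp only [Pi.smul_apply, smul_eq_mul]
      linear_combination c * b s t x h

theorem mem_EE {o : B} (ho : Trans o) {η : S → B → F2} {ψ : W → F2}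
    (h : ∀ s w, η s (w • o) = ψ w + ψ (g s * w)) : η ∈ EE B := by
  refine ⟨fun s b => ?_, fun s t b k => ?_⟩
  · obtain ⟨w, rfl⟩ := ho b
    rw [smul_smul, h, h, g_mul_g_mul, add_comm]
  · obtain ⟨w, rfl⟩ := ho b
    rw [smul_smul, smul_smul, h, h, h, h, ← mul_assoc (g t), ← g_comm k, mul_assoc]
    generalize ψ w = a
    generalize ψ (g t * w) = b
    generalize ψ (g s * w) = c
    generalize ψ (g s * (g t * w)) = e
    revert a b c e
    decide

theorem clq_pair {s t : S} (h : adj s t) : Clq {s, t} := by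
  intro a ha b hb n
  simp only [Finset.mem_insert, Finset.mem_singleton] at ha hb
  rcases ha with rfl | rfl <;> rcases hb with rfl | rfl
  exacts [absurd rfl n, h, adj_symm h, absurd rfl n]

theorem coef2 (co : CoefS) (hB : Loc B) {Y : PS B} (hY : Y.State) (u : Y.Chain) {x : Y.Om}
    {s t : S} (h : adj s t) (hf : Y.Full x {s, t}) :
    Y.bd u (Y.cell x {s, t}) = u (Y.cell x {t}) + u (Y.cell (Y.sg s x) {t}) +
      (u (Y.cell x {s}) + u (Y.cell (Y.sg t x) {s})) := by
  have hc : Clq {s, t} := clq_pair h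
  have e1 : ({s, t} : Finset S).erase s = {t} :=
    Finset.erase_insert (Finset.notMem_singleton.2 (adj_ne h))
  have e2 : ({s, t} : Finset S).erase t = {s} := by
    rw [Finset.pair_comm]
    exact Finset.erase_insert (Finset.notMem_singleton.2 (adj_ne h).symm)
  rw [co B hB Y hY u x _ hc hf, Finset.sum_pair (adj_ne h), e1, e2]

/-- Values of a chain on rank one cells. -/
noncomputable def res (Y : PS B) : Y.Chain →ₗ[F2] (S → Y.Om → F2) where
  toFun u s x := u (Y.cell x {s})
  map_add' _ _ := rfl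
  map_smul' _ _ := rfl

/-- Cocycles in degree one. -/
noncomputable abbrev Z1 (Y : PS B) : Submodule F2 Y.Chain := Y.Ck 1 ⊓ LinearMap.ker (Y.dl 2)

theorem full_full [Finite B] (x : (fullPS B).Om) (J : Finset S) : (fullPS B).Full x J :=
  fun y _ s _ k => k ⟨g s • (show B from y), rfl⟩

theorem full_sg [Finite B] (s : S) (x : B) : (fullPS B).sg s x = g s • x :=
  (fullPS_state B).sg_eq (s := s) (x := x) (y := g s • x) rfl

/-- Values of a chain of the closed manifold on rank one cells. -/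
noncomputable def resB (B : Type) [MulAction W B] [Finite B] :
    (fullPS B).Chain →ₗ[F2] (S → B → F2) where
  toFun u s x := u ((fullPS B).cell x {s})
  map_add' _ _ := rfl
  map_smul' _ _ := rfl

theorem exists_chain [Finite B] (co : CoefS) (hB : Loc B) (η : S → B → F2) (h : η ∈ EE B) :
    ∃ u ∈ Z1 (fullPS B), resB B u = η := by
  classical
  let F : (fullPS B).Cell → F2 :=
    Quot.lift (fun p : B × Finset S => ∑ s, if p.2 = {s} then η s p.1 else 0) (by
      rintro ⟨x, J⟩ ⟨y, J'⟩ ⟨h1, t, ht, h2⟩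
      obtain rfl : J = J' := h1
      refine Finset.sum_congr rfl fun s _ => ?_
      show (if J = {s} then η s x else 0) = if J = {s} then η s y else 0
      split_ifs with k
      · subst k
        obtain rfl := Finset.mem_singleton.1 ht
        have : (show B from y) = g t • (show B from x) := h2
        exact ((congrArg (η t) this).trans (h.1 t x)).symm
      · rfl)
  have hF : ∀ (x : B) (J : Finset S),
      F ((fullPS B).cell x J) = ∑ s, if J = {s} then η s x else 0 := fun _ _ => rfl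
  have hF1 : ∀ (x : B) (s : S), F ((fullPS B).cell x {s}) = η s x := by
    intro x s
    rw [hF]
    simp only [Finset.singleton_inj]
    rw [Finset.sum_ite_eq]
    simp
  let u : (fullPS B).Chain := Finsupp.equivFunOnFinite.symm F
  have hu : ∀ c, u c = F c := fun _ => rfl
  refine ⟨u, ⟨(Finsupp.mem_supported' F2 _).2 fun c hc => ?_, ?_⟩, ?_⟩
  · obtain ⟨x, J, rfl⟩ := cell_ind c
    rw [hu, hF]
    refine Finset.sum_eq_zero fun s _ => if_neg fun k => hc ?_
    subst k
    exact ⟨x, {s}, Finset.card_singleton s, fun a ha b hb n => absurd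
      ((Finset.mem_singleton.1 ha).trans (Finset.mem_singleton.1 hb).symm) n, full_full _ _, rfl⟩
  · refine LinearMap.mem_ker.2 (Finsupp.ext fun c => ?_)
    rw [EulerA.dl_apply]
    split_ifs with k
    · obtain ⟨x, J, h1, h2, h3, rfl⟩ := k
      obtain ⟨s, t, n, rfl⟩ := Finset.card_eq_two.1 h1
      have a : adj s t := h2 s (by simp) t (by simp) n
      rw [coef2 co hB (fullPS_state B) u a h3, hu, hu, hu, hu, full_sg, full_sg, hF1, hF1, hF1,
        hF1]
      exact h.2 s t x a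
    · rfl
  · funext s x
    exact hF1 x s

theorem finrank_EE [Finite B] (co : CoefS) (hB : Loc B) :
    Module.finrank F2 (EE B) ≤ (fullPS B).zz 1 := by
  have h : EE B ≤ (Z1 (fullPS B)).map (resB B) := fun η k => exists_chain co hB η k
  exact (Submodule.finrank_mono h).trans (Submodule.finrank_map_le _ _)

/-- Functions on darts that are symmetric under reversal. -/
def DA (Y : PS B) : Submodule F2 (Y.A → F2) where
  carrier := {α | ∀ a, α (Y.rev a) = α a}
  zero_mem' := fun _ => rfl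
  add_mem' := fun h k a => by simp only [Pi.add_apply, h a, k a]
  smul_mem' := fun c α h a => by simp only [Pi.smul_apply, h a]

theorem finrank_DA (Y : PS B) : Nat.card Y.A ≤ 2 * Module.finrank F2 (DA Y) := by
  classical
  have : Fintype Y.A := Fintype.ofFinite _
  let T : (Y.A → F2) →ₗ[F2] (Y.A → F2) := LinearMap.id + LinearMap.funLeft F2 F2 Y.rev
  have hT : ∀ α a, T α a = α a + α (Y.rev a) := fun _ _ => rfl
  have h := LinearMap.finrank_range_add_finrank_ker T
  have h1 : LinearMap.range T ≤ DA Y := by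
    rintro _ ⟨α, rfl⟩ a
    rw [hT, hT, Y.rev_rev, add_comm]
  have h2 : LinearMap.ker T ≤ DA Y := by
    intro α k a
    have := congrFun (LinearMap.mem_ker.1 k) a
    rw [hT] at this
    revert this
    generalize α a = p
    generalize α (Y.rev a) = q
    show p + q = 0 → q = p
    revert p q
    decide
  have h3 := Submodule.finrank_mono h1
  have h4 := Submodule.finrank_mono h2
  rw [Module.finrank_fintype_fun_eq_card, ← Nat.card_eq_fintype_card] at h
  omega

open Classical in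
/-- Pull back of a cocycle plus a coboundary. -/
noncomputable def theta (Y : PS B) :
    (EE B × (Y.Om → F2)) →ₗ[F2] ((S → Y.Om → F2) × (Y.A → F2)) where
  toFun p := (fun s x => if Y.Free x s then 0 else p.1.1 s (Y.f x) + p.2 x + p.2 (Y.sg s x),
    fun a => sm (Classical.choose (exists_wd (Y.lab a))) (Y.f (Y.src a)) p.1.1 + p.2 (Y.src a) +
      p.2 (Y.src (Y.rev a)))
  map_add' p q := by
    refine Prod.ext (funext fun s => funext fun x => ?_) (funext fun a => ?_)
    · simp only [Prod.fst_add, Prod.snd_add, Submodule.coe_add, Pi.add_apply]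
      split_ifs <;> ring
    · simp only [Prod.fst_add, Prod.snd_add, Submodule.coe_add, Pi.add_apply, map_add]
      ring
  map_smul' c p := by
    refine Prod.ext (funext fun s => funext fun x => ?_) (funext fun a => ?_)
    · simp only [Prod.smul_fst, Prod.smul_snd, Submodule.coe_smul, Pi.smul_apply, smul_eq_mul,
        RingHom.id_apply]
      split_ifs <;> ring
    · simp only [Prod.smul_fst, Prod.smul_snd, Submodule.coe_smul, Pi.smul_apply, smul_eq_mul,
        RingHom.id_apply, map_smul]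
      ring

/-- Coboundaries of the closed manifold with their pull backs. -/
def kappa {o : B} (ho : Trans o) (Y : PS B) : (B → F2) →ₗ[F2] (EE B × (Y.Om → F2)) where
  toFun ψ := (⟨fun s b => ψ b + ψ (g s • b),
    mem_EE ho (ψ := fun w => ψ (w • o)) fun s w => by simp only [mul_smul]⟩, fun x => ψ (Y.f x))
  map_add' p q := by
    refine Prod.ext (Subtype.ext (funext fun s => funext fun b => ?_)) rfl
    simp only [Prod.fst_add, Submodule.coe_add, Pi.add_apply]
    ring
  map_smul' c p := by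
    refine Prod.ext (Subtype.ext (funext fun s => funext fun b => ?_)) rfl
    simp only [Prod.smul_fst, Submodule.coe_smul, Pi.smul_apply, smul_eq_mul, RingHom.id_apply]
    ring

theorem kappa_inj {o : B} (ho : Trans o) (Y : PS B) {x0 : Y.Om} (h0 : Y.f x0 = o) :
    Function.Injective (kappa ho Y) := by
  refine (injective_iff_map_eq_zero _).2 fun ψ h => funext fun b => ?_
  obtain ⟨w, rfl⟩ := ho b
  induction w using induction_left with
  | h1 =>
    rw [one_smul, ← h0]
    exact congrFun (congrArg Prod.snd h) x0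
  | h2 w s ih =>
    have k : ψ (w • o) + ψ (g s • w • o) = 0 :=
      congrFun (congrFun (congrArg (fun p => p.1.1) h) s) (w • o)
    rw [ih, Pi.zero_apply, zero_add] at k
    rw [mul_smul]
    exact k

theorem theta_kappa {o : B} (ho : Trans o) (Y : PS B) (ψ : B → F2) :
    theta Y (kappa ho Y ψ) = 0 := by
  classical
  refine Prod.ext (funext fun s => funext fun x => ?_) (funext fun a => ?_)
  · show (if Y.Free x s then 0 else
      ψ (Y.f x) + ψ (g s • Y.f x) + ψ (Y.f x) + ψ (Y.f (Y.sg s x))) = (0 : F2)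
    split_ifs with k
    · rfl
    · rw [Y.e_f (e_sg k)]
      generalize ψ (Y.f x) = p
      generalize ψ (g s • Y.f x) = q
      revert p q
      decide
  · show sm (Classical.choose (exists_wd (Y.lab a))) (Y.f (Y.src a))
      (fun s b => ψ b + ψ (g s • b)) + ψ (Y.f (Y.src a)) + ψ (Y.f (Y.src (Y.rev a))) = (0 : F2)
    obtain ⟨w, hw⟩ := ho (Y.f (Y.src a))
    rw [Y.f_rev, ← hw, sm_eq (ψ := fun w => ψ (w • o)) (fun s w => by simp only [mul_smul]),
      Classical.choose_spec (exists_wd (Y.lab a)), mul_smul]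
    generalize ψ (w • o) = p
    generalize ψ (Y.lab a • w • o) = q
    revert p q
    decide

/-- Cocycles of the state as functions on sides and darts. -/
noncomputable def iota (Y : PS B) : (Z1 Y × DA Y) →ₗ[F2] ((S → Y.Om → F2) × (Y.A → F2)) :=
  LinearMap.prodMap (res Y ∘ₗ (Z1 Y).subtype) (DA Y).subtype

theorem iota_inj (Y : PS B) : Function.Injective (iota Y) := by
  refine (injective_iff_map_eq_zero _).2 fun p h => Prod.ext (Subtype.ext ?_) (Subtype.ext ?_)
  · refine Finsupp.ext fun c => ?_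
    by_cases k : c ∈ Y.FC 1
    · obtain ⟨x, J, h1, _, _, rfl⟩ := k
      obtain ⟨s, rfl⟩ := Finset.card_eq_one.1 h1
      exact congrFun (congrFun (congrArg Prod.fst h) s) x
    · exact (Finsupp.mem_supported' F2 _).1 p.1.2.1 c k
  · exact congrArg Prod.snd h

/-- The cochain given by a chain and a function on darts. -/
def coch (Y : PS B) (u : Y.Chain) (α : Y.A → F2) : Y.Coch Unit
  | .edge s x _, _ => u (Y.cell x {s})
  | .dart a, _ => α a

theorem coch_cocyc (co : CoefS) (hB : Loc B) {Y : PS B} (hY : Y.State) (p : Z1 Y × DA Y) :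
    Cocyc (coch Y p.1.1 p.2.1) where
  symm s x y _ h := by
    show p.1.1 (Y.cell y {s}) = p.1.1 (Y.cell x {s})
    rw [cell_e (Finset.mem_singleton_self s) h]
  dsym a _ := p.2.2 a
  sq s t x0 x1 x2 x3 _ h e0 e1 e2 e3 := by
    show p.1.1 (Y.cell x0 {s}) + p.1.1 (Y.cell x1 {t}) + p.1.1 (Y.cell x2 {s}) +
      p.1.1 (Y.cell x3 {t}) = 0
    have s0 := hY.sg_eq e0
    have s1 := hY.sg_eq e1
    have s2 := hY.sg_eq (Y.e_symm e2)
    have s3 := hY.sg_eq (Y.e_symm e3)
    have hf : Y.Full x0 {s, t} := by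
      intro y hy v hv k
      have hv' : v = s ∨ v = t := by simpa using hv
      have ho := hY.orb2 h hy.symm
      rw [s0, s1, s3, s2] at ho
      rcases hv' with rfl | rfl <;> rcases ho with rfl | rfl | rfl | rfl | rfl
      · exact k ⟨_, e0⟩
      · exact k ⟨_, Y.e_symm e0⟩
      · exact k ⟨_, Y.e_symm e2⟩
      · exact k ⟨_, e2⟩
      · exact k ⟨_, e2⟩
      · exact k ⟨_, Y.e_symm e3⟩
      · exact k ⟨_, e1⟩
      · exact k ⟨_, e3⟩
      · exact k ⟨_, Y.e_symm e1⟩
      · exact k ⟨_, Y.e_symm e1⟩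
    have hc : Clq {s, t} := clq_pair h
    have hm : Y.cell x0 {s, t} ∈ Y.FC 2 :=
      ⟨x0, {s, t}, Finset.card_pair (adj_ne h), hc, hf, rfl⟩
    have hz : Y.dl 2 p.1.1 (Y.cell x0 {s, t}) = 0 := by
      rw [LinearMap.mem_ker.1 p.1.2.2]
      rfl
    rw [EulerA.dl_apply, if_pos hm, coef2 co hB hY _ h hf, s0, s3,
      ← cell_e (Finset.mem_singleton_self t) e3, ← cell_e (Finset.mem_singleton_self s) e2] at hz
    linear_combination hz

theorem range_le (co : CoefS) (ca : CoreAS) {o : B} (ho : Trans o) (hB : Loc B) {Y : PS B}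
    {x0 : Y.Om} (hY : Y.State) (h0 : Y.H0 o x0) (h1 : ∀ c : Y.Coch W, Cocyc c → Cobd c) :
    LinearMap.range (iota Y) ≤ LinearMap.range (theta Y) := by
  classical
  rintro _ ⟨p, rfl⟩
  obtain ⟨η, ψ, φ, a1, a2, a3⟩ := ca B o ho Y x0 h0 h1 _ (coch_cocyc co hB hY p)
  refine ⟨(⟨η, mem_EE ho a1⟩, φ), Prod.ext (funext fun s => funext fun x => ?_)
    (funext fun a => ?_)⟩
  · show (if Y.Free x s then 0 else η s (Y.f x) + φ x + φ (Y.sg s x)) = p.1.1 (Y.cell x {s})
    split_ifs with k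
    · refine ((Finsupp.mem_supported' F2 _).1 p.1.2.1 _ ?_).symm
      rintro ⟨y, J, _, _, h3, e⟩
      obtain rfl := (cell_eq_iff.1 e).1
      exact h3 x e s (Finset.mem_singleton_self s) k
    · exact (a2 s x _ (e_sg k)).symm
  · show sm (Classical.choose (exists_wd (Y.lab a))) (Y.f (Y.src a)) η + φ (Y.src a) +
      φ (Y.src (Y.rev a)) = p.2.1 a
    obtain ⟨w, hw⟩ := ho (Y.f (Y.src a))
    have := a3 a w hw
    rw [← hw, sm_eq a1, Classical.choose_spec (exists_wd (Y.lab a))]
    exact this.symm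

end EndAA

theorem endA (co : CoefS) (ca : CoreAS) : EndAS := by
  intro B _ _ o ho hB Y x0 hY h0 h1
  classical
  have : Fintype B := Fintype.ofFinite _
  have : Fintype Y.Om := Fintype.ofFinite _
  have a := LinearMap.finrank_range_add_finrank_ker (EndAA.theta Y)
  have b := Submodule.finrank_mono (EndAA.range_le co ca ho hB hY h0 h1)
  rw [LinearMap.finrank_range_of_inj (EndAA.iota_inj Y), Module.finrank_prod] at b
  have c : LinearMap.range (EndAA.kappa ho Y) ≤ LinearMap.ker (EndAA.theta Y) := by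
    rintro _ ⟨ψ, rfl⟩
    exact EndAA.theta_kappa ho Y ψ
  have e := Submodule.finrank_mono c
  rw [LinearMap.finrank_range_of_inj (EndAA.kappa_inj ho Y h0.1),
    Module.finrank_fintype_fun_eq_card, ← Nat.card_eq_fintype_card] at e
  rw [Module.finrank_prod, Module.finrank_fintype_fun_eq_card, ← Nat.card_eq_fintype_card] at a
  have i := EndAA.finrank_EE co hB
  have j := EndAA.finrank_DA Y
  have k : Y.zz 1 = Module.finrank F2 (EndAA.Z1 Y) := rfl
  unfold vol
  omega

end Pool.Agent.MP_df844f_gt.RA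

end
end MrgPart7

-- ======== part 8: formerly Pool.Agent.MP_df844f_gt.RA.s5.Struct
section MrgPart8

/-! Additivity of the counts and the structure of tight states. -/

set_option linter.unusedSectionVars false

noncomputable section

namespace Pool.Agent.MP_df844f_gt.RA

variable [Dat]

open PS

namespace StructA

variable {B : Type} [MulAction W B] {Y : PS B}

/-- Free sides in `U`. -/
abbrev FS (Y : PS B) (U : Set Y.Om) : Type := {p : Y.Om × S // p.1 ∈ U ∧ Y.Free p.1 p.2}

/-- Boundary components in `U`. -/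
abbrev BQ (Y : PS B) (U : Set Y.Om) : Type := Quot fun p q : FS Y U => Y.BAdj p.1 q.1

instance (U : Set Y.Om) : Finite (BQ Y U) := Quot.finite _

/-- The thick component of a chamber. -/
abbrev cp (Y : PS B) (x : Y.Om) : Y.Cell := Y.cell x Finset.univ

theorem badj_symm {p q : Y.Om × S} (h : Y.BAdj p q) : Y.BAdj q p := by
  obtain ⟨a, b, t, t', c, d, e⟩ := h
  exact ⟨b, a, t', t, d, c, e.symm⟩

theorem badj_cp {p q : Y.Om × S} (h : Y.BAdj p q) : cp Y p.1 = cp Y q.1 := by
  obtain ⟨_, _, t, t', _, _, c⟩ := h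
  have e := (cell_eq_iff.1 c).1
  rw [← e] at c
  exact cell_mono c (Finset.subset_univ _)

theorem shut_near {U : Set Y.Om} (hU : Y.Shut U) {n : ℕ} {x y : Y.Om} (h : Y.Near n x y)
    (hx : x ∈ U) : y ∈ U := by
  induction h with
  | refl => exact hx
  | step e _ ih => exact ih (hU _ _ _ e hx)

theorem shut_cp {U : Set Y.Om} (hU : Y.Shut U) {x y : Y.Om} (h : cp Y x = cp Y y)
    (hx : x ∈ U) : y ∈ U := by
  obtain ⟨n, k⟩ := cell_near h
  exact shut_near hU k hx

theorem shut_compl {U : Set Y.Om} (hU : Y.Shut U) : Y.Shut Uᶜ :=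
  fun s _ _ e hx hy => hx (hU s _ _ (Y.e_symm e) hy)

/-- The thick component of a boundary component. -/
def toCp (U : Set Y.Om) : BQ Y U → Y.Cell :=
  Quot.lift (fun p => cp Y p.1.1) (fun _ _ h => badj_cp h)

theorem reach {U : Set Y.Om} (hU : Y.Shut U) (p : FS Y U) {q : Y.Om × S}
    (h : Relation.ReflTransGen Y.BAdj p.1 q) :
    ∃ hq : q.1 ∈ U ∧ Y.Free q.1 q.2, (Quot.mk _ ⟨q, hq⟩ : BQ Y U) = Quot.mk _ p := by
  induction h with
  | refl => exact ⟨p.2, rfl⟩
  | tail _ k ih =>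
    obtain ⟨h1, h2⟩ := ih
    refine ⟨⟨shut_cp hU (badj_cp k) h1.1, k.2.1⟩, Eq.trans ?_ h2⟩
    exact Quot.sound (badj_symm k)

open Classical in
/-- The boundary component of a side. -/
noncomputable def bc (p : Y.Om × S) : Finset (Y.Om × S) :=
  (Set.toFinite {q | Relation.ReflTransGen Y.BAdj p q}).toFinset

theorem mem_bc {p q : Y.Om × S} : q ∈ bc p ↔ Relation.ReflTransGen Y.BAdj p q := by
  simp [bc]

theorem bc_path {p q : Y.Om × S} (h : q ∈ bc p) :
    Relation.ReflTransGen (fun a b => a ∈ bc p ∧ b ∈ bc p ∧ Y.BAdj a b) p q := by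
  have k := mem_bc.1 h
  clear h
  induction k with
  | refl => exact .refl
  | tail a b ih => exact ih.tail ⟨mem_bc.2 a, mem_bc.2 (a.tail b), b⟩

theorem bc_conn {p : Y.Om × S} (hp : Y.Free p.1 p.2) : Y.BConn (bc p) := by
  refine ⟨fun q hq => ?_, fun a ha b hb => ?_⟩
  · rcases (mem_bc.1 hq).cases_tail with rfl | ⟨_, _, k⟩
    · exact hp
    · exact k.2.1
  · refine Relation.ReflTransGen.trans ?_ (bc_path hb)
    have k := bc_path ha
    clear ha
    induction k with
    | refl => exact .refl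
    | tail _ e ih => exact Relation.ReflTransGen.head ⟨e.2.1, e.1, badj_symm e.2.2⟩ ih

theorem ends_le (x0 : Y.Om) (U : Set Y.Om) : Y.ends x0 U ≤ Y.deg U + 1 := by
  have h : {a | Y.esrc x0 a ∈ U} ⊆ insert none (some '' {a | Y.src a ∈ U}) := by
    rintro (_ | a) ha
    · exact Or.inl rfl
    · exact Or.inr ⟨a, ha, rfl⟩
  refine (Set.ncard_le_ncard h).trans ((Set.ncard_insert_le _ _).trans ?_)
  exact Nat.add_le_add_right (Set.ncard_image_le (Set.toFinite _)) 1

theorem nB_le {U : Set Y.Om} : Y.nB Set.univ ≤ Y.nB U + Y.nB Uᶜ := by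
  have up : ∀ V : Set Y.Om, ∃ φ : BQ Y V → BQ Y Set.univ,
      ∀ p : FS Y V, φ (Quot.mk _ p) = Quot.mk _ ⟨p.1, trivial, p.2.2⟩ := fun V =>
    ⟨Quot.map (fun p => ⟨p.1, trivial, p.2.2⟩) (fun _ _ h => h), fun _ => rfl⟩
  obtain ⟨φ, hφ⟩ := up U
  obtain ⟨ψ, hψ⟩ := up Uᶜ
  have hs : Function.Surjective (Sum.elim φ ψ) := by
    intro c
    induction c using Quot.ind with
    | mk p =>
      by_cases h : p.1.1 ∈ U
      · exact ⟨.inl (Quot.mk _ ⟨p.1, h, p.2.2⟩), hφ _⟩
      · exact ⟨.inr (Quot.mk _ ⟨p.1, h, p.2.2⟩), hψ _⟩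
  have := Nat.card_le_card_of_surjective _ hs
  rwa [Nat.card_sum] at this

/-- If all boundary components in `U` are large, there are few of them. -/
theorem large {U : Set Y.Om} (hU : Y.Shut U) (n : ℕ)
    (h : ∀ p : Y.Om × S, p.1 ∈ U → Y.Free p.1 p.2 → n ≤ (bc p).card) :
    n * Y.nB U ≤ Y.nF U := by
  classical
  have := Fintype.ofFinite (FS Y U)
  have := Fintype.ofFinite (BQ Y U)
  have k := Finset.mul_card_image_le_card (f := fun p : FS Y U => (Quot.mk _ p : BQ Y U))
    Finset.univ n (by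
      intro b _
      induction b using Quot.ind with
      | mk p =>
        refine (h p.1 p.2.1 p.2.2).trans ?_
        refine le_trans (Finset.card_le_card (t := (Finset.univ.filter fun a : FS Y U =>
          (Quot.mk _ a : BQ Y U) = Quot.mk _ p).image Subtype.val) ?_) Finset.card_image_le
        intro q hq
        obtain ⟨h1, h2⟩ := reach hU p (mem_bc.1 hq)
        exact Finset.mem_image.2 ⟨⟨q, h1⟩, Finset.mem_filter.2 ⟨Finset.mem_univ _, h2⟩, rfl⟩)
  rw [Finset.image_univ_of_surjective Quot.mk_surjective, Finset.card_univ, Finset.card_univ,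
    ← Nat.card_eq_fintype_card, ← Nat.card_eq_fintype_card] at k
  exact k

/-- Counting darts along the thick components. -/
theorem deg_sum (U : Set Y.Om) (K : Finset Y.Cell) (hK : ∀ x, x ∈ U ↔ cp Y x ∈ K) :
    Y.deg U = ∑ c ∈ K, Y.deg {x | cp Y x = c} := by
  classical
  have := Fintype.ofFinite Y.A
  have e : ∀ V : Set Y.Om, Y.deg V = (Finset.univ.filter fun a => Y.src a ∈ V).card := by
    intro V
    unfold deg
    rw [← Set.ncard_coe_finset]
    congr 1
    ext a; simp
  rw [e, Finset.card_eq_sum_card_fiberwise (f := fun a => cp Y (Y.src a)) (t := K)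
    (fun a ha => (hK _).1 (Finset.mem_filter.1 ha).2)]
  refine Finset.sum_congr rfl fun c hc => ?_
  rw [e]
  congr 1
  ext a
  simp only [Finset.mem_filter, Finset.mem_univ, true_and, Set.mem_ofPred_eq, hK]
  exact ⟨fun k => k.2, fun k => ⟨k ▸ hc, k⟩⟩

end StructA

open StructA

theorem addS : AddS := by
  intro B _ Y x0 U _
  have hd : Y.deg U + Y.deg Uᶜ = Nat.card Y.A := Set.ncard_add_ncard_compl {a | Y.src a ∈ U}
  refine ⟨by simp [nF, area], ?_, ?_, nB_le, hd, ends_le _ _, ?_, ?_⟩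
  · unfold nF area
    rw [← Set.ncard_union_eq (Set.disjoint_left.2 fun p a b => b.1 a.1)]
    congr 1
    ext p
    simp only [Set.mem_union, Set.mem_ofPred_eq, Set.mem_compl_iff]
    tauto
  · refine le_trans (Set.ncard_le_ncard ?_) (Set.ncard_union_le _ _)
    rintro c ⟨x, _, k⟩
    by_cases h : x ∈ U
    · exact Or.inl ⟨x, h, k⟩
    · exact Or.inr ⟨x, h, k⟩
  · refine (ends_le _ _).trans (le_of_eq ?_)
    simp [deg]
  · unfold nD
    rw [← Set.ncard_union_eq (Set.disjoint_left.2 fun p a b => b.1 a.1)]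
    congr 1
    ext p
    simp only [Set.mem_union, Set.mem_ofPred_eq, Set.mem_compl_iff, Set.mem_univ]
    tauto

theorem struct (be : BeadS) (bd : BeadDegS) (fr : FreeExS) : StructS := by
  classical
  intro S0
  obtain ⟨ρ, hρ⟩ := be S0
  refine ⟨ρ, fun B _ _ o ht hth Y x0 r μ hY hI hv hT => ?_⟩
  set U : Set Y.Om :=
    {x | ∃ p : Y.Om × S, Y.Free p.1 p.2 ∧ (bc p).card ≤ S0 ∧ cp Y p.1 = cp Y x} with hUd
  have hU : Y.Shut U := by
    rintro s x y e ⟨p, a, b, c⟩
    exact ⟨p, a, b, c.trans (cell_e (Finset.mem_univ _) e)⟩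
  have bead : ∀ p : Y.Om × S, Y.Free p.1 p.2 → (bc p).card ≤ S0 →
      (∃ pos, Y.Bead o {x | cp Y x = cp Y p.1} pos) ∧
        ∀ q : Y.Om × S, cp Y q.1 = cp Y p.1 → Y.Free q.1 q.2 → q ∈ bc p := by
    intro p hp hc
    obtain ⟨Z, pos, h1, h2⟩ := hρ B o ht hth Y x0 r hY hT (bc p) (bc_conn hp)
      ⟨p, mem_bc.2 .refl⟩ hc (fun a ha b k => mem_bc.2 ((mem_bc.1 ha).tail k))
    have hp1 : p.1 ∈ Z := ((h2 p).1 (mem_bc.2 .refl)).1
    have hZ : Z = {x | cp Y x = cp Y p.1} := by
      ext x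
      refine ⟨fun hx => ?_, fun hx => shut_cp h1.shut (Eq.symm hx) hp1⟩
      obtain ⟨n, k⟩ := h1.conn x hx _ hp1
      exact k.cell_univ
    subst hZ
    exact ⟨⟨pos, h1⟩, fun q a b => (h2 q).2 ⟨a, b⟩⟩
  set K : Finset Y.Cell := (Set.toFinite (cp Y '' U)).toFinset with hKd
  have hK : ∀ x, x ∈ U ↔ cp Y x ∈ K := by
    intro x
    rw [hKd, Set.Finite.mem_toFinset]
    exact ⟨fun h => ⟨x, h, rfl⟩, fun ⟨y, a, b⟩ => shut_cp hU b a⟩
  have hK' : ∀ c ∈ K, ∃ p : Y.Om × S, Y.Free p.1 p.2 ∧ (bc p).card ≤ S0 ∧ cp Y p.1 = c := by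
    intro c hc
    rw [hKd, Set.Finite.mem_toFinset] at hc
    obtain ⟨x, ⟨p, a, b, e⟩, rfl⟩ := hc
    exact ⟨p, a, b, e⟩
  have hT0 : Y.Tight o x0 r 0 := fun Y' x' a b c => hT Y' x' a b (by omega)
  have hdeg : 3 * K.card ≤ Y.deg U + if cp Y x0 ∈ K then 2 else 0 := by
    rw [deg_sum U K hK, ← Finset.sum_ite_eq K (cp Y x0) (fun _ => 2), ← Finset.sum_add_distrib,
      mul_comm, ← smul_eq_mul]
    refine Finset.card_nsmul_le_sum _ _ _ fun c hc => ?_
    obtain ⟨p, a, b, rfl⟩ := hK' c hc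
    obtain ⟨⟨pos, h1⟩, -⟩ := bead p a b
    have h2 := bd B o ht Y x0 r μ _ pos hY hI hT0 h1
      ((Set.ncard_pos (Set.toFinite _)).2 ⟨p, rfl, a⟩)
    split_ifs with k
    · have := h2.2 k
      omega
    · exact h2.1 k
  refine ⟨U, K.card, hU, ?_, ?_, ?_, ?_, ?_⟩
  · have hi : Function.Injective (toCp (Y := Y) U) := by
      intro a b
      induction a using Quot.ind with
      | mk a =>
      induction b using Quot.ind with
      | mk b =>
      intro (e : cp Y a.1.1 = cp Y b.1.1)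
      obtain ⟨p, h1, h2, h3⟩ := a.2.1
      have hp : p.1 ∈ U := ⟨p, h1, h2, rfl⟩
      obtain ⟨_, k1⟩ := reach hU ⟨p, hp, h1⟩ (mem_bc.1 ((bead p h1 h2).2 a.1 h3.symm a.2.2))
      obtain ⟨_, k2⟩ := reach hU ⟨p, hp, h1⟩
        (mem_bc.1 ((bead p h1 h2).2 b.1 (h3.trans e).symm b.2.2))
      exact k1.trans k2.symm
    have hr : Set.range (toCp (Y := Y) U) ⊆ (K : Set Y.Cell) := by
      rintro _ ⟨a, rfl⟩
      induction a using Quot.ind with
      | mk a => exact (hK _).1 a.2.1
    have := Set.ncard_le_ncard hr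
    rwa [Set.ncard_range_of_injective hi, Set.ncard_coe_finset] at this
  · split_ifs at hdeg <;> omega
  · split_ifs at hdeg with k
    · have := Finset.card_pos.2 ⟨_, k⟩
      omega
    · omega
  · refine large (shut_compl hU) S0 fun p a b => ?_
    by_contra k
    exact a ⟨p, b, by omega, rfl⟩
  · have hs : {c | ∃ x, c = Y.cell x Finset.univ} ⊆
        (K : Set Y.Cell) ∪ Set.range (toCp (Y := Y) Uᶜ) := by
      rintro _ ⟨x, rfl⟩
      by_cases h : x ∈ U
      · exact Or.inl ((hK x).1 h)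
      · obtain ⟨y, s, n, a, b⟩ := fr B o ht Y hv x
        exact Or.inr ⟨Quot.mk _ ⟨(y, s), shut_near (shut_compl hU) a h, b⟩, a.cell_univ.symm⟩
    refine (Set.ncard_le_ncard hs).trans ((Set.ncard_union_le _ _).trans ?_)
    rw [Set.ncard_coe_finset, ← Set.image_univ]
    refine Nat.add_le_add_left ((Set.ncard_image_le (Set.toFinite _)).trans ?_) _
    rw [Set.ncard_univ]
    exact le_rfl

end Pool.Agent.MP_df844f_gt.RA

end
end MrgPart8

-- ======== part 9: formerly Pool.Agent.MP_df844f_gt.RA.s5.TIneq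
section MrgPart9

set_option linter.unusedSectionVars false

noncomputable section

namespace Pool.Agent.MP_df844f_gt.RA

variable [Dat]

open PS

namespace TIneqA

variable {B : Type} [MulAction W B] {Y : PS B}

theorem endsN_mono (x0 : Y.Om) (R : ℕ) {D D' : Finset (Y.Om × S)} (h : D ⊆ D') :
    Y.endsN x0 R D ≤ Y.endsN x0 R D' :=
  Set.ncard_le_ncard fun _ ⟨p, hp, k⟩ => ⟨p, h hp, k⟩

theorem sides_near (hY : Y.State) (x : Y.Om) (R : ℕ) :
    {p : Y.Om × S | Y.Near R p.1 x}.ncard ≤ nS * (nS + 1) ^ R := by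
  have : {p : Y.Om × S | Y.Near R p.1 x} = {y | Y.Near R x y} ×ˢ Set.univ := by
    ext p; simp only [Set.mem_ofPred_eq, Set.mem_prod, Set.mem_univ, and_true]
    exact ⟨Near.symm, Near.symm⟩
  rw [this, Set.ncard_prod, Set.ncard_univ, mul_comm]
  exact Nat.mul_le_mul natCard_S.le (hY.ball x R)

theorem sum_ends (hY : Y.State) (x0 : Y.Om) (R : ℕ) {U : Set Y.Om} (hU : Y.Shut U) {F : Type}
    (e : F ↪ Y.Om × S) (he : ∀ a, (e a).1 ∈ U) (𝒟 : Finset (Finset F))
    (h : ∀ D ∈ 𝒟, ∀ D' ∈ 𝒟, D ≠ D' → Disjoint D D') :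
    ∑ D ∈ 𝒟, Y.endsN x0 R (D.map e) ≤ nS * (nS + 1) ^ R * Y.ends x0 U := by
  classical
  have := Fintype.ofFinite Y.A
  let T : Finset (Option Y.A) := Finset.univ.filter fun a => Y.esrc x0 a ∈ U
  let r : Finset F → Option Y.A → Prop := fun D a => ∃ p ∈ D.map e, Y.Near R p.1 (Y.esrc x0 a)
  have h1 : ∀ D, Y.endsN x0 R (D.map e) = (T.filter (r D)).card := by
    intro D
    unfold endsN ends
    rw [← Set.ncard_coe_finset]
    congr 1
    ext a
    simp only [T, r, Set.mem_ofPred_eq, Finset.coe_filter, Finset.mem_filter, Finset.mem_univ,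
      true_and]
    constructor
    · rintro ⟨p, hp, k⟩
      obtain ⟨q, _, rfl⟩ := Finset.mem_map.1 hp
      exact ⟨k.shut hU (he q), _, hp, k⟩
    · exact fun k => k.2
  have h2 : Y.ends x0 U = T.card := by
    unfold ends
    rw [← Set.ncard_coe_finset]
    congr 1
    ext a; simp [T]
  have h3 : ∀ a ∈ T, (𝒟.filter fun D => r D a).card ≤ nS * (nS + 1) ^ R := by
    intro a _
    refine le_trans ?_ (sides_near hY (Y.esrc x0 a) R)
    rw [← Set.ncard_coe_finset]
    have ch : ∀ D : Finset F, r D a → ∃ q ∈ D, Y.Near R (e q).1 (Y.esrc x0 a) := by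
      rintro D ⟨p, hp, k⟩
      obtain ⟨q, hq, rfl⟩ := Finset.mem_map.1 hp
      exact ⟨q, hq, k⟩
    choose q hq1 hq2 using ch
    refine Set.ncard_le_ncard_of_injOn
      (fun D => if k : r D a then e (q D k) else (x0, 0)) ?_ ?_
    · intro D hD
      have k := (Finset.mem_filter.1 hD).2
      simp only [dif_pos k]
      exact hq2 D k
    · intro D hD D' hD' k
      obtain ⟨a1, a2⟩ := Finset.mem_filter.1 hD
      obtain ⟨b1, b2⟩ := Finset.mem_filter.1 hD'
      simp only [dif_pos a2, dif_pos b2] at k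
      by_contra ne
      have := e.injective k
      exact Finset.disjoint_left.1 (h D a1 D' b1 ne) (hq1 D a2) (this ▸ hq1 D' b2)
  simp only [h1, h2]
  rw [Finset.sum_card_bipartiteAbove_eq_sum_card_bipartiteBelow (s := 𝒟) (t := T) r |>.trans
    (rfl : _ = ∑ a ∈ T, (𝒟.filter fun D => r D a).card) |> Eq.symm |> Eq.symm |>
    fun k => (show ∑ D ∈ 𝒟, (T.filter (r D)).card = _ from k)]
  calc ∑ a ∈ T, (𝒟.filter fun D => r D a).card ≤ ∑ _a ∈ T, nS * (nS + 1) ^ R := Finset.sum_le_sum h3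
    _ = _ := by rw [Finset.sum_const, smul_eq_mul, mul_comm]

end TIneqA

theorem tineq (ga : GainS) (ab : AbsS) (ins : InstS) : TIneqS := by
  obtain ⟨Cs, ga⟩ := ga
  obtain ⟨m0, C1, C2, ab⟩ := ab Cs
  refine ⟨C1, fun H => ?_⟩
  obtain ⟨R, C, ρ, ga⟩ := ga H m0
  refine ⟨C2 * (nS * (nS + 1) ^ R), C, ρ + 3, ?_⟩
  intro B _ _ o ht hth he Y x0 r μ hs hI hv tg U hU
  obtain ⟨X, e, ok, e1, e2, e3, e4, e5, e6, e7⟩ :=
    ins B (loc_of ht (hth.mono (by omega))) Y U hs hU
  have key := ab X ok (fun D => Y.endsN x0 R (D.map e)) (nS * (nS + 1) ^ R * Y.ends x0 U)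
    (fun D D' h => TIneqA.endsN_mono x0 R (Finset.map_subset_map.2 h))
    (TIneqA.sum_ends hs x0 R hU e fun a => (e1 a).1)
    (fun D hD hm => by
      have := ga B o ht (hth.mono (by omega)) he Y x0 r μ hs hI hv tg (D.map e) ?_
        (by rwa [Finset.card_map])
      · rwa [Finset.card_map, ← e7] at this
      · refine ⟨fun p hp => ?_, fun p hp q hq => ?_⟩
        · obtain ⟨a, _, rfl⟩ := Finset.mem_map.1 hp
          exact (e1 a).2
        · obtain ⟨a, ha, rfl⟩ := Finset.mem_map.1 hp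
          obtain ⟨b, hb, rfl⟩ := Finset.mem_map.1 hq
          have k := hD a ha b hb
          clear hb hq
          induction k with
          | refl => exact Relation.ReflTransGen.refl
          | tail _ k ih =>
            exact ih.tail ⟨Finset.mem_map_of_mem _ k.1, Finset.mem_map_of_mem _ k.2.1,
              e6 _ _ k.2.2⟩)
  rw [e2, e3, e5] at key
  have : 2 * (C1 * Nat.card X.Ed) = C1 * Y.nD U := by
    rw [← mul_assoc, mul_comm 2, mul_assoc, e4]
  generalize nS * (nS + 1) ^ R = c at key ⊢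
  nlinarith

theorem chiLe (ac : AbsChiS) (ins : InstS) : ChiLeS := by
  intro B _ hB Y U hs hU
  obtain ⟨X, e, ok, e1, e2, e3, e4, e5, e6, e7⟩ := ins B hB Y U hs hU
  have := ac X ok
  omega

end Pool.Agent.MP_df844f_gt.RA

end
end MrgPart9

-- ======== part 10: formerly Pool.Agent.MP_df844f_gt.RA.c.Main
section MrgPart10

/-! Tight states and the main induction. -/

set_option linter.unusedSectionVars false

noncomputable section

namespace Pool.Agent.MP_df844f_gt.RA.CW

variable [Dat]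

open PS

theorem freeEx : FreeExS := by
  intro B _ _ o ho Y hv x
  by_contra hne
  have hfree : ∀ y n s, Y.Near n x y → ∃ z, Y.e s y z := fun y n s h => by
    by_contra k
    exact hne ⟨y, s, n, h, k⟩
  have key : ∀ w : W, ∃ y n, Y.Near n x y ∧ Y.f y = w • Y.f x := by
    intro w
    induction w using induction_left with
    | h1 => exact ⟨x, 0, Near.refl _ _, (one_smul _ _).symm⟩
    | h2 w s ih =>
      obtain ⟨y, n, h, e⟩ := ih
      obtain ⟨z, hz⟩ := hfree y n s h
      exact ⟨z, n + 1, h.trans (Near.single hz), by rw [Y.e_f hz, e, mul_smul]⟩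
  have hs : Function.Surjective Y.f := by
    intro b
    obtain ⟨v, hv⟩ := ho (Y.f x)
    obtain ⟨w, rfl⟩ := ho b
    obtain ⟨y, -, -, e⟩ := key (w * v⁻¹)
    exact ⟨y, by rw [e, ← hv, smul_smul, inv_mul_cancel_right]⟩
  unfold sp at hv
  rw [hs.range_eq, Set.ncard_univ] at hv
  omega

open StructA in
theorem struct (be : BeadS) (bd : BeadDegS) (fr : FreeExS) : StructS := by
  classical
  intro S0
  obtain ⟨ρ, hρ⟩ := be S0
  refine ⟨ρ, fun B _ _ o ht hth Y x0 r μ hY hI hv hT => ?_⟩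
  set U : Set Y.Om :=
    {x | ∃ p : Y.Om × S, Y.Free p.1 p.2 ∧ (bc p).card ≤ S0 ∧ cp Y p.1 = cp Y x} with hUd
  have hU : Y.Shut U := by
    rintro s x y e ⟨p, a, b, c⟩
    exact ⟨p, a, b, c.trans (cell_e (Finset.mem_univ _) e)⟩
  have bead : ∀ p : Y.Om × S, Y.Free p.1 p.2 → (bc p).card ≤ S0 →
      (∃ pos, Y.Bead o {x | cp Y x = cp Y p.1} pos) ∧
        ∀ q : Y.Om × S, cp Y q.1 = cp Y p.1 → Y.Free q.1 q.2 → q ∈ bc p := by
    intro p hp hc
    obtain ⟨Z, pos, h1, h2⟩ := hρ B o ht hth Y x0 r hY hT (bc p) (bc_conn hp)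
      ⟨p, mem_bc.2 .refl⟩ hc (fun a ha b k => mem_bc.2 ((mem_bc.1 ha).tail k))
    have hp1 : p.1 ∈ Z := ((h2 p).1 (mem_bc.2 .refl)).1
    have hZ : Z = {x | cp Y x = cp Y p.1} := by
      ext x
      refine ⟨fun hx => ?_, fun hx => shut_cp h1.shut (Eq.symm hx) hp1⟩
      obtain ⟨n, k⟩ := h1.conn x hx _ hp1
      exact k.cell_univ
    subst hZ
    exact ⟨⟨pos, h1⟩, fun q a b => (h2 q).2 ⟨a, b⟩⟩
  set K : Finset Y.Cell := (Set.toFinite (cp Y '' U)).toFinset with hKd
  have hK : ∀ x, x ∈ U ↔ cp Y x ∈ K := by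
    intro x
    rw [hKd, Set.Finite.mem_toFinset]
    exact ⟨fun h => ⟨x, h, rfl⟩, fun ⟨y, a, b⟩ => shut_cp hU b a⟩
  have hK' : ∀ c ∈ K, ∃ p : Y.Om × S, Y.Free p.1 p.2 ∧ (bc p).card ≤ S0 ∧ cp Y p.1 = c := by
    intro c hc
    rw [hKd, Set.Finite.mem_toFinset] at hc
    obtain ⟨x, ⟨p, a, b, e⟩, rfl⟩ := hc
    exact ⟨p, a, b, e⟩
  have hT0 : Tight Y o x0 r 0 := hT.mono (by omega)
  have hdeg : 3 * K.card ≤ Y.deg U + if cp Y x0 ∈ K then 2 else 0 := by
    rw [deg_sum U K hK, ← Finset.sum_ite_eq K (cp Y x0) (fun _ => 2), ← Finset.sum_add_distrib,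
      mul_comm, ← smul_eq_mul]
    refine Finset.card_nsmul_le_sum _ _ _ fun c hc => ?_
    obtain ⟨p, a, b, rfl⟩ := hK' c hc
    obtain ⟨⟨pos, h1⟩, -⟩ := bead p a b
    have h2 := bd B o ht Y x0 r μ _ pos hY hI hT0 h1
      ((Set.ncard_pos (Set.toFinite _)).2 ⟨p, rfl, a⟩)
    split_ifs with k
    · have := h2.2 k
      omega
    · exact h2.1 k
  refine ⟨U, K.card, hU, ?_, ?_, ?_, ?_, ?_⟩
  · have hi : Function.Injective (toCp (Y := Y) U) := by
      intro a b
      induction a using Quot.ind with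
      | mk a =>
      induction b using Quot.ind with
      | mk b =>
      intro (e : cp Y a.1.1 = cp Y b.1.1)
      obtain ⟨p, h1, h2, h3⟩ := a.2.1
      have hp : p.1 ∈ U := ⟨p, h1, h2, rfl⟩
      obtain ⟨_, k1⟩ := reach hU ⟨p, hp, h1⟩ (mem_bc.1 ((bead p h1 h2).2 a.1 h3.symm a.2.2))
      obtain ⟨_, k2⟩ := reach hU ⟨p, hp, h1⟩
        (mem_bc.1 ((bead p h1 h2).2 b.1 (h3.trans e).symm b.2.2))
      exact k1.trans k2.symm
    have hr : Set.range (toCp (Y := Y) U) ⊆ (K : Set Y.Cell) := by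
      rintro _ ⟨a, rfl⟩
      induction a using Quot.ind with
      | mk a => exact (hK _).1 a.2.1
    have := Set.ncard_le_ncard hr
    rwa [Set.ncard_range_of_injective hi, Set.ncard_coe_finset] at this
  · split_ifs at hdeg <;> omega
  · split_ifs at hdeg with k
    · have := Finset.card_pos.2 ⟨_, k⟩
      omega
    · omega
  · refine large (shut_compl hU) S0 fun p a b => ?_
    by_contra k
    exact a ⟨p, b, by omega, rfl⟩
  · have hs : {c | ∃ x, c = Y.cell x Finset.univ} ⊆
        (K : Set Y.Cell) ∪ Set.range (toCp (Y := Y) Uᶜ) := by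
      rintro _ ⟨x, rfl⟩
      by_cases h : x ∈ U
      · exact Or.inl ((hK x).1 h)
      · obtain ⟨y, s, n, a, b⟩ := fr B o ht Y hv x
        exact Or.inr ⟨Quot.mk _ ⟨(y, s), shut_near (shut_compl hU) a h, b⟩, a.cell_univ.symm⟩
    refine (Set.ncard_le_ncard hs).trans ((Set.ncard_union_le _ _).trans ?_)
    rw [Set.ncard_coe_finset, ← Set.image_univ]
    refine Nat.add_le_add_left ((Set.ncard_image_le (Set.toFinite _)).trans ?_) _
    rw [Set.ncard_univ]
    exact le_rfl

theorem tineq (ga : GainS) (ab : AbsS) (ins : InstS) : TIneqS := by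
  obtain ⟨Cs, ga⟩ := ga
  obtain ⟨m0, C1, C2, ab⟩ := ab Cs
  obtain ⟨R, C, ρ, ga⟩ := ga m0
  refine ⟨C1, C2 * (nS * (nS + 1) ^ R), C, ρ + 3, ?_⟩
  intro B _ _ o ht hth Y x0 r μ hs hI hv tg U hU
  obtain ⟨X, e, ok, e1, e2, e3, e4, e5, e6, e7⟩ :=
    ins B (loc_of ht (hth.mono (by omega))) Y U hs hU
  have key := ab X ok (fun D => Y.endsN x0 R (D.map e)) (nS * (nS + 1) ^ R * Y.ends x0 U)
    (fun D D' h => TIneqA.endsN_mono x0 R (Finset.map_subset_map.2 h))
    (TIneqA.sum_ends hs x0 R hU e fun a => (e1 a).1)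
    (fun D hD hm => by
      have := ga B o ht (hth.mono (by omega)) Y x0 r μ hs hI hv tg (D.map e) ?_
        (by rwa [Finset.card_map])
      · rwa [Finset.card_map, ← e7] at this
      · refine ⟨fun p hp => ?_, fun p hp q hq => ?_⟩
        · obtain ⟨a, _, rfl⟩ := Finset.mem_map.1 hp
          exact (e1 a).2
        · obtain ⟨a, ha, rfl⟩ := Finset.mem_map.1 hp
          obtain ⟨b, hb, rfl⟩ := Finset.mem_map.1 hq
          have k := hD a ha b hb
          clear hb hq
          induction k with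
          | refl => exact Relation.ReflTransGen.refl
          | tail _ k ih =>
            exact ih.tail ⟨Finset.mem_map_of_mem _ k.1, Finset.mem_map_of_mem _ k.2.1,
              e6 _ _ k.2.2⟩)
  rw [e2, e3, e5] at key
  have : 2 * (C1 * Nat.card X.Ed) = C1 * Y.nD U := by
    rw [← mul_assoc, mul_comm 2, mul_assoc, e4]
  generalize nS * (nS + 1) ^ R = c at key ⊢
  nlinarith

theorem areaS (ti : TIneqS) (cp : ChiPS) (eu : EulerS) (su : SurjS) (fr : FreeExS) (zl : ZLowS)
    (ar : ArcS) (ad : AddS) (st : StructS) : AreaS := by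
  obtain ⟨C1, C2, C, ρ1, ti⟩ := ti
  obtain ⟨ρ2, st⟩ := st (6 * C1 + 12 * C2)
  refine ⟨8 * C1 + 14 * C2, C + 1, ρ1 + ρ2 + 3, ?_⟩
  intro B _ _ o hT hρ Y x0 r μ hS hI hv hY
  have hL : Loc B := loc_of hT (hρ.mono (by omega))
  have hv' : sp Y < Nat.card B := by omega
  obtain ⟨U, kb, hU, s1, s2, -, s4, s5⟩ :=
    st B o hT (hρ.mono (by omega)) Y x0 r μ hS hI hv' (hY.mono (by omega))
  obtain ⟨a1, a2, -, a4, a5, -, a7, -⟩ := ad B Y x0 U hU
  have t := ti B o hT (hρ.mono (by omega)) Y x0 r μ hS hI (by omega) (hY.mono (by omega))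
    Set.univ fun _ _ _ _ _ => trivial
  have c := cp B hL Y hS
  obtain ⟨e1, e2, e3⟩ := eu B Y
  have s := su B Y hS (fr B o hT Y hv')
  have z := zl B o hL Y x0 r μ hS hI
  have k := ar B o Y x0 r μ hI
  rw [a1] at t
  have h1 := Nat.mul_le_mul_left C1
    (show Y.nD Set.univ ≤ 2 * (Y.nV Set.univ + Y.area) + 4 * r by omega)
  have h2 := Nat.mul_le_mul_left C1 (show Y.nB Set.univ ≤ 2 * r + 3 * Y.nB Uᶜ + 3 by omega)
  have h3 := Nat.mul_le_mul_left C2
    (show Y.ends x0 Set.univ ≤ 6 * r + 6 * Y.nB Uᶜ + 7 by omega)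
  have h4 : Y.nF Uᶜ ≤ Y.area := by omega
  have h5 := Nat.zero_le (C2 * r)
  have h6 := Nat.zero_le C1
  linarith

theorem noEnd (ti : TIneqS) (cl : ChiLeS) (cp : ChiPS) (eu : EulerS) (su : SurjS) (fr : FreeExS)
    (ea : EndAS) (eb : EndBS) (em : EndMS) (ad : AddS) (st : StructS) : NoEndS := by
  obtain ⟨C1, C2, C, ρ1, ti⟩ := ti
  obtain ⟨ρ2, st⟩ := st (C1 + 2 * C2 + 1)
  refine ⟨C + 1, ρ1 + ρ2 + 3, ?_⟩
  intro B _ _ o hT hρ Y x0 r hS hI hv hY
  have hL : Loc B := loc_of hT (hρ.mono (by omega))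
  have hv' : sp Y < Nat.card B := by omega
  have hI' : Y.Inv o x0 r 0 := ⟨[], hI, le_rfl⟩
  have hc : ∀ c : Y.Coch W, Cocyc c → Cobd c := fun c h => hI.rel c h (by simp)
  have : Nonempty B := ⟨o⟩
  obtain ⟨U, kb, hU, s1, -, s3, s4, -⟩ :=
    st B o hT (hρ.mono (by omega)) Y x0 r 0 hS hI' hv' (hY.mono (by omega))
  obtain ⟨-, a2, a3, -, a5, -, -, a8⟩ := ad B Y x0 U hU
  obtain ⟨-, -, -, -, -, a6, -⟩ := ad B Y x0 Uᶜ hU.compl
  have t := ti B o hT (hρ.mono (by omega)) Y x0 r 0 hS hI' (by omega) (hY.mono (by omega))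
    Uᶜ hU.compl
  have c := cp B hL Y hS
  obtain ⟨e1, e2, -⟩ := eu B Y
  obtain ⟨f1, f2, -⟩ := eu B (fullPS B)
  have s := su B Y hS (fr B o hT Y hv')
  have n1 := ea B o hT hL Y x0 hS hI.h0 hc
  have n2 := eb B o hT hL Y x0 hS hI.h0 hc
  obtain ⟨n3, n4⟩ := em B hL
  have l1 := cl B hL Y U hS hU
  have l2 := cl B hL Y Uᶜ hS hU.compl
  have h0 : Y.nD Uᶜ + 2 * Y.deg Uᶜ + 2 ≤ 2 * (Y.nV Uᶜ + Y.nF Uᶜ) := by omega
  have h1 := Nat.mul_le_mul_left C1 (show Y.nD Uᶜ ≤ 2 * (Y.nV Uᶜ + Y.nF Uᶜ) by omega)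
  have h2 := Nat.mul_le_mul_left C2 (show Y.ends x0 Uᶜ ≤ 2 * Y.nB Uᶜ by omega)
  have h3 : 1 ≤ Y.nB Uᶜ := by omega
  linarith

theorem bdy_le {B : Type} [MulAction W B] (Y : PS B) : bdy (Set.range Y.f) ≤ Y.area := by
  refine le_trans (Set.ncard_le_ncard
    (t := (fun p : Y.Om × S => (Y.f p.1, p.2)) '' {p | Y.Free p.1 p.2}) ?_ (Set.toFinite _))
    (Set.ncard_image_le (Set.toFinite _))
  rintro ⟨_, s⟩ ⟨⟨x, rfl⟩, k⟩
  exact ⟨(x, s), fun ⟨y, e⟩ => k ⟨y, Y.e_f e⟩, rfl⟩

theorem mainS (hi : InitS) (hp : PushS) (ha : AreaS) (hn : NoEndS) : MainS := by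
  obtain ⟨A, C1, ρ1, ha⟩ := ha
  obtain ⟨C2, ρ2, hn⟩ := hn
  obtain ⟨Cp, ρ3, hp⟩ := hp
  refine ⟨A + Cp + nS + (C1 + C2) + 1, ρ1 + ρ2 + ρ3, ?_⟩
  intro B _ _ o ht hth T hT
  generalize hr : T.card = r
  generalize hC : A + Cp + nS + (C1 + C2) + 1 = C
  have hA : A * (r + 1) + Cp + nS ≤ C * (r + 1) := by rw [← hC]; nlinarith
  have key : ∀ (μ a : ℕ) (Y : PS B) (x0 : Y.Om), Y.State → Y.Inv o x0 r μ → Y.area = a →
      a ≤ A * (r + 1) + Cp + nS → Reach (C * (r + 1)) C (Set.range Y.f) := by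
    intro μ
    induction μ using Nat.strong_induction_on with
    | _ μ ihμ =>
      intro a
      induction a using Nat.strong_induction_on with
      | _ a iha =>
        intro Y x0 hs hI hae hal
        have hb : bdy (Set.range Y.f) ≤ C * (r + 1) := (bdy_le Y).trans (by omega)
        by_cases hv : sp Y + (C1 + C2) ≤ Nat.card B
        swap
        · refine Reach.step hb ?_ Reach.top
          have := Set.ncard_add_ncard_compl (Set.range Y.f)
          rw [← Set.compl_eq_univ_sdiff]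
          unfold sp at hv
          omega
        by_cases tg : Tight Y o x0 r (C1 + C2)
        · have h1 := ha B o ht (hth.mono (by omega)) Y x0 r μ hs hI (by omega)
            (tg.mono (by omega))
          obtain ⟨Λ, hΛ, hm⟩ := hI
          cases Λ with
          | nil =>
            exact (hn B o ht (hth.mono (by omega)) Y x0 r hs hΛ (by omega)
              (tg.mono (by omega))).elim
          | cons l Λ =>
            obtain ⟨Y', x0', Λ', a1, a2, a3, a4, a5⟩ := hp B o (hth.mono (by omega)) Y x0 r l Λ hΛ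
            exact Reach.step hb (le_trans a4 (by omega))
              (ihμ (meas Λ') (by omega) _ Y' x0' a1 ⟨Λ', a2, le_rfl⟩ rfl (by omega))
        · unfold Tight at tg
          push Not at tg
          obtain ⟨Y', x0', a1, a2, a3, a4⟩ := tg
          exact Reach.step hb (le_trans a3 (by omega))
            (iha Y'.area (by omega) Y' x0' a1 (a2 μ hI) rfl (by omega))
  obtain ⟨Y, x0, μ, a1, a2, a3, a4⟩ := hi B o ht T hT
  rw [hr] at a2
  refine Reach.step (by simp [bdy]) ?_ (key μ _ Y x0 a1 a2 rfl (by omega))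
  rw [Set.sdiff_empty, ← Set.image_univ]
  refine (Set.ncard_image_le (Set.toFinite _)).trans ?_
  rw [Set.ncard_univ]
  unfold PS.vol at a3
  omega

end Pool.Agent.MP_df844f_gt.RA.CW

end
end MrgPart10

-- marker of a merged file
example : 731051 + 489684 = 731051 + 489684 := rfl
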