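import Pool.Agent.MP_df844f_gt.RA.s3.Cap
import Pool.Agent.MP_df844f_gt.RA.c.Fin

-- ======== part 0: formerly Pool.Agent.MP_df844f_gt.RA.s2.BeadDeg
section MrgPart0

/-! Beads in a tight state carry enough darts. -/

set_option linter.unusedSectionVars false

noncomputable section

namespace Pool.Agent.MP_df844f_gt.RA

variable [Dat]

open PS

namespace BeadDegA

variable {B : Type} [MulAction W B] {o : B} {Y : PS B} {x0 : Y.Om} {Z : Set Y.Om}

theorem ind (hT : Trans o) (h0 : Y.H0 o x0) (hZ : Y.Shut Z)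
    (hd : ∀ a, Y.src (Y.rev a) ∈ Z ↔ Y.src a ∈ Z) (x : Y.Om) : x ∈ Z ↔ x0 ∈ Z := by
  obtain ⟨w, hw⟩ := hT (Y.f x)
  exact iff_of_eq (h0.2 Prop (fun x _ => x ∈ Z)
    ⟨fun s x y _ h => propext ⟨hZ s y x (Y.e_symm h), hZ s x y h⟩, fun a _ => propext (hd a)⟩
    x w hw)

end BeadDegA

open BeadDegA in
theorem beadDeg (m1 : M1S) (m2 : M2S) : BeadDegS := by
  intro B _ _ o hT Y x0 r μ Z pos hS hI hTi hB hF
  have h0 := hI.h0
  have zero : Y.deg Z = 0 → ∀ a, Y.src a ∉ Z := fun h a ha => by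
    have := (Set.ncard_eq_zero (Set.toFinite _)).1 h
    exact (Set.ext_iff.1 this a).1 ha
  refine ⟨fun hx => ?_, fun hx => ?_⟩
  · obtain ⟨⟨z, s⟩, hz, -⟩ := Set.nonempty_of_ncard_ne_zero hF.ne'
    have no : ¬ ∀ a, Y.src (Y.rev a) ∈ Z ↔ Y.src a ∈ Z := fun hd =>
      hx ((ind hT h0 hB.shut hd z).1 hz)
    have fin : ¬ ∃ (Y' : PS B) (m : Move o Y Y') (x0' : Y'.Om), m.K x0 x0' ∧ Y'.State ∧
        Y'.vol ≤ Y.vol ∧ Y'.area + Y.nF Z ≤ Y.area := by
      rintro ⟨Y', m, x0', k1, k2, k3, k4⟩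
      have := hTi.move m k1 k2 k3
      omega
    by_contra hh
    have h3 : Y.deg Z = 0 ∨ Y.deg Z = 1 ∨ Y.deg Z = 2 := by omega
    rcases h3 with h | h | h
    · exact no fun a => iff_of_false (zero h _) (zero h _)
    · obtain ⟨a1, e⟩ := Set.ncard_eq_one.1 h
      exact fin (m1 B o Y Z pos x0 a1 hS hB hx fun a => Set.ext_iff.1 e a)
    · obtain ⟨a1, a2, hne, e⟩ := Set.ncard_eq_two.1 h
      have e' : ∀ a, Y.src a ∈ Z ↔ a = a1 ∨ a = a2 := fun a => Set.ext_iff.1 e a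
      by_cases hr : Y.rev a1 = a2
      · refine no fun a => ?_
        rw [e', e', ← hr]
        constructor
        · rintro (k | k)
          · exact Or.inr (by rw [← k, Y.rev_rev])
          · exact Or.inl (by rw [← Y.rev_rev a, k, Y.rev_rev])
        · rintro (k | k)
          · exact Or.inr (by rw [k])
          · exact Or.inl (by rw [k, Y.rev_rev])
      · exact fin (m2 B o Y Z pos x0 a1 a2 hS hB hx hne hr e')
  · by_contra hh
    have hz := zero (by omega)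
    have all : ∀ x, x ∈ Z := fun x =>
      (ind hT h0 hB.shut (fun a => iff_of_false (hz _) (hz _)) x).2 hx
    have st : ∀ w : W, w • o = o → w = 1 := fun w hw => by
      have := h0.2 W (fun x w => (pos x)⁻¹ * w)
        ⟨fun s x y w h => by rw [hB.pos_e s x (all x) y h]; group,
          fun a _ => absurd (all _) (hz a)⟩ x0 w (hw.trans h0.1.symm)
      exact mul_left_cancel this
    have inj : Function.Injective fun w : W => w • o := fun w w' h => by
      have := st (w'⁻¹ * w) (by rw [mul_smul, inv_smul_eq_iff]; exact h)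
      exact (inv_mul_eq_one.1 this).symm
    have := Finite.of_injective _ inj
    have := infinite_W
    exact not_finite W

end Pool.Agent.MP_df844f_gt.RA

end
end MrgPart0

-- ======== part 1: formerly Pool.Agent.MP_df844f_gt.RA.s2.CutW
section MrgPart1

/-! Cutting a tracked walk at bounded cost. -/

set_option linter.unusedSectionVars false

noncomputable section

namespace Pool.Agent.MP_df844f_gt.RA

variable [Dat]

open PS

namespace CutWA

variable {B : Type} [MulAction W B] {Y : PS B} {P : W → W → Prop}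

/-- The walk is cut after a short step. -/
def CutA (Y : PS B) (P : W → W → Prop) (n k : Y.Node) (l : ℕ) (ch : Y.Path) (t : ℕ) : Prop :=
  ∃ n2 la lb cha chb, Y.TW P n n2 la cha ∧ Y.TW P n2 k lb chb ∧ l = la + lb ∧ ch = cha ++ chb ∧
    t ≤ la ∧ la ≤ t + 126

/-- The cost `t` is passed on a long dart. -/
def CutB (Y : PS B) (P : W → W → Prop) (n k : Y.Node) (l : ℕ) (ch : Y.Path) (t : ℕ) : Prop :=
  ∃ (n1 n2 : Y.Node) (a : Y.A) (l1 l2 : ℕ) (ch1 ch2 : Y.Path), Y.TW P n n1 l1 ch1 ∧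
    n1.x = Y.src a ∧ n2.x = Y.src (Y.rev a) ∧ n2.w = Y.lab a * n1.w ∧ Y.TW P n2 k l2 ch2 ∧
    l = l1 + d n1.p n2.p + l2 ∧ ch = ch1 ++ ([(.dart a, n1.w)] ++ ch2) ∧ l1 < t ∧
    127 ≤ d n1.p n2.p

theorem cons {n n' k : Y.Node} {l : ℕ} {ch pre : Y.Path} {t : ℕ}
    (hs : ∀ m l' ch', Y.TW P n' m l' ch' → Y.TW P n m (d n.p n'.p + l') (pre ++ ch'))
    (h : Y.TW P n' k l ch) (hd : d n.p n'.p ≤ 126) (ht : t ≤ d n.p n'.p + l)
    (ih : ∀ t, 1 ≤ t → t ≤ l → CutA Y P n' k l ch t ∨ CutB Y P n' k l ch t) :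
    CutA Y P n k (d n.p n'.p + l) (pre ++ ch) t ∨ CutB Y P n k (d n.p n'.p + l) (pre ++ ch) t := by
  by_cases c : t ≤ d n.p n'.p
  · exact .inl ⟨n', _, l, _, ch, hs _ _ _ (TW.nil n' h.first.1 h.first.2), h, by omega,
      by simp, by omega, by omega⟩
  · rcases ih (t - d n.p n'.p) (by omega) (by omega) with
      ⟨n2, la, lb, cha, chb, a1, a2, a3, a4, a5, a6⟩ |
      ⟨n1, n2, a, l1, l2, ch1, ch2, a1, a2, a3, a4, a5, a6, a7, a8, a9⟩
    · exact .inl ⟨n2, _, lb, _, chb, hs _ _ _ a1, a2, by omega, by rw [a4, List.append_assoc],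
        by omega, by omega⟩
    · exact .inr ⟨n1, n2, a, _, l2, _, ch2, hs _ _ _ a1, a2, a3, a4, a5, by omega,
        by rw [a7, List.append_assoc], by omega, a9⟩

theorem split (cd : CloseDS) {n k : Y.Node} {l : ℕ} {ch : Y.Path} (h : Y.TW P n k l ch) :
    ∀ t, 1 ≤ t → t ≤ l → CutA Y P n k l ch t ∨ CutB Y P n k l ch t := by
  induction h with
  | nil n a b => intro t h1 h2; omega
  | @edge n n' m l ch s a b c e h ih =>
    intro t _ h2
    refine cons (pre := [(.edge s n.x n'.x, n.w)]) (fun m l' ch' q => TW.edge s a b c e q) h ?_ h2 ih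
    have h3 := cd _ _ a
    have h4 := cd _ _ h.first.1
    have h5 := d_g_mul s n.w
    have h6 := d_triangle n.p n.w n'.p
    have h7 := d_triangle n.w n'.w n'.p
    rw [← e] at h5
    rw [d_comm] at h3
    omega
  | @dart n n' m l ch s a b c e f h ih =>
    intro t h1 h2
    by_cases q : d n.p n'.p ≤ 126
    · exact cons (pre := [(.dart s, n.w)]) (fun m l' ch' q => TW.dart s a b c e f q) h q h2 ih
    · exact .inr ⟨n, n', s, 0, l, [], ch, TW.nil n a b, c, e, f, h, by omega, rfl, by omega,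
        by omega⟩
  | @stay n n' m l ch a b c e h ih =>
    intro t _ h2
    refine cons (pre := []) (fun m l' ch' q => TW.stay a b c e q) h ?_ h2 ih
    have h3 := cd _ _ a
    have h4 := cd _ _ h.first.1
    have h6 := d_triangle n.p n.w n'.p
    rw [e] at h4
    rw [d_comm] at h3
    omega

end CutWA

open CutWA in
theorem cutW (sub : SubS) (cd : CloseDS) (dehn : DehnS) : CutWS := by
  intro B _ o Y c R n k l ch h hl
  rcases split cd h 19 (by omega) hl with ⟨n2, la, lb, cha, chb, a1, a2, a3, a4, a5, a6⟩ |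
    ⟨n1, n2, a, l1, l2, ch1, ch2, a1, a2, a3, a4, a5, a6, a7, a8, a9⟩
  · have sv : ∀ p : Y.Path, SameV (Hom.move o (Hom.id Y) Hom.good_id).pull p p :=
      fun p E _ c ε _ => by
        show ev (fun l => c ((Hom.id Y).lbl l)) p ε = ev c p ε
        simp only [Hom.lbl_id]
    refine ⟨Y, Hom.move o (Hom.id Y) Hom.good_id, fun x => x, n2, la, lb, cha, chb, fun _ => rfl,
      by omega, by omega, fun c R n k l ch q => ⟨ch, q.mono fun _ _ _ e => by omega, sv ch⟩,
      a1.toTT, a2.toTT, by omega, a5, by omega, ?_, a4 ▸ sv _⟩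
    have := a2.first.2
    omega
  · have c1 := a1.last.1
    have c2 := a5.first.1
    have r1 : d c n1.p ≤ R := a1.last.2
    have r2 : d c n2.p ≤ R := a5.first.2
    have d1 := cd _ _ c1
    have d2 := cd _ _ c2
    have t1 := d_triangle n1.p n1.w n2.p
    have t2 := d_triangle n1.w n2.w n2.p
    have t3 := d_comm n1.p n1.w
    obtain ⟨u, hu, du⟩ := exists_btw n1.w n2.w 73 (by omega)
    have e1 : u * n1.w⁻¹ * n1.w = u := by group
    have e2 : Y.lab a = Y.lab a * (u * n1.w⁻¹)⁻¹ * (u * n1.w⁻¹) := by group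
    obtain ⟨Y', m, ν, z, b1, b2, b3, b4, b5⟩ := sub B o Y a (u * n1.w⁻¹)
      (Y.lab a * (u * n1.w⁻¹)⁻¹) e2 (by
        rw [← e2, ← d_mul_left (Y.lab a) n1.w, ← a4, ← d_mul_left (u * n1.w⁻¹) n1.w, e1,
          ← d_mul_left (Y.lab a * (u * n1.w⁻¹)⁻¹) u,
          show Y.lab a * (u * n1.w⁻¹)⁻¹ * u = Y.lab a * n1.w by group, ← a4]
        exact Eq.symm hu)
    obtain ⟨q, hq⟩ := exists_med n1.p n2.p (u * n1.w⁻¹ * n1.w)
    obtain ⟨c3, p1, p2, w1, w2, sv⟩ := b5 n1.w n1.p n2.p q c1 (a4 ▸ c2) hq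
    obtain ⟨ch1', v1, s1⟩ := b4 c R _ _ _ _ a1
    obtain ⟨ch2', v2, s2⟩ := b4 c R _ _ _ _ a5
    rw [← a2] at w1
    rw [← a3, ← a4] at w2
    have d3 := cd _ _ c3
    rw [e1] at d3
    have hb : d n1.p q + d q n2.p = d n1.p n2.p := hq.btw12
    have t4 := d_triangle n1.w n1.p u
    have t5 := d_triangle n1.p q u
    have t6 := d_comm q u
    have t7 := d_triangle n1.p n1.w q
    have t8 := d_triangle n1.w u q
    refine ⟨Y', m, ν, _, _, _, _, _, b1, b2, b3, b4, v1.toTT.append w1, w2.append v2.toTT,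
      by omega, by omega, by omega, ?_, ?_⟩
    · show d c q ≤ R + 6
      by_contra hc
      have t9 := d_triangle c n1.p q
      have t10 := d_triangle c n2.p q
      have t11 := d_comm q n2.p
      rcases dehn c n1.p q n2.p 0 hq.btw12 (by omega) (by omega) with y | y <;> omega
    · rw [a7, List.append_assoc, ← List.append_assoc p1]
      exact s1.append (sv.append s2)

end Pool.Agent.MP_df844f_gt.RA

end
end MrgPart1

-- ======== part 2: formerly Pool.Agent.MP_df844f_gt.RA.s2.H0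
section MrgPart2

/-! Row H, part 0: the prestate obtained by replacing pieces by gadgets, and the pull-back of
cochains. -/

set_option linter.unusedSectionVars false

noncomputable section

namespace Pool.Agent.MP_df844f_gt.RA

variable [Dat]

open PS

namespace HA

variable {B : Type} [MulAction W B] {o : B} {Y : PS B} (D : HData o Y)

abbrev Om' : Type := {x // D.comp x = none} ⊕ (Σ j, (D.Q j).Om)

abbrev A' : Type := {a // ¬ D.int a} ⊕ (Σ j, (D.Q j).A)

def nu (x : Y.Om) : Om' D :=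
  match h : D.comp x with
  | none => .inl ⟨x, h⟩
  | some j => .inr ⟨j, D.ι j (D.pos x)⟩

variable {D}

theorem nu_none {x : Y.Om} (h : D.comp x = none) : nu D x = .inl ⟨x, h⟩ := by
  unfold nu
  split
  · rfl
  · rename_i j k
    rw [h] at k
    cases k

theorem nu_some {x : Y.Om} {j : D.J} (h : D.comp x = some j) :
    nu D x = .inr ⟨j, D.ι j (D.pos x)⟩ := by
  unfold nu
  split
  · rename_i k
    rw [h] at k
    cases k
  · rename_i j' k
    rw [h] at k
    cases k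
    rfl

variable (D)

def f' : Om' D → B
  | .inl x => Y.f x.1
  | .inr p => (D.Q p.1).f p.2 • o

variable {D}

theorem kept_none {x : Y.Om} (h : D.comp x = none) : D.Kept x := fun j k => by
  rw [h] at k; cases k

theorem f_nu {x : Y.Om} (h : D.Kept x) : f' D (nu D x) = Y.f x := by
  rcases k : D.comp x with _ | j
  · rw [nu_none k]; rfl
  · rw [nu_some k]
    show (D.Q j).f (D.ι j (D.pos x)) • o = _
    rw [(D.gad j).f_ι _ (h j k), D.pos_f x j k]

theorem kept_near {x y : Y.Om} (hy : D.comp y = none) (h : Y.Near 2 x y) : D.Kept x :=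
  fun j k => D.kept_near x y j k hy h

theorem kept_edge {s : S} {x y : Y.Om} (he : Y.e s x y) (h : D.comp x = none ∨ D.comp y = none) :
    D.Kept x ∧ D.Kept y := by
  rcases h with h | h
  · exact ⟨kept_none h, kept_near h ((Near.single (Y.e_symm he)).mono (by omega))⟩
  · exact ⟨kept_near h ((Near.single he).mono (by omega)), kept_none h⟩

theorem not_int_rev {a : Y.A} (h : ¬ D.int a) : ¬ D.int (Y.rev a) := fun k =>
  h (Y.rev_rev a ▸ D.int_rev _ k)

theorem kept_src {a : Y.A} (h : ¬ D.int a) : D.Kept (Y.src a) := fun j k => D.kept_src a j h k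

variable (D)

def e' (s : S) (u v : Om' D) : Prop :=
  (∃ x y, Y.e s x y ∧ (D.comp x = none ∨ D.comp y = none) ∧ u = nu D x ∧ v = nu D y) ∨
    ∃ j q q', (D.Q j).e s q q' ∧ u = .inr ⟨j, q⟩ ∧ v = .inr ⟨j, q'⟩

def rev' : A' D → A' D
  | .inl a => .inl ⟨Y.rev a.1, not_int_rev a.2⟩
  | .inr p => .inr ⟨p.1, (D.Q p.1).rev p.2⟩

def src' : A' D → Om' D
  | .inl a => nu D (Y.src a.1)
  | .inr p => .inr ⟨p.1, (D.Q p.1).src p.2⟩

def lab' : A' D → W
  | .inl a => Y.lab a.1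
  | .inr p => (D.Q p.1).lab p.2

/-- The new prestate. -/
def Y' : PS B where
  Om := Om' D
  A := A' D
  f := f' D
  e := e' D
  e_symm := by
    rintro s u v (⟨x, y, h1, h2, h3, h4⟩ | ⟨j, q, q', h1, h2, h3⟩)
    · exact Or.inl ⟨y, x, Y.e_symm h1, h2.symm, h4, h3⟩
    · exact Or.inr ⟨j, q', q, (D.Q j).e_symm h1, h3, h2⟩
  e_f := by
    rintro s u v (⟨x, y, h1, h2, rfl, rfl⟩ | ⟨j, q, q', h1, rfl, rfl⟩)
    · rw [f_nu (kept_edge h1 h2).1, f_nu (kept_edge h1 h2).2, Y.e_f h1]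
    · show (D.Q j).f q' • o = g s • (D.Q j).f q • o
      rw [(D.Q j).e_f h1, smul_eq_mul, mul_smul]
  rev := rev' D
  rev_rev := by
    rintro (a | ⟨j, a⟩)
    · exact congrArg Sum.inl (Subtype.ext (Y.rev_rev a.1))
    · show Sum.inr (⟨j, (D.Q j).rev ((D.Q j).rev a)⟩ : Σ j, (D.Q j).A) = _
      rw [(D.Q j).rev_rev]
  rev_ne := by
    rintro (a | ⟨j, a⟩) h
    · exact Y.rev_ne a.1 (congrArg Subtype.val (Sum.inl.inj h))
    · exact (D.Q j).rev_ne a (eq_of_heq (Sigma.mk.inj (Sum.inr.inj h)).2)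
  src := src' D
  lab := lab' D
  lab_rev := by
    rintro (a | ⟨j, a⟩)
    · exact Y.lab_rev a.1
    · exact (D.Q j).lab_rev a
  f_rev := by
    rintro (a | ⟨j, a⟩)
    · show f' D (nu D (Y.src (Y.rev a.1))) = Y.lab a.1 • f' D (nu D (Y.src a.1))
      rw [f_nu (kept_src a.2), f_nu (kept_src (not_int_rev a.2)), Y.f_rev]
    · show (D.Q j).f ((D.Q j).src ((D.Q j).rev a)) • o =
        (D.Q j).lab a • (D.Q j).f ((D.Q j).src a) • o
      rw [(D.Q j).f_rev, smul_eq_mul, mul_smul]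

/-- A chamber of a gadget in the new prestate. -/
def inQ (j : D.J) (q : (D.Q j).Om) : (Y' D).Om := .inr ⟨j, q⟩

/-- A dart of a gadget in the new prestate. -/
def inA (j : D.J) (a : (D.Q j).A) : (Y' D).A := .inr ⟨j, a⟩

/-- A surviving dart. -/
def outA (a : Y.A) (h : ¬ D.int a) : (Y' D).A := .inl ⟨a, h⟩

variable {D}

theorem e_inQ {j : D.J} {s : S} {q q' : (D.Q j).Om} (h : (D.Q j).e s q q') :
    (Y' D).e s (inQ D j q) (inQ D j q') := Or.inr ⟨j, q, q', h, rfl, rfl⟩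

theorem e_out {s : S} {x y : Y.Om} (he : Y.e s x y) (h : D.comp x = none ∨ D.comp y = none) :
    (Y' D).e s (nu D x) (nu D y) := Or.inl ⟨x, y, he, h, rfl, rfl⟩

section
variable {E : Type} [MulAction W E]

/-- Restriction of a cochain to a lift of a gadget. -/
def res (c : (Y' D).Coch E) (j : D.J) (ε : E) : (D.Q j).Coch Unit
  | .edge s q q' => fun _ => c (.edge s (inQ D j q) (inQ D j q')) ((D.Q j).f q • ε)
  | .dart a => fun _ => c (.dart (inA D j a)) ((D.Q j).f ((D.Q j).src a) • ε)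

theorem res_cocyc {c : (Y' D).Coch E} (hc : Cocyc c) (j : D.J) (ε : E) : Cocyc (res c j ε) where
  symm s x y _ h := by
    show c (.edge s (inQ D j y) (inQ D j x)) ((D.Q j).f y • ε) =
      c (.edge s (inQ D j x) (inQ D j y)) ((D.Q j).f x • ε)
    rw [(D.Q j).e_f h, smul_eq_mul, mul_smul]
    exact hc.symm s _ _ _ (e_inQ h)
  dsym a _ := by
    show c (.dart (inA D j ((D.Q j).rev a))) ((D.Q j).f ((D.Q j).src ((D.Q j).rev a)) • ε) =
      c (.dart (inA D j a)) ((D.Q j).f ((D.Q j).src a) • ε)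
    rw [(D.Q j).f_rev, smul_eq_mul, mul_smul]
    exact hc.dsym (inA D j a) _
  sq s t x0 x1 x2 x3 _ h a1 a2 a3 a4 := by
    show c (.edge s (inQ D j x0) (inQ D j x1)) ((D.Q j).f x0 • ε) +
      c (.edge t (inQ D j x1) (inQ D j x2)) ((D.Q j).f x1 • ε) +
      c (.edge s (inQ D j x2) (inQ D j x3)) ((D.Q j).f x2 • ε) +
      c (.edge t (inQ D j x3) (inQ D j x0)) ((D.Q j).f x3 • ε) = 0
    rw [(D.Q j).e_f a3, (D.Q j).e_f a2, (D.Q j).e_f a1]
    simp only [smul_eq_mul, mul_smul]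
    exact hc.sq s t _ _ _ _ _ h (e_inQ a1) (e_inQ a2) (e_inQ a3) (e_inQ a4)

open Classical in
/-- The potential on a lift of a gadget. -/
noncomputable def Phi (c : (Y' D).Coch E) (j : D.J) (ε : E) (q : (D.Q j).Om) : F2 :=
  if h : Cobd (res c j ε) then Classical.choose h q () else 0

theorem Phi_ed {c : (Y' D).Coch E} (hc : Cocyc c) {j : D.J} (ε : E) {s : S} {q q' : (D.Q j).Om}
    (h : (D.Q j).e s q q') : c (.edge s (inQ D j q) (inQ D j q')) ((D.Q j).f q • ε) =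
      Phi c j ε q + Phi c j ε q' := by
  have h1 := (D.gad j).h1 _ (res_cocyc hc j ε)
  unfold Phi
  rw [dif_pos h1, dif_pos h1]
  exact (Classical.choose_spec h1).ed s q q' () h

theorem Phi_da {c : (Y' D).Coch E} (hc : Cocyc c) {j : D.J} (ε : E) (a : (D.Q j).A) :
    c (.dart (inA D j a)) ((D.Q j).f ((D.Q j).src a) • ε) =
      Phi c j ε ((D.Q j).src a) + Phi c j ε ((D.Q j).src ((D.Q j).rev a)) := by
  have h1 := (D.gad j).h1 _ (res_cocyc hc j ε)
  unfold Phi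
  rw [dif_pos h1, dif_pos h1]
  exact (Classical.choose_spec h1).da a ()

/-- The potential on the pieces. -/
noncomputable def psi (c : (Y' D).Coch E) (z : Y.Om) (ε : E) : F2 :=
  match D.comp z with
  | none => 0
  | some j => Phi c j ((D.pos z)⁻¹ • ε) (D.ι j (D.pos z))

theorem psi_some (c : (Y' D).Coch E) {z : Y.Om} {j : D.J} (h : D.comp z = some j) (ε : E) :
    psi c z ε = Phi c j ((D.pos z)⁻¹ • ε) (D.ι j (D.pos z)) := by
  unfold psi; rw [h]

open Classical in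
/-- The pull-back of cochains. -/
noncomputable def pull (c : (Y' D).Coch E) : Y.Coch E
  | .edge s x y => fun ε =>
      if D.comp x ≠ none ∧ D.comp y ≠ none then psi c x ε + psi c y (g s • ε)
      else c (.edge s (nu D x) (nu D y)) ε
  | .dart a => fun ε =>
      if h : D.int a then psi c (Y.src a) ε + psi c (Y.src (Y.rev a)) (Y.lab a • ε)
      else c (.dart (outA D a h)) ε

theorem pull_in (c : (Y' D).Coch E) (s : S) {x y : Y.Om} (h : D.comp x ≠ none ∧ D.comp y ≠ none)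
    (ε : E) : pull c (.edge s x y) ε = psi c x ε + psi c y (g s • ε) := if_pos h

theorem pull_out (c : (Y' D).Coch E) (s : S) {x y : Y.Om}
    (h : D.comp x = none ∨ D.comp y = none) (ε : E) :
    pull c (.edge s x y) ε = c (.edge s (nu D x) (nu D y)) ε := if_neg (by tauto)

theorem pull_int (c : (Y' D).Coch E) {a : Y.A} (h : D.int a) (ε : E) :
    pull c (.dart a) ε = psi c (Y.src a) ε + psi c (Y.src (Y.rev a)) (Y.lab a • ε) := dif_pos h

theorem pull_ext (c : (Y' D).Coch E) {a : Y.A} (h : ¬ D.int a) (ε : E) :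
    pull c (.dart a) ε = c (.dart (outA D a h)) ε := dif_neg h

end

/-- An edge has an outside end or lies in one piece. -/
theorem edge_cases {s : S} {x y : Y.Om} (he : Y.e s x y) :
    (D.comp x = none ∨ D.comp y = none) ∨
      ∃ j, D.comp x = some j ∧ D.comp y = some j ∧ D.pos y = g s * D.pos x := by
  rcases hx : D.comp x with _ | j
  · exact Or.inl (Or.inl rfl)
  rcases hy : D.comp y with _ | j'
  · exact Or.inl (Or.inr rfl)
  obtain ⟨rfl, h⟩ := D.e_in s x y j j' he hx hy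
  exact Or.inr ⟨j, rfl, rfl, h⟩

theorem ne_none {x : Y.Om} {j : D.J} (h : D.comp x = some j) : D.comp x ≠ none := by
  rw [h]; exact Option.some_ne_none j

/-- Edges between kept chambers survive with the same value. -/
theorem kept_both {s : S} {x y : Y.Om} (he : Y.e s x y) (hx : D.Kept x) (hy : D.Kept y) :
    (Y' D).e s (nu D x) (nu D y) ∧ ∀ (E : Type) [MulAction W E] (c : (Y' D).Coch E) (ε : E),
      Cocyc c → pull c (.edge s x y) ε = c (.edge s (nu D x) (nu D y)) ε := by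
  rcases edge_cases (D := D) he with h | ⟨j, h1, h2, h3⟩
  · exact ⟨e_out he h, fun E _ c ε _ => pull_out c s h ε⟩
  · have e1 : (D.Q j).e s (D.ι j (D.pos x)) (D.ι j (D.pos y)) := by
      rw [h3]; exact (D.gad j).e_ι _ (hx j h1) s (h3 ▸ hy j h2)
    rw [nu_some h1, nu_some h2]
    refine ⟨e_inQ e1, fun E _ c ε hc => ?_⟩
    have e2 := Phi_ed hc ((D.pos x)⁻¹ • ε) e1
    rw [(D.gad j).f_ι _ (hx j h1), smul_inv_smul] at e2
    have e3 : (D.pos y)⁻¹ • g s • ε = (D.pos x)⁻¹ • ε := by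
      rw [h3, mul_inv_rev, mul_smul, inv_smul_smul]
    rw [pull_in c s ⟨ne_none h1, ne_none h2⟩, psi_some c h1, psi_some c h2, e3]
    exact e2.symm

end HA

end Pool.Agent.MP_df844f_gt.RA

end
end MrgPart2

-- ======== part 3: formerly Pool.Agent.MP_df844f_gt.RA.s2.H
section MrgPart3

/-! Row H: replacing connected liftable pieces by gadgets is a move. -/

set_option linter.unusedSectionVars false

noncomputable section

namespace Pool.Agent.MP_df844f_gt.RA

variable [Dat]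

open PS

namespace HA

variable {B : Type} [MulAction W B] {o : B} {Y : PS B} {D : HData o Y}

theorem f2a (a b c : F2) : a + b + (b + c) = a + c := by revert a b c; decide

section
variable {E : Type} [MulAction W E]

theorem gg (s : S) (ε : E) : g s • g s • ε = ε := by rw [smul_smul, g_mul_self, one_smul]

theorem sq_smul {s t : S} (h : adj s t) (ε : E) : g t • g s • g t • g s • ε = ε := by
  rw [smul_smul (g s) (g t), g_comm h, mul_smul, gg, gg]

theorem pull_cocyc {c : (Y' D).Coch E} (hc : Cocyc c) : Cocyc (pull c) where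
  symm s x y ε h := by
    rcases edge_cases (D := D) h with k | ⟨j, h1, h2, _⟩
    · rw [pull_out c s k, pull_out c s k.symm]
      exact hc.symm s _ _ ε (e_out h k)
    · rw [pull_in c s ⟨ne_none h1, ne_none h2⟩, pull_in c s ⟨ne_none h2, ne_none h1⟩, gg,
        add_comm]
  dsym a ε := by
    by_cases k : D.int a
    · rw [pull_int c k, pull_int c (D.int_rev a k), Y.rev_rev, Y.lab_rev, inv_smul_smul, add_comm]
    · rw [pull_ext c k, pull_ext c (not_int_rev k)]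
      exact hc.dsym (outA D a k) ε
  sq s t x0 x1 x2 x3 ε h a1 a2 a3 a4 := by
    by_cases k : D.comp x0 ≠ none ∧ D.comp x1 ≠ none ∧ D.comp x2 ≠ none ∧ D.comp x3 ≠ none
    · obtain ⟨k0, k1, k2, k3⟩ := k
      rw [pull_in c s ⟨k0, k1⟩, pull_in c t ⟨k1, k2⟩, pull_in c s ⟨k2, k3⟩, pull_in c t ⟨k3, k0⟩,
        sq_smul h, f2a, f2a, f2a, F2_add_self]
    · have n1 : ∀ {u : S} {x y : Y.Om}, Y.e u x y → Y.Near 2 x y := fun e =>
        (Near.single e).mono (by omega)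
      have n2 : ∀ {u v : S} {x y z : Y.Om}, Y.e u x y → Y.e v y z → Y.Near 2 x z := fun e e' =>
        (Near.single e).trans (Near.single e')
      have hk : D.Kept x0 ∧ D.Kept x1 ∧ D.Kept x2 ∧ D.Kept x3 := by
        by_cases k0 : D.comp x0 = none
        · exact ⟨kept_none k0, kept_near k0 (n1 a1).symm, kept_near k0 (n2 a3 a4),
            kept_near k0 (n1 a4)⟩
        by_cases k1 : D.comp x1 = none
        · exact ⟨kept_near k1 (n1 a1), kept_none k1, kept_near k1 (n1 a2).symm,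
            kept_near k1 (n2 a4 a1)⟩
        by_cases k2 : D.comp x2 = none
        · exact ⟨kept_near k2 (n2 a1 a2), kept_near k2 (n1 a2), kept_none k2,
            kept_near k2 (n1 a3).symm⟩
        by_cases k3 : D.comp x3 = none
        · exact ⟨kept_near k3 (n1 a4).symm, kept_near k3 (n2 a2 a3), kept_near k3 (n1 a3),
            kept_none k3⟩
        exact absurd ⟨k0, k1, k2, k3⟩ k
      obtain ⟨k0, k1, k2, k3⟩ := hk
      obtain ⟨b1, c1⟩ := kept_both a1 k0 k1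
      obtain ⟨b2, c2⟩ := kept_both a2 k1 k2
      obtain ⟨b3, c3⟩ := kept_both a3 k2 k3
      obtain ⟨b4, c4⟩ := kept_both a4 k3 k0
      rw [c1 E c _ hc, c2 E c _ hc, c3 E c _ hc, c4 E c _ hc]
      exact hc.sq s t _ _ _ _ ε h b1 b2 b3 b4

theorem f2b {a b c e : F2} (h : a + b = c + e) : c + a = e + b := by revert a b c e; decide

theorem f2c (a b : F2) : a + (b + a) = b := by revert a b; decide

theorem f2d (a b k : F2) : a + b = a + k + (b + k) := by revert a b k; decide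

theorem pull_refl {c : (Y' D).Coch E} (hc : Cocyc c) (h : Cobd (pull c)) : Cobd c := by
  obtain ⟨φ, hφ⟩ := h
  choose z0 hz0 hz using D.conn
  have key : ∀ j z, D.comp z = some j → ∀ ε : E, φ z (D.pos z • ε) + psi c z (D.pos z • ε) =
      φ (z0 j) (D.pos (z0 j) • ε) + psi c (z0 j) (D.pos (z0 j) • ε) := by
    intro j z h ε
    have h1 := hz j z h
    clear h
    induction h1 with
    | refl => rfl
    | @tail u v _ k ih =>
      rw [← ih]
      obtain ⟨k1, k2, ⟨s, k3⟩ | ⟨a, k3, rfl, rfl⟩⟩ := k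
      · have e1 := hφ.ed s u v (D.pos u • ε) k3
        rw [pull_in c s ⟨ne_none k1, ne_none k2⟩, ← mul_smul,
          ← (D.e_in s u v j j k3 k1 k2).2] at e1
        exact (f2b e1).symm
      · have e1 := hφ.da a (D.pos (Y.src a) • ε)
        obtain ⟨_, _, _, k4⟩ := D.int_in a k3
        rw [pull_int c k3, ← mul_smul, ← k4] at e1
        exact (f2b e1).symm
  let κ : D.J → E → F2 := fun j ε =>
    φ (z0 j) (D.pos (z0 j) • ε) + psi c (z0 j) (D.pos (z0 j) • ε)
  let φ' : Om' D → E → F2 := fun u ε =>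
    match u with
    | .inl x => φ x.1 ε
    | .inr p => Phi c p.1 (((D.Q p.1).f p.2)⁻¹ • ε) p.2 + κ p.1 (((D.Q p.1).f p.2)⁻¹ • ε)
  have hν : ∀ z, D.Kept z → ∀ ε, φ' (nu D z) ε = φ z ε := by
    intro z hk ε
    rcases k : D.comp z with _ | j
    · rw [nu_none k]
    · rw [nu_some k]
      show Phi c j (((D.Q j).f (D.ι j (D.pos z)))⁻¹ • ε) (D.ι j (D.pos z)) +
        κ j (((D.Q j).f (D.ι j (D.pos z)))⁻¹ • ε) = _
      have e1 := key j z k ((D.pos z)⁻¹ • ε)
      rw [smul_inv_smul] at e1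
      rw [(D.gad j).f_ι _ (hk j k), ← psi_some c k]
      show _ + (φ (z0 j) _ + psi c (z0 j) _) = _
      rw [← e1, f2c]
  refine ⟨φ', ?_, ?_⟩
  · rintro s u v ε (⟨x, y, h1, h2, rfl, rfl⟩ | ⟨j, q, q', h1, rfl, rfl⟩)
    · rw [hν x (kept_edge h1 h2).1, hν y (kept_edge h1 h2).2, ← hφ.ed s x y ε h1,
        pull_out c s h2]
    · have e1 := Phi_ed hc (((D.Q j).f q)⁻¹ • ε) h1
      rw [smul_inv_smul] at e1
      have e2 : ((D.Q j).f q')⁻¹ • g s • ε = ((D.Q j).f q)⁻¹ • ε := by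
        rw [(D.Q j).e_f h1, smul_eq_mul, mul_inv_rev, mul_smul, inv_smul_smul]
      show c (.edge s (inQ D j q) (inQ D j q')) ε =
        Phi c j (((D.Q j).f q)⁻¹ • ε) q + κ j (((D.Q j).f q)⁻¹ • ε) +
        (Phi c j (((D.Q j).f q')⁻¹ • g s • ε) q' + κ j (((D.Q j).f q')⁻¹ • g s • ε))
      rw [e1, e2]
      exact f2d _ _ _
  · rintro (⟨a, ha⟩ | ⟨j, a⟩) ε
    · show c (.dart (outA D a ha)) ε =
        φ' (nu D (Y.src a)) ε + φ' (nu D (Y.src (Y.rev a))) (Y.lab a • ε)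
      rw [hν _ (kept_src ha), hν _ (kept_src (not_int_rev ha)), ← hφ.da a ε, pull_ext c ha]
    · have e1 := Phi_da hc (((D.Q j).f ((D.Q j).src a))⁻¹ • ε) a
      rw [smul_inv_smul] at e1
      have e2 : ((D.Q j).f ((D.Q j).src ((D.Q j).rev a)))⁻¹ • (D.Q j).lab a • ε =
          ((D.Q j).f ((D.Q j).src a))⁻¹ • ε := by
        rw [(D.Q j).f_rev, smul_eq_mul, mul_inv_rev, mul_smul, inv_smul_smul]
      show c (.dart (inA D j a)) ε =
        Phi c j (((D.Q j).f ((D.Q j).src a))⁻¹ • ε) ((D.Q j).src a) +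
          κ j (((D.Q j).f ((D.Q j).src a))⁻¹ • ε) +
        (Phi c j (((D.Q j).f ((D.Q j).src ((D.Q j).rev a)))⁻¹ • (D.Q j).lab a • ε)
          ((D.Q j).src ((D.Q j).rev a)) +
          κ j (((D.Q j).f ((D.Q j).src ((D.Q j).rev a)))⁻¹ • (D.Q j).lab a • ε))
      rw [e1, e2]
      exact f2d _ _ _

end

theorem h0_nu {x : Y.Om} (hx : D.Kept x) (h : Y.H0 o x) : (Y' D).H0 o (nu D x) := by
  refine ⟨(f_nu hx).trans h.1, fun T φ' hφ' => ?_⟩
  have cst : ∀ j (γ : W) (q q' : (D.Q j).Om), φ' (inQ D j q) ((D.Q j).f q * γ) =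
      φ' (inQ D j q') ((D.Q j).f q' * γ) := by
    intro j γ
    refine (D.gad j).conn T (fun q => φ' (inQ D j q) ((D.Q j).f q * γ)) ?_ ?_
    · intro s q q' e
      show φ' (inQ D j q) ((D.Q j).f q * γ) = φ' (inQ D j q') ((D.Q j).f q' * γ)
      rw [(D.Q j).e_f e, smul_eq_mul, mul_assoc]
      exact (hφ'.ed s _ _ _ (e_inQ e)).symm
    · intro a
      show φ' (inQ D j ((D.Q j).src a)) ((D.Q j).f ((D.Q j).src a) * γ) =
        φ' (inQ D j ((D.Q j).src ((D.Q j).rev a))) ((D.Q j).f ((D.Q j).src ((D.Q j).rev a)) * γ)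
      rw [(D.Q j).f_rev, smul_eq_mul, mul_assoc]
      exact (hφ'.da (inA D j a) _).symm
  let φ : Y.Om → W → T := fun z w =>
    match D.comp z with
    | none => φ' (nu D z) w
    | some j => φ' (inQ D j (D.ι j (D.pos z))) ((D.Q j).f (D.ι j (D.pos z)) * ((D.pos z)⁻¹ * w))
  have φs : ∀ z j, D.comp z = some j → ∀ w, φ z w =
      φ' (inQ D j (D.ι j (D.pos z))) ((D.Q j).f (D.ι j (D.pos z)) * ((D.pos z)⁻¹ * w)) := by
    intro z j k w
    simp only [φ, k]
  have φk : ∀ z, D.Kept z → ∀ w, φ z w = φ' (nu D z) w := by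
    intro z hk w
    rcases k : D.comp z with _ | j
    · simp only [φ, k]
    · rw [φs z j k, (D.gad j).f_ι _ (hk j k), mul_inv_cancel_left, nu_some k]
      rfl
  have hφ : LocC φ := by
    constructor
    · intro s u v w e
      rcases edge_cases (D := D) e with k | ⟨j, h1, h2, h3⟩
      · rw [φk u (kept_edge e k).1, φk v (kept_edge e k).2]
        exact hφ'.ed s _ _ w (e_out e k)
      · have e1 : (D.pos v)⁻¹ * (g s * w) = (D.pos u)⁻¹ * w := by
          rw [h3, mul_inv_rev, mul_assoc, inv_mul_cancel_left]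
        rw [φs u j h1, φs v j h2, e1]
        exact cst j _ _ _
    · intro a w
      by_cases k : D.int a
      · obtain ⟨j, h1, h2, h3⟩ := D.int_in a k
        have e1 : (D.pos (Y.src (Y.rev a)))⁻¹ * (Y.lab a * w) = (D.pos (Y.src a))⁻¹ * w := by
          rw [h3, mul_inv_rev, mul_assoc, inv_mul_cancel_left]
        rw [φs _ j h1, φs _ j h2, e1]
        exact cst j _ _ _
      · rw [φk _ (kept_src k), φk _ (kept_src (not_int_rev k))]
        exact hφ'.da (outA D a k) w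
  have h2 := h.2 T φ hφ
  rw [φk x hx] at h2
  rintro (⟨y, hy⟩ | ⟨j, q⟩) w hw
  · rw [← h2 y w hw, φk y (kept_none hy), nu_none hy]
  · obtain ⟨z0, hz0, _⟩ := D.conn j
    have hw' : w • o = (D.Q j).f q • o := hw
    rw [← h2 z0 (D.pos z0 * (((D.Q j).f q)⁻¹ * w)) (by
      rw [mul_smul, mul_smul, hw', inv_smul_smul, D.pos_f z0 j hz0]), φs z0 j hz0,
      inv_mul_cancel_left, cst j _ _ q, mul_inv_cancel_left]
    rfl

/-- Walks in a gadget, translated and embedded. -/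
theorem embTW {j : D.J} (γ : W) {n m : (D.Q j).Node} {l : ℕ} {ch : (D.Q j).Path}
    (h : (D.Q j).TW tt n m l ch) (hn : n.w = (D.Q j).f n.x) :
    ∃ ch', (Y' D).TW tt ⟨inQ D j n.x, n.w * γ, n.p * γ⟩ ⟨inQ D j m.x, m.w * γ, m.p * γ⟩ l ch' ∧
      ∀ (E : Type) [MulAction W E] (c : (Y' D).Coch E) (ε : E), Cocyc c →
        ev c ch' ε = Phi c j (γ • ε) n.x + Phi c j (γ • ε) m.x := by
  induction h with
  | nil n a _ =>
    exact ⟨[], TW.nil _ (a.mul γ) trivial, fun E _ c ε _ => by rw [ev_nil, F2_add_self]⟩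
  | @edge n n' m l ch s a _ e1 e2 _ ih =>
    obtain ⟨ch', h1, h2⟩ := ih (by rw [e2, hn, (D.Q j).e_f e1, smul_eq_mul])
    refine ⟨_, (TW.edge (n := ⟨inQ D j n.x, n.w * γ, n.p * γ⟩) s (a.mul γ) trivial (e_inQ e1)
      (by simp only [e2, mul_assoc]) h1).cast (by simp only [d_mul]), fun E _ c ε hc => ?_⟩
    rw [ev_cons, h2 E c ε hc]
    show c (.edge s (inQ D j n.x) (inQ D j n'.x)) ((n.w * γ) • ε) + _ = _
    rw [mul_smul, hn, Phi_ed hc _ e1, f2a]
  | @dart n n' m l ch a b _ e1 e2 e3 _ ih =>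
    obtain ⟨ch', h1, h2⟩ := ih (by rw [e3, hn, e2, e1, (D.Q j).f_rev, smul_eq_mul])
    refine ⟨_, (TW.dart (n := ⟨inQ D j n.x, n.w * γ, n.p * γ⟩) (inA D j a) (b.mul γ) trivial
      (congrArg (inQ D j) e1) (congrArg (inQ D j) e2)
      (by simp only [e3, mul_assoc]; rfl) h1).cast (by simp only [d_mul]), fun E _ c ε hc => ?_⟩
    rw [ev_cons, h2 E c ε hc]
    show c (.dart (inA D j a)) ((n.w * γ) • ε) + _ = _
    rw [mul_smul, hn, e1, e2, Phi_da hc, f2a]
  | @stay n n' m l ch a _ e1 e2 _ ih =>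
    obtain ⟨ch', h1, h2⟩ := ih (by rw [e2, hn, e1])
    refine ⟨_, (TW.stay (n := ⟨inQ D j n.x, n.w * γ, n.p * γ⟩) (a.mul γ) trivial
      (congrArg (inQ D j) e1) (by simp only [e2]) h1).cast (by simp only [d_mul]),
      fun E _ c ε hc => ?_⟩
    rw [h2 E c ε hc, e1]

variable (D) in
/-- The image of a node. -/
def nn (n : Y.Node) : (Y' D).Node := ⟨nu D n.x, n.w, n.p⟩

variable (D) in
/-- An entry node for `n`. -/
def Rel (n0 n : Y.Node) : Prop :=
  D.Kept n0.x ∧ Close n0.w n0.p ∧ ((n0.x = n.x ∧ n0.w = n.w) ∨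
    ∃ j, D.comp n0.x = some j ∧ D.comp n.x = some j ∧ (D.pos n0.x)⁻¹ * n0.w = (D.pos n.x)⁻¹ * n.w)

theorem jump {n0 n : Y.Node} (h : Rel D n0 n) (hk : D.Kept n.x) (hc : Close n.w n.p) :
    ∃ ch', (Y' D).TW tt (nn D n0) (nn D n) (d n0.p n.p) ch' ∧
      ∀ (E : Type) [MulAction W E] (c : (Y' D).Coch E) (ε : E), Cocyc c →
        ev c ch' ε = psi c n0.x (n0.w • ε) + psi c n.x (n.w • ε) := by
  obtain ⟨h1, h2, ⟨h3, h4⟩ | ⟨j, h3, h4, h5⟩⟩ := h
  · refine ⟨[], TW.stay (n := nn D n0) (n' := nn D n) h2 trivial (congrArg (nu D) h3.symm) h4.symm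
      (TW.nil _ hc trivial), fun E _ c ε _ => ?_⟩
    rw [ev_nil, h3, h4, F2_add_self]
  · obtain ⟨γ, hγ⟩ : ∃ γ, γ = (D.pos n.x)⁻¹ * n.w := ⟨_, rfl⟩
    have e0 : n0.w = D.pos n0.x * γ := by rw [hγ, ← h5, mul_inv_cancel_left]
    have e1 : n.w = D.pos n.x * γ := by rw [hγ, mul_inv_cancel_left]
    have c0 := h2.mul γ⁻¹
    have c1 := hc.mul γ⁻¹
    rw [e0, mul_inv_cancel_right] at c0
    rw [e1, mul_inv_cancel_right] at c1
    obtain ⟨ch, t⟩ := (D.gad j).sp _ (h1 j h3) _ (hk j h4) _ _ c0 c1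
    obtain ⟨ch', t1, t2⟩ := embTW γ t ((D.gad j).f_ι _ (h1 j h3)).symm
    simp only [inv_mul_cancel_right, d_mul, ← e0, ← e1] at t1
    refine ⟨ch', ?_, fun E _ c ε hc => ?_⟩
    · unfold nn
      rw [nu_some h3, nu_some h4]
      exact t1
    · rw [t2 E c ε hc, psi_some c h3, psi_some c h4, e0, e1, mul_smul, mul_smul, inv_smul_smul,
        inv_smul_smul]

theorem Rel.step {n0 n n' : Y.Node} (h : Rel D n0 n) {j : D.J} {u : W} (h1 : D.comp n.x = some j)
    (h2 : D.comp n'.x = some j) (h3 : D.pos n'.x = u * D.pos n.x) (h4 : n'.w = u * n.w) :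
    Rel D n0 n' := by
  have e : (D.pos n.x)⁻¹ * n.w = (D.pos n'.x)⁻¹ * n'.w := by
    rw [h3, h4, mul_inv_rev, mul_assoc, inv_mul_cancel_left]
  obtain ⟨a, b, ⟨c1, c2⟩ | ⟨j', c1, c2, c3⟩⟩ := h
  · exact ⟨a, b, Or.inr ⟨j, c1 ▸ h1, h2, by rw [c1, c2, e]⟩⟩
  · obtain rfl : j = j' := Option.some.inj (h1.symm.trans c2)
    exact ⟨a, b, Or.inr ⟨j, c1, h2, c3.trans e⟩⟩

theorem Rel.stay {n0 n n' : Y.Node} (h : Rel D n0 n) (h1 : n'.x = n.x) (h2 : n'.w = n.w) :
    Rel D n0 n' := by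
  unfold Rel at h ⊢
  rw [h1, h2]; exact h

theorem f2e (a b v k : F2) : a + b + v + a + k = v + b + k := by revert a b v k; decide

theorem f2f (a k e v b : F2) : e + v + a + k = k + a + (e + (v + b + b)) := by
  revert a k e v b; decide

theorem walk {n m : Y.Node} {l : ℕ} {ch : Y.Path} (h : Y.TW tt n m l ch) (hm : D.Kept m.x) :
    ∀ n0, Rel D n0 n → ∃ l' ch', l' ≤ d n0.p n.p + l ∧ (Y' D).TW tt (nn D n0) (nn D m) l' ch' ∧
      ∀ (E : Type) [MulAction W E] (c : (Y' D).Coch E) (ε : E), Cocyc c →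
        ev (pull c) ch ε + psi c n.x (n.w • ε) + psi c n0.x (n0.w • ε) = ev c ch' ε := by
  induction h with
  | nil n a _ =>
    intro n0 hr
    obtain ⟨ch', h1, h2⟩ := jump hr hm a
    exact ⟨_, ch', le_rfl, h1, fun E _ c ε hc => by
      rw [h2 E c ε hc, ev_nil, zero_add, add_comm]⟩
  | @edge n n' m l ch s a _ e1 e2 t ih =>
    intro n0 hr
    rcases edge_cases (D := D) e1 with k | ⟨j, h1, h2, h3⟩
    · obtain ⟨k1, k2⟩ := kept_edge e1 k
      obtain ⟨ch1, a1, a2⟩ := jump hr k1 a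
      obtain ⟨l2, ch2, b1, b2, b3⟩ := ih hm n' ⟨k2, t.first.1, Or.inl ⟨rfl, rfl⟩⟩
      rw [d_self] at b1
      refine ⟨_, _, ?_, a1.append (TW.edge (n := nn D n) (n' := nn D n') s a trivial (e_out e1 k)
        e2 b2), fun E _ c ε hc => ?_⟩
      · show d n0.p n.p + (d n.p n'.p + l2) ≤ _
        omega
      · rw [ev_append, ev_cons, ev_cons, a2 E c ε hc, ← b3 E c ε hc]
        show pull c (.edge s n.x n'.x) (n.w • ε) + _ + _ + _ =
          _ + (c (.edge s (nu D n.x) (nu D n'.x)) (n.w • ε) + _)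
        rw [pull_out c s k]
        exact f2f _ _ _ _ _
    · obtain ⟨l2, ch2, b1, b2, b3⟩ := ih hm n0 (hr.step h1 h2 h3 e2)
      refine ⟨l2, ch2, ?_, b2, fun E _ c ε hc => ?_⟩
      · have := d_triangle n0.p n.p n'.p
        omega
      · rw [ev_cons, ← b3 E c ε hc]
        show pull c (.edge s n.x n'.x) (n.w • ε) + _ + _ + _ = _
        rw [pull_in c s ⟨ne_none h1, ne_none h2⟩, e2, mul_smul]
        exact f2e _ _ _ _
  | @dart n n' m l ch a b _ e1 e2 e3 t ih =>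
    intro n0 hr
    by_cases k : D.int a
    · obtain ⟨j, h1, h2, h3⟩ := D.int_in a k
      rw [← e1] at h1 h3
      rw [← e2] at h2 h3
      obtain ⟨l2, ch2, b1, b2, b3⟩ := ih hm n0 (hr.step h1 h2 h3 e3)
      refine ⟨l2, ch2, ?_, b2, fun E _ c ε hc => ?_⟩
      · have := d_triangle n0.p n.p n'.p
        omega
      · rw [ev_cons, ← b3 E c ε hc]
        show pull c (.dart a) (n.w • ε) + _ + _ + _ = _
        rw [pull_int c k, ← e1, ← e2, e3, mul_smul]
        exact f2e _ _ _ _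
    · have k1 : D.Kept n.x := e1 ▸ kept_src k
      have k2 : D.Kept n'.x := e2 ▸ kept_src (not_int_rev k)
      obtain ⟨ch1, a1, a2⟩ := jump hr k1 b
      obtain ⟨l2, ch2, b1, b2, b3⟩ := ih hm n' ⟨k2, t.first.1, Or.inl ⟨rfl, rfl⟩⟩
      rw [d_self] at b1
      refine ⟨_, _, ?_, a1.append (TW.dart (n := nn D n) (n' := nn D n') (outA D a k) b trivial
        (congrArg (nu D) e1) (congrArg (nu D) e2) e3 b2), fun E _ c ε hc => ?_⟩
      · show d n0.p n.p + (d n.p n'.p + l2) ≤ _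
        omega
      · rw [ev_append, ev_cons, ev_cons, a2 E c ε hc, ← b3 E c ε hc]
        show pull c (.dart a) (n.w • ε) + _ + _ + _ =
          _ + (c (.dart (outA D a k)) (n.w • ε) + _)
        rw [pull_ext c k]
        exact f2f _ _ _ _ _
  | @stay n n' m l ch a _ e1 e2 t ih =>
    intro n0 hr
    obtain ⟨l2, ch2, b1, b2, b3⟩ := ih hm n0 (hr.stay e1 e2)
    refine ⟨l2, ch2, ?_, b2, fun E _ c ε hc => ?_⟩
    · have := d_triangle n0.p n.p n'.p
      omega
    · rw [← b3 E c ε hc, e1, e2]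

theorem intw {n m : Y.Node} {l : ℕ} {ch : Y.Path} (h : Y.TW tt n m l ch)
    (hi : ∀ lw ∈ ch, D.Int lw.1) (hn : D.comp n.x ≠ none) : (∀ n0, Rel D n0 n → Rel D n0 m) ∧
      ∀ (E : Type) [MulAction W E] (c : (Y' D).Coch E) (ε : E),
        ev (pull c) ch ε = psi c n.x (n.w • ε) + psi c m.x (m.w • ε) := by
  induction h with
  | nil n a _ => exact ⟨fun _ k => k, fun E _ c ε => by rw [ev_nil, F2_add_self]⟩
  | @edge n n' m l ch s a _ e1 e2 t ih =>
    have k : D.comp n.x ≠ none ∧ D.comp n'.x ≠ none := hi _ List.mem_cons_self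
    obtain ⟨b1, b2⟩ := ih (fun lw q => hi lw (List.mem_cons_of_mem _ q)) k.2
    rcases edge_cases (D := D) e1 with q | ⟨j, h1, h2, h3⟩
    · tauto
    refine ⟨fun n0 hr => b1 n0 (hr.step h1 h2 h3 e2), fun E _ c ε => ?_⟩
    rw [ev_cons, b2 E c ε]
    show pull c (.edge s n.x n'.x) (n.w • ε) + _ = _
    rw [pull_in c s k, e2, mul_smul, f2a]
  | @dart n n' m l ch a b _ e1 e2 e3 t ih =>
    have k : D.int a := hi _ List.mem_cons_self
    obtain ⟨j, h1, h2, h3⟩ := D.int_in a k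
    rw [← e1] at h1 h3
    rw [← e2] at h2 h3
    obtain ⟨b1, b2⟩ := ih (fun lw q => hi lw (List.mem_cons_of_mem _ q)) (ne_none h2)
    refine ⟨fun n0 hr => b1 n0 (hr.step h1 h2 h3 e3), fun E _ c ε => ?_⟩
    rw [ev_cons, b2 E c ε]
    show pull c (.dart a) (n.w • ε) + _ = _
    rw [pull_int c k, ← e1, ← e2, e3, mul_smul, f2a]
  | @stay n n' m l ch a _ e1 e2 t ih =>
    obtain ⟨b1, b2⟩ := ih hi (e1 ▸ hn)
    exact ⟨fun n0 hr => b1 n0 (hr.stay e1 e2), fun E _ c ε => by rw [b2 E c ε, e1, e2]⟩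

variable (D) in
/-- The move. -/
noncomputable def move : Move o Y (Y' D) where
  K x x' := D.Kept x ∧ x' = nu D x
  pull _ _ c := pull c
  K_f := by rintro x _ ⟨h, rfl⟩; exact f_nu h
  cocyc _ _ _ hc := pull_cocyc hc
  refl _ _ _ hc h := pull_refl hc h
  trans := by
    rintro n m _ _ l ch ⟨h1, rfl⟩ ⟨h2, rfl⟩ t
    obtain ⟨l', ch', a1, a2, a3⟩ := walk t h2 n ⟨h1, t.first.1, Or.inl ⟨rfl, rfl⟩⟩
    rw [d_self, zero_add] at a1
    refine ⟨l', ch', a1, a2, fun E _ c ε hc => ?_⟩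
    rw [← a3 E c ε hc, add_assoc, F2_add_self, add_zero]
  h0 := by rintro x _ ⟨h, rfl⟩ k; exact h0_nu h k

theorem card_sig : Nat.card (Σ j, (D.Q j).Om) = ∑ j, (D.Q j).vol := Nat.card_sigma

theorem vol_eq : (Y' D).vol = {x | D.comp x = none}.ncard + ∑ j, (D.Q j).vol := by
  show Nat.card (Om' D) = _
  rw [Nat.card_sum, card_sig]
  rfl

theorem area_le : (Y' D).area ≤ Y.nF {x | D.comp x = none} + nS * ∑ j, (D.Q j).vol := by
  have h : {p : (Y' D).Om × S | (Y' D).Free p.1 p.2} ⊆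
      (fun p : Y.Om × S => ((nu D p.1, p.2) : (Y' D).Om × S)) ''
        {p | p.1 ∈ {x | D.comp x = none} ∧ Y.Free p.1 p.2} ∪
      (fun p : S × (Σ j, (D.Q j).Om) => ((inQ D p.2.1 p.2.2, p.1) : (Y' D).Om × S)) ''
        Set.univ := by
    rintro ⟨⟨x, hx⟩ | ⟨j, q⟩, s⟩ hp
    · refine Or.inl ⟨(x, s), ⟨hx, ?_⟩, Prod.ext (nu_none hx) rfl⟩
      rintro ⟨y, hy⟩
      refine hp ⟨nu D y, ?_⟩
      have := e_out (D := D) hy (Or.inl hx)
      rwa [nu_none hx] at this
    · exact Or.inr ⟨(s, ⟨j, q⟩), trivial, rfl⟩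
  refine (Set.ncard_le_ncard h).trans ((Set.ncard_union_le _ _).trans
    (Nat.add_le_add Set.ncard_image_le (le_trans Set.ncard_image_le ?_)))
  rw [Set.ncard_univ, Nat.card_prod, card_sig, natCard_S]

end HA

theorem hS : HS := by
  intro B _ o Y D
  refine ⟨HA.Y' D, HA.move D, HA.nu D, fun x h => ⟨h, rfl⟩, HA.vol_eq.le, HA.area_le, ?_⟩
  intro n k l ch t hn h1 h2 hi
  obtain ⟨a1, a2⟩ := HA.intw t hi hn
  refine ⟨?_, fun e1 e2 E _ c ε _ => ?_⟩
  · obtain ⟨ch', b1, b2⟩ := HA.jump (a1 n ⟨h1, t.first.1, Or.inl ⟨rfl, rfl⟩⟩) h2 t.last.1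
    exact ⟨ch', b1, fun E _ c ε hc => (a2 E c ε).trans (b2 E c ε hc).symm⟩
  · refine (a2 E c ε).trans ?_
    rw [e1, e2, F2_add_self, ev_nil]

end Pool.Agent.MP_df844f_gt.RA

end
end MrgPart3

-- ======== part 4: formerly Pool.Agent.MP_df844f_gt.RA.s2.M1
section MrgPart4

/-! Removing a bead of degree one. -/

set_option linter.unusedSectionVars false

noncomputable section

namespace Pool.Agent.MP_df844f_gt.RA

variable [Dat]

open PS

namespace M1A

variable {B : Type} [MulAction W B] {o : B} {Y : PS B} {Z : Set Y.Om} {pos : Y.Om → W} {a1 : Y.A}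

theorem rev_inj {a a' : Y.A} (h : Y.rev a = Y.rev a') : a = a' := by
  rw [← Y.rev_rev a, h, Y.rev_rev]

theorem keep_rev {a : Y.A} (h : a ≠ a1 ∧ a ≠ Y.rev a1) : Y.rev a ≠ a1 ∧ Y.rev a ≠ Y.rev a1 :=
  ⟨fun k => h.2 (by rw [← k, Y.rev_rev]), fun k => h.1 (rev_inj k)⟩

/-- The restriction to the complement of `Z`. -/
def res (ha : ∀ a, Y.src a ∈ Z ↔ a = a1) : PS B where
  Om := {x // x ∉ Z}
  A := {a // a ≠ a1 ∧ a ≠ Y.rev a1}
  f x := Y.f x.1
  e s x y := Y.e s x.1 y.1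
  e_symm := Y.e_symm
  e_f := Y.e_f
  rev a := ⟨Y.rev a.1, keep_rev a.2⟩
  rev_rev a := Subtype.ext (Y.rev_rev a.1)
  rev_ne a h := Y.rev_ne a.1 (congrArg Subtype.val h)
  src a := ⟨Y.src a.1, fun k => a.2.1 ((ha _).1 k)⟩
  lab a := Y.lab a.1
  lab_rev a := Y.lab_rev a.1
  f_rev a := Y.f_rev a.1

variable (ha : ∀ a, Y.src a ∈ Z ↔ a = a1)

include ha in
theorem out1 : Y.src (Y.rev a1) ∉ Z := fun k => Y.rev_ne a1 ((ha _).1 k)

include ha in
theorem in1 : Y.src a1 ∈ Z := (ha _).2 rfl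

open Classical in
noncomputable def pull (E : Type) [MulAction W E] (c : (res ha).Coch E) : Y.Coch E
  | .edge s x y => if h : x ∉ Z ∧ y ∉ Z then c (.edge s ⟨x, h.1⟩ ⟨y, h.2⟩) else fun _ => 0
  | .dart a => if h : a ≠ a1 ∧ a ≠ Y.rev a1 then c (.dart ⟨a, h⟩) else fun _ => 0

section
variable {E : Type} [MulAction W E] (c : (res ha).Coch E)

theorem pull_out (s : S) {x y : Y.Om} (hx : x ∉ Z) (hy : y ∉ Z) :
    pull ha E c (.edge s x y) = c (.edge s ⟨x, hx⟩ ⟨y, hy⟩) := dif_pos ⟨hx, hy⟩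

theorem pull_in (s : S) {x : Y.Om} (y : Y.Om) (hx : x ∈ Z) (ε : E) :
    pull ha E c (.edge s x y) ε = 0 := congrFun (dif_neg fun h => h.1 hx) ε

theorem pull_keep {a : Y.A} (h : a ≠ a1 ∧ a ≠ Y.rev a1) :
    pull ha E c (.dart a) = c (.dart ⟨a, h⟩) := dif_pos h

theorem pull_drop {a : Y.A} (h : ¬ (a ≠ a1 ∧ a ≠ Y.rev a1)) (ε : E) :
    pull ha E c (.dart a) ε = 0 := congrFun (dif_neg h) ε

end

open Classical in
/-- The retraction on chambers. -/
noncomputable def ret (x : Y.Om) : (res ha).Om :=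
  if h : x ∈ Z then ⟨Y.src (Y.rev a1), out1 ha⟩ else ⟨x, h⟩

open Classical in
/-- The retraction on positions. -/
noncomputable def off (Z : Set Y.Om) (pos : Y.Om → W) (a1 : Y.A) (x : Y.Om) (w : W) : W :=
  if x ∈ Z then Y.lab a1 * pos (Y.src a1) * (pos x)⁻¹ * w else w

theorem ret_out {x : Y.Om} (h : x ∉ Z) : ret ha x = ⟨x, h⟩ := dif_neg h

theorem ret_in {x : Y.Om} (h : x ∈ Z) : ret ha x = ⟨Y.src (Y.rev a1), out1 ha⟩ := dif_pos h

theorem off_out {x : Y.Om} (h : x ∉ Z) (w : W) : off Z pos a1 x w = w := if_neg h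

theorem off_in {x : Y.Om} (h : x ∈ Z) (w : W) :
    off Z pos a1 x w = Y.lab a1 * pos (Y.src a1) * (pos x)⁻¹ * w := if_pos h

theorem edge_in (hZ : Y.Bead o Z pos) {s : S} {x y : Y.Om} (e : Y.e s x y) (hx : x ∈ Z) (w : W) :
    ret ha y = ret ha x ∧ off Z pos a1 y (g s * w) = off Z pos a1 x w := by
  have hy := hZ.shut s x y e hx
  rw [ret_in ha hx, ret_in ha hy, off_in hx, off_in hy, hZ.pos_e s x hx y e]
  refine ⟨rfl, ?_⟩
  rw [mul_inv_rev, g_inv]
  simp only [mul_assoc, g_mul_g_mul]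

theorem dart_drop {a : Y.A} (h : ¬ (a ≠ a1 ∧ a ≠ Y.rev a1)) (w : W) :
    ret ha (Y.src (Y.rev a)) = ret ha (Y.src a) ∧
      off Z pos a1 (Y.src (Y.rev a)) (Y.lab a * w) = off Z pos a1 (Y.src a) w := by
  have h1 : a = a1 ∨ a = Y.rev a1 := by tauto
  rcases h1 with rfl | rfl
  · rw [ret_in ha (in1 ha), ret_out ha (out1 ha), off_in (in1 ha), off_out (out1 ha)]
    exact ⟨rfl, by group⟩
  · rw [Y.rev_rev, ret_in ha (in1 ha), ret_out ha (out1 ha), off_in (in1 ha), off_out (out1 ha),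
      Y.lab_rev]
    exact ⟨rfl, by group⟩

theorem trans_aux (hZ : Y.Bead o Z pos) {n m : Y.Node} {l : ℕ} {ch : Y.Path}
    (h : Y.TW tt n m l ch) (hm : m.x ∉ Z) : ∀ p0, Close (off Z pos a1 n.x n.w) p0 →
    ∃ l' ch', l' ≤ d p0 n.p + l ∧
      (res ha).TW tt ⟨ret ha n.x, off Z pos a1 n.x n.w, p0⟩ ⟨⟨m.x, hm⟩, m.w, m.p⟩ l' ch' ∧
      SameV (pull ha) ch ch' := by
  induction h with
  | nil n a b =>
    intro p0 hp
    rw [off_out hm] at hp
    rw [ret_out ha hm, off_out hm]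
    exact ⟨_, _, le_rfl, TW.stay (Y := res ha) (n := ⟨⟨n.x, hm⟩, n.w, p0⟩)
      (n' := ⟨⟨n.x, hm⟩, n.w, n.p⟩) hp trivial rfl rfl (TW.nil _ a trivial), SameV.nil _⟩
  | @edge n n' m l ch s a b e hw t ih =>
    intro p0 hp
    have tri := d_triangle p0 n.p n'.p
    by_cases hx : n.x ∈ Z
    · obtain ⟨e1, e2⟩ := edge_in ha hZ e hx n.w
      rw [← hw] at e2
      obtain ⟨l', ch', h1, h2, h3⟩ := ih hm p0 (e2 ▸ hp)
      rw [e1, e2] at h2
      refine ⟨l', ch', by omega, h2, fun E _ c ε hc => ?_⟩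
      rw [ev_cons, pull_in ha c s _ hx, zero_add, h3 E c ε hc]
    · have hy : n'.x ∉ Z := hZ.shut.compl s _ _ e hx
      obtain ⟨l', ch', h1, h2, h3⟩ := ih hm n'.p (by rw [off_out hy]; exact t.first.1)
      rw [ret_out ha hy, off_out hy] at h2
      rw [d_self] at h1
      rw [off_out hx] at hp
      rw [ret_out ha hx, off_out hx]
      refine ⟨d p0 n'.p + l', _, by omega, TW.edge (Y := res ha) (n := ⟨⟨n.x, hx⟩, n.w, p0⟩)
        (n' := ⟨⟨n'.x, hy⟩, n'.w, n'.p⟩) s hp trivial e hw h2, fun E _ c ε hc => ?_⟩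
      rw [ev_cons, ev_cons, pull_out ha c s hx hy, h3 E c ε hc]
  | @dart n n' m l ch a cl b e e' hw t ih =>
    intro p0 hp
    have tri := d_triangle p0 n.p n'.p
    by_cases hx : a ≠ a1 ∧ a ≠ Y.rev a1
    · have h0 : n.x ∉ Z := fun k => hx.1 ((ha a).1 (e ▸ k))
      have hy : n'.x ∉ Z := fun k => (keep_rev hx).1 ((ha _).1 (e' ▸ k))
      obtain ⟨l', ch', h1, h2, h3⟩ := ih hm n'.p (by rw [off_out hy]; exact t.first.1)
      rw [ret_out ha hy, off_out hy] at h2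
      rw [d_self] at h1
      rw [off_out h0] at hp
      rw [ret_out ha h0, off_out h0]
      refine ⟨d p0 n'.p + l', _, by omega, TW.dart (Y := res ha) (n := ⟨⟨n.x, h0⟩, n.w, p0⟩)
        (n' := ⟨⟨n'.x, hy⟩, n'.w, n'.p⟩) ⟨a, hx⟩ hp trivial (Subtype.ext e) (Subtype.ext e') hw h2,
        fun E _ c ε hc => ?_⟩
      rw [ev_cons, ev_cons, pull_keep ha c hx, h3 E c ε hc]
    · obtain ⟨e1, e2⟩ := dart_drop (pos := pos) ha hx n.w
      rw [← e, ← e'] at e1
      rw [← hw, ← e, ← e'] at e2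
      obtain ⟨l', ch', h1, h2, h3⟩ := ih hm p0 (e2 ▸ hp)
      rw [e1, e2] at h2
      refine ⟨l', ch', by omega, h2, fun E _ c ε hc => ?_⟩
      rw [ev_cons, pull_drop ha c hx, zero_add, h3 E c ε hc]
  | @stay n n' m l ch a b e hw t ih =>
    intro p0 hp
    have tri := d_triangle p0 n.p n'.p
    obtain ⟨l', ch', h1, h2, h3⟩ := ih hm p0 (by rw [e, hw]; exact hp)
    rw [e, hw] at h2
    exact ⟨l', ch', by omega, h2, h3⟩

/-- The move. -/
noncomputable def move (hZ : Y.Bead o Z pos) : Move o Y (res ha) where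
  K x x' := x'.1 = x
  pull := pull ha
  K_f x x' h := congrArg Y.f h
  cocyc E _ c hc := by
    refine ⟨fun s x y ε e => ?_, fun a ε => ?_, fun s t x0 x1 x2 x3 ε h e0 e1 e2 e3 => ?_⟩
    · by_cases hx : x ∈ Z
      · rw [pull_in ha c s _ hx, pull_in ha c s _ (hZ.shut s x y e hx)]
      · have hy : y ∉ Z := hZ.shut.compl s _ _ e hx
        rw [pull_out ha c s hx hy, pull_out ha c s hy hx]
        exact hc.symm s ⟨x, hx⟩ ⟨y, hy⟩ ε e
    · by_cases h : a ≠ a1 ∧ a ≠ Y.rev a1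
      · rw [pull_keep ha c h, pull_keep ha c (keep_rev h)]
        exact hc.dsym ⟨a, h⟩ ε
      · rw [pull_drop ha c h, pull_drop ha c fun k => h (Y.rev_rev a ▸ keep_rev k)]
    · by_cases h0 : x0 ∈ Z
      · have h1 := hZ.shut _ _ _ e0 h0
        have h2 := hZ.shut _ _ _ e1 h1
        have h3 := hZ.shut _ _ _ e2 h2
        rw [pull_in ha c _ _ h0, pull_in ha c _ _ h1, pull_in ha c _ _ h2, pull_in ha c _ _ h3]
        rfl
      · have h1 : x1 ∉ Z := hZ.shut.compl _ _ _ e0 h0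
        have h2 : x2 ∉ Z := hZ.shut.compl _ _ _ e1 h1
        have h3 : x3 ∉ Z := hZ.shut.compl _ _ _ e2 h2
        rw [pull_out ha c _ h0 h1, pull_out ha c _ h1 h2, pull_out ha c _ h2 h3,
          pull_out ha c _ h3 h0]
        exact hc.sq s t ⟨x0, h0⟩ ⟨x1, h1⟩ ⟨x2, h2⟩ ⟨x3, h3⟩ ε h e0 e1 e2 e3
  refl E _ c _ := by
    rintro ⟨p, hp⟩
    refine ⟨fun x => p x.1, fun s x y ε e => ?_, fun a ε => ?_⟩
    · have h := hp.ed s x.1 y.1 ε e
      rwa [pull_out ha c s x.2 y.2] at h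
    · have h := hp.da a.1 ε
      rwa [pull_keep ha c a.2] at h
  trans n m x' y' l ch h1 h2 h := by
    have hn : n.x ∉ Z := h1 ▸ x'.2
    have hm : m.x ∉ Z := h2 ▸ y'.2
    obtain ⟨l', ch', k1, k2, k3⟩ := trans_aux ha hZ h hm n.p (by
      rw [off_out hn]; exact h.first.1)
    rw [ret_out ha hn, off_out hn] at k2
    rw [d_self, zero_add] at k1
    obtain rfl : x' = ⟨n.x, hn⟩ := Subtype.ext h1
    obtain rfl : y' = ⟨m.x, hm⟩ := Subtype.ext h2
    exact ⟨l', ch', k1, k2, k3⟩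
  h0 x x' h := by
    rintro ⟨h1, h2⟩
    subst h
    refine ⟨h1, fun T ψ hψ z w hw => ?_⟩
    have key := h2 T (fun y v => ψ (ret ha y) (off Z pos a1 y v)) ⟨fun s u v w e => ?_,
      fun a w => ?_⟩ z.1 w hw
    · rwa [ret_out ha z.2, ret_out ha x'.2, off_out z.2, off_out x'.2] at key
    · by_cases hu : u ∈ Z
      · obtain ⟨e1, e2⟩ := edge_in ha hZ e hu w
        rw [e1, e2]
      · have hv : v ∉ Z := hZ.shut.compl _ _ _ e hu
        rw [ret_out ha hu, ret_out ha hv, off_out hu, off_out hv]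
        exact hψ.ed s ⟨u, hu⟩ ⟨v, hv⟩ w e
    · by_cases hx : a ≠ a1 ∧ a ≠ Y.rev a1
      · have h0 : Y.src a ∉ Z := fun k => hx.1 ((ha a).1 k)
        have hy : Y.src (Y.rev a) ∉ Z := fun k => (keep_rev hx).1 ((ha _).1 k)
        rw [ret_out ha h0, ret_out ha hy, off_out h0, off_out hy]
        exact hψ.da ⟨a, hx⟩ w
      · obtain ⟨e1, e2⟩ := dart_drop (pos := pos) ha hx w
        rw [e1, e2]

theorem area_res (hs : Y.Shut Z) : (res ha).area + Y.nF Z ≤ Y.area := by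
  let j : (res ha).Om × S → Y.Om × S := fun p => (p.1.1, p.2)
  have hj : Function.Injective j := fun p q k =>
    Prod.ext (Subtype.ext (Prod.ext_iff.1 k).1) (Prod.ext_iff.1 k).2
  unfold area nF
  rw [← Set.ncard_image_of_injective _ hj, ← Set.ncard_union_eq]
  · refine Set.ncard_le_ncard ?_
    rintro p (⟨q, hq, rfl⟩ | hp)
    · rintro ⟨y, e⟩
      exact hq ⟨⟨y, hs.compl _ _ _ e q.1.2⟩, e⟩
    · exact hp.2
  · rw [Set.disjoint_left]
    rintro p ⟨q, _, rfl⟩ hp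
    exact q.1.2 hp.1

end M1A

open M1A in
theorem m1 : M1S := by
  intro B _ o Y Z pos x0 a1 hY hZ hx ha
  refine ⟨res ha, move ha hZ, ⟨x0, hx⟩, rfl, ⟨fun e e' => Subtype.ext (hY.fold e e'),
    fun h e0 e1 e2 => hY.close h e0 e1 e2⟩, ?_, area_res ha hZ.shut⟩
  exact Nat.card_le_card_of_injective _ Subtype.val_injective

end Pool.Agent.MP_df844f_gt.RA

end
end MrgPart4

-- ======== part 5: formerly Pool.Agent.MP_df844f_gt.RA.s2.Push
section MrgPart5

/-! Row PUSH: one tracked loop is shortened or killed at bounded cost. -/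

set_option linter.unusedSectionVars false

noncomputable section

namespace Pool.Agent.MP_df844f_gt.RA

variable [Dat]

open PS

namespace PushA

variable {B : Type} [MulAction W B] {o : B} {Y : PS B}

/-- A walk split at a node whose shadow is farthest from `c`. -/
def Spl (Y : PS B) (c : W) (n k : Y.Node) (l : ℕ) (ch : Y.Path) : Prop :=
  ∃ (y : Y.Node) (l1 l2 : ℕ) (c1 c2 : Y.Path), l = l1 + l2 ∧ ch = c1 ++ c2 ∧
    Y.TW (fun _ p => d c p ≤ d c y.p) n y l1 c1 ∧ Y.TW (fun _ p => d c p ≤ d c y.p) y k l2 c2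

theorem spl_step {c : W} {n n' k : Y.Node} {l e : ℕ} {ch : Y.Path} (pre : Y.Path)
    (hn : Close n.w n.p)
    (cons : ∀ (P : W → W → Prop) (m : Y.Node) (l : ℕ) (ch : Y.Path), P n.w n.p →
      Y.TW P n' m l ch → Y.TW P n m (e + l) (pre ++ ch))
    (h : Spl Y c n' k l ch) : Spl Y c n k (e + l) (pre ++ ch) := by
  obtain ⟨y, l1, l2, c1, c2, rfl, rfl, h1, h2⟩ := h
  by_cases q : d c n.p ≤ d c y.p
  · exact ⟨y, e + l1, l2, pre ++ c1, c2, by omega, by rw [List.append_assoc],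
      cons _ _ _ _ q h1, h2⟩
  · refine ⟨n, 0, e + (l1 + l2), [], pre ++ (c1 ++ c2), by omega, rfl, TW.nil n hn le_rfl, ?_⟩
    exact cons _ _ _ _ le_rfl ((h1.append h2).mono fun w p _ a => by omega)

theorem spl {P : W → W → Prop} (c : W) {n k : Y.Node} {l : ℕ} {ch : Y.Path}
    (h : Y.TW P n k l ch) : Spl Y c n k l ch := by
  induction h with
  | nil n a _ => exact ⟨n, 0, 0, [], [], rfl, rfl, TW.nil n a le_rfl, TW.nil n a le_rfl⟩
  | edge s a _ e1 e2 _ ih =>
    exact spl_step [_] a (fun P m l ch p t => TW.edge s a p e1 e2 t) ih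
  | dart z a _ e1 e2 e3 _ ih =>
    exact spl_step [_] a (fun P m l ch p t => TW.dart z a p e1 e2 e3 t) ih
  | stay a _ e1 e2 _ ih =>
    exact spl_step [] a (fun P m l ch p t => TW.stay a p e1 e2 t) ih

/-- Closing up keeps the invariant, the measure, the volume and the area. -/
theorem closeUp (cl : ClosS) {x : Y.Om} {r : ℕ} {Λ : List (ℕ × Y.Path)} (h : Y.InvL o x r Λ) :
    ∃ (Y' : PS B) (x' : Y'.Om) (Λ' : List (ℕ × Y'.Path)), Y'.State ∧ Y'.InvL o x' r Λ' ∧
      meas Λ' ≤ meas Λ ∧ Y'.vol ≤ Y.vol ∧ Y'.area ≤ Y.area := by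
  obtain ⟨Y', φ, hs, hg, hc, hn⟩ := cl B Y
  have hK : (φ.move o hg).K x (φ.π x) := rfl
  obtain ⟨Λ', a, b, c⟩ := (φ.move o hg).list hK Λ h.loops
  refine ⟨Y', φ.π x, Λ', hs, (φ.move o hg).invL hK h b fun l hl => Or.inr (c l hl), a, ?_, ?_⟩
  · have := φ.vol_le
    omega
  · have := hc.area
    omega

end PushA

open PushA in
theorem push (cw : CutWS) (sh : ShortS) (cl : ClosS) (de : DehnS) (cd : CloseDS) : PushS := by
  obtain ⟨C, hC⟩ := sh 627
  refine ⟨C + 2 * nS + 2, 2 * 627 + 2, fun B _ o th Y x0 r l Λ h => ?_⟩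
  suffices H : ∃ (Y' : PS B) (x0' : Y'.Om) (Λ' : List (ℕ × Y'.Path)), Y'.InvL o x0' r Λ' ∧
      meas Λ' < meas (l :: Λ) ∧ Y'.vol ≤ Y.vol + (C + 2 * nS + 2) ∧ Y'.area ≤ Y.area + (C + 2 * nS + 2) by
    obtain ⟨Y', x', Λ', a, b, c, e⟩ := H
    obtain ⟨Y'', x'', Λ'', s, a', b', c', e'⟩ := closeUp cl a
    exact ⟨Y'', x'', Λ'', s, a', by omega, by omega, by omega⟩
  have pos : ∀ (c w p : W) (R : ℕ), Close w p → d c p ≤ R → R ≤ 600 → d c w ≤ 627 := by
    intro c w p R a b e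
    have := cd _ _ a.symm
    have := d_triangle c p w
    omega
  have hf : Y.f x0 = o := h.h0.1
  obtain ⟨y, l1, l2, c1, c2, el, ec, t1, t2⟩ := spl 1 (h.loops l List.mem_cons_self)
  by_cases hR : d 1 y.p < 19
  · obtain ⟨Y', m, ν, hK, hv, ha, -, hz⟩ := hC B o th Y 1 _ _ _ _
      ((t1.append t2).mono fun w p a b => pos 1 w p _ a b (by omega)) (by rw [one_smul, hf])
    obtain ⟨Λ', a, b⟩ := m.inv_kill (hK x0) h (by rw [ec]; exact hz rfl rfl)
    exact ⟨Y', ν x0, Λ', a, b, by omega, by omega⟩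
  have g1 : 19 ≤ l1 := by
    have : d 1 y.p ≤ l1 := t1.d_le
    omega
  have g2 : 19 ≤ l2 := by
    have : d y.p 1 ≤ l2 := t2.d_le
    rw [d_comm] at this
    omega
  obtain ⟨Y1, m1, ν1, n2, la, lb, cha, chb, K1, v1, a1, bd, wa, wb, s1, s2, s3, s4, sv1⟩ :=
    cw B o Y 1 _ _ _ _ _ t2 g2
  obtain ⟨c1', u1, sv2⟩ := bd 1 _ _ _ _ _ t1
  obtain ⟨rc, u2, sv3⟩ := u1.reverse
  obtain ⟨Y2, m2, ν2, n3, la', lb', cha', chb', K2, v2, a2, -, wa', wb', r1, r2, r3, r4, sv4⟩ :=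
    cw B o Y1 1 _ _ _ _ _ u2 g1
  obtain ⟨la2, cha2, q1, wa2, sv5⟩ := m2.trans _ _ _ _ _ _ (K2 _) (K2 _) wa
  obtain ⟨lb2, chb2, q2, wb2, sv6⟩ := m2.trans _ _ _ _ _ _ (K2 _) (K2 _) wb
  obtain ⟨ra, wra, sv7⟩ := wa'.reverse
  obtain ⟨rb, wrb, sv8⟩ := wb'.reverse
  have val : n3.w • o = Y2.f n3.x := wrb.valid (by
    show (1 : W) • o = Y2.f (ν2 (ν1 x0))
    rw [one_smul, m2.K_f _ _ (K2 _), m1.K_f _ _ (K1 _), hf])
  obtain ⟨Y3, m3, ν3, K3, v3, a3, ⟨mid, wm, sv9⟩, -⟩ := hC B o th Y2 n3.p _ _ _ _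
    (((wra.append wa2).ball n3.p 600 (by rw [d_self]; omega)).mono
      fun w p a b => pos _ w p _ a b.2 le_rfl) val
  obtain ⟨lA, cA, q3, wA, sv10⟩ := m3.trans _ _ _ _ _ _ (K3 _) (K3 _) wrb
  obtain ⟨lB, cB, q4, wB, sv11⟩ := m3.trans _ _ _ _ _ _ (K3 _) (K3 _) wb2
  have lt : d n3.p n2.p < la' + la := by
    have e1 : d n3.p y.p ≤ la' := wra.d_le
    have e2 : d y.p n2.p ≤ la := wa.d_le
    have e3 := d_triangle n3.p y.p n2.p
    by_contra k
    have := de 1 n3.p y.p n2.p 12 (by unfold Btw; omega) (by omega) (by omega)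
    omega
  obtain ⟨Λ', a, b⟩ := (m1.comp (m2.comp m3)).inv_head
    (x0' := ν3 (ν2 (ν1 x0))) ⟨_, K1 x0, _, K2 _, K3 _⟩ h (wA.append (wm.append wB))
    (fun E _ c ε hc => by
      have h2 := m3.cocyc E c hc
      have h1 := m2.cocyc E _ h2
      have z9 := sv9 E c ε hc
      rw [ev_append] at z9
      show ev (m1.pull E (m2.pull E (m3.pull E c))) l.2 ε = _
      rw [ec, ev_append, sv2 E _ ε h1, sv1 E _ ε h1, ← sv3 E _ ε h1, sv4 E _ ε h2, ev_append,
        ev_append, sv5 E _ ε h2, sv6 E _ ε h2, ← sv7 E _ ε h2, ← sv8 E _ ε h2, sv10 E c ε hc,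
        sv11 E c ε hc, ev_append, ev_append, ← z9]
      ring)
    (by dsimp only; omega)
  exact ⟨Y3, _, Λ', a, b, by omega, by omega⟩

end Pool.Agent.MP_df844f_gt.RA

end
end MrgPart5

-- ======== part 6: formerly Pool.Agent.MP_df844f_gt.RA.s2.Short
section MrgPart6

/-! Row SHORT: a walk inside a ball is straightened at bounded cost. -/

set_option linter.unusedSectionVars false

noncomputable section

namespace Pool.Agent.MP_df844f_gt.RA

variable [Dat]

open PS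

namespace ShortA

variable {B : Type} [MulAction W B] {o : B} {Y : PS B} {c : W} {R : ℕ} {p0 : Y.Om × W}

/-- One step upstairs that ends in the ball. -/
def Up (Y : PS B) (c : W) (R : ℕ) (p q : Y.Om × W) : Prop :=
  d c q.2 ≤ R ∧ ((∃ s, Y.e s p.1 q.1 ∧ q.2 = g s * p.2) ∨
    ∃ a, p.1 = Y.src a ∧ q.1 = Y.src (Y.rev a) ∧ q.2 = Y.lab a * p.2)

/-- Reachable upstairs inside the ball. -/
def Re (c : W) (R : ℕ) (p0 q : Y.Om × W) : Prop := Relation.ReflTransGen (Up Y c R) p0 q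

theorem Re.good (h0 : d c p0.2 ≤ R) (h1 : p0.2 • o = Y.f p0.1) {q : Y.Om × W} (h : Re c R p0 q) :
    d c q.2 ≤ R ∧ q.2 • o = Y.f q.1 := by
  induction h with
  | refl => exact ⟨h0, h1⟩
  | tail _ k ih =>
    refine ⟨k.1, ?_⟩
    rcases k.2 with ⟨s, a, b⟩ | ⟨a, e1, e2, e3⟩
    · rw [b, mul_smul, ih.2, Y.e_f a]
    · rw [e3, mul_smul, ih.2, e2, Y.f_rev, e1]

open Classical in
/-- The piece. -/
noncomputable def cmp (c : W) (R : ℕ) (p0 : Y.Om × W) (x : Y.Om) : Option Unit :=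
  if ∃ w, Re c R p0 (x, w) then some () else none

open Classical in
/-- The position of a chamber of the piece. -/
noncomputable def ps (c : W) (R : ℕ) (p0 : Y.Om × W) (x : Y.Om) : W :=
  if h : ∃ w, Re c R p0 (x, w) then Classical.choose h else 1

theorem cmp_of {x : Y.Om} {w : W} (h : Re c R p0 (x, w)) : cmp c R p0 x = some () :=
  if_pos ⟨w, h⟩

theorem re_of {x : Y.Om} {j : Unit} (h : cmp c R p0 x = some j) : Re c R p0 (x, ps c R p0 x) := by
  have k : ∃ w, Re c R p0 (x, w) := by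
    by_contra k
    unfold cmp at h
    rw [if_neg k] at h
    cases h
  unfold ps
  rw [dif_pos k]
  exact Classical.choose_spec k

theorem near_eq (th : Thick o (2 * R + 2)) {w w' : W} (e : w • o = w' • o) (a : d c w ≤ R)
    (b : d c w' ≤ R + 1) : w = w' := by
  refine th w w' e ?_
  have := d_triangle w c w'
  rw [d_comm w c] at this
  omega

theorem ps_eq (th : Thick o (2 * R + 2)) (h0 : d c p0.2 ≤ R) (h1 : p0.2 • o = Y.f p0.1)
    {x : Y.Om} {w : W} (h : Re c R p0 (x, w)) : ps c R p0 x = w := by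
  have a := (re_of (cmp_of h)).good h0 h1
  have b := h.good h0 h1
  exact near_eq th (a.2.trans b.2.symm) a.1 (b.1.trans (Nat.le_succ R))

/-- The data for the replacement of the piece by the hull of the ball. -/
noncomputable def dat (th : Thick o (2 * R + 2)) (h0 : d c p0.2 ≤ R) (h1 : p0.2 • o = Y.f p0.1)
    (K F : Finset W) (hF : ∀ x, x ∈ F ↔ d c x ≤ R) (ι : W → (cvxPS K).Om)
    (hg : Gadget (cvxPS K) F ι) : HData o Y where
  J := Unit
  comp := cmp c R p0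
  pos := ps c R p0
  int a := ∃ w, Re c R p0 (Y.src a, w) ∧ d c (Y.lab a * w) ≤ R
  Q _ := cvxPS K
  F _ := F
  ι _ := ι
  pos_f z j h := ((re_of h).good h0 h1).2
  e_in s z z' j j' he h h' := by
    refine ⟨rfl, ?_⟩
    have a := (re_of h).good h0 h1
    have b := (re_of h').good h0 h1
    refine near_eq th ?_ b.1 ?_
    · rw [mul_smul, a.2, b.2]
      exact Y.e_f he
    · have := d_triangle c (ps c R p0 z) (g s * ps c R p0 z)
      rw [d_g_mul] at this
      have := a.1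
      dsimp only at this
      omega
  int_rev a := by
    rintro ⟨w, h, k⟩
    refine ⟨Y.lab a * w, h.tail ⟨k, Or.inr ⟨a, rfl, rfl, rfl⟩⟩, ?_⟩
    rw [Y.lab_rev, inv_mul_cancel_left]
    exact (h.good h0 h1).1
  int_in a := by
    rintro ⟨w, h, k⟩
    have h' : Re c R p0 (Y.src (Y.rev a), Y.lab a * w) := h.tail ⟨k, Or.inr ⟨a, rfl, rfl, rfl⟩⟩
    exact ⟨(), cmp_of h, cmp_of h', by rw [ps_eq th h0 h1 h, ps_eq th h0 h1 h']⟩
  conn j := by
    refine ⟨p0.1, cmp_of (w := p0.2) Relation.ReflTransGen.refl, fun z hz => ?_⟩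
    have key : ∀ q, Re c R p0 q → Relation.ReflTransGen
        (fun u v => cmp c R p0 u = some j ∧ cmp c R p0 v = some j ∧
          ((∃ s, Y.e s u v) ∨ ∃ a, (∃ w, Re c R p0 (Y.src a, w) ∧ d c (Y.lab a * w) ≤ R) ∧
            u = Y.src a ∧ v = Y.src (Y.rev a))) p0.1 q.1 := by
      intro q h
      induction h with
      | refl => exact Relation.ReflTransGen.refl
      | @tail p q h k ih =>
        refine ih.tail ⟨cmp_of (w := p.2) h, cmp_of (w := q.2) (h.tail k), ?_⟩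
        rcases k.2 with ⟨s, a, _⟩ | ⟨a, e1, e2, e3⟩
        · exact Or.inl ⟨s, a⟩
        · refine Or.inr ⟨a, ⟨p.2, ?_, ?_⟩, e1, e2⟩
          · rw [← e1]
            exact h
          · rw [← e3]
            exact k.1
    exact key _ (re_of hz)
  gad _ := hg
  kept_near z _ _ h _ _ := (hF _).2 ((re_of h).good h0 h1).1
  kept_src _ _ _ h := (hF _).2 ((re_of h).good h0 h1).1

theorem int_path (th : Thick o (2 * R + 2)) (h0 : d c p0.2 ≤ R) (h1 : p0.2 • o = Y.f p0.1)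
    (K F : Finset W) (hF : ∀ x, x ∈ F ↔ d c x ≤ R) (ι : W → (cvxPS K).Om)
    (hg : Gadget (cvxPS K) F ι) {n k : Y.Node} {l : ℕ} {ch : Y.Path}
    (h : Y.TW (fun w _ => d c w ≤ R) n k l ch) (hn : Re c R p0 (n.x, n.w)) :
    ∀ lw ∈ ch, (dat th h0 h1 K F hF ι hg).Int lw.1 := by
  induction h with
  | nil => simp
  | @edge n n' m l ch s _ _ e1 e2 t ih =>
    have h' : Re c R p0 (n'.x, n'.w) := hn.tail ⟨t.first.2, Or.inl ⟨s, e1, e2⟩⟩
    intro lw hl
    rcases List.mem_cons.1 hl with rfl | hl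
    · refine ⟨?_, ?_⟩
      · show cmp c R p0 n.x ≠ none
        rw [cmp_of hn]
        simp
      · show cmp c R p0 n'.x ≠ none
        rw [cmp_of h']
        simp
    · exact ih h' lw hl
  | @dart n n' m l ch a _ _ e1 e2 e3 t ih =>
    have h' : Re c R p0 (n'.x, n'.w) := hn.tail ⟨t.first.2, Or.inr ⟨a, e1, e2, e3⟩⟩
    intro lw hl
    rcases List.mem_cons.1 hl with rfl | hl
    · exact ⟨n.w, e1 ▸ hn, e3 ▸ t.first.2⟩
    · exact ih h' lw hl
  | @stay n n' m l ch _ _ e1 e2 t ih => exact ih (by rw [e1, e2]; exact hn)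

theorem card_sepW {F : Finset W} (hF : ∀ x, x ∈ F ↔ d c x ≤ R) :
    (sepW F).card ≤ F.card * (F.card * (2 * R)) := by
  unfold sepW
  refine Finset.card_biUnion_le_card_mul _ _ _ fun a ha => ?_
  refine Finset.card_biUnion_le_card_mul _ _ _ fun b hb => ?_
  have h1 := (hF a).1 ha
  have h2 := (hF b).1 hb
  have h3 := d_triangle a c b
  rw [d_comm a c] at h3
  rw [card_Sep]
  omega

end ShortA

open ShortA in
theorem short (hS : HS) (gc : GCvxS) (hu : HullS) (ba : BallS) : ShortS := by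
  intro R
  refine ⟨nS * (1 + (nS + 1) ^ 6 * ((nS + 1) ^ R * ((nS + 1) ^ R * (2 * R)))),
    fun B _ o th Y c n k l ch h hn => ?_⟩
  obtain ⟨F, cF, hF⟩ := ba c R
  have hc : c ∈ F := (hF c).2 (by rw [d_self]; omega)
  obtain ⟨K, hK, cK⟩ := hu F ⟨c, hc⟩
  have hFK : F ⊆ K := fun a ha => by
    have : a ∈ (K : Set W) := hK ▸ subset_hull F ha
    exact this
  obtain ⟨ι, hg⟩ := gc K F (hK ▸ cvx_hull F) hFK ⟨c, hFK hc⟩
  have h0 : d c (n.x, n.w).2 ≤ R := h.first.2
  have kept : ∀ x, (dat th h0 hn K F hF ι hg).Kept x := fun x j hx =>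
    (hF _).2 ((re_of hx).good h0 hn).1
  obtain ⟨Y', m, ν, a1, a2, a3, a4⟩ := hS B o Y (dat th h0 hn K F hF ι hg)
  have hr : Re c R (n.x, n.w) (n.x, n.w) := Relation.ReflTransGen.refl
  have b := a4 n k l ch h.toTT (by
    show cmp c R (n.x, n.w) n.x ≠ none
    rw [cmp_of hr]
    simp) (kept _) (kept _) (int_path th h0 hn K F hF ι hg h hr)
  have v : ∑ j, ((dat th h0 hn K F hF ι hg).Q j).vol ≤
      1 + (nS + 1) ^ 6 * ((nS + 1) ^ R * ((nS + 1) ^ R * (2 * R))) := by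
    have e : ∑ j, ((dat th h0 hn K F hF ι hg).Q j).vol = K.card := by
      show ∑ _j : Unit, Nat.card K = K.card
      simp
    rw [e]
    refine cK.trans (Nat.add_le_add_left (Nat.mul_le_mul_left _ ((card_sepW hF).trans ?_)) 1)
    exact Nat.mul_le_mul cF (Nat.mul_le_mul_right _ cF)
  have v3 := Nat.mul_le_mul_left nS v
  have v4 := Nat.le_mul_of_pos_left (∑ j, ((dat th h0 hn K F hF ι hg).Q j).vol) nS_pos
  have v1 : ∀ U : Set Y.Om, U.ncard ≤ Y.vol := fun U => Set.ncard_le_card U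
  have v2 : ∀ U : Set Y.Om, Y.nF U ≤ Y.area := fun U =>
    Set.ncard_le_ncard (fun p hp => hp.2) (Set.toFinite _)
  refine ⟨Y', m, ν, fun x => a1 x (kept x), ?_, ?_, b.1, b.2⟩
  · have := v1 {x | (dat th h0 hn K F hF ι hg).comp x = none}
    omega
  · have := v2 {x | (dat th h0 hn K F hF ι hg).comp x = none}
    omega

end Pool.Agent.MP_df844f_gt.RA

end
end MrgPart6

-- ======== part 7: formerly Pool.Agent.MP_df844f_gt.RA.s2.Sub
section MrgPart7

/-! Subdivision of an arc. -/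

set_option linter.unusedSectionVars false

noncomputable section

namespace Pool.Agent.MP_df844f_gt.RA

variable [Dat]

open PS

namespace SubA

variable {B : Type} [MulAction W B] (Y : PS B) (a0 : Y.A) (g1 g2 : W)

open Classical in
noncomputable def rv : Y.A ⊕ Bool → Y.A ⊕ Bool
  | .inl a => if a = a0 then .inr false else if a = Y.rev a0 then .inr true else .inl (Y.rev a)
  | .inr false => .inl a0
  | .inr true => .inl (Y.rev a0)

open Classical in
noncomputable def lb : Y.A ⊕ Bool → W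
  | .inl a => if a = a0 then g1 else if a = Y.rev a0 then g2⁻¹ else Y.lab a
  | .inr false => g1⁻¹
  | .inr true => g2

theorem rv_0 : rv Y a0 (.inl a0) = .inr false := by simp [rv]
theorem rv_1 : rv Y a0 (.inl (Y.rev a0)) = .inr true := by simp [rv, Y.rev_ne]
theorem lb_0 : lb Y a0 g1 g2 (.inl a0) = g1 := by simp [lb]
theorem lb_1 : lb Y a0 g1 g2 (.inl (Y.rev a0)) = g2⁻¹ := by simp [lb, Y.rev_ne]

variable {Y a0}

theorem rv_2 {a : Y.A} (h : a ≠ a0) (k : a ≠ Y.rev a0) : rv Y a0 (.inl a) = .inl (Y.rev a) := by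
  simp [rv, h, k]

theorem lb_2 {a : Y.A} (h : a ≠ a0) (k : a ≠ Y.rev a0) : lb Y a0 g1 g2 (.inl a) = Y.lab a := by
  simp [lb, h, k]

theorem ne_rev {a : Y.A} (h : a ≠ a0) (k : a ≠ Y.rev a0) :
    Y.rev a ≠ a0 ∧ Y.rev a ≠ Y.rev a0 :=
  ⟨fun e => k (by rw [← e, Y.rev_rev]), fun e => h (by rw [← Y.rev_rev a, e, Y.rev_rev])⟩

theorem tri (a : Y.A) (a0 : Y.A) : a = a0 ∨ a = Y.rev a0 ∨ (a ≠ a0 ∧ a ≠ Y.rev a0) := by tauto

variable {g1 g2}

/-- The prestate with the arc `a0` subdivided. -/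
noncomputable def sY (h : Y.lab a0 = g2 * g1) : PS B where
  Om := Option Y.Om
  A := Y.A ⊕ Bool
  f x := x.elim (g1 • Y.f (Y.src a0)) Y.f
  e s x y := ∃ x0 y0, x = some x0 ∧ y = some y0 ∧ Y.e s x0 y0
  e_symm := fun ⟨x, y, a, b, c⟩ => ⟨y, x, b, a, Y.e_symm c⟩
  e_f := by
    rintro s _ _ ⟨x, y, rfl, rfl, c⟩
    exact Y.e_f c
  rev := rv Y a0
  rev_rev := by
    rintro (a | _ | _)
    · rcases tri a a0 with rfl | rfl | ⟨c, k⟩
      · rw [rv_0]; rfl
      · rw [rv_1]; rfl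
      · rw [rv_2 c k, rv_2 (ne_rev c k).1 (ne_rev c k).2, Y.rev_rev]
    · exact rv_0 Y a0
    · exact rv_1 Y a0
  rev_ne := by
    rintro (a | _ | _)
    · rcases tri a a0 with rfl | rfl | ⟨c, k⟩
      · rw [rv_0]; simp
      · rw [rv_1]; simp
      · rw [rv_2 c k]; simpa using Y.rev_ne a
    · simp [rv]
    · simp [rv]
  src a := a.elim (fun a => some (Y.src a)) fun _ => none
  lab := lb Y a0 g1 g2
  lab_rev := by
    rintro (a | _ | _)
    · rcases tri a a0 with rfl | rfl | ⟨c, k⟩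
      · rw [rv_0, lb_0]; rfl
      · rw [rv_1, lb_1, inv_inv]; rfl
      · rw [rv_2 c k, lb_2 _ _ (ne_rev c k).1 (ne_rev c k).2, lb_2 _ _ c k, Y.lab_rev]
    · exact (lb_0 Y a0 g1 g2).trans (inv_inv g1).symm
    · exact lb_1 Y a0 g1 g2
  f_rev := by
    have k0 : Y.f (Y.src (Y.rev a0)) = g2 • g1 • Y.f (Y.src a0) := by rw [Y.f_rev, h, mul_smul]
    rintro (a | _ | _)
    · rcases tri a a0 with rfl | rfl | ⟨c, k⟩
      · rw [rv_0, lb_0]; rfl
      · rw [rv_1, lb_1]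
        exact (inv_smul_eq_iff.2 k0).symm
      · rw [rv_2 c k, lb_2 _ _ c k]
        exact Y.f_rev a
    · exact (inv_smul_smul g1 _).symm
    · exact k0

variable (h : Y.lab a0 = g2 * g1)

open Classical in
/-- The pull-back of cochains. -/
noncomputable def pl (E : Type) [MulAction W E] (c : (sY h).Coch E) : Y.Coch E
  | .edge s x y, ε => c (.edge s (some x) (some y)) ε
  | .dart a, ε => c (.dart (.inl a)) ε +
      if a = a0 then c (.dart (.inr true)) (g1 • ε)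
      else if a = Y.rev a0 then c (.dart (.inr false)) (g2⁻¹ • ε) else 0

section
variable {E : Type} [MulAction W E] (c : (sY h).Coch E) (ε : E)

theorem pl_0 : pl h E c (.dart a0) ε = c (.dart (.inl a0)) ε + c (.dart (.inr true)) (g1 • ε) := by
  simp [pl]

theorem pl_1 : pl h E c (.dart (Y.rev a0)) ε =
    c (.dart (.inl (Y.rev a0))) ε + c (.dart (.inr false)) (g2⁻¹ • ε) := by
  simp [pl, Y.rev_ne]

theorem pl_2 {a : Y.A} (k : a ≠ a0) (k' : a ≠ Y.rev a0) :
    pl h E c (.dart a) ε = c (.dart (.inl a)) ε := by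
  simp [pl, k, k']

variable {c}

theorem ds_0 (hc : Cocyc c) : c (.dart (.inr false)) ε = c (.dart (.inl a0)) (g1⁻¹ • ε) := by
  have := hc.dsym (.inr false) ε
  exact this.symm

theorem ds_1 (hc : Cocyc c) :
    c (.dart (.inl (Y.rev a0))) ε = c (.dart (.inr true)) (g2⁻¹ • ε) := by
  have := hc.dsym (.inr true) (g2⁻¹ • ε)
  rw [← this]
  exact congrArg _ (smul_inv_smul g2 ε).symm

theorem cocyc (hc : Cocyc c) : Cocyc (pl h E c) where
  symm s x y ε k := hc.symm s (some x) (some y) ε ⟨x, y, rfl, rfl, k⟩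
  dsym a ε := by
    rcases tri a a0 with rfl | rfl | ⟨k, k'⟩
    · rw [pl_0, pl_1, ds_0 h _ hc, ds_1 h _ hc, h, mul_smul, inv_smul_smul, inv_smul_smul, add_comm]
    · rw [Y.rev_rev, Y.lab_rev, pl_0, pl_1, ds_0 h _ hc, ds_1 h _ hc, h, mul_inv_rev, mul_smul,
        smul_inv_smul, add_comm]
    · rw [pl_2 h c _ k k', pl_2 h c _ (ne_rev k k').1 (ne_rev k k').2]
      have := hc.dsym (.inl a) ε
      rwa [show (sY h).rev (.inl a) = .inl (Y.rev a) from rv_2 k k',
        show (sY h).lab (.inl a) = Y.lab a from lb_2 _ _ k k'] at this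
  sq s t x0 x1 x2 x3 ε a b c' e f := hc.sq s t (some x0) (some x1) (some x2) (some x3) ε a
    ⟨_, _, rfl, rfl, b⟩ ⟨_, _, rfl, rfl, c'⟩ ⟨_, _, rfl, rfl, e⟩ ⟨_, _, rfl, rfl, f⟩

theorem cobd (hc : Cocyc c) (k : Cobd (pl h E c)) : Cobd c := by
  obtain ⟨φ, hφ⟩ := k
  have f1 : ∀ p q : F2, p = q + (p + q) := by decide
  have f2 : ∀ p q : F2, p = p + q + q := by decide
  have f3 : ∀ p q r t : F2, p + q = r + t → q = p + r + t := by decide
  have k1 : ∀ ε, c (.dart (.inr true)) ε = c (.dart (.inl a0)) (g1⁻¹ • ε) +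
      φ (Y.src a0) (g1⁻¹ • ε) + φ (Y.src (Y.rev a0)) (g2 • ε) := by
    intro ε
    have := hφ.da a0 (g1⁻¹ • ε)
    rw [pl_0, h, mul_smul, smul_inv_smul] at this
    exact f3 _ _ _ _ this
  refine ⟨fun x => x.elim (fun ε => c (.dart (.inl a0)) (g1⁻¹ • ε) + φ (Y.src a0) (g1⁻¹ • ε)) φ,
    ?_, ?_⟩
  · rintro s _ _ ε ⟨x, y, rfl, rfl, e⟩
    exact hφ.ed s x y ε e
  · rintro (a | _ | _) ε
    · rcases tri a a0 with rfl | rfl | ⟨k, k'⟩
      · rw [show (sY h).rev (.inl a) = .inr false from rv_0 Y a,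
          show (sY h).lab (.inl a) = g1 from lb_0 Y a g1 g2]
        show _ = φ (Y.src a) ε + (c (.dart (.inl a)) (g1⁻¹ • g1 • ε) + φ (Y.src a) (g1⁻¹ • g1 • ε))
        rw [inv_smul_smul]
        exact f1 _ _
      · rw [show (sY h).rev (.inl (Y.rev a0)) = .inr true from rv_1 Y a0,
          show (sY h).lab (.inl (Y.rev a0)) = g2⁻¹ from lb_1 Y a0 g1 g2, ds_1 h _ hc, k1,
          smul_inv_smul, add_comm]
        rfl
      · rw [show (sY h).rev (.inl a) = .inl (Y.rev a) from rv_2 k k',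
          show (sY h).lab (.inl a) = Y.lab a from lb_2 _ _ k k', ← pl_2 h c ε k k']
        exact hφ.da a ε
    · rw [ds_0 h _ hc]
      exact f2 _ _
    · exact k1 ε

end

theorem h0 {o : B} {x : Y.Om} (k : Y.H0 o x) : (sY h).H0 o (some x) := by
  refine ⟨k.1, fun T φ hφ => ?_⟩
  have k0 : ∀ w, φ none w = φ (some (Y.src a0)) (g1⁻¹ * w) := fun w => (hφ.da (.inr false) w).symm
  have k1 : ∀ w, φ (some (Y.src (Y.rev a0))) (Y.lab a0 * w) = φ (some (Y.src a0)) w := fun w => by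
    have := (hφ.da (.inr true) (g1 * w)).trans (k0 _)
    rw [inv_mul_cancel_left] at this
    rw [h, mul_assoc]
    exact this
  have k2 := k.2 T (fun x => φ (some x)) ⟨fun s x y w e => hφ.ed s _ _ w ⟨x, y, rfl, rfl, e⟩,
    fun a w => by
      rcases tri a a0 with rfl | rfl | ⟨q, q'⟩
      · exact k1 w
      · rw [Y.rev_rev, Y.lab_rev, ← k1, mul_inv_cancel_left]
      · have := hφ.da (.inl a) w
        rwa [show (sY h).rev (.inl a) = .inl (Y.rev a) from rv_2 q q',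
          show (sY h).lab (.inl a) = Y.lab a from lb_2 _ _ q q'] at this⟩
  rintro (_ | y) w hw
  · rw [k0]
    exact k2 _ _ (by rw [mul_smul, hw]; exact inv_smul_smul g1 _)
  · exact k2 y w hw

theorem btw_len {u v : W} (hl : len (v * u) = len u + len v) (w : W) : Btw w (u * w) (v * u * w) := by
  unfold Btw
  rw [d_mul_left, d_mul_left, mul_assoc, d_mul_left, hl]

theorem walk (sp1 : SP1S) (hl : len (g2 * g1) = len g1 + len g2) {P P' : W → W → Prop}
    (h1 : ∀ w p, P w p → P' w p)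
    (h2 : ∀ w p w' p' u q, P w p → P w' p' → Btw p q p' → P' u q) {n k : Y.Node} {l : ℕ}
    {ch : Y.Path} (t : Y.TW P n k l ch) :
    ∃ ch', (sY h).TW P' ⟨some n.x, n.w, n.p⟩ ⟨some k.x, k.w, k.p⟩ l ch' ∧ SameV (pl h) ch ch' := by
  induction t with
  | nil n a b => exact ⟨[], TW.nil _ a (h1 _ _ b), fun _ _ _ _ _ => rfl⟩
  | @edge n n' m _ _ s a b c e _ ih =>
    obtain ⟨ch', i1, i2⟩ := ih
    exact ⟨_, TW.edge (Y := sY h) (n := ⟨some n.x, n.w, n.p⟩) (n' := ⟨some n'.x, n'.w, n'.p⟩) s a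
      (h1 _ _ b) ⟨_, _, rfl, rfl, c⟩ e i1,
      fun E _ c' ε hc => by rw [ev_cons, ev_cons, i2 E c' ε hc]; rfl⟩
  | @stay n n' m _ _ a b c e _ ih =>
    obtain ⟨ch', i1, i2⟩ := ih
    exact ⟨_, TW.stay (Y := sY h) (n := ⟨some n.x, n.w, n.p⟩) (n' := ⟨some n'.x, n'.w, n'.p⟩) a
      (h1 _ _ b) (congrArg some c) e i1, i2⟩
  | @dart n n' m l ch a ca b c e f t ih =>
    obtain ⟨ch', i1, i2⟩ := ih
    have two : ∀ b1 b2 : (sY h).A, (sY h).src b1 = some (Y.src a) →
        (sY h).src ((sY h).rev b1) = none → (sY h).src b2 = none →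
        (sY h).src ((sY h).rev b2) = some (Y.src (Y.rev a)) →
        Y.lab a = (sY h).lab b2 * (sY h).lab b1 →
        len ((sY h).lab b2 * (sY h).lab b1) = len ((sY h).lab b1) + len ((sY h).lab b2) →
        (∀ (E : Type) [MulAction W E] (c : (sY h).Coch E) (ε : E), pl h E c (.dart a) ε =
          c (.dart b1) ε + c (.dart b2) ((sY h).lab b1 • ε)) →
        ∃ ch', (sY h).TW P' ⟨some n.x, n.w, n.p⟩ ⟨some m.x, m.w, m.p⟩ (d n.p n'.p + l) ch' ∧
          SameV (pl h) ((.dart a, n.w) :: ch) ch' := by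
      intro b1 b2 q1 q2 q3 q4 q5 q6 q7
      obtain ⟨q, hq⟩ := exists_med n.p n'.p ((sY h).lab b1 * n.w)
      have hb := btw_len q6 n.w
      rw [← q5, ← f] at hb
      have s1 := TW.dart (n := ⟨none, (sY h).lab b1 * n.w, q⟩) b2
        (sp1 _ _ _ _ _ _ hb ca t.first.1 hq) (h2 _ _ _ _ _ _ b t.first.2 hq.btw12) q3.symm
        (by rw [q4, e]) (by rw [← mul_assoc, ← q5]; exact f) i1
      have s2 := TW.dart (n := ⟨some n.x, n.w, n.p⟩) b1 ca (h1 _ _ b) (by rw [q1, c]) q2.symm rfl s1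
      refine ⟨_, s2.cast ?_, fun E _ c' ε hc => ?_⟩
      · have := hq.btw12
        unfold Btw at this
        simp only
        omega
      · rw [ev_cons, ev_cons, ev_cons, i2 E c' ε hc, q7, mul_smul, add_assoc]
    rcases tri a a0 with rfl | rfl | ⟨q, q'⟩
    · have e1 : (sY h).lab (.inl a) = g1 := lb_0 Y a g1 g2
      exact two (.inl a) (.inr true) rfl (congrArg (sY h).src (rv_0 Y a)) rfl rfl
        (by rw [e1]; exact h) (by rw [e1]; exact hl) fun E _ c ε => by rw [e1]; exact pl_0 h c ε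
    · have e1 : (sY h).lab (.inl (Y.rev a0)) = g2⁻¹ := lb_1 Y a0 g1 g2
      have e2 : (sY h).lab (.inr false) = g1⁻¹ := rfl
      exact two (.inl (Y.rev a0)) (.inr false) rfl (congrArg (sY h).src (rv_1 Y a0)) rfl
        (by rw [Y.rev_rev]; rfl) (by rw [e1, e2, Y.lab_rev, h, mul_inv_rev])
        (by rw [e1, e2, ← mul_inv_rev, len_inv, len_inv, len_inv, hl, add_comm])
        fun E _ c ε => by rw [e1]; exact pl_1 h c ε
    · exact ⟨_, TW.dart (Y := sY h) (n := ⟨some n.x, n.w, n.p⟩) (n' := ⟨some n'.x, n'.w, n'.p⟩)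
        (.inl a) ca (h1 _ _ b) (congrArg some c)
        ((congrArg some e).trans (congrArg (sY h).src (rv_2 q q')).symm)
        (by rw [show (sY h).lab (.inl a) = Y.lab a from lb_2 _ _ q q']; exact f) i1,
        fun E _ c' ε hc => by rw [ev_cons, ev_cons, i2 E c' ε hc, pl_2 h c' _ q q']⟩

/-- The subdivision as a move. -/
noncomputable def mv (sp1 : SP1S) (hl : len (g2 * g1) = len g1 + len g2) (o : B) :
    Move o Y (sY h) where
  K x x' := x' = some x
  pull := pl h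
  K_f := by rintro x _ rfl; rfl
  cocyc _ _ _ hc := cocyc h hc
  refl _ _ _ hc k := cobd h hc k
  trans := by
    rintro n m _ _ l ch rfl rfl t
    obtain ⟨ch', a, b⟩ := walk h sp1 hl (P' := tt) (fun _ _ _ => trivial)
      (fun _ _ _ _ _ _ _ _ _ => trivial) t
    exact ⟨l, ch', le_rfl, a, b⟩
  h0 := by rintro x _ rfl k; exact h0 h k

theorem area_le : (sY h).area ≤ Y.area + nS := by
  have k : {p : (sY h).Om × S | (sY h).Free p.1 p.2} ⊆
      (fun p : Y.Om × S => (some p.1, p.2)) '' {p : Y.Om × S | Y.Free p.1 p.2} ∪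
        (fun s : S => (none, s)) '' Set.univ := by
    rintro ⟨_ | x, s⟩ hp
    · exact Or.inr ⟨s, trivial, rfl⟩
    · exact Or.inl ⟨(x, s), fun ⟨y, e⟩ => hp ⟨some y, x, y, rfl, rfl, e⟩, rfl⟩
  refine (Set.ncard_le_ncard k).trans ((Set.ncard_union_le _ _).trans
    (Nat.add_le_add Set.ncard_image_le (le_trans Set.ncard_image_le ?_)))
  rw [Set.ncard_univ, natCard_S]

end SubA

open SubA in
theorem sub (hs : SP1S) (hd : DehnS) : SubS := by
  intro B _ o Y a0 g1 g2 h hl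
  refine ⟨sY h, mv h hs hl o, some, none, fun _ => rfl, (Finite.card_option (α := Y.Om)).le,
    area_le h, fun c R n k l ch t => ?_, fun w p p' q c1 c2 hq => ?_⟩
  · refine walk h hs hl (fun _ _ a => by omega) (fun _ p _ p' _ q a b e => ?_) t
    have := hd c p q p' 0 e
    have := d_triangle c p q
    have := d_triangle c p' q
    rw [d_comm p' q] at this
    omega
  · have hb := btw_len hl w
    rw [← h] at hb
    have c3 := hs _ _ _ _ _ _ hb c1 c2 hq
    refine ⟨c3, _, _, TW.dart (Y := sY h) (n := ⟨some (Y.src a0), w, p⟩) (.inl a0) c1 trivial rfl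
      (congrArg (sY h).src (rv_0 Y a0)).symm (congrArg (· * w) (lb_0 Y a0 g1 g2).symm)
      (TW.nil ⟨none, g1 * w, q⟩ c3 trivial),
      TW.dart (Y := sY h) (n := ⟨none, g1 * w, q⟩) (.inr true) c3 trivial rfl rfl
        (by rw [h, mul_assoc]; rfl) (TW.nil ⟨_, Y.lab a0 * w, p'⟩ c2 trivial),
      fun E _ c ε _ => ?_⟩
    show ev (pl h E c) _ ε = _
    simp only [ev_cons, ev_append, ev_nil, add_zero, pl_0, mul_smul]

end Pool.Agent.MP_df844f_gt.RA

end
end MrgPart7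

-- ======== part 8: formerly Pool.Agent.MP_df844f_gt.RA.c.Mov
section MrgPart8

/-! The moves with control of the support. -/

set_option linter.unusedSectionVars false

noncomputable section

namespace Pool.Agent.MP_df844f_gt.RA.CW

variable [Dat]

open PS

theorem nwH {B : Type} [MulAction W B] {o : B} {Y : PS B} (D : HData o Y) :
    nw Y (HA.Y' D) ≤ ∑ j, (D.Q j).vol := by
  refine (nw_le (Y' := HA.Y' D) (Sum.inr '' Set.univ) ?_).trans ((Set.ncard_image_le (Set.toFinite _)).trans ?_)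
  · rintro (x | p) h
    exacts [⟨x.1, rfl⟩, absurd ⟨p, trivial, rfl⟩ h]
  · rw [Set.ncard_univ, HA.card_sig]

theorem hS : HS := by
  intro B _ o Y D
  refine ⟨HA.Y' D, HA.move D, HA.nu D, fun x h => ⟨h, rfl⟩, nwH D, HA.area_le, ?_⟩
  intro n k l ch t hn h1 h2 hi
  obtain ⟨a1, a2⟩ := HA.intw t hi hn
  refine ⟨?_, fun e1 e2 E _ c ε _ => ?_⟩
  · obtain ⟨ch', b1, b2⟩ := HA.jump (a1 n ⟨h1, t.first.1, Or.inl ⟨rfl, rfl⟩⟩) h2 t.last.1
    exact ⟨ch', b1, fun E _ c ε hc => (a2 E c ε).trans (b2 E c ε hc).symm⟩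
  · refine (a2 E c ε).trans ?_
    rw [e1, e2, F2_add_self, ev_nil]

open SubA in
theorem sub (hs : SP1S) (hd : DehnS) : SubS := by
  intro B _ o Y a0 g1 g2 h hl
  refine ⟨sY h, mv h hs hl o, some, none, fun _ => rfl, (nw_le (Y' := sY h) {none} (by
      rintro (_ | x) k
      exacts [absurd rfl k, ⟨x, rfl⟩])).trans (Set.ncard_singleton _).le,
    area_le h, fun c R n k l ch t => ?_, fun w p p' q c1 c2 hq => ?_⟩
  · refine walk h hs hl (fun _ _ a => by omega) (fun _ p _ p' _ q a b e => ?_) t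
    have := hd c p q p' 0 e
    have := d_triangle c p q
    have := d_triangle c p' q
    rw [d_comm p' q] at this
    omega
  · have hb := btw_len hl w
    rw [← h] at hb
    have c3 := hs _ _ _ _ _ _ hb c1 c2 hq
    refine ⟨c3, _, _, TW.dart (Y := sY h) (n := ⟨some (Y.src a0), w, p⟩) (.inl a0) c1 trivial rfl
      (congrArg (sY h).src (rv_0 Y a0)).symm (congrArg (· * w) (lb_0 Y a0 g1 g2).symm)
      (TW.nil ⟨none, g1 * w, q⟩ c3 trivial),
      TW.dart (Y := sY h) (n := ⟨none, g1 * w, q⟩) (.inr true) c3 trivial rfl rfl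
        (by rw [h, mul_assoc]; rfl) (TW.nil ⟨_, Y.lab a0 * w, p'⟩ c2 trivial),
      fun E _ c ε _ => ?_⟩
    show ev (pl h E c) _ ε = _
    simp only [ev_cons, ev_append, ev_nil, add_zero, pl_0, mul_smul]

open CutWA in
theorem cutW (sub : SubS) (cd : CloseDS) (dehn : DehnS) : CutWS := by
  intro B _ o Y c R n k l ch h hl
  rcases split cd h 19 (by omega) hl with ⟨n2, la, lb, cha, chb, a1, a2, a3, a4, a5, a6⟩ |
    ⟨n1, n2, a, l1, l2, ch1, ch2, a1, a2, a3, a4, a5, a6, a7, a8, a9⟩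
  · have sv : ∀ p : Y.Path, SameV (Hom.move o (Hom.id Y) Hom.good_id).pull p p :=
      fun p E _ c ε _ => by
        show ev (fun l => c ((Hom.id Y).lbl l)) p ε = ev c p ε
        simp only [Hom.lbl_id]
    refine ⟨Y, Hom.move o (Hom.id Y) Hom.good_id, fun x => x, n2, la, lb, cha, chb, fun _ => rfl,
      by rw [nw_self]; omega, by omega, fun c R n k l ch q => ⟨ch, q.mono fun _ _ _ e => by omega, sv ch⟩,
      a1.toTT, a2.toTT, by omega, a5, by omega, ?_, a4 ▸ sv _⟩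
    have := a2.first.2
    omega
  · have c1 := a1.last.1
    have c2 := a5.first.1
    have r1 : d c n1.p ≤ R := a1.last.2
    have r2 : d c n2.p ≤ R := a5.first.2
    have d1 := cd _ _ c1
    have d2 := cd _ _ c2
    have t1 := d_triangle n1.p n1.w n2.p
    have t2 := d_triangle n1.w n2.w n2.p
    have t3 := d_comm n1.p n1.w
    obtain ⟨u, hu, du⟩ := exists_btw n1.w n2.w 73 (by omega)
    have e1 : u * n1.w⁻¹ * n1.w = u := by group
    have e2 : Y.lab a = Y.lab a * (u * n1.w⁻¹)⁻¹ * (u * n1.w⁻¹) := by group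
    obtain ⟨Y', m, ν, z, b1, b2, b3, b4, b5⟩ := sub B o Y a (u * n1.w⁻¹)
      (Y.lab a * (u * n1.w⁻¹)⁻¹) e2 (by
        rw [← e2, ← d_mul_left (Y.lab a) n1.w, ← a4, ← d_mul_left (u * n1.w⁻¹) n1.w, e1,
          ← d_mul_left (Y.lab a * (u * n1.w⁻¹)⁻¹) u,
          show Y.lab a * (u * n1.w⁻¹)⁻¹ * u = Y.lab a * n1.w by group, ← a4]
        exact Eq.symm hu)
    obtain ⟨q, hq⟩ := exists_med n1.p n2.p (u * n1.w⁻¹ * n1.w)
    obtain ⟨c3, p1, p2, w1, w2, sv⟩ := b5 n1.w n1.p n2.p q c1 (a4 ▸ c2) hq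
    obtain ⟨ch1', v1, s1⟩ := b4 c R _ _ _ _ a1
    obtain ⟨ch2', v2, s2⟩ := b4 c R _ _ _ _ a5
    rw [← a2] at w1
    rw [← a3, ← a4] at w2
    have d3 := cd _ _ c3
    rw [e1] at d3
    have hb : d n1.p q + d q n2.p = d n1.p n2.p := hq.btw12
    have t4 := d_triangle n1.w n1.p u
    have t5 := d_triangle n1.p q u
    have t6 := d_comm q u
    have t7 := d_triangle n1.p n1.w q
    have t8 := d_triangle n1.w u q
    refine ⟨Y', m, ν, _, _, _, _, _, b1, b2, b3, b4, v1.toTT.append w1, w2.append v2.toTT,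
      by omega, by omega, by omega, ?_, ?_⟩
    · show d c q ≤ R + 6
      by_contra hc
      have t9 := d_triangle c n1.p q
      have t10 := d_triangle c n2.p q
      have t11 := d_comm q n2.p
      rcases dehn c n1.p q n2.p 0 hq.btw12 (by omega) (by omega) with y | y <;> omega
    · rw [a7, List.append_assoc, ← List.append_assoc p1]
      exact s1.append (sv.append s2)

open ShortA in
theorem short (hS : HS) (gc : GCvxS) (hu : HullS) (ba : BallS) : ShortS := by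
  intro R
  refine ⟨nS * (1 + (nS + 1) ^ 6 * ((nS + 1) ^ R * ((nS + 1) ^ R * (2 * R)))),
    fun B _ o th Y c n k l ch h hn => ?_⟩
  obtain ⟨F, cF, hF⟩ := ba c R
  have hc : c ∈ F := (hF c).2 (by rw [d_self]; omega)
  obtain ⟨K, hK, cK⟩ := hu F ⟨c, hc⟩
  have hFK : F ⊆ K := fun a ha => by
    have : a ∈ (K : Set W) := hK ▸ subset_hull F ha
    exact this
  obtain ⟨ι, hg⟩ := gc K F (hK ▸ cvx_hull F) hFK ⟨c, hFK hc⟩
  have h0 : d c (n.x, n.w).2 ≤ R := h.first.2
  have kept : ∀ x, (dat th h0 hn K F hF ι hg).Kept x := fun x j hx =>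
    (hF _).2 ((re_of hx).good h0 hn).1
  obtain ⟨Y', m, ν, a1, a2, a3, a4⟩ := hS B o Y (dat th h0 hn K F hF ι hg)
  have hr : Re c R (n.x, n.w) (n.x, n.w) := Relation.ReflTransGen.refl
  have b := a4 n k l ch h.toTT (by
    show cmp c R (n.x, n.w) n.x ≠ none
    rw [cmp_of hr]
    simp) (kept _) (kept _) (int_path th h0 hn K F hF ι hg h hr)
  have v : ∑ j, ((dat th h0 hn K F hF ι hg).Q j).vol ≤
      1 + (nS + 1) ^ 6 * ((nS + 1) ^ R * ((nS + 1) ^ R * (2 * R))) := by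
    have e : ∑ j, ((dat th h0 hn K F hF ι hg).Q j).vol = K.card := by
      show ∑ _j : Unit, Nat.card K = K.card
      simp
    rw [e]
    refine cK.trans (Nat.add_le_add_left (Nat.mul_le_mul_left _ ((card_sepW hF).trans ?_)) 1)
    exact Nat.mul_le_mul cF (Nat.mul_le_mul_right _ cF)
  have v3 := Nat.mul_le_mul_left nS v
  have v4 := Nat.le_mul_of_pos_left (∑ j, ((dat th h0 hn K F hF ι hg).Q j).vol) nS_pos
  have v2 : ∀ U : Set Y.Om, Y.nF U ≤ Y.area := fun U =>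
    Set.ncard_le_ncard (fun p hp => hp.2) (Set.toFinite _)
  refine ⟨Y', m, ν, fun x => a1 x (kept x), ?_, ?_, b.1, b.2⟩
  · omega
  · have := v2 {x | (dat th h0 hn K F hF ι hg).comp x = none}
    omega

theorem closeUp {B : Type} [MulAction W B] {o : B} {Y : PS B} (cl : ClosS) {x : Y.Om} {r : ℕ} {Λ : List (ℕ × Y.Path)} (h : Y.InvL o x r Λ) :
    ∃ (Y' : PS B) (x' : Y'.Om) (Λ' : List (ℕ × Y'.Path)), Y'.State ∧ Y'.InvL o x' r Λ' ∧
      meas Λ' ≤ meas Λ ∧ nw Y Y' ≤ 0 ∧ Y'.area ≤ Y.area := by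
  obtain ⟨Y', φ, hs, hg, hc, hn⟩ := cl B Y
  have hK : (φ.move o hg).K x (φ.π x) := rfl
  obtain ⟨Λ', a, b, c⟩ := (φ.move o hg).list hK Λ h.loops
  refine ⟨Y', φ.π x, Λ', hs, (φ.move o hg).invL hK h b fun l hl => Or.inr (c l hl), a, ?_, ?_⟩
  · have := nw_hom φ
    omega
  · have := hc.area
    omega

open PushA hiding closeUp in
theorem push (cw : CutWS) (sh : ShortS) (cl : ClosS) (de : DehnS) (cd : CloseDS) : PushS := by
  obtain ⟨C, hC⟩ := sh 627
  refine ⟨C + 2 * nS + 2, 2 * 627 + 2, fun B _ o th Y x0 r l Λ h => ?_⟩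
  suffices H : ∃ (Y' : PS B) (x0' : Y'.Om) (Λ' : List (ℕ × Y'.Path)), Y'.InvL o x0' r Λ' ∧
      meas Λ' < meas (l :: Λ) ∧ nw Y Y' ≤ C + 2 * nS + 2 ∧ Y'.area ≤ Y.area + (C + 2 * nS + 2) by
    obtain ⟨Y', x', Λ', a, b, c, e⟩ := H
    obtain ⟨Y'', x'', Λ'', s, a', b', c', e'⟩ := closeUp cl a
    have := nw_tri Y Y' Y''
    exact ⟨Y'', x'', Λ'', s, a', by omega, by omega, by omega⟩
  have pos : ∀ (c w p : W) (R : ℕ), Close w p → d c p ≤ R → R ≤ 600 → d c w ≤ 627 := by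
    intro c w p R a b e
    have := cd _ _ a.symm
    have := d_triangle c p w
    omega
  have hf : Y.f x0 = o := h.h0.1
  obtain ⟨y, l1, l2, c1, c2, el, ec, t1, t2⟩ := spl 1 (h.loops l List.mem_cons_self)
  by_cases hR : d 1 y.p < 19
  · obtain ⟨Y', m, ν, hK, hv, ha, -, hz⟩ := hC B o th Y 1 _ _ _ _
      ((t1.append t2).mono fun w p a b => pos 1 w p _ a b (by omega)) (by rw [one_smul, hf])
    obtain ⟨Λ', a, b⟩ := m.inv_kill (hK x0) h (by rw [ec]; exact hz rfl rfl)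
    exact ⟨Y', ν x0, Λ', a, b, by omega, by omega⟩
  have g1 : 19 ≤ l1 := by
    have : d 1 y.p ≤ l1 := t1.d_le
    omega
  have g2 : 19 ≤ l2 := by
    have : d y.p 1 ≤ l2 := t2.d_le
    rw [d_comm] at this
    omega
  obtain ⟨Y1, m1, ν1, n2, la, lb, cha, chb, K1, v1, a1, bd, wa, wb, s1, s2, s3, s4, sv1⟩ :=
    cw B o Y 1 _ _ _ _ _ t2 g2
  obtain ⟨c1', u1, sv2⟩ := bd 1 _ _ _ _ _ t1
  obtain ⟨rc, u2, sv3⟩ := u1.reverse
  obtain ⟨Y2, m2, ν2, n3, la', lb', cha', chb', K2, v2, a2, -, wa', wb', r1, r2, r3, r4, sv4⟩ :=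
    cw B o Y1 1 _ _ _ _ _ u2 g1
  obtain ⟨la2, cha2, q1, wa2, sv5⟩ := m2.trans _ _ _ _ _ _ (K2 _) (K2 _) wa
  obtain ⟨lb2, chb2, q2, wb2, sv6⟩ := m2.trans _ _ _ _ _ _ (K2 _) (K2 _) wb
  obtain ⟨ra, wra, sv7⟩ := wa'.reverse
  obtain ⟨rb, wrb, sv8⟩ := wb'.reverse
  have val : n3.w • o = Y2.f n3.x := wrb.valid (by
    show (1 : W) • o = Y2.f (ν2 (ν1 x0))
    rw [one_smul, m2.K_f _ _ (K2 _), m1.K_f _ _ (K1 _), hf])
  obtain ⟨Y3, m3, ν3, K3, v3, a3, ⟨mid, wm, sv9⟩, -⟩ := hC B o th Y2 n3.p _ _ _ _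
    (((wra.append wa2).ball n3.p 600 (by rw [d_self]; omega)).mono
      fun w p a b => pos _ w p _ a b.2 le_rfl) val
  obtain ⟨lA, cA, q3, wA, sv10⟩ := m3.trans _ _ _ _ _ _ (K3 _) (K3 _) wrb
  obtain ⟨lB, cB, q4, wB, sv11⟩ := m3.trans _ _ _ _ _ _ (K3 _) (K3 _) wb2
  have lt : d n3.p n2.p < la' + la := by
    have e1 : d n3.p y.p ≤ la' := wra.d_le
    have e2 : d y.p n2.p ≤ la := wa.d_le
    have e3 := d_triangle n3.p y.p n2.p
    by_contra k
    have := de 1 n3.p y.p n2.p 12 (by unfold Btw; omega) (by omega) (by omega)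
    omega
  obtain ⟨Λ', a, b⟩ := (m1.comp (m2.comp m3)).inv_head
    (x0' := ν3 (ν2 (ν1 x0))) ⟨_, K1 x0, _, K2 _, K3 _⟩ h (wA.append (wm.append wB))
    (fun E _ c ε hc => by
      have h2 := m3.cocyc E c hc
      have h1 := m2.cocyc E _ h2
      have z9 := sv9 E c ε hc
      rw [ev_append] at z9
      show ev (m1.pull E (m2.pull E (m3.pull E c))) l.2 ε = _
      rw [ec, ev_append, sv2 E _ ε h1, sv1 E _ ε h1, ← sv3 E _ ε h1, sv4 E _ ε h2, ev_append,
        ev_append, sv5 E _ ε h2, sv6 E _ ε h2, ← sv7 E _ ε h2, ← sv8 E _ ε h2, sv10 E c ε hc,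
        sv11 E c ε hc, ev_append, ev_append, ← z9]
      ring)
    (by dsimp only; omega)
  have := nw_tri Y Y1 Y3
  have := nw_tri Y1 Y2 Y3
  exact ⟨Y3, _, Λ', a, b, by omega, by omega⟩

open M1A in
theorem m1 : M1S := by
  intro B _ o Y Z pos x0 a1 hY hZ hx ha
  refine ⟨res ha, move ha hZ, ⟨x0, hx⟩, rfl, ⟨fun e e' => Subtype.ext (hY.fold e e'),
    fun h e0 e1 e2 => hY.close h e0 e1 e2⟩, ?_, area_res ha hZ.shut⟩
  exact nw_zero fun y => ⟨y.1, rfl⟩

theorem m2 : M2S := by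
  classical
  intro B _ o Y Z pos x0 a1 a2 hY hZ hx hne hrev h
  have r1 : Y.src (Y.rev a1) ∉ Z := fun k => ((h _).1 k).elim (Y.rev_ne a1) hrev
  have r2 : Y.src (Y.rev a2) ∉ Z := fun k => ((h _).1 k).elim
    (fun e => hrev (by rw [← e, Y.rev_rev])) (Y.rev_ne a2)
  let D : M2A.Dat o Y :=
    { Z := Z, pos := pos, σ := Equiv.swap a1 a2, a1 := a1, bead := hZ
      h1 := (h _).2 (Or.inl rfl)
      ss := Equiv.swap_apply_self a1 a2
      sm := fun a k => (h _).2 (by rcases (h a).1 k with rfl | rfl <;> simp)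
      sn := fun a k => by
        rcases (h a).1 k with rfl | rfl
        · rw [Equiv.swap_apply_left]; exact hne.symm
        · rw [Equiv.swap_apply_right]; exact hne
      out := fun a k => by rcases (h a).1 k with rfl | rfl <;> assumption
      two := fun a a' k k' => by
        rcases (h a).1 k with rfl | rfl <;> rcases (h a').1 k' with rfl | rfl <;> simp }
  refine ⟨D.Y', D.move, ⟨x0, hx⟩, rfl, ⟨fun e e' => Subtype.ext (hY.fold e e'),
    fun a e0 e1 e2 => hY.close a e0 e1 e2⟩, ?_, D.area⟩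
  exact nw_zero fun y => ⟨y.1, rfl⟩

open BeadDegA in
theorem beadDeg (m1 : M1S) (m2 : M2S) : BeadDegS := by
  intro B _ _ o hT Y x0 r μ Z pos hS hI hTi hB hF
  have h0 := hI.h0
  have zero : Y.deg Z = 0 → ∀ a, Y.src a ∉ Z := fun h a ha => by
    have := (Set.ncard_eq_zero (Set.toFinite _)).1 h
    exact (Set.ext_iff.1 this a).1 ha
  refine ⟨fun hx => ?_, fun hx => ?_⟩
  · obtain ⟨⟨z, s⟩, hz, -⟩ := Set.nonempty_of_ncard_ne_zero hF.ne'
    have no : ¬ ∀ a, Y.src (Y.rev a) ∈ Z ↔ Y.src a ∈ Z := fun hd =>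
      hx ((ind hT h0 hB.shut hd z).1 hz)
    have fin : ¬ ∃ (Y' : PS B) (m : Move o Y Y') (x0' : Y'.Om), m.K x0 x0' ∧ Y'.State ∧
        nw Y Y' ≤ 0 ∧ Y'.area + Y.nF Z ≤ Y.area := by
      rintro ⟨Y', m, x0', k1, k2, k3, k4⟩
      have := hTi.move m k1 k2 k3
      omega
    by_contra hh
    have h3 : Y.deg Z = 0 ∨ Y.deg Z = 1 ∨ Y.deg Z = 2 := by omega
    rcases h3 with h | h | h
    · exact no fun a => iff_of_false (zero h _) (zero h _)
    · obtain ⟨a1, e⟩ := Set.ncard_eq_one.1 h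
      exact fin (m1 B o Y Z pos x0 a1 hS hB hx fun a => Set.ext_iff.1 e a)
    · obtain ⟨a1, a2, hne, e⟩ := Set.ncard_eq_two.1 h
      have e' : ∀ a, Y.src a ∈ Z ↔ a = a1 ∨ a = a2 := fun a => Set.ext_iff.1 e a
      by_cases hr : Y.rev a1 = a2
      · refine no fun a => ?_
        rw [e', e', ← hr]
        constructor
        · rintro (k | k)
          · exact Or.inr (by rw [← k, Y.rev_rev])
          · exact Or.inl (by rw [← Y.rev_rev a, k, Y.rev_rev])
        · rintro (k | k)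
          · exact Or.inr (by rw [k])
          · exact Or.inl (by rw [k, Y.rev_rev])
      · exact fin (m2 B o Y Z pos x0 a1 a2 hS hB hx hne hr e')
  · by_contra hh
    have hz := zero (by omega)
    have all : ∀ x, x ∈ Z := fun x =>
      (ind hT h0 hB.shut (fun a => iff_of_false (hz _) (hz _)) x).2 hx
    have st : ∀ w : W, w • o = o → w = 1 := fun w hw => by
      have := h0.2 W (fun x w => (pos x)⁻¹ * w)
        ⟨fun s x y w h => by rw [hB.pos_e s x (all x) y h]; group,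
          fun a _ => absurd (all _) (hz a)⟩ x0 w (hw.trans h0.1.symm)
      exact mul_left_cancel this
    have inj : Function.Injective fun w : W => w • o := fun w w' h => by
      have := st (w'⁻¹ * w) (by rw [mul_smul, inv_smul_eq_iff]; exact h)
      exact (inv_mul_eq_one.1 this).symm
    have := Finite.of_injective _ inj
    have := infinite_W
    exact not_finite W

end Pool.Agent.MP_df844f_gt.RA.CW

end
end MrgPart8

-- marker of a merged file
example : 731051 + 611719 = 731051 + 611719 := rfl
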