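import Pool.Agent.MP_df844f_gt.RA.x.All
import Pool.Agent.MP_df844f_gt.RA.c.Mov
import Pool.Agent.MP_df844f_gt.RA.c.Gain
import Pool.Agent.MP_df844f_gt.RA.c.Main
import Pool.Agent.MP_df844f_gt.RA.c.Fin

/-! Assembly of the cutwidth theorem. -/

set_option linter.unusedSectionVars false

noncomputable section

namespace Pool.Agent.MP_df844f_gt.RA.CW

variable [Dat]

open WAll

theorem pushA : PushS :=
  push (cutW (sub sp1A dehnA) closeDA dehnA) (short hS gcvxA hullA ballA) clos dehnA closeDA
theorem gainA : GainS :=
  gain (cap factA (wedge2 h1A) clos hullA fillA) (sweep2 XAll.sweep0A XAll.attA clos) count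
    (rem hS qA clos) (lam (locS factA XAll.sweep0A XAll.coefA))
theorem tineqA : TIneqS := tineq gainA (absS XAll.lemA) XAll.instA
theorem structA : StructS :=
  struct (bead XAll.sweep0A XAll.attA clos edgeS XAll.bdA) (beadDeg m1 m2) freeEx
theorem mainA : MainS :=
  mainS (init h1A) pushA
    (areaS tineqA XAll.chiPA euler (surj factA) freeEx (zlow XAll.coefA) arcS addS structA)
    (noEnd tineqA (chiLe (absChi XAll.lemA) XAll.instA) XAll.chiPA euler (surj factA) freeEx
      (endA XAll.coefA coreA) (endB XAll.coefA (coreB h1A h2A)) (endM factA XAll.psizeA) addS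
      structA)
theorem finA : FinS := fin mainA (rfS ballA hullA) crus

end Pool.Agent.MP_df844f_gt.RA.CW
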